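import Mathlib

/-!
# Row CI: continuous functions which are locally midpoint convex

Let `ψ t = φ t - ((1 - t) * φ 0 + t * φ 1)`, suppose that its maximum `m` on `[0, 1]` is positive and
let `t₀` be the largest point with `ψ t₀ = m` (the set is closed). Then `0 < t₀ < 1`, and for small
`ε`: `ψ (t₀ + ε) < m`, `ψ (t₀ - ε) ≤ m`, which contradicts the hypothesis.
-/

set_option autoImplicit false

open Set Filter Topology

namespace Pool.Agent.CCC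

theorem le_of_midConvex {φ : ℝ → ℝ} (hc : ContinuousOn φ (Icc 0 1))
    (h : ∀ t ∈ Ioo (0 : ℝ) 1, ∃ ε₀ > 0, ∀ ε, 0 < ε → ε < ε₀ → 2 * φ t ≤ φ (t - ε) + φ (t + ε)) :
    ∀ t ∈ Icc (0 : ℝ) 1, φ t ≤ (1 - t) * φ 0 + t * φ 1 := by
  by_contra hcon
  push Not at hcon
  obtain ⟨t₁, ht₁, hlt⟩ := hcon
  set ψ : ℝ → ℝ := fun t => φ t - ((1 - t) * φ 0 + t * φ 1) with hψ
  have hψc : ContinuousOn ψ (Icc 0 1) := by
    refine hc.sub ?_
    fun_prop
  obtain ⟨t₂, ht₂, hmax⟩ := isCompact_Icc.exists_isMaxOn ⟨t₁, ht₁⟩ hψc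
  have hmax' : ∀ t ∈ Icc (0 : ℝ) 1, ψ t ≤ ψ t₂ := fun t ht => hmax ht
  have hpos : 0 < ψ t₂ := by
    have h1 : 0 < ψ t₁ := by rw [hψ]; simp only; linarith
    exact h1.trans_le (hmax' t₁ ht₁)
  have hSc : IsCompact (Icc (0 : ℝ) 1 ∩ ψ ⁻¹' {ψ t₂}) :=
    isCompact_Icc.of_isClosed_subset (hψc.preimage_isClosed_of_isClosed isClosed_Icc isClosed_singleton)
      inter_subset_left
  obtain ⟨t₀, ht₀, hgr⟩ := hSc.exists_isGreatest ⟨t₂, ht₂, rfl⟩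
  have ht₀e : ψ t₀ = ψ t₂ := ht₀.2
  have h0 : ψ 0 = 0 := by rw [hψ]; simp only; ring
  have h1 : ψ 1 = 0 := by rw [hψ]; simp only; ring
  have hlo : 0 < t₀ := by
    rcases ht₀.1.1.eq_or_lt with he | hl
    · rw [← he, h0] at ht₀e
      linarith
    · exact hl
  have hhi : t₀ < 1 := by
    rcases ht₀.1.2.eq_or_lt with he | hl
    · rw [he, h1] at ht₀e
      linarith
    · exact hl
  obtain ⟨ε₀, hε₀, hmid⟩ := h t₀ ⟨hlo, hhi⟩
  obtain ⟨ε, hε, hεlt⟩ : ∃ ε, 0 < ε ∧ ε < min ε₀ (min t₀ (1 - t₀)) :=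
    exists_between (lt_min hε₀ (lt_min hlo (by linarith)))
  have e1 : ε < ε₀ := hεlt.trans_le (min_le_left _ _)
  have e2 : ε < t₀ := hεlt.trans_le ((min_le_right _ _).trans (min_le_left _ _))
  have e3 : ε < 1 - t₀ := hεlt.trans_le ((min_le_right _ _).trans (min_le_right _ _))
  have hm := hmid ε hε e1
  have hl : ψ (t₀ - ε) ≤ ψ t₂ := hmax' _ ⟨by linarith, by linarith⟩
  have hr : ψ (t₀ + ε) < ψ t₂ := by
    refine lt_of_le_of_ne (hmax' _ ⟨by linarith, by linarith⟩) fun he => ?_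
    have := hgr ⟨⟨by linarith, by linarith⟩, he⟩
    linarith
  have hkey : 2 * ψ t₀ ≤ ψ (t₀ - ε) + ψ (t₀ + ε) := by
    rw [hψ]
    simp only
    nlinarith [hm]
  rw [ht₀e] at hkey
  linarith

end Pool.Agent.CCC
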