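import Pool.Agent.Lib.MP_98022b_cc.Metric2

/-!
# Row CD: the complex is complete

Let `x n` be a Cauchy sequence; `val` converges uniformly (`abs_sub_le_dist`) to a function `y` with
values in `[0, 1]`, `y (op a) = 1 - y a`. If `a < b`, `y a ≠ 0` and `y b ≠ 1` then for large `n`
`x n a ≠ 0` and `x n b ≠ 1`. If `dist (x n) (x m) < 1 / 2` for `n, m ≥ n₀` then for all `n ≥ n₀` the
values `x n a` and `x m a`.. : the set `{a | y a ≠ ind o a}` is contained in the union of the finite set
`{a | x n₀ a ≠ ind o a}` and the set of the `a` with `x n₀ a = ind o a`, `y a ≠ ind o a`; for `a` of the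
second kind take `n` large: `x n a ≠ ind o a`. Suppose there are infinitely many such `a` (so
infinitely many with `x n₀ a = 0 < y a`, by `op`); a finite set `s` of them satisfies `x n₀ a < x n a`
for all `a ∈ s` and a large `n`, so `s.card ≤ d * (1 / 2 + 2)` by `ncard_lt_le`. Contradiction.
-/

set_option autoImplicit false

open Set

namespace Pool.Agent.CCC

open Pocset

variable {H : Type} [Pocset H] {o : Set H}

omit [Pocset H] in
/-- a set all of whose finite subsets are small is finite -/
private theorem cd_finite {B : Set H} {K : ℕ} (h : ∀ s : Finset H, (s : Set H) ⊆ B → s.card ≤ K) :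
    B.Finite := by
  by_contra hB
  obtain ⟨s, hs, hc⟩ := (show B.Infinite from hB).exists_subset_card_eq (K + 1)
  have := h s hs
  omega

theorem completeSpace_pt {d : ℕ} (hw : Width H d) : CompleteSpace (Pt o) := by
  classical
  apply Metric.complete_of_cauchySeq_tendsto
  intro x hx
  have hxa : ∀ a : H, CauchySeq fun n => (x n) a := by
    intro a
    rw [Metric.cauchySeq_iff] at hx ⊢
    intro ε hε
    obtain ⟨N, hN⟩ := hx ε hε
    refine ⟨N, fun m hm n hn => ?_⟩
    rw [Real.dist_eq]
    exact lt_of_le_of_lt (abs_sub_le_dist (x m) (x n) a) (hN m hm n hn)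
  choose y hy using fun a => cauchySeq_tendsto_of_complete (hxa a)
  -- uniform convergence
  have hunif : ∀ ε : ℝ, 0 < ε → ∃ N, ∀ n, N ≤ n → ∀ a, |(x n) a - y a| ≤ ε := by
    intro ε hε
    rw [Metric.cauchySeq_iff] at hx
    obtain ⟨N, hN⟩ := hx ε hε
    refine ⟨N, fun n hn a => ?_⟩
    have h1 : Filter.Tendsto (fun m => |(x n) a - (x m) a|) Filter.atTop
        (nhds |(x n) a - y a|) := (tendsto_const_nhds.sub (hy a)).abs
    apply le_of_tendsto h1
    filter_upwards [Filter.eventually_ge_atTop N] with m hm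
    exact (abs_sub_le_dist (x n) (x m) a).trans (hN n hn m hm).le
  obtain ⟨n₀, hn₀⟩ : ∃ n₀, ∀ n, n₀ ≤ n → dist (x n) (x n₀) ≤ 1 := by
    rw [Metric.cauchySeq_iff] at hx
    obtain ⟨N, hN⟩ := hx 1 one_pos
    exact ⟨N, fun n hn => (hN n hn N le_rfl).le⟩
  have hcard : ∀ z w : Pt o, dist z w ≤ 1 → ({a | z a < w a} : Set H).ncard ≤ 3 * d := by
    intro z w hzw
    have h1 := ncard_lt_le hw z w
    have h2 : (d : ℝ) * (dist z w + 2) ≤ 3 * d := by
      have hd : (0 : ℝ) ≤ d := Nat.cast_nonneg d
      nlinarith
    have h3 := h1.trans h2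
    exact_mod_cast h3
  have hB1 : ({a | (x n₀) a < y a} : Set H).Finite := by
    apply cd_finite (K := 3 * d)
    intro s hs
    have h1 : ∀ᶠ n in Filter.atTop, ∀ a ∈ s, (x n₀) a < (x n) a := by
      rw [Filter.eventually_all_finset]
      intro a ha
      exact (hy a).eventually (lt_mem_nhds (hs ha))
    obtain ⟨n, h2, h3⟩ := (h1.and (Filter.eventually_ge_atTop n₀)).exists
    have h4 : dist (x n₀) (x n) ≤ 1 := by
      rw [dist_comm]
      exact hn₀ n h3
    have h5 : (s : Set H) ⊆ {a | (x n₀) a < (x n) a} := fun a ha => h2 a ha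
    have h6 : ({a | (x n₀) a < (x n) a} : Set H).Finite :=
      (Pt.finite_ne (x n₀) (x n)).subset fun a ha => ne_of_lt ha
    have h7 := Set.ncard_le_ncard h5 h6
    rw [Set.ncard_coe_finset] at h7
    exact h7.trans (hcard _ _ h4)
  have hB2 : ({a | y a < (x n₀) a} : Set H).Finite := by
    apply cd_finite (K := 3 * d)
    intro s hs
    have h1 : ∀ᶠ n in Filter.atTop, ∀ a ∈ s, (x n) a < (x n₀) a := by
      rw [Filter.eventually_all_finset]
      intro a ha
      exact (hy a).eventually (gt_mem_nhds (hs ha))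
    obtain ⟨n, h2, h3⟩ := (h1.and (Filter.eventually_ge_atTop n₀)).exists
    have h5 : (s : Set H) ⊆ {a | (x n) a < (x n₀) a} := fun a ha => h2 a ha
    have h6 : ({a | (x n) a < (x n₀) a} : Set H).Finite :=
      (Pt.finite_ne (x n) (x n₀)).subset fun a ha => ne_of_lt ha
    have h7 := Set.ncard_le_ncard h5 h6
    rw [Set.ncard_coe_finset] at h7
    exact h7.trans (hcard _ _ (hn₀ n h3))
  let z : Pt o :=
    { val := y
      nonneg := fun a => ge_of_tendsto' (hy a) fun n => (x n).nonneg a
      op_val := fun a => by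
        have h1 : Filter.Tendsto (fun n => 1 - (x n) a) Filter.atTop (nhds (1 - y a)) :=
          tendsto_const_nhds.sub (hy a)
        have h2 : (fun n => (x n) (op a)) = fun n => 1 - (x n) a :=
          funext fun n => (x n).op_val a
        have h3 := hy (op a)
        rw [h2] at h3
        exact tendsto_nhds_unique h3 h1
      nested := fun a b hab => by
        by_contra hno
        rw [not_or] at hno
        obtain ⟨h1, h2⟩ := hno
        have h3 : ∀ᶠ n in Filter.atTop, (x n) a ≠ 0 := (hy a).eventually_ne h1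
        have h4 : ∀ᶠ n in Filter.atTop, (x n) b ≠ 1 := (hy b).eventually_ne h2
        obtain ⟨n, h5, h6⟩ := (h3.and h4).exists
        exact ((x n).nested a b hab).elim h5 h6
      fin := by
        apply (((x n₀).fin.union hB1).union hB2).subset
        intro a ha
        by_cases h1 : (x n₀) a ≠ ind o a
        · exact Or.inl (Or.inl h1)
        · push Not at h1
          have ha' : y a ≠ ind o a := ha
          rcases lt_trichotomy ((x n₀) a) (y a) with h | h | h
          · exact Or.inl (Or.inr h)
          · exact absurd (h.symm.trans h1) ha'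
          · exact Or.inr h }
  refine ⟨z, ?_⟩
  rw [Metric.tendsto_atTop]
  intro ε hε
  obtain ⟨N, hN⟩ := hunif (min (ε / 4) (1 / 2)) (lt_min (by linarith) (by norm_num))
  refine ⟨N, fun n hn => ?_⟩
  have h1 : dist (x n) z ≤ 2 * min (ε / 4) (1 / 2) :=
    dist_le_of_sup (x n) z (le_min (by linarith) (by norm_num))
      (lt_of_le_of_lt (min_le_right _ _) (by norm_num)) (hN n hn)
  have h2 : min (ε / 4) (1 / 2) ≤ ε / 4 := min_le_left _ _
  linarith

end Pool.Agent.CCC
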