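import Pool.Agent.Lib.MP_98022b_cc.Gauge
import Pool.Agent.Lib.MP_98022b_cc.Complete

/-!
# Row CP: compactness

`{x | ∀ m, gz (U m) x ≤ c m}` is closed (`gz_lip`), the space is complete (`completeSpace_pt`), and the set is
totally bounded: for `ε > 0` take `m` with `c m < ε / 2`; by `exists_proj` every `x` is within `ε / 2` of the set
`K` of the `p` with `p = 1` on `U m`; `K` is totally bounded: `p` is determined by its values on the
finite set `N = {a | a ∉ U m ∧ op a ∉ U m}` (on `U m` it is `1`, on `op (U m)` it is `0`), the map `K → (N → [0, 1])` is injective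
and `dist p q ≤ ∑_{a ∈ N} |p a - q a|`; so a finite partition of `[0, 1] ^ N` into small cubes gives a finite cover
of `K` by sets of small diameter.
-/

set_option autoImplicit false

open Set Filter Topology

namespace Pool.Agent.CCC

open Pocset

variable {H : Type} [Pocset H] {o : Set H}

private theorem cp_dist {U : Set H} (hfin : {a | a ∉ U ∧ op a ∉ U}.Finite) {p q : Pt o}
    (hp : ∀ a ∈ U, p a = 1) (hq : ∀ a ∈ U, q a = 1) {u : ℝ}
    (h : ∀ a ∈ hfin.toFinset, |q a - p a| ≤ u) (hu : 0 ≤ u) :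
    dist p q ≤ hfin.toFinset.card * u := by
  classical
  obtain ⟨c, -, hc, hs⟩ := exists_chain p q
  have hcN : c ⊆ hfin.toFinset := by
    intro a ha
    rw [Set.Finite.mem_toFinset]
    have h1 := hc a ha
    refine ⟨fun h2 => ?_, fun h2 => ?_⟩
    · rw [hp a h2, hq a h2] at h1
      exact lt_irrefl _ h1
    · have h3 := p.op_val a
      have h4 := q.op_val a
      rw [hp _ h2] at h3
      rw [hq _ h2] at h4
      linarith
  rw [← hs]
  calc ∑ a ∈ c, (q a - p a) ≤ ∑ a ∈ c, u :=
        Finset.sum_le_sum fun a ha => (le_abs_self _).trans (h a (hcN ha))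
    _ = c.card * u := by rw [Finset.sum_const, nsmul_eq_mul]
    _ ≤ hfin.toFinset.card * u := by
        refine mul_le_mul_of_nonneg_right ?_ hu
        exact_mod_cast Finset.card_le_card hcN

theorem isCompact_gz {d : ℕ} (hw : Width H d) (ho : IsVertex o) (U : ℕ → Set H)
    (hU : ∀ m, IsHull o (U m)) (hfin : ∀ m, {a | a ∉ U m ∧ op a ∉ U m}.Finite) (c : ℕ → ℝ)
    (hc : Tendsto c atTop (𝓝 0)) : IsCompact {x : Pt o | ∀ m, gz (U m) x ≤ c m} := by
  classical
  have : CompleteSpace (Pt o) := completeSpace_pt hw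
  refine TotallyBounded.isCompact_of_isClosed ?_ ?_
  · refine Metric.totallyBounded_of_finite_discretization fun ε hε => ?_
    obtain ⟨m, hm⟩ : ∃ m, c m < ε / 3 := by
      have h1 : ∀ᶠ m in atTop, c m < ε / 3 := hc.eventually (gt_mem_nhds (by linarith))
      exact h1.exists
    have hproj : ∀ x : {x : Pt o | ∀ m, gz (U m) x ≤ c m}, ∃ p : Pt o, (∀ a ∈ U m, p a = 1) ∧
        dist (x : Pt o) p < ε / 3 := by
      intro x
      obtain ⟨p, h1, h2⟩ := exists_proj ho (hU m) (x : Pt o)
      exact ⟨p, h1, (h2.trans (x.2 m)).trans_lt hm⟩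
    choose p hp1 hp2 using hproj
    obtain ⟨k, hk⟩ : ∃ k : ℕ, ((hfin m).toFinset.card : ℝ) / (ε / 3) < k := exists_nat_gt _
    have hk0 : (0 : ℝ) < k := lt_of_le_of_lt (by positivity) hk
    have hkm : ((hfin m).toFinset.card : ℝ) * (1 / k) < ε / 3 := by
      rw [div_lt_iff₀ (by linarith)] at hk
      rw [mul_one_div, div_lt_iff₀ hk0]
      linarith
    have hfl : ∀ (x : {x : Pt o | ∀ m, gz (U m) x ≤ c m}) (a : H), ⌊(k : ℝ) * (p x) a⌋₊ < k + 1 := by
      intro x a
      rw [Nat.lt_succ_iff]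
      have h1 : (k : ℝ) * (p x) a ≤ k := by
        have := (p x).le_one a
        nlinarith
      exact Nat.floor_le_of_le h1
    refine ⟨((hfin m).toFinset → Fin (k + 1)), inferInstance,
      fun x a => ⟨⌊(k : ℝ) * (p x) a⌋₊, hfl x a⟩, ?_⟩
    intro x y hxy
    have h1 : ∀ a ∈ (hfin m).toFinset, |(p y) a - (p x) a| ≤ 1 / k := by
      intro a ha
      have h2 := congrFun hxy ⟨a, ha⟩
      rw [Fin.mk.injEq] at h2
      change ⌊(k : ℝ) * (p x) a⌋₊ = ⌊(k : ℝ) * (p y) a⌋₊ at h2
      have hx0 : 0 ≤ (k : ℝ) * (p x) a := mul_nonneg hk0.le ((p x).nonneg a)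
      have hy0 : 0 ≤ (k : ℝ) * (p y) a := mul_nonneg hk0.le ((p y).nonneg a)
      have h3 := Nat.floor_le hx0
      have h4 := Nat.lt_floor_add_one ((k : ℝ) * (p x) a)
      have h5 := Nat.floor_le hy0
      have h6 := Nat.lt_floor_add_one ((k : ℝ) * (p y) a)
      rw [h2] at h3 h4
      rw [le_div_iff₀ hk0]
      have h7 : |(p y) a - (p x) a| * k = |(k : ℝ) * (p y) a - (k : ℝ) * (p x) a| := by
        rw [← mul_sub, abs_mul, abs_of_pos hk0, mul_comm]
      rw [h7, abs_le]
      constructor <;> linarith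
    have h2 := cp_dist (hfin m) (hp1 x) (hp1 y) h1 (by positivity)
    have h3 : dist (x : Pt o) y ≤ dist (x : Pt o) (p x) + dist (p x) (p y) + dist (p y) y :=
      dist_triangle4 _ _ _ _
    have h4 := hp2 x
    have h5 := hp2 y
    rw [dist_comm] at h5
    linarith
  · have h1 : {x : Pt o | ∀ m, gz (U m) x ≤ c m} = ⋂ m, {x : Pt o | gz (U m) x ≤ c m} := by
      ext x
      simp
    rw [h1]
    refine isClosed_iInter fun m => ?_
    have h2 : Continuous (fun x : Pt o => gz (U m) x) := by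
      refine LipschitzWith.continuous (K := 1) (LipschitzWith.of_dist_le_mul fun x y => ?_)
      rw [NNReal.coe_one, one_mul, Real.dist_eq]
      exact gz_lip ho (hU m) x y
    exact isClosed_le h2 continuous_const

end Pool.Agent.CCC
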