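import Pool.Agent.Lib.MP_98022b_cc.BalBasic

/-!
# Row CH: the speed of balanced paths

`exists_run`: start at an `a` of speed `v` which is active at the time `t₀` and go forward by `fwd`: this
gives a chain of halfspaces of speed `≥ v` which are entered one after the other without pauses
until the time `1` (finitely many halfspaces, the times increase); with `bwd` until the time `0`. So
`v * 1 ≤ dist (σ 0) (σ 1)` (the sum of `σ 1 b - σ 0 b = spd * (E b - S b)` over this chain). Conversely a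
chain `c` in `P` has pairwise disjoint intervals `[S b, E b]` (`Bal.ord`), so with the largest speed
`v`: `dist (σ 0) (σ 1) = ∑ spd * (E b - S b) ≤ v`. So the largest speed is the distance. Then
`lip`, `dist_eq` follow with `Bal.restrict`.
-/

set_option autoImplicit false

open Set

namespace Pool.Agent.CCC

open Pocset

variable {H : Type} [Pocset H] {o : Set H} {σ : ℝ → Pt o} {S E : H → ℝ}

private theorem Bal.diff_eq (h : Bal σ S E) {a : H} (ha : σ 0 a < σ 1 a) :
    σ 1 a - σ 0 a = spd σ S E a * (E a - S a) := by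
  obtain ⟨-, h1, -⟩ := h.bd a ha
  unfold spd
  rw [div_mul_cancel₀]
  exact (sub_pos.2 h1).ne'

private theorem fin_P (σ : ℝ → Pt o) : Finite {a : H // σ 0 a < σ 1 a} :=
  ((Pt.finite_ne (σ 0) (σ 1)).subset fun a (ha : σ 0 a < σ 1 a) => ha.ne).to_subtype

/-- forward run -/
private theorem Bal.run_fwd (h : Bal σ S E) (v : ℝ) (a : {a : H // σ 0 a < σ 1 a}) :
    v ≤ spd σ S E a.1 → ∃ c : Finset H, Ch c ∧ (∀ b ∈ c, b ≤ a.1 ∧ σ 0 b < σ 1 b) ∧
      v * (1 - S a.1) ≤ ∑ b ∈ c, (σ 1 b - σ 0 b) := by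
  classical
  have := fin_P σ
  induction a using WellFoundedLT.induction with
  | ind a ih =>
    intro hv
    obtain ⟨h0, h1, h2⟩ := h.bd a.1 a.2
    have hd := h.diff_eq a.2
    by_cases hE : E a.1 < 1
    · obtain ⟨b, hba, hb, hSb, hsp⟩ := h.fwd a.1 a.2 hE
      obtain ⟨c, hc, hcb, hsum⟩ := ih ⟨b, hb⟩ hba (hv.trans hsp)
      have hac : a.1 ∉ c := fun hac => absurd ((hcb _ hac).1.trans_lt hba) (lt_irrefl _)
      refine ⟨insert a.1 c, ?_, ?_, ?_⟩
      · show IsChain (· ≤ ·) ((insert a.1 c : Finset H) : Set H)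
        rw [Finset.coe_insert]
        exact IsChain.insert hc fun b' hb' _ => Or.inr ((hcb b' hb').1.trans hba.le)
      · intro b' hb'
        rcases Finset.mem_insert.1 hb' with rfl | hb'
        · exact ⟨le_rfl, a.2⟩
        · exact ⟨(hcb b' hb').1.trans hba.le, (hcb b' hb').2⟩
      · rw [Finset.sum_insert hac, hd]
        have e1 : v * (E a.1 - S a.1) ≤ spd σ S E a.1 * (E a.1 - S a.1) :=
          mul_le_mul_of_nonneg_right hv (sub_nonneg.2 h1.le)
        have e2 : v * (1 - S a.1) = v * (E a.1 - S a.1) + v * (1 - S b) := by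
          rw [hSb]; ring
        rw [e2]
        exact add_le_add e1 hsum
    · refine ⟨{a.1}, ?_, ?_, ?_⟩
      · show IsChain (· ≤ ·) (({a.1} : Finset H) : Set H)
        rw [Finset.coe_singleton]
        exact IsChain.singleton
      · intro b hb
        rw [Finset.mem_singleton.1 hb]
        exact ⟨le_rfl, a.2⟩
      · rw [Finset.sum_singleton, hd]
        have hE1 : E a.1 = 1 := le_antisymm h2 (not_lt.1 hE)
        rw [hE1]
        exact mul_le_mul_of_nonneg_right hv (sub_nonneg.2 (h1.le.trans h2))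

/-- backward run -/
private theorem Bal.run_bwd (h : Bal σ S E) (v : ℝ) (a : {a : H // σ 0 a < σ 1 a}) :
    v ≤ spd σ S E a.1 → ∃ c : Finset H, Ch c ∧ (∀ b ∈ c, a.1 < b ∧ σ 0 b < σ 1 b) ∧
      v * S a.1 ≤ ∑ b ∈ c, (σ 1 b - σ 0 b) := by
  classical
  have := fin_P σ
  induction a using WellFoundedGT.induction with
  | ind a ih =>
    intro hv
    obtain ⟨h0, h1, h2⟩ := h.bd a.1 a.2
    by_cases hS : 0 < S a.1
    · obtain ⟨b, hab, hb, hEb, hsp⟩ := h.bwd a.1 a.2 hS
      obtain ⟨c, hc, hcb, hsum⟩ := ih ⟨b, hb⟩ hab (hv.trans hsp)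
      have hbc : b ∉ c := fun hbc => absurd (hcb _ hbc).1 (lt_irrefl _)
      have hd := h.diff_eq hb
      obtain ⟨-, h1b, -⟩ := h.bd b hb
      refine ⟨insert b c, ?_, ?_, ?_⟩
      · show IsChain (· ≤ ·) ((insert b c : Finset H) : Set H)
        rw [Finset.coe_insert]
        exact IsChain.insert hc fun b' hb' _ => Or.inl (hcb b' hb').1.le
      · intro b' hb'
        rcases Finset.mem_insert.1 hb' with rfl | hb'
        · exact ⟨hab, hb⟩
        · exact ⟨hab.trans (hcb b' hb').1, (hcb b' hb').2⟩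
      · rw [Finset.sum_insert hbc, hd]
        have e1 : v * (E b - S b) ≤ spd σ S E b * (E b - S b) :=
          mul_le_mul_of_nonneg_right (hv.trans hsp) (sub_nonneg.2 h1b.le)
        have e2 : v * S a.1 = v * (E b - S b) + v * S b := by
          rw [← hEb]; ring
        rw [e2]
        exact add_le_add e1 hsum
    · refine ⟨∅, ?_, ?_, ?_⟩
      · show IsChain (· ≤ ·) ((∅ : Finset H) : Set H)
        rw [Finset.coe_empty]
        exact IsChain.empty
      · intro b hb
        exact absurd hb (Finset.notMem_empty b)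
      · rw [Finset.sum_empty]
        have hS0 : S a.1 = 0 := le_antisymm (not_lt.1 hS) h0
        rw [hS0, mul_zero]

theorem Bal.spd_le (h : Bal σ S E) {a : H} (ha : σ 0 a < σ 1 a) :
    spd σ S E a ≤ dist (σ 0) (σ 1) := by
  classical
  obtain ⟨c, hc, hca, hcs⟩ := h.run_fwd (spd σ S E a) ⟨a, ha⟩ le_rfl
  obtain ⟨c', hc', hca', hcs'⟩ := h.run_bwd (spd σ S E a) ⟨a, ha⟩ le_rfl
  have hdis : Disjoint c c' := by
    rw [Finset.disjoint_left]
    intro b hb hb'
    exact absurd ((hca b hb).1.trans_lt (hca' b hb').1) (lt_irrefl _)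
  have hch : Ch (c ∪ c') := by
    intro b hb b' hb' hne
    rw [Finset.mem_coe, Finset.mem_union] at hb hb'
    rcases hb with hb | hb <;> rcases hb' with hb' | hb'
    · exact hc hb hb' hne
    · exact Or.inl ((hca b hb).1.trans (hca' b' hb').1.le)
    · exact Or.inr ((hca b' hb').1.trans (hca' b hb).1.le)
    · exact hc' hb hb' hne
  have h1 := sum_le_dist (σ 0) (σ 1) hch
  rw [Finset.sum_union hdis] at h1
  have h2 : spd σ S E a = spd σ S E a * (1 - S a) + spd σ S E a * S a := by ring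
  have h3 := add_le_add hcs hcs'
  linarith

private theorem Bal.sum_len (h : Bal σ S E) (c : Finset H) : Ch c → (∀ a ∈ c, σ 0 a < σ 1 a) →
    ∀ T : ℝ, 0 ≤ T → (∀ a ∈ c, E a ≤ T) → ∑ a ∈ c, (E a - S a) ≤ T := by
  classical
  induction c using Finset.strongInduction with
  | H c ih =>
    intro hc hP T hT hET
    rcases c.eq_empty_or_nonempty with rfl | hne
    · rw [Finset.sum_empty]; exact hT
    · obtain ⟨m, hm⟩ := c.exists_minimal hne
      have hmc : m ∈ c := hm.prop
      have hlt : ∀ a ∈ c.erase m, m < a := by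
        intro a ha
        obtain ⟨hne', hac⟩ := Finset.mem_erase.1 ha
        rcases hc.total (Finset.mem_coe.2 hmc) (Finset.mem_coe.2 hac) with h1 | h1
        · exact lt_of_le_of_ne h1 (Ne.symm hne')
        · exact lt_of_le_of_ne (hm.le_of_le hac h1) (Ne.symm hne')
      obtain ⟨h0, h1, h2⟩ := h.bd m (hP m hmc)
      have h3 := ih (c.erase m) (Finset.erase_ssubset hmc)
        (hc.mono (by rw [Finset.coe_erase]; exact sdiff_subset))
        (fun a ha => hP a (Finset.mem_of_mem_erase ha)) (S m) h0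
        (fun a ha => h.ord (hP a (Finset.mem_of_mem_erase ha)) (hP m hmc) (hlt a ha))
      rw [← Finset.add_sum_erase c _ hmc]
      have h4 := hET m hmc
      linarith

theorem Bal.exists_spd_eq (h : Bal σ S E) (hne : σ 0 ≠ σ 1) :
    ∃ a, σ 0 a < σ 1 a ∧ spd σ S E a = dist (σ 0) (σ 1) := by
  obtain ⟨c, hc, hcP, hsum⟩ := exists_chain (σ 0) (σ 1)
  have hpos : 0 < dist (σ 0) (σ 1) := dist_pos.2 hne
  by_contra hcon
  have hlt : ∀ a ∈ c, spd σ S E a < dist (σ 0) (σ 1) := by
    intro a ha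
    exact lt_of_le_of_ne (h.spd_le (hcP a ha)) fun h1 => hcon ⟨a, hcP a ha, h1⟩
  have hcne : c.Nonempty := by
    rw [Finset.nonempty_iff_ne_empty]
    rintro rfl
    rw [Finset.sum_empty] at hsum
    exact hpos.ne hsum
  have h1 : ∑ a ∈ c, (σ 1 a - σ 0 a) < ∑ a ∈ c, dist (σ 0) (σ 1) * (E a - S a) := by
    apply Finset.sum_lt_sum_of_nonempty hcne
    intro a ha
    rw [h.diff_eq (hcP a ha)]
    obtain ⟨-, h1, -⟩ := h.bd a (hcP a ha)
    exact mul_lt_mul_of_pos_right (hlt a ha) (sub_pos.2 h1)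
  rw [← Finset.mul_sum, hsum] at h1
  have h2 := h.sum_len c hc hcP 1 zero_le_one fun a ha => (h.bd a (hcP a ha)).2.2
  have h3 := mul_le_mul_of_nonneg_left h2 hpos.le
  rw [mul_one] at h3
  exact absurd (h1.trans_le h3) (lt_irrefl _)

private theorem Bal.mem_P (h : Bal σ S E) {s t : ℝ} (hs : 0 ≤ s) (hst : s ≤ t) (ht : t ≤ 1) {a : H}
    (ha : σ s a < σ t a) : σ 0 a < σ 1 a := by
  by_contra hcon
  have h1 : σ 0 (op a) ≤ σ 1 (op a) := by
    rw [(σ 0).op_val, (σ 1).op_val]
    have := not_lt.1 hcon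
    linarith
  have h2 := h.mono h1 hs hst ht
  rw [(σ s).op_val, (σ t).op_val] at h2
  linarith

private theorem Bal.dist_le (h : Bal σ S E) {s t : ℝ} (hs : 0 ≤ s) (hst : s ≤ t) (ht : t ≤ 1) :
    dist (σ s) (σ t) ≤ (t - s) * dist (σ 0) (σ 1) := by
  rcases hst.eq_or_lt with rfl | hlt
  · rw [dist_self, sub_self, zero_mul]
  · by_cases heq : σ s = σ t
    · rw [heq, dist_self]
      exact mul_nonneg (sub_nonneg.2 hst) dist_nonneg
    · have hr := h.restrict hs hlt ht
      have e0 : σ (s + (t - s) * 0) = σ s := by rw [mul_zero, add_zero]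
      have e1 : σ (s + (t - s) * 1) = σ t := by
        congr 1; ring
      obtain ⟨a, ha, hsp⟩ := hr.exists_spd_eq (by
        show σ (s + (t - s) * 0) ≠ σ (s + (t - s) * 1)
        rw [e0, e1]; exact heq)
      have ha' : σ s a < σ t a := by
        have : σ (s + (t - s) * 0) a < σ (s + (t - s) * 1) a := ha
        rwa [e0, e1] at this
      have hsp' : (t - s) * spd σ S E a = dist (σ s) (σ t) := by
        rw [← h.spd_restrict hs hlt ht ha', hsp]
        show dist (σ (s + (t - s) * 0)) (σ (s + (t - s) * 1)) = _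
        rw [e0, e1]
      rw [← hsp']
      exact mul_le_mul_of_nonneg_left (h.spd_le (h.mem_P hs hst ht ha')) (sub_nonneg.2 hst)

theorem Bal.dist_eq (h : Bal σ S E) {s t : ℝ} (hs : 0 ≤ s) (hst : s ≤ t) (ht : t ≤ 1) :
    dist (σ s) (σ t) = (t - s) * dist (σ 0) (σ 1) := by
  apply le_antisymm (h.dist_le hs hst ht)
  have h1 := h.dist_le (le_refl 0) hs (hst.trans ht)
  have h2 := h.dist_le (hs.trans hst) ht (le_refl 1)
  have h3 : dist (σ 0) (σ 1) ≤ dist (σ 0) (σ s) + dist (σ s) (σ t) + dist (σ t) (σ 1) :=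
    dist_triangle4 _ _ _ _
  have h4 : (t - s) * dist (σ 0) (σ 1) =
      dist (σ 0) (σ 1) - (s - 0) * dist (σ 0) (σ 1) - (1 - t) * dist (σ 0) (σ 1) := by ring
  linarith

end Pool.Agent.CCC
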