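import Pool.Agent.Lib.MP_98022b_cc.BalBasic

/-!
# Row CJ: the end of a chain

`a` is the last halfspace of a chain, `0 < σ t₀ a`. At the times `t₀ ± ε` the chain may be extended by
one halfspace `b < a`; `ext (σ t) B` is the value `σ t b` for `B = some b` and `0` for `B = none`.
CASES. (i) `σ 0 a < σ 1 a` (the value increases), `v = spd a`:
`S a < t₀ < E a`: the values are `σ t₀ a ± v * ε`. `t₀ = E a` (`< 1`): the value at `t₀ - ε` is smaller by
`v * ε`, at `t₀ + ε` it is the same; `fwd` gives `b < a` with `S b = t₀` and speed `≥ v`: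
`σ (t₀ + ε) b = σ 0 b + spd b * ε`, `σ 0 b = 0` (`Pt.nested2`). `t₀ = S a`: constant before,
increasing after. Otherwise constant near `t₀`.
(ii) `σ 1 a < σ 0 a`, so `a' = op a` has `σ 0 a' < σ 1 a'`; `v = spd a'`; `σ t a = 1 - σ t a'`.
`S a' < t₀ < E a'`: `± v * ε`. `t₀ = E a'`: the value at `t₀ - ε` is larger, at `t₀ + ε` the same.
`t₀ = S a'` (`> 0`): the value at `t₀ + ε` is smaller by `v * ε`; `bwd` gives `c > a'` with `E c = t₀`,
speed `≥ v`; `b = op c < a`; `σ (t₀ - ε) b = 1 - σ (t₀ - ε) c = spd c * ε` as `σ 1 c = 1`. Otherwise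
constant. (iii) `σ 0 a = σ 1 a`: constant.
-/

set_option autoImplicit false

open Set Filter Topology

namespace Pool.Agent.CCC

open Pocset

variable {H : Type} [Pocset H] {o : Set H} {σ : ℝ → Pt o} {S E : H → ℝ}

/-- The value of an optional halfspace. -/
noncomputable def ext (x : Pt o) : Option H → ℝ
  | none => 0
  | some b => x b

theorem Bal.secDiff (h : Bal σ S E) {t₀ : ℝ} (ht : t₀ ∈ Ioo (0 : ℝ) 1) (a : H) :
    ∃ ε₀ > 0, ∀ ε, 0 < ε → ε < ε₀ → ∃ B B' : Option H, (∀ b ∈ B, b < a) ∧ (∀ b ∈ B', b < a) ∧
      2 * σ t₀ a ≤ (σ (t₀ - ε) a + ext (σ (t₀ - ε)) B) + (σ (t₀ + ε) a + ext (σ (t₀ + ε)) B') := by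
  obtain ⟨ht0, ht1⟩ := ht
  have hnone : ∀ b ∈ (none : Option H), b < a := fun b hb => by simp at hb
  have hop : ∀ t, σ t (op a) = 1 - σ t a := fun t => (σ t).op_val a
  rcases lt_trichotomy (σ 0 a) (σ 1 a) with hlt | heq | hgt
  · obtain ⟨b1, b2, b3⟩ := h.bd a hlt
    have hv := h.spd_pos hlt
    rcases lt_trichotomy t₀ (E a) with hE | hE | hE
    · rcases lt_or_ge (S a) t₀ with hS | hS
      · refine ⟨min (t₀ - S a) (E a - t₀), lt_min (by linarith) (by linarith), ?_⟩
        intro ε hε hε2
        have e1 := lt_of_lt_of_le hε2 (min_le_left _ _)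
        have e2 := lt_of_lt_of_le hε2 (min_le_right _ _)
        refine ⟨none, none, hnone, hnone, ?_⟩
        have m0 := (h.mid' hlt (t := t₀) (by linarith) (by linarith)).1
        have m1 := (h.mid' hlt (t := t₀ - ε) (by linarith) (by linarith)).1
        have m2 := (h.mid' hlt (t := t₀ + ε) (by linarith) (by linarith)).1
        simp only [ext]
        rw [m0, m1, m2]
        linarith
      · refine ⟨min t₀ (1 - t₀), lt_min (by linarith) (by linarith), ?_⟩
        intro ε hε hε2
        have e1 := lt_of_lt_of_le hε2 (min_le_left _ _)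
        have e2 := lt_of_lt_of_le hε2 (min_le_right _ _)
        refine ⟨none, none, hnone, hnone, ?_⟩
        have m0 := h.before a hlt t₀ (by linarith) hS
        have m1 := h.before a hlt (t₀ - ε) (by linarith) (by linarith)
        have m2 := h.mono hlt.le (s := t₀) (t := t₀ + ε) (by linarith) (by linarith) (by linarith)
        simp only [ext]
        linarith
    · obtain ⟨b, hba, hb, hSb, hsp⟩ := h.fwd a hlt (by linarith)
      obtain ⟨c1, c2, c3⟩ := h.bd b hb
      refine ⟨min (E a - S a) (E b - S b), lt_min (by linarith) (by linarith), ?_⟩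
      intro ε hε hε2
      have e1 := lt_of_lt_of_le hε2 (min_le_left _ _)
      have e2 := lt_of_lt_of_le hε2 (min_le_right _ _)
      refine ⟨none, some b, hnone, fun b' hb' => ?_, ?_⟩
      · rw [Option.mem_some_iff] at hb'
        rw [← hb']
        exact hba
      · have m0 := h.after a hlt t₀ (by linarith) (by linarith)
        have m1 := (h.mid' hlt (t := t₀ - ε) (by linarith) (by linarith)).2
        have m2 := h.after a hlt (t₀ + ε) (by linarith) (by linarith)
        have m3 := (h.mid' hb (t := t₀ + ε) (by linarith) (by linarith)).1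
        have m4 := (σ 0).nonneg b
        have m5 : E a - (t₀ - ε) = ε := by rw [hE]; ring
        have m6 : t₀ + ε - S b = ε := by rw [hSb, hE]; ring
        rw [m5] at m1
        rw [m6] at m3
        simp only [ext]
        rw [m0, m1, m2, m3]
        nlinarith [mul_le_mul_of_nonneg_right hsp hε.le]
    · refine ⟨min (t₀ - E a) (1 - t₀), lt_min (by linarith) (by linarith), ?_⟩
      intro ε hε hε2
      have e1 := lt_of_lt_of_le hε2 (min_le_left _ _)
      have e2 := lt_of_lt_of_le hε2 (min_le_right _ _)
      refine ⟨none, none, hnone, hnone, ?_⟩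
      have m0 := h.after a hlt t₀ (by linarith) (by linarith)
      have m1 := h.after a hlt (t₀ - ε) (by linarith) (by linarith)
      have m2 := h.after a hlt (t₀ + ε) (by linarith) (by linarith)
      simp only [ext]
      linarith
  · refine ⟨min t₀ (1 - t₀), lt_min (by linarith) (by linarith), ?_⟩
    intro ε hε hε2
    have e1 := lt_of_lt_of_le hε2 (min_le_left _ _)
    have e2 := lt_of_lt_of_le hε2 (min_le_right _ _)
    refine ⟨none, none, hnone, hnone, ?_⟩
    have m0 := h.const a heq t₀ (by linarith) (by linarith)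
    have m1 := h.const a heq (t₀ - ε) (by linarith) (by linarith)
    have m2 := h.const a heq (t₀ + ε) (by linarith) (by linarith)
    simp only [ext]
    linarith
  · have hlt : σ 0 (op a) < σ 1 (op a) := by
      rw [hop, hop]
      linarith
    obtain ⟨b1, b2, b3⟩ := h.bd (op a) hlt
    have hv := h.spd_pos hlt
    rcases lt_trichotomy t₀ (S (op a)) with hS | hS | hS
    · refine ⟨min t₀ (S (op a) - t₀), lt_min (by linarith) (by linarith), ?_⟩
      intro ε hε hε2
      have e1 := lt_of_lt_of_le hε2 (min_le_left _ _)
      have e2 := lt_of_lt_of_le hε2 (min_le_right _ _)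
      refine ⟨none, none, hnone, hnone, ?_⟩
      have m0 := h.before (op a) hlt t₀ (by linarith) (by linarith)
      have m1 := h.before (op a) hlt (t₀ - ε) (by linarith) (by linarith)
      have m2 := h.before (op a) hlt (t₀ + ε) (by linarith) (by linarith)
      rw [hop] at m0 m1 m2
      simp only [ext]
      linarith
    · obtain ⟨c, hac, hc, hEc, hsp⟩ := h.bwd (op a) hlt (by linarith)
      obtain ⟨c1, c2, c3⟩ := h.bd c hc
      have hba : op c < a := by
        have := op_lt_op hac
        rwa [op_op] at this
      refine ⟨min (E (op a) - S (op a)) (E c - S c), lt_min (by linarith) (by linarith), ?_⟩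
      intro ε hε hε2
      have e1 := lt_of_lt_of_le hε2 (min_le_left _ _)
      have e2 := lt_of_lt_of_le hε2 (min_le_right _ _)
      refine ⟨some (op c), none, fun b' hb' => ?_, hnone, ?_⟩
      · rw [Option.mem_some_iff] at hb'
        rw [← hb']
        exact hba
      · have m0 := h.before (op a) hlt t₀ (by linarith) (by linarith)
        have m1 := h.before (op a) hlt (t₀ - ε) (by linarith) (by linarith)
        have m2 := (h.mid' hlt (t := t₀ + ε) (by linarith) (by linarith)).1
        have m3 := (h.mid' hc (t := t₀ - ε) (by linarith) (by linarith)).2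
        have m4 := (σ 1).le_one c
        have m5 : t₀ + ε - S (op a) = ε := by rw [hS]; ring
        have m6 : E c - (t₀ - ε) = ε := by rw [hEc, hS]; ring
        have m7 : σ (t₀ - ε) (op c) = 1 - σ (t₀ - ε) c := (σ (t₀ - ε)).op_val c
        rw [m5] at m2
        rw [m6] at m3
        rw [hop] at m0 m1 m2
        simp only [ext]
        rw [m7, m3]
        nlinarith [mul_le_mul_of_nonneg_right hsp hε.le]
    · rcases lt_or_ge t₀ (E (op a)) with hE | hE
      · refine ⟨min (t₀ - S (op a)) (E (op a) - t₀), lt_min (by linarith) (by linarith), ?_⟩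
        intro ε hε hε2
        have e1 := lt_of_lt_of_le hε2 (min_le_left _ _)
        have e2 := lt_of_lt_of_le hε2 (min_le_right _ _)
        refine ⟨none, none, hnone, hnone, ?_⟩
        have m0 := (h.mid' hlt (t := t₀) (by linarith) (by linarith)).1
        have m1 := (h.mid' hlt (t := t₀ - ε) (by linarith) (by linarith)).1
        have m2 := (h.mid' hlt (t := t₀ + ε) (by linarith) (by linarith)).1
        rw [hop] at m0 m1 m2
        simp only [ext]
        linarith
      · refine ⟨min t₀ (1 - t₀), lt_min (by linarith) (by linarith), ?_⟩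
        intro ε hε hε2
        have e1 := lt_of_lt_of_le hε2 (min_le_left _ _)
        have e2 := lt_of_lt_of_le hε2 (min_le_right _ _)
        refine ⟨none, none, hnone, hnone, ?_⟩
        have m0 := h.after (op a) hlt t₀ (by linarith) (by linarith)
        have m1 := h.mono hlt.le (s := t₀ - ε) (t := t₀) (by linarith) (by linarith) (by linarith)
        have m2 := h.after (op a) hlt (t₀ + ε) (by linarith) (by linarith)
        rw [hop] at m0 m2
        rw [hop, hop] at m1
        simp only [ext]
        linarith

end Pool.Agent.CCC
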