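import Pool.Agent.Lib.MP_98022b_cc.Gauge
import Pool.Agent.Lib.MP_98022b_cc.SecDiff
import Pool.Agent.Lib.MP_98022b_cc.MidConvex
import Pool.Agent.Lib.MP_98022b_cc.BalSpeed

/-!
# Row CN: the gauge is convex along balanced paths

As `Bal.dist_convex` (row CK), with one end only: `φ t = gz U (σ t)`, continuous. At `t₀` take a chain `c`
(`exists_chain_gz`), `a` its smallest element. For small `ε` and `t = t₀ ± ε`: `0 < σ t a'` for `a' ∈ c`,
so `σ t a' = 1` for `a' ≠ a`. `Bal.secDiff` gives `B, B'` below `a`; `c ∪ B` is a chain and `b < a`,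
`op a ∈ U` imply `op b ∈ U`. Use `le_of_midConvex`.
-/

set_option autoImplicit false

open Set

namespace Pool.Agent.CCC

open Pocset

variable {H : Type} [Pocset H] {o U : Set H} {σ : ℝ → Pt o} {S E : H → ℝ}

/-- a nonempty finite chain has a smallest element -/
private theorem gc_exists_min {c : Finset H} (hc : Ch c) (hne : c.Nonempty) :
    ∃ a ∈ c, ∀ b ∈ c, a ≤ b := by
  obtain ⟨a, ha, hmin⟩ := c.exists_minimal hne
  refine ⟨a, ha, fun b hb => ?_⟩
  rcases hc.total (Finset.mem_coe.2 ha) (Finset.mem_coe.2 hb) with h | h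
  · exact h
  · exact hmin hb h

/-- a chain with one more halfspace below the smallest one -/
private theorem gc_sum_le (ho : IsVertex o) (hU : IsHull o U) (x : Pt o) {c : Finset H}
    (hc : Ch c) (hcU : ∀ a ∈ c, op a ∈ U) {a : H} (ha : a ∈ c) (hmin : ∀ b ∈ c, a ≤ b)
    (B : Option H) (hB : ∀ b ∈ B, b < a) : ∑ b ∈ c, x b + ext x B ≤ gz U x := by
  classical
  cases B with
  | none =>
    change _ + (0 : ℝ) ≤ _
    rw [add_zero]
    exact sum_le_gz ho hU x hc hcU
  | some b =>
    have hba : b < a := hB b rfl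
    have hbc : b ∉ c := fun h => absurd (hmin b h) (not_le_of_gt hba)
    have h1 : ∑ b' ∈ insert b c, x b' = x b + ∑ b' ∈ c, x b' := Finset.sum_insert hbc
    change _ + x b ≤ _
    rw [add_comm, ← h1]
    apply sum_le_gz ho hU x
    · intro u hu v hv huv
      rw [Finset.mem_coe, Finset.mem_insert] at hu hv
      rcases hu with rfl | hu
      · rcases hv with rfl | hv
        · exact absurd rfl huv
        · exact Or.inl (hba.le.trans (hmin v hv))
      · rcases hv with rfl | hv
        · exact Or.inr (hba.le.trans (hmin u hu))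
        · exact hc (Finset.mem_coe.2 hu) (Finset.mem_coe.2 hv) huv
    · intro u hu
      rw [Finset.mem_insert] at hu
      rcases hu with rfl | hu
      · exact hU.up _ _ (op_le_op _ _ hba.le) (hcU a ha)
      · exact hcU u hu

/-- continuity of balanced paths -/
private theorem gc_dist_le (h : Bal σ S E) {s t : ℝ} (hs : s ∈ Icc (0 : ℝ) 1)
    (ht : t ∈ Icc (0 : ℝ) 1) : dist (σ s) (σ t) ≤ |s - t| * dist (σ 0) (σ 1) := by
  rcases le_total s t with hst | hst
  · rw [h.dist_eq hs.1 hst ht.2, abs_sub_comm, abs_of_nonneg (sub_nonneg.2 hst)]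
  · rw [dist_comm, h.dist_eq ht.1 hst hs.2, abs_of_nonneg (sub_nonneg.2 hst)]

theorem Bal.gz_convex (ho : IsVertex o) (hU : IsHull o U) (h : Bal σ S E) {t : ℝ}
    (ht : t ∈ Icc (0 : ℝ) 1) : gz U (σ t) ≤ (1 - t) * gz U (σ 0) + t * gz U (σ 1) := by
  classical
  refine le_of_midConvex (φ := fun t => gz U (σ t)) ?_ ?_ t ht
  · -- continuity
    have hL : LipschitzOnWith (Real.toNNReal (dist (σ 0) (σ 1))) (fun t => gz U (σ t))
        (Icc 0 1) := by
      apply LipschitzOnWith.of_dist_le_mul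
      intro s hs u hu
      rw [Real.dist_eq, Real.dist_eq, Real.coe_toNNReal _ dist_nonneg, mul_comm]
      exact (gz_lip ho hU _ _).trans (gc_dist_le h hs hu)
    exact hL.continuousOn
  · intro t₀ ht₀
    obtain ⟨c, hc, hcU, hsum⟩ := exists_chain_gz ho hU (σ t₀)
    by_cases hne : c.Nonempty
    swap
    · rw [Finset.not_nonempty_iff_eq_empty] at hne
      rw [hne, Finset.sum_empty] at hsum
      refine ⟨1, one_pos, fun ε _ _ => ?_⟩
      change 2 * gz U (σ t₀) ≤ gz U (σ (t₀ - ε)) + gz U (σ (t₀ + ε))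
      rw [← hsum]
      have h1 := gz_nonneg ho hU (σ (t₀ - ε))
      have h2 := gz_nonneg ho hU (σ (t₀ + ε))
      linarith
    obtain ⟨a, ha, hmin⟩ := gc_exists_min hc hne
    have hpos : 0 < σ t₀ a := (hcU a ha).2
    obtain ⟨ε₁, hε₁, hsec⟩ := h.secDiff ht₀ a
    -- positivity near `t₀`
    set D := dist (σ 0) (σ 1) with hD
    have hD0 : 0 ≤ D := dist_nonneg
    set ε₂ : ℝ := σ t₀ a / (D + 1) with hε₂
    have hε₂0 : 0 < ε₂ := by positivity
    have hnear : ∀ u ∈ Icc (0 : ℝ) 1, |u - t₀| < ε₂ → 0 < σ u a := by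
      intro u hu hu'
      have h1 := abs_sub_le_dist (σ u) (σ t₀) a
      have h2 := gc_dist_le h hu (Ioo_subset_Icc_self ht₀)
      have h3 : |u - t₀| * D ≤ ε₂ * D := mul_le_mul_of_nonneg_right hu'.le hD0
      have h4 : ε₂ * D < σ t₀ a := by
        rw [hε₂, div_mul_eq_mul_div, div_lt_iff₀ (by linarith)]
        nlinarith
      have h5 := (abs_le.1 (h1.trans (h2.trans h3))).1
      linarith
    have hone : ∀ u, 0 < σ u a → ∑ b ∈ c, σ u b = σ u a + (c.erase a).card := by
      intro u hu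
      rw [← Finset.add_sum_erase c _ ha]
      congr 1
      rw [Finset.sum_congr rfl (g := fun _ => (1 : ℝ))]
      · simp
      · intro b hb
        rw [Finset.mem_erase] at hb
        exact (σ u).eq_one_of_lt (lt_of_le_of_ne (hmin b hb.2) (Ne.symm hb.1)) hu
    refine ⟨min (min ε₁ ε₂) (min t₀ (1 - t₀)), ?_, ?_⟩
    · exact lt_min (lt_min hε₁ hε₂0) (lt_min ht₀.1 (sub_pos.2 ht₀.2))
    intro ε hε hε'
    have e1 : ε < ε₁ := hε'.trans_le ((min_le_left _ _).trans (min_le_left _ _))
    have e2 : ε < ε₂ := hε'.trans_le ((min_le_left _ _).trans (min_le_right _ _))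
    have e3 : ε < t₀ := hε'.trans_le ((min_le_right _ _).trans (min_le_left _ _))
    have e4 : ε < 1 - t₀ := hε'.trans_le ((min_le_right _ _).trans (min_le_right _ _))
    obtain ⟨B, B', hB, hB', hineq⟩ := hsec ε hε e1
    have p1 : 0 < σ (t₀ - ε) a := by
      apply hnear _ ⟨by linarith, by linarith [ht₀.2]⟩
      rw [show t₀ - ε - t₀ = -ε by ring, abs_neg, abs_of_pos hε]
      exact e2
    have p2 : 0 < σ (t₀ + ε) a := by
      apply hnear _ ⟨by linarith [ht₀.1], by linarith⟩
      rw [show t₀ + ε - t₀ = ε by ring, abs_of_pos hε]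
      exact e2
    have q0 := hone t₀ hpos
    have q1 := hone _ p1
    have q2 := hone _ p2
    have hcU' : ∀ a ∈ c, op a ∈ U := fun b hb => (hcU b hb).1
    have r1 := gc_sum_le ho hU (σ (t₀ - ε)) hc hcU' ha hmin B hB
    have r2 := gc_sum_le ho hU (σ (t₀ + ε)) hc hcU' ha hmin B' hB'
    change 2 * gz U (σ t₀) ≤ gz U (σ (t₀ - ε)) + gz U (σ (t₀ + ε))
    rw [← hsum]
    linarith

end Pool.Agent.CCC
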