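import Pool.Agent.Lib.MP_98022b_cc.Gauge

/-!
# Row CO: the hulls of `S ^ m • o`

`hH_isHull`: `1 ∈ S ^ m`. `gF_smul`: a chain `c` for `s • x` and `m + 1` is moved by `s⁻¹` to a chain for `x` and
`m`: `(s • x) a = x (s⁻¹ • a)`, and `op a ∈ hH S (m + 1)` implies `op (s⁻¹ • a) ∈ hH S m` because `s * g ∈ S ^ (m + 1)`
for `g ∈ S ^ m`. `undecided_finite`: if `a, op a ∉ hH S m o` there are `g, g' ∈ S ^ m` with `g⁻¹ • a ∉ o` and
`g'⁻¹ • a ∈ o`; so `a` is in the finite set `{ind o (g⁻¹ • a) ≠ ind o a} ∪ {ind o (g'⁻¹ • a) ≠ ind o a}`.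
`dist_le_hull`: let `c` be a chain with `ind o a < p a`; its smallest element `a` has `p a > 0`, so `op a ∉ hH S m o`
(else `p (op a) = 1`), so there is `g ∈ S ^ m` with `g⁻¹ • op a ∉ o`, i.e. `(g • base) a = 1`, hence
`(g • base) b = 1` for all `b ∈ c`, so `∑ (p - ind o) ≤ card c = ∑ ((g • base) - ind o) ≤ dist base (g • base) ≤ m η`.
`gF_radius`: with `exists_proj`.
-/

set_option autoImplicit false

open Set
open scoped Pointwise

namespace Pool.Agent.CCC

open Pocset

variable {H : Type} [Pocset H] {o : Set H} {G : Type} [Group G] [PocAct G H] [Based G o]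
  {S : Finset G}

theorem hH_isHull (h1 : (1 : G) ∈ S) (ho : IsVertex o) (m : ℕ) : IsHull o (hH S m o) := by
  constructor
  · intro a ha
    have h2 := ha 1 (Set.one_mem_pow (Finset.mem_coe.2 h1))
    rwa [inv_one, one_smul] at h2
  · intro a b hab ha g hg
    exact ho.up _ _ (PocAct.smul_le g⁻¹ a b hab) (ha g hg)

theorem hH_anti (h1 : (1 : G) ∈ S) (m : ℕ) : hH S (m + 1) o ⊆ hH S m o := by
  intro a ha g hg
  exact ha g (Set.pow_subset_pow_right (Finset.mem_coe.2 h1) (Nat.le_succ m) hg)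

theorem gF_smul (h1 : (1 : G) ∈ S) (ho : IsVertex o) {s : G} (hs : s ∈ S) (m : ℕ) (x : Pt o) :
    gF S (m + 1) (s • x) ≤ gF S m x := by
  classical
  unfold gF
  obtain ⟨c, h2, h3, h4⟩ := exists_chain_gz ho (hH_isHull h1 ho (m + 1)) (s • x)
  rw [← h4]
  have hinj : Function.Injective (fun a : H => s⁻¹ • a) := MulAction.injective s⁻¹
  have h5 : ∑ a ∈ c, (s • x) a = ∑ a ∈ c.image (fun a => s⁻¹ • a), x a := by
    rw [Finset.sum_image fun a _ b _ hab => hinj hab]
    rfl
  rw [h5]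
  apply sum_le_gz ho (hH_isHull h1 ho m) x
  · intro a ha b hb hab
    rw [Finset.mem_coe, Finset.mem_image] at ha hb
    obtain ⟨a', ha', rfl⟩ := ha
    obtain ⟨b', hb', rfl⟩ := hb
    rcases h2.total (Finset.mem_coe.2 ha') (Finset.mem_coe.2 hb') with h | h
    · exact Or.inl (PocAct.smul_le _ _ _ h)
    · exact Or.inr (PocAct.smul_le _ _ _ h)
  · intro a ha
    rw [Finset.mem_image] at ha
    obtain ⟨a', ha', rfl⟩ := ha
    intro g hg
    have h6 := (h3 a' ha').1 (s * g) (by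
      rw [pow_succ']
      exact Set.mul_mem_mul (Finset.mem_coe.2 hs) hg)
    rw [← PocAct.smul_op, ← mul_smul, ← mul_inv_rev]
    exact h6

private theorem hu_sub (ho : IsVertex o) (m : ℕ) :
    {a : H | a ∉ hH S m o ∧ op a ∉ hH S m o} ⊆
      ⋃ g ∈ (S : Set G) ^ m, {a : H | ind o (g⁻¹ • a) ≠ ind o a} := by
  rintro a ⟨h1, h2⟩
  have h1' : ∃ g ∈ (S : Set G) ^ m, g⁻¹ • a ∉ o := by
    by_contra h
    push Not at h
    exact h1 h
  have h2' : ∃ g ∈ (S : Set G) ^ m, g⁻¹ • op a ∉ o := by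
    by_contra h
    push Not at h
    exact h2 h
  obtain ⟨g, hg, hga⟩ := h1'
  obtain ⟨g', hg', hga'⟩ := h2'
  rw [PocAct.smul_op] at hga'
  have h3 : g'⁻¹ • a ∈ o := (ho.iff_op _).2 hga'
  rw [Set.mem_iUnion₂]
  by_cases ha : a ∈ o
  · refine ⟨g, hg, ?_⟩
    change ind o (g⁻¹ • a) ≠ ind o a
    unfold ind
    rw [if_neg hga, if_pos ha]
    norm_num
  · refine ⟨g', hg', ?_⟩
    change ind o (g'⁻¹ • a) ≠ ind o a
    unfold ind
    rw [if_pos h3, if_neg ha]
    norm_num

theorem undecided_finite (m : ℕ) : {a : H | a ∉ hH S m o ∧ op a ∉ hH S m o}.Finite := by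
  classical
  refine Set.Finite.subset ?_ (hu_sub (Based.vertex G) m)
  have hfin : ((S : Set G) ^ m).Finite := by
    rw [← Finset.coe_pow]
    exact Finset.finite_toSet _
  exact hfin.biUnion fun g _ => Based.fin g

private theorem hu_dist (ho : IsVertex o) {η : ℝ}
    (hη : ∀ s ∈ S, dist (Pt.base ho) (s • Pt.base ho) ≤ η) (m : ℕ) (g : G)
    (hg : g ∈ (S : Set G) ^ m) : dist (Pt.base ho) (g • Pt.base ho) ≤ m * η := by
  induction m generalizing g with
  | zero =>
    rw [pow_zero, Set.mem_one] at hg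
    subst hg
    rw [one_smul, dist_self]
    simp
  | succ m ih =>
    rw [pow_succ'] at hg
    obtain ⟨s, hs, g', hg', rfl⟩ := Set.mem_mul.1 hg
    have h1 := dist_triangle (Pt.base ho) (s • Pt.base ho) ((s * g') • Pt.base ho)
    rw [mul_smul, dist_smul'] at h1
    have h2 := hη s (Finset.mem_coe.1 hs)
    have h3 := ih g' hg'
    rw [mul_smul]
    push_cast
    linarith

theorem dist_le_hull (h1 : (1 : G) ∈ S) (ho : IsVertex o) {η : ℝ}
    (hη : ∀ s ∈ S, dist (Pt.base ho) (s • Pt.base ho) ≤ η) (m : ℕ) (p : Pt o)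
    (hp : ∀ a ∈ hH S m o, p a = 1) : dist (Pt.base ho) p ≤ m * η := by
  classical
  obtain ⟨c, h2, h3, h4⟩ := exists_chain (Pt.base ho) p
  rw [← h4]
  have hη0 : 0 ≤ η := le_trans dist_nonneg (hη 1 h1)
  by_cases hne : c.Nonempty
  swap
  · rw [Finset.not_nonempty_iff_eq_empty] at hne
    rw [hne, Finset.sum_empty]
    positivity
  obtain ⟨a, ha, hmin'⟩ := c.exists_minimal hne
  have hmin : ∀ b ∈ c, a ≤ b := by
    intro b hb
    rcases h2.total (Finset.mem_coe.2 ha) (Finset.mem_coe.2 hb) with h | h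
    · exact h
    · exact hmin' hb h
  have hbase : ∀ b, (Pt.base ho) b = ind o b := fun _ => rfl
  have h5 : 0 < p a := lt_of_le_of_lt ((Pt.base ho).nonneg a) (h3 a ha)
  have h6 : op a ∉ hH S m o := by
    intro h
    have h7 := hp _ h
    rw [p.op_val] at h7
    linarith
  have h7 : ∃ g ∈ (S : Set G) ^ m, g⁻¹ • op a ∉ o := by
    by_contra h
    push Not at h
    exact h6 h
  obtain ⟨g, hg, hga⟩ := h7
  rw [PocAct.smul_op] at hga
  have h8 : g⁻¹ • a ∈ o := (ho.iff_op _).2 hga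
  have h9 : ∀ b ∈ c, (g • Pt.base ho) b = 1 := by
    intro b hb
    rw [smul_val, hbase]
    unfold ind
    rw [if_pos]
    exact ho.up _ _ (PocAct.smul_le g⁻¹ a b (hmin b hb)) h8
  have h10 := sum_le_dist (Pt.base ho) (g • Pt.base ho) h2
  have h11 : ∑ b ∈ c, (p b - (Pt.base ho) b) ≤ ∑ b ∈ c, ((g • Pt.base ho) b - (Pt.base ho) b) := by
    apply Finset.sum_le_sum
    intro b hb
    rw [h9 b hb]
    linarith [p.le_one b]
  exact h11.trans (h10.trans (hu_dist ho hη m g hg))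

theorem gF_radius (h1 : (1 : G) ∈ S) (ho : IsVertex o) {η : ℝ}
    (hη : ∀ s ∈ S, dist (Pt.base ho) (s • Pt.base ho) ≤ η) (m : ℕ) (x : Pt o) :
    dist (Pt.base ho) x ≤ m * η + gF S m x := by
  obtain ⟨p, hp, hd⟩ := exists_proj ho (hH_isHull h1 ho m) x
  have h2 := dist_le_hull h1 ho hη m p hp
  have h3 := dist_triangle (Pt.base ho) p x
  rw [dist_comm p x] at h3
  change dist (Pt.base ho) x ≤ m * η + gz (hH S m o) x
  linarith

/-- the number of the undecided halfspaces -/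
theorem undecided_ncard (h1 : (1 : G) ∈ S) : ∃ C : ℕ, ∀ m : ℕ,
    {a : H | a ∉ hH S m o ∧ op a ∉ hH S m o}.ncard ≤ 2 ^ (C * (m + 1)) := by
  classical
  set D : G → Set H := fun g => {a : H | ind o (g⁻¹ • a) ≠ ind o a} with hD
  have hDf : ∀ g, (D g).Finite := fun g => Based.fin g
  set N : ℕ := S.sup fun s => (D s).ncard with hN
  have hNs : ∀ s ∈ S, (D s).ncard ≤ N := fun s hs => Finset.le_sup (f := fun s => (D s).ncard) hs
  have hDm : ∀ (m : ℕ) (g : G), g ∈ (S : Set G) ^ m → (D g).ncard ≤ m * N := by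
    intro m
    induction m with
    | zero =>
      intro g hg
      rw [pow_zero, Set.mem_one] at hg
      subst hg
      have h2 : D 1 = ∅ := by
        rw [Set.eq_empty_iff_forall_notMem]
        intro a ha
        change ind o ((1 : G)⁻¹ • a) ≠ ind o a at ha
        rw [inv_one, one_smul] at ha
        exact ha rfl
      rw [h2]
      simp
    | succ m ih =>
      intro g hg
      rw [pow_succ'] at hg
      obtain ⟨s, hs, g', hg', rfl⟩ := Set.mem_mul.1 hg
      have h2 : D (s * g') ⊆ D s ∪ (fun a => s • a) '' D g' := by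
        intro a ha
        change ind o ((s * g')⁻¹ • a) ≠ ind o a at ha
        by_cases h3 : ind o (s⁻¹ • a) = ind o a
        · right
          refine ⟨s⁻¹ • a, ?_, smul_inv_smul s a⟩
          change ind o (g'⁻¹ • s⁻¹ • a) ≠ ind o (s⁻¹ • a)
          rw [h3, ← mul_smul, ← mul_inv_rev]
          exact ha
        · exact Or.inl h3
      have h3 := Set.ncard_le_ncard h2 ((hDf s).union ((hDf g').image _))
      have h4 := Set.ncard_union_le (D s) ((fun a => s • a) '' D g')
      have h5 : ((fun a => s • a) '' D g').ncard ≤ (D g').ncard := Set.ncard_image_le (hDf g')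
      have h6 := hNs s (Finset.mem_coe.1 hs)
      have h7 := ih g' hg'
      calc (D (s * g')).ncard ≤ N + m * N := by omega
        _ = (m + 1) * N := by ring
  refine ⟨S.card + 1 + N, fun m => ?_⟩
  have h2 : {a : H | a ∉ hH S m o ∧ op a ∉ hH S m o} ⊆ ⋃ g ∈ (S ^ m : Finset G), D g := by
    refine (hu_sub (Based.vertex G) m).trans ?_
    intro a ha
    rw [Set.mem_iUnion₂] at ha ⊢
    obtain ⟨g, hg, hga⟩ := ha
    refine ⟨g, ?_, hga⟩
    rw [← Finset.mem_coe, Finset.coe_pow]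
    exact hg
  have h3 : (⋃ g ∈ (S ^ m : Finset G), D g).Finite :=
    (Finset.finite_toSet (S ^ m)).biUnion fun g _ => hDf g
  have h4 := Set.ncard_le_ncard h2 h3
  have h5 : (⋃ g ∈ (S ^ m : Finset G), D g).ncard ≤ ∑ g ∈ S ^ m, (D g).ncard := by
    have key : ∀ T : Finset G, (⋃ g ∈ T, D g).ncard ≤ ∑ g ∈ T, (D g).ncard := by
      intro T
      induction T using Finset.induction_on with
      | empty => simp
      | insert g T hg ih =>
        rw [Finset.sum_insert hg, Finset.set_biUnion_insert]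
        exact (Set.ncard_union_le _ _).trans (Nat.add_le_add_left ih _)
    exact key _
  have h6 : ∑ g ∈ S ^ m, (D g).ncard ≤ ∑ _g ∈ S ^ m, m * N := by
    apply Finset.sum_le_sum
    intro g hg
    apply hDm m g
    rw [← Finset.coe_pow]
    exact Finset.mem_coe.2 hg
  rw [Finset.sum_const, smul_eq_mul] at h6
  have h7 : (S ^ m).card ≤ S.card ^ m := Finset.card_pow_le
  have h8 : S.card ^ m ≤ (2 ^ S.card) ^ m :=
    Nat.pow_le_pow_left (Nat.lt_two_pow_self).le m
  have h9 : m ≤ 2 ^ m := (Nat.lt_two_pow_self).le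
  have h10 : N ≤ 2 ^ N := (Nat.lt_two_pow_self).le
  calc {a : H | a ∉ hH S m o ∧ op a ∉ hH S m o}.ncard ≤ (S ^ m).card * (m * N) :=
        h4.trans (h5.trans h6)
    _ ≤ (2 ^ S.card) ^ m * (2 ^ m * 2 ^ N) :=
        Nat.mul_le_mul (h7.trans h8) (Nat.mul_le_mul h9 h10)
    _ = 2 ^ (S.card * m + (m + N)) := by
        rw [← pow_mul, ← pow_add, ← pow_add]
    _ ≤ 2 ^ ((S.card + 1 + N) * (m + 1)) := by
        apply Nat.pow_le_pow_right (by norm_num)
        nlinarith [Nat.zero_le (S.card), Nat.zero_le (N * m)]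

end Pool.Agent.CCC
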