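import Pool.Agent.Lib.MP_98022b_cc.Metric2
import Pool.Agent.Lib.MP_98022b_gln.ConeDefs

/-!
# Row CQ: covers by small sets of multiplicity `d + 1`

Let `ε > 0`, `K ≥ 2` with `2 / K < ε`, `ρ = 1 / (8 * (d + 2))`, `β j = (j + 1) / (2 * (d + 2))`. For `j = 0, .., d` and
`f : H → ℤ × ℤ` let `O (j, f)` be the set of the `x` such that for some `e > ρ` all numbers `K * x a + β j`,
`K * x a - β j` have distance at least `e` from `ℤ`, with the integral parts given by `f a`. Open: if `dist x y` is small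
then all values are close. Sets with the same `j` are disjoint. Cover: otherwise there is for each `j` some `a j` such
that `K * x (a j) + β j` is within `2 ρ` of `ℤ` (replace `a` by `op a` for the other sign); then `0 < x (a j) < 1`, and the
`a j` are pairwise different and not opposite, a contradiction to `Pt.card_frac`. Small: `x, y ∈ O (j, f)` have
`|x a - y a| ≤ 1 / K` for all `a`, so `dist x y ≤ 2 / K` (`dist_le_of_sup`).
Multiplicity at most `d + 1`: one set for each `j`.
-/

set_option autoImplicit false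

open Set

namespace Pool.Agent.CCC

open Pocset

variable {H : Type} [Pocset H] {o : Set H}

private theorem floor_eq_of_far {u v e : ℝ} (h : ∀ m : ℤ, e ≤ |u - m|) (h2 : |u - v| < e) : ⌊v⌋ = ⌊u⌋ := by
  have h3 := Int.floor_le u
  have h4 := Int.lt_floor_add_one u
  have h5 := h ⌊u⌋
  have h6 := h (⌊u⌋ + 1)
  rw [abs_of_nonneg (by linarith)] at h5
  push_cast at h6
  rw [abs_of_neg (by linarith)] at h6
  rw [abs_lt] at h2
  rw [Int.floor_eq_iff]
  constructor <;> linarith

/-- The shift. -/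
private noncomputable def bet (d : ℕ) (j : Fin (d + 1)) : ℝ := ((j : ℝ) + 1) / (2 * (d + 2))

/-- The margin. -/
private noncomputable def rho (d : ℕ) : ℝ := 1 / (8 * (d + 2))

private theorem rho_pos (d : ℕ) : 0 < rho d := by
  unfold rho
  positivity

private theorem bet_eq (d : ℕ) (j : Fin (d + 1)) : bet d j = 4 * rho d * ((j : ℝ) + 1) := by
  unfold bet rho
  field_simp
  ring

private theorem rho_mul (d : ℕ) : 8 * rho d * ((d : ℝ) + 2) = 1 := by
  unfold rho
  field_simp

/-- an integer multiple of `4 ρ` which is not an integer is far from the integers -/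
private theorem far_of_mul (d : ℕ) (k : ℤ) (m : ℤ) (hk : 0 < k) (hk' : k < 2 * ((d : ℤ) + 2)) (hm : |4 * rho d * (k : ℝ) - m| < 4 * rho d) :
    False := by
  have h0 := rho_pos d
  have h1 := rho_mul d
  have hk1 : (1 : ℝ) ≤ k := by exact_mod_cast hk
  have hk2 : (k : ℝ) + 1 ≤ 2 * ((d : ℝ) + 2) := by exact_mod_cast hk'
  rw [abs_lt] at hm
  have h2 : 4 * rho d * (k : ℝ) ≤ 1 - 4 * rho d := by nlinarith
  have h3 : 4 * rho d ≤ 4 * rho d * (k : ℝ) := by nlinarith
  have h4 : (m : ℝ) < 1 := by linarith [hm.1]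
  have h5 : (0 : ℝ) < m := by linarith [hm.2]
  have h6 : m < 1 := by exact_mod_cast h4
  have h7 : 0 < m := by exact_mod_cast h5
  omega

/-- The sets of the cover. -/
private def cov (o : Set H) (d K : ℕ) (p : Fin (d + 1) × (H → ℤ × ℤ)) : Set (Pt o) :=
  {x | ∃ e, rho d < e ∧ ∀ a, (∀ m : ℤ, e ≤ |(K : ℝ) * x a + bet d p.1 - m|) ∧
    (∀ m : ℤ, e ≤ |(K : ℝ) * x a - bet d p.1 - m|) ∧
    ⌊(K : ℝ) * x a + bet d p.1⌋ = (p.2 a).1 ∧ ⌊(K : ℝ) * x a - bet d p.1⌋ = (p.2 a).2}

private theorem isOpen_cov (d K : ℕ) (hK : 0 < K) (p : Fin (d + 1) × (H → ℤ × ℤ)) : IsOpen (cov o d K p) := by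
  rw [Metric.isOpen_iff]
  rintro x ⟨e, he, hx⟩
  have hK0 : (0 : ℝ) < K := by exact_mod_cast hK
  refine ⟨(e - rho d) / (2 * K), by have : 0 < e - rho d := by linarith
                                    positivity, ?_⟩
  intro y hy
  rw [Metric.mem_ball] at hy
  have h0 := rho_pos d
  have hd : ∀ a, |(K : ℝ) * x a - K * y a| < (e - rho d) / 2 := by
    intro a
    have h1 := abs_sub_le_dist y x a
    have h2 : |(K : ℝ) * x a - K * y a| = K * |y a - x a| := by
      rw [← mul_sub, abs_mul, abs_of_pos hK0, abs_sub_comm]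
    rw [h2]
    have h3 : |y a - x a| < (e - rho d) / (2 * K) := lt_of_le_of_lt h1 hy
    calc (K : ℝ) * |y a - x a| < K * ((e - rho d) / (2 * K)) := mul_lt_mul_of_pos_left h3 hK0
      _ = (e - rho d) / 2 := by field_simp
  refine ⟨(e + rho d) / 2, by linarith, fun a => ?_⟩
  obtain ⟨h1, h2, h3, h4⟩ := hx a
  have h5 := hd a
  refine ⟨fun m => ?_, fun m => ?_, ?_, ?_⟩
  · have h6 := h1 m
    have h7 := abs_sub_abs_le_abs_sub ((K : ℝ) * x a + bet d p.1 - m) ((K : ℝ) * y a + bet d p.1 - m)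
    have h8 : ((K : ℝ) * x a + bet d p.1 - m) - ((K : ℝ) * y a + bet d p.1 - m) = K * x a - K * y a := by ring
    rw [h8] at h7
    linarith
  · have h6 := h2 m
    have h7 := abs_sub_abs_le_abs_sub ((K : ℝ) * x a - bet d p.1 - m) ((K : ℝ) * y a - bet d p.1 - m)
    have h8 : ((K : ℝ) * x a - bet d p.1 - m) - ((K : ℝ) * y a - bet d p.1 - m) = K * x a - K * y a := by ring
    rw [h8] at h7
    linarith
  · rw [← h3]
    apply floor_eq_of_far h1
    have h8 : ((K : ℝ) * x a + bet d p.1) - ((K : ℝ) * y a + bet d p.1) = K * x a - K * y a := by ring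
    rw [h8]
    linarith
  · rw [← h4]
    apply floor_eq_of_far h2
    have h8 : ((K : ℝ) * x a - bet d p.1) - ((K : ℝ) * y a - bet d p.1) = K * x a - K * y a := by ring
    rw [h8]
    linarith

private theorem dist_cov (d K : ℕ) (hK : 2 ≤ K) (p : Fin (d + 1) × (H → ℤ × ℤ)) {x y : Pt o}
    (hx : x ∈ cov o d K p) (hy : y ∈ cov o d K p) : dist x y ≤ 2 * (1 / K) := by
  obtain ⟨e, he, hx⟩ := hx
  obtain ⟨e', he', hy⟩ := hy
  have hK2 : (2 : ℝ) ≤ K := by exact_mod_cast hK
  have hK0 : (0 : ℝ) < K := by linarith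
  apply dist_le_of_sup
  · positivity
  · rw [div_lt_one hK0]
    linarith
  · intro a
    have h1 := (hx a).2.2.1
    have h2 := (hy a).2.2.1
    have h3 := Int.floor_le ((K : ℝ) * x a + bet d p.1)
    have h4 := Int.lt_floor_add_one ((K : ℝ) * x a + bet d p.1)
    have h5 := Int.floor_le ((K : ℝ) * y a + bet d p.1)
    have h6 := Int.lt_floor_add_one ((K : ℝ) * y a + bet d p.1)
    rw [h1] at h3 h4
    rw [h2] at h5 h6
    have h7 : (K : ℝ) * |x a - y a| ≤ 1 := by
      have h8 : (K : ℝ) * |x a - y a| = |(K : ℝ) * x a - K * y a| := by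
        rw [← mul_sub, abs_mul, abs_of_pos hK0]
      rw [h8, abs_le]
      constructor <;> linarith
    rw [le_div_iff₀ hK0]
    linarith

private theorem exists_cov {d : ℕ} (hw : Width H d) (K : ℕ) (x : Pt o) : ∃ p, x ∈ cov o d K p := by
  by_contra hcon
  push Not at hcon
  have h0 := rho_pos d
  -- for each `j` there is a bad halfspace
  have hbad : ∀ j : Fin (d + 1), ∃ a : H, ∃ m : ℤ, |(K : ℝ) * x a + bet d j - m| < 2 * rho d := by
    intro j
    by_contra hj
    push Not at hj
    refine hcon (j, fun a => (⌊(K : ℝ) * x a + bet d j⌋, ⌊(K : ℝ) * x a - bet d j⌋)) ⟨2 * rho d, by linarith, fun a => ?_⟩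
    refine ⟨fun m => hj a m, fun m => ?_, rfl, rfl⟩
    have h1 := hj (op a) (K - m)
    rw [x.op_val] at h1
    push_cast at h1
    have h2 : (K : ℝ) * (1 - x a) + bet d j - (K - m) = -((K : ℝ) * x a - bet d j - m) := by ring
    rw [h2, abs_neg] at h1
    exact h1
  choose a m ham using hbad
  -- the values are fractional
  have hfrac : ∀ j, 0 < x (a j) ∧ x (a j) < 1 := by
    intro j
    have hj1 : (0 : ℤ) < (j : ℤ) + 1 := by positivity
    have hj2 : ((j : ℤ) + 1) < 2 * ((d : ℤ) + 2) := by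
      have := j.2
      omega
    have hb := bet_eq d j
    constructor
    · refine lt_of_le_of_ne (x.nonneg _) fun h => ?_
      have h1 := ham j
      rw [← h, mul_zero, zero_add, hb] at h1
      refine far_of_mul d ((j : ℤ) + 1) (m j) hj1 hj2 ?_
      push_cast
      linarith
    · refine lt_of_le_of_ne (Pt.le_one x _) fun h => ?_
      have h1 := ham j
      rw [h, mul_one, hb] at h1
      refine far_of_mul d ((j : ℤ) + 1) (m j - K) hj1 hj2 ?_
      push_cast
      have h2 : 4 * rho d * ((j : ℝ) + 1) - ((m j : ℝ) - K) = K + 4 * rho d * ((j : ℝ) + 1) - m j := by ring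
      rw [h2]
      linarith
  -- different indices give different halfspaces
  have hinj : ∀ j j' : Fin (d + 1), j < j' → a j ≠ a j' := by
    intro j j' hjj h
    have h1 := ham j
    have h2 := ham j'
    rw [← h] at h2
    have hjj' : (j : ℕ) < (j' : ℕ) := hjj
    have hj2 := j'.2
    refine far_of_mul d ((j' : ℤ) - (j : ℤ)) (m j' - m j) (by omega) (by omega) ?_
    rw [bet_eq] at h1 h2
    push_cast
    have h3 : 4 * rho d * ((j' : ℝ) - (j : ℝ)) - ((m j' : ℝ) - m j)
        = ((K : ℝ) * x (a j) + 4 * rho d * ((j' : ℝ) + 1) - m j') - ((K : ℝ) * x (a j) + 4 * rho d * ((j : ℝ) + 1) - m j) := by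
      ring
    rw [h3]
    refine lt_of_le_of_lt (abs_sub _ _) ?_
    linarith
  have hinj' : Function.Injective a := by
    intro j j' h
    rcases lt_trichotomy j j' with h1 | h1 | h1
    · exact absurd h (hinj j j' h1)
    · exact h1
    · exact absurd h.symm (hinj j' j h1)
  have hop : ∀ j j' : Fin (d + 1), op (a j) ≠ a j' := by
    intro j j' h
    have h1 := ham j
    have h2 := ham j'
    rw [← h, x.op_val] at h2
    have hj1 := j.2
    have hj2 := j'.2
    refine far_of_mul d (((j : ℤ) + 1) + ((j' : ℤ) + 1)) (m j + m j' - K) (by omega) (by omega) ?_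
    rw [bet_eq] at h1 h2
    push_cast
    have h3 : 4 * rho d * (((j : ℝ) + 1) + ((j' : ℝ) + 1)) - ((m j : ℝ) + m j' - K)
        = ((K : ℝ) * (1 - x (a j)) + 4 * rho d * ((j' : ℝ) + 1) - m j') + ((K : ℝ) * x (a j) + 4 * rho d * ((j : ℝ) + 1) - m j) := by
      ring
    rw [h3]
    refine lt_of_le_of_lt (abs_add_le _ _) ?_
    linarith
  classical
  have hc := Pt.card_frac x hw (Finset.univ.image a)
    (fun b hb => by
      obtain ⟨j, _, rfl⟩ := Finset.mem_image.1 hb
      exact hfrac j)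
    (fun b hb hb' => by
      obtain ⟨j, _, rfl⟩ := Finset.mem_image.1 hb
      obtain ⟨j', _, h⟩ := Finset.mem_image.1 hb'
      exact hop j j' h.symm)
  rw [Finset.card_image_of_injective _ hinj', Finset.card_univ, Fintype.card_fin] at hc
  omega

theorem smallCovers_pt {d : ℕ} (hw : Width H d) : Pool.Agent.GLN.SmallCovers (Pt o) d := by
  intro ε hε
  obtain ⟨K, hK⟩ := exists_nat_gt (max 2 (2 / ε))
  have hK2 : (2 : ℝ) < K := lt_of_le_of_lt (le_max_left _ _) hK
  have hKε : 2 / ε < K := lt_of_le_of_lt (le_max_right _ _) hK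
  have hK0 : (0 : ℝ) < K := by linarith
  have hK2' : 2 ≤ K := by exact_mod_cast hK2.le
  refine ⟨Fin (d + 1) × (H → ℤ × ℤ), cov o d K, isOpen_cov d K (by omega), ?_, ?_, ?_⟩
  · rw [eq_univ_iff_forall]
    intro x
    obtain ⟨p, hp⟩ := exists_cov hw K x
    exact mem_iUnion.2 ⟨p, hp⟩
  · intro p x hx y hy
    refine lt_of_le_of_lt (dist_cov d K hK2' p hx hy) ?_
    rw [div_lt_iff₀ hε] at hKε
    rw [mul_one_div, div_lt_iff₀ hK0]
    linarith
  · intro x
    have h1 : {p | x ∈ cov o d K p} ⊆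
        (fun j : Fin (d + 1) => ((j, fun a => (⌊(K : ℝ) * x a + bet d j⌋, ⌊(K : ℝ) * x a - bet d j⌋)) :
          Fin (d + 1) × (H → ℤ × ℤ))) '' univ := by
      rintro ⟨j, f⟩ ⟨e, _, hx⟩
      refine ⟨j, mem_univ _, ?_⟩
      ext a
      · rfl
      · exact (hx a).2.2.1
      · exact (hx a).2.2.2
    refine (encard_le_encard h1).trans ?_
    refine (encard_image_le _ _).trans ?_
    rw [encard_univ, ENat.card_eq_coe_fintype_card, Fintype.card_fin]
    push_cast
    exact le_rfl

end Pool.Agent.CCC
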