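import Pool.Agent.Lib.MP_98022b_cc.Geo
import Pool.Agent.Lib.MP_98022b_cc.GaugeConv
import Pool.Agent.Lib.MP_98022b_cc.HullG
import Pool.Agent.Lib.MP_98022b_cc.Compact
import Pool.Agent.Lib.MP_98022b_cc.Small
import Pool.Agent.Lib.MP_98022b_gln.ConeMain

/-!
# Row CR: the cone data (assembly)

`convex`: `Bal.gz_convex` for `m` and `gz` is decreasing in `m`. `loc`: the same, for all `y`. `radius`: `R = η`.
-/

set_option autoImplicit false

open Set

namespace Pool.Agent.CCC

open Pocset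

variable {H : Type} [Pocset H] {o : Set H} {G : Type} [Group G] [PocAct G H] [Based G o]
  {S : Finset G}

theorem coneData {d : ℕ} (hw : Width H d) (ho : IsVertex o) (h1 : (1 : G) ∈ S) :
    ∃ η : ℝ, Pool.Agent.GLN.ConeData G S (Pt o) geo (Pt.base ho) (fun m x => gF S m x) 1 η η := by
  classical
  obtain ⟨η, hη'⟩ := (S.image fun s => dist (Pt.base ho) (s • Pt.base ho)).exists_le
  have hη : ∀ s ∈ S, dist (Pt.base ho) (s • Pt.base ho) ≤ η := fun s hs =>
    hη' _ (Finset.mem_image_of_mem _ hs)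
  have hη0 : 0 ≤ η := dist_nonneg.trans (hη 1 h1)
  have hHl := hH_isHull (o := o) h1 ho
  have hconv : ∀ (m : ℕ) (x y : Pt o) (t : ℝ), 0 ≤ t → t ≤ 1 →
      gF S m (geo x y t) ≤ (1 - t) * gF S m x + t * gF S m y := by
    intro m x y t ht0 ht1
    obtain ⟨A, E, h⟩ := exists_bal_geo x y
    have h2 := h.gz_convex ho (hHl m) ⟨ht0, ht1⟩
    rw [geo_zero, geo_one] at h2
    exact h2
  have hanti : ∀ (m : ℕ) (x : Pt o), gF S (m + 1) x ≤ gF S m x := fun m x =>
    gz_mono ho (hHl (m + 1)) (hHl m) (hH_anti h1 m) x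
  refine ⟨η, ?_⟩
  constructor
  · exact bicomb_geo
  · exact dist_smul'
  · exact fun g x y t h0 h1 => Pool.Agent.CCC.geo_smul g x y t h0 h1
  · exact fun m x => gz_nonneg ho (hHl m) x
  · exact hanti
  · intro m x y
    rw [one_mul]
    exact gz_lip ho (hHl m) x y
  · exact fun m => gz_base ho (hHl m)
  · exact fun m x y t ht0 ht1 => (hanti m _).trans (hconv m x y t ht0 ht1)
  · exact fun x => ⟨1, one_pos, fun y _ m t ht0 ht1 => hconv m x y t ht0 ht1⟩
  · exact fun s hs m x => gF_smul h1 ho hs m x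
  · intro m x
    have h2 := gF_radius h1 ho hη m x
    have h3 : 0 ≤ gF S m x := gz_nonneg ho (hHl m) x
    show dist (Pt.base ho) x ≤ η * (m + 1) + 2 * gF S m x
    linarith [mul_comm η (m : ℝ)]
  · exact fun c hc => isCompact_gz hw ho (fun m => hH S m o) hHl (fun m => undecided_finite m) c hc
  · exact hη

theorem coneOut_pt {d : ℕ} (hw : Width H d) (ho : IsVertex o) (h1 : (1 : G) ∈ S) :
    Pool.Agent.GLN.ConeOut geo (Pt.base ho) (fun m (x : Pt o) => gF S m x) S (2 * d + 2) := by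
  obtain ⟨η, hη⟩ := coneData (S := S) hw ho h1
  exact Pool.Agent.GLN.coneOut hη h1 (smallCovers_pt hw)

end Pool.Agent.CCC
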