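import Pool.Agent.Lib.MP_98022b_cc.States
import Pool.Agent.Lib.MP_98022b_cc.HullG

/-!
# Row CU: the states of small gauge are finitely many

If `far r e w`, `gF S m w < e` and `a ∈ hH S m o` then `w (op a) ≤ gz < e` (chain `{op a}`), so `w (op a) ≤ thr r`
(otherwise `w (op a) ≥ thr r + e`), so `op a ∉ st r w` and `a ∈ st r w`. So `U = st r w` is a cube with `a ∈ U`,
`op a ∉ U` for `a ∈ hH S m o`: it is determined by `U ∩ N`, `N` the finite set of the undecided halfspaces. COUNT
(`n = ncard N`, at most `2 ^ (C (m + 1))`): `U` is determined by `U \ o` (`a ∈ o`: `a ∈ U` iff not (`op a ∈ W`), see below)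
and `W = {b ∉ o | op b ∉ U}`. Both are subsets of `N \ o` which are closed upwards in `oᶜ`; the set of the minimal
elements of `U \ o` is an antichain of pairwise transverse halfspaces (`a < op b` with `a, b ∈ U` is impossible
(`nested`), `a = op b` is impossible since both are not in `o`; `op a ≤ b` is impossible since `op a ∈ o`, `b ∉ o`), so it
has at most `d` elements; the same for `W`. A subset of `N` with at most `d` elements: at most `(n + 1) ^ d`
choices (functions `Fin d → Option N`). So at most `(n + 1) ^ (2 d)` cubes.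
-/

set_option autoImplicit false

open Set

namespace Pool.Agent.CCC

open Pocset

variable {H : Type} [Pocset H] {o : Set H}

/-- cubes inside a hull -/
def inHull (U : Set H) (Q : Cube o) : Prop := ∀ a ∈ U, op a ∉ Q.1

theorem st_inHull (ho : IsVertex o) {U : Set H} (hU : IsHull o U) {r e : ℝ} {x : Pt o}
    (h : far r e x) (hg : gz U x < e) : inHull U (st r x) := by
  intro a ha hQ
  have hQ' : thr r < x (op a) := hQ
  have h1 : ∑ b ∈ ({op a} : Finset H), x b ≤ gz U x := by
    refine sum_le_gz ho hU x ?_ ?_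
    · intro b hb c hc hbc
      have e1 : b = op a := by simpa using hb
      have e2 : c = op a := by simpa using hc
      exact absurd (e1.trans e2.symm) hbc
    · intro b hb
      have e1 : b = op a := by simpa using hb
      rw [e1, op_op]
      exact ha
  rw [Finset.sum_singleton] at h1
  have h2 := h (op a)
  rw [abs_of_pos (by linarith)] at h2
  have h3 := (thr_pos r).1
  linarith

/-- a set closed upwards outside `o` without two comparable elements that are not transverse is given by a code -/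
private theorem exists_code {d : ℕ} (hw : Width H d) {N P : Set H} (hN : N.Finite) (hP : P ⊆ N)
    (hPo : ∀ b ∈ P, b ∉ o) (hup : ∀ b ∈ P, ∀ c, b ≤ c → c ∉ o → c ∈ P)
    (htr : ∀ a ∈ P, ∀ b ∈ P, ¬ a ≤ b → ¬ b ≤ a → Transverse a b) :
    ∃ f : Fin d → Option N, ∀ c, c ∈ P ↔ c ∉ o ∧ ∃ i, ∃ b : N, f i = some b ∧ (b : H) ≤ c := by
  classical
  have hPf : P.Finite := hN.subset hP
  have hMf : {b | Minimal (· ∈ P) b}.Finite := hPf.subset fun b hb => hb.prop
  obtain ⟨M, hM⟩ : ∃ M : Finset H, ∀ b, b ∈ M ↔ Minimal (· ∈ P) b :=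
    ⟨hMf.toFinset, fun b => by simp⟩
  have hcard : M.card ≤ d := by
    refine hw M fun a ha b hb hab => ?_
    have h1 := (hM a).1 ha
    have h2 := (hM b).1 hb
    refine htr a h1.prop b h2.prop (fun h => hab ?_) (fun h => hab ?_)
    · exact le_antisymm h (h2.le_of_le h1.prop h)
    · exact le_antisymm (h1.le_of_le h2.prop h) h
  have hcard' : Fintype.card M ≤ Fintype.card (Fin d) := by
    rw [Fintype.card_coe, Fintype.card_fin]; exact hcard
  obtain ⟨e⟩ := Function.Embedding.nonempty_of_card_le hcard'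
  obtain ⟨g, hg⟩ : ∃ g : M → Option N, ∀ m : M, ∃ b : N, g m = some b ∧ (b : H) = m :=
    ⟨fun m => some ⟨m, hP ((hM m).1 m.2).prop⟩, fun m => ⟨_, rfl, rfl⟩⟩
  refine ⟨Function.extend e g (fun _ => none), fun c => ⟨fun hc => ⟨hPo c hc, ?_⟩, ?_⟩⟩
  · obtain ⟨m, hmc, hm⟩ := hPf.exists_le_minimal hc
    obtain ⟨b, hb, hb'⟩ := hg ⟨m, (hM m).2 hm⟩
    exact ⟨e ⟨m, (hM m).2 hm⟩, b, by rw [e.injective.extend_apply]; exact hb, by rw [hb']; exact hmc⟩
  · rintro ⟨hco, i, b, hi, hbc⟩
    by_cases hex : ∃ m, e m = i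
    · obtain ⟨m, rfl⟩ := hex
      rw [e.injective.extend_apply] at hi
      obtain ⟨b', hb', hb''⟩ := hg m
      have e1 : b = b' := by
        rw [hi] at hb'
        exact Option.some.inj hb'
      have hbP : (b : H) ∈ P := by
        rw [e1, hb'']
        exact ((hM m).1 m.2).prop
      exact hup b hbP c hbc hco
    · rw [Function.extend_apply' _ _ _ hex] at hi
      exact absurd hi (by simp)

theorem ncard_inHull {d : ℕ} (hw : Width H d) (ho : IsVertex o) {U : Set H} (hU : IsHull o U)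
    (hf : {a | a ∉ U ∧ op a ∉ U}.Finite) :
    {Q : Cube o | inHull U Q}.Finite ∧
      {Q : Cube o | inHull U Q}.ncard ≤ ({a | a ∉ U ∧ op a ∉ U}.ncard + 1) ^ (2 * d) := by
  classical
  obtain ⟨N, hN⟩ : ∃ N : Set H, N = {a | a ∉ U ∧ op a ∉ U} := ⟨_, rfl⟩
  rw [← hN] at hf ⊢
  have hmN : ∀ a, a ∈ N ↔ a ∉ U ∧ op a ∉ U := fun a => by rw [hN]; rfl
  have : Finite N := hf
  have : Fintype N := Fintype.ofFinite N
  have hout : ∀ a, a ∉ o → op a ∈ o := fun a ha => by
    by_contra h
    exact ha ((ho.iff_op a).2 h)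
  have hin : ∀ a, a ∈ o → op a ∉ o := fun a ha => (ho.iff_op a).1 ha
  -- the codes
  have key : ∀ Q : Cube o, inHull U Q → ∃ f : (Fin d → Option N) × (Fin d → Option N),
      (∀ c, (c ∈ Q.1 ∧ c ∉ o) ↔ c ∉ o ∧ ∃ i, ∃ b : N, f.1 i = some b ∧ (b : H) ≤ c) ∧
      (∀ c, (op c ∉ Q.1 ∧ c ∉ o) ↔ c ∉ o ∧ ∃ i, ∃ b : N, f.2 i = some b ∧ (b : H) ≤ c) := by
    intro Q hQ
    have hQc := Q.2.1
    have hop : ∀ a, op a ∉ Q.1 → a ∈ Q.1 := fun a ha => (hQc.or_op a).resolve_right ha
    have hnest : ∀ a b, a ≤ op b → a ∉ o → b ∉ o → a ∈ Q.1 → b ∉ Q.1 := by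
      intro a b hab ha hb haQ
      rcases hab.lt_or_eq with h | h
      · have := hQc.nested _ _ h haQ
        rwa [op_op] at this
      · exact absurd (h ▸ hout b hb) ha
    obtain ⟨f1, hf1⟩ := exists_code (o := o) hw (N := N) (P := {c | c ∈ Q.1 ∧ c ∉ o}) hf
      (by
        rintro c ⟨h1, h2⟩
        rw [hmN]
        refine ⟨fun h => h2 (hU.sub h), fun h => ?_⟩
        have := hQ _ h
        rw [op_op] at this
        exact this h1)
      (fun b hb => hb.2)
      (by
        rintro b ⟨h1, h2⟩ c hbc hc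
        refine ⟨?_, hc⟩
        rcases hbc.lt_or_eq with h | h
        · exact hop c (hQc.nested _ _ h h1)
        · rw [← h]; exact h1)
      (by
        rintro a ⟨ha1, ha2⟩ b ⟨hb1, hb2⟩ h1 h2
        exact ⟨h1, h2, fun h => hnest a b h ha2 hb2 ha1 hb1, fun h => hb2 (ho.up _ _ h (hout a ha2))⟩)
    obtain ⟨f2, hf2⟩ := exists_code (o := o) hw (N := N) (P := {c | op c ∉ Q.1 ∧ c ∉ o}) hf
      (by
        rintro c ⟨h1, h2⟩
        rw [hmN]
        refine ⟨fun h => h2 (hU.sub h), fun h => ?_⟩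
        exact h1 (hop _ (hQ _ h)))
      (fun b hb => hb.2)
      (by
        rintro b ⟨h1, h2⟩ c hbc hc
        refine ⟨fun h3 => ?_, hc⟩
        rcases hbc.lt_or_eq with h | h
        · have h4 := hQc.nested _ _ (op_lt_op h) h3
          rw [op_op] at h4
          exact h4 (hop b h1)
        · rw [← h] at h3; exact h1 h3)
      (by
        rintro a ⟨ha1, ha2⟩ b ⟨hb1, hb2⟩ h1 h2
        exact ⟨h1, h2, fun h => hnest a b h ha2 hb2 (hop a ha1) (hop b hb1),
          fun h => hb2 (ho.up _ _ h (hout a ha2))⟩)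
    exact ⟨(f1, f2), hf1, hf2⟩
  choose! F hF using key
  have hinj : InjOn F {Q : Cube o | inHull U Q} := by
    intro Q hQ Q' hQ' hFF
    obtain ⟨h1, h2⟩ := hF Q hQ
    obtain ⟨h3, h4⟩ := hF Q' hQ'
    rw [hFF] at h1 h2
    apply Subtype.ext
    ext a
    by_cases ha : a ∈ o
    · have h5 := (h2 (op a)).trans (h4 (op a)).symm
      rw [op_op] at h5
      have h6 := hin a ha
      constructor
      · intro h
        by_contra h'
        exact (h5.2 ⟨h', h6⟩).1 h
      · intro h
        by_contra h'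
        exact (h5.1 ⟨h', h6⟩).1 h
    · have h5 := (h1 a).trans (h3 a).symm
      constructor
      · intro h
        exact (h5.1 ⟨h, ha⟩).1
      · intro h
        exact (h5.2 ⟨h, ha⟩).1
  have hfin : {Q : Cube o | inHull U Q}.Finite :=
    Set.Finite.of_injOn (t := univ) (fun _ _ => mem_univ _) hinj (Set.finite_univ)
  refine ⟨hfin, ?_⟩
  have h1 : {Q : Cube o | inHull U Q}.ncard ≤
      (univ : Set ((Fin d → Option N) × (Fin d → Option N))).ncard :=
    Set.ncard_le_ncard_of_injOn F (fun _ _ => mem_univ _) hinj Set.finite_univ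
  refine h1.trans (le_of_eq ?_)
  rw [Set.ncard_univ, Nat.card_eq_fintype_card, Fintype.card_prod, Fintype.card_fun,
    Fintype.card_option, Fintype.card_fin, ← pow_add, ← two_mul, ← Nat.card_coe_set_eq,
    Nat.card_eq_fintype_card]

theorem gaugeFin_pt {G : Type} [Group G] [PocAct G H] [Based G o] {S : Finset G} {d : ℕ}
    (hw : Width H d) (ho : IsVertex o) (h1 : (1 : G) ∈ S) : ∃ C : ℕ, ∀ m : ℕ, ∃ A : Set (Cube o),
    A.Finite ∧ A.ncard ≤ 2 ^ (C * (m + 1)) ∧
      ∀ r e (x : Pt o), far r e x → gF S m x < e → st r x ∈ A := by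
  obtain ⟨C, hC⟩ := undecided_ncard (H := H) (o := o) h1
  refine ⟨(C + 1) * (2 * d), fun m => ?_⟩
  have hU := hH_isHull (H := H) (o := o) h1 ho m
  obtain ⟨h2, h3⟩ := ncard_inHull hw ho hU (undecided_finite m)
  refine ⟨{Q : Cube o | inHull (hH S m o) Q}, h2, h3.trans ?_, fun r e x hx hg => ?_⟩
  · have h4 := hC m
    have h5 : {a : H | a ∉ hH S m o ∧ op a ∉ hH S m o}.ncard + 1 ≤ 2 ^ ((C + 1) * (m + 1)) := by
      have h6 : 2 ^ (C * (m + 1)) * 2 ≤ 2 ^ ((C + 1) * (m + 1)) := by
        rw [← pow_succ]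
        refine Nat.pow_le_pow_right (by norm_num) ?_
        nlinarith
      have h7 : 1 ≤ 2 ^ (C * (m + 1)) := Nat.one_le_two_pow
      linarith
    calc ({a : H | a ∉ hH S m o ∧ op a ∉ hH S m o}.ncard + 1) ^ (2 * d)
        ≤ (2 ^ ((C + 1) * (m + 1))) ^ (2 * d) := Nat.pow_le_pow_left h5 _
      _ = 2 ^ ((C + 1) * (2 * d) * (m + 1)) := by
          rw [← pow_mul]
          congr 1
          ring
  · exact st_inHull ho hU hx hg

end Pool.Agent.CCC
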