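import Pool.Agent.Lib.MP_98022b_cc.IndexSlow

/-!
# The index lemma
-/

set_option autoImplicit false

open Set

namespace Pool.Agent.CC

/-- The size of the parameters. -/
theorem index_param (d : ℕ) : ∃ A : ℕ, ∀ H : ℕ, 2 ≤ H → ∀ X Y : ℝ, ∀ M : ℕ,
    M = 8 * (d + 1) * ((d * (5 * H + 2)).factorial) ^ (d * (5 * H + 2)) →
    Y = (((2 * d : ℕ) + 1 : ℝ) * M) ^ (2 * d) → X = 10 * ((2 * d : ℕ) + 1 : ℝ) * Y + 1 →
    200000 * ((d : ℝ) + 1) * H * X ^ (2 * d) ≤ 2 ^ (H ^ A) := by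
  obtain ⟨D, hD⟩ : ∃ D, D = 2 * d := ⟨_, rfl⟩
  obtain ⟨q, hq⟩ : ∃ q, q = 8 * (d + 1) := ⟨_, rfl⟩
  obtain ⟨C, hC⟩ : ∃ C, C = D * (D + 5 + (D + 1 + q + (6 * d) ^ 3) * D) + 18 + (d + 1) + 1 :=
    ⟨_, rfl⟩
  refine ⟨C + 3, fun H hH X Y M hM hY hX => ?_⟩
  rw [← hD] at hY hX ⊢
  rw [← hq] at hM
  obtain ⟨N, hN⟩ : ∃ N, N = d * (5 * H + 2) := ⟨_, rfl⟩
  rw [← hN] at hM
  have hlt : ∀ a : ℕ, (a : ℝ) ≤ 2 ^ a := fun a => by
    exact_mod_cast (Nat.lt_two_pow_self (n := a)).le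
  -- the denominator
  have hMb : (M : ℝ) ≤ 2 ^ (q + N ^ 3) := by
    have h1 : N.factorial ≤ 2 ^ (N * N) := by
      refine (Nat.factorial_le_pow N).trans ?_
      rw [pow_mul]
      exact Nat.pow_le_pow_left (Nat.lt_two_pow_self (n := N)).le N
    have h2 : N.factorial ^ N ≤ 2 ^ (N ^ 3) := by
      calc N.factorial ^ N ≤ (2 ^ (N * N)) ^ N := Nat.pow_le_pow_left h1 N
        _ = 2 ^ (N ^ 3) := by
            rw [← pow_mul]
            congr 1
            ring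
    have h3 : M ≤ 2 ^ (q + N ^ 3) := by
      rw [hM, pow_add]
      exact Nat.mul_le_mul (Nat.lt_two_pow_self (n := q)).le h2
    exact_mod_cast h3
  have hM1 : (1 : ℝ) ≤ M := by
    have : 1 ≤ M := by
      rw [hM]
      have h1 : 1 ≤ N.factorial ^ N := Nat.one_le_pow _ _ (Nat.factorial_pos N)
      have h2 : 1 ≤ q := by omega
      exact Nat.mul_le_mul h2 h1
    exact_mod_cast this
  have hD0 : (0 : ℝ) ≤ D := Nat.cast_nonneg D
  have hD1 : ((D : ℝ) + 1) ≤ 2 ^ (D + 1) := by exact_mod_cast hlt (D + 1)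
  have hY1 : 1 ≤ Y := by
    rw [hY]
    refine one_le_pow₀ ?_
    nlinarith
  have hYb : Y ≤ 2 ^ ((D + 1 + q + N ^ 3) * D) := by
    rw [hY, pow_mul]
    refine pow_le_pow_left₀ (by positivity) ?_ D
    calc ((D : ℝ) + 1) * M ≤ 2 ^ (D + 1) * 2 ^ (q + N ^ 3) :=
          mul_le_mul hD1 hMb (by linarith) (by positivity)
      _ = 2 ^ (D + 1 + q + N ^ 3) := by
          rw [← pow_add]
          congr 1
          ring
  have hX0 : 0 ≤ X := by
    rw [hX]
    positivity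
  have hXb : X ≤ 2 ^ (D + 5 + (D + 1 + q + N ^ 3) * D) := by
    calc X ≤ 16 * (((D : ℝ) + 1) * Y) := by
          rw [hX]
          nlinarith
      _ ≤ 16 * (2 ^ (D + 1) * 2 ^ ((D + 1 + q + N ^ 3) * D)) := by
          refine mul_le_mul_of_nonneg_left ?_ (by norm_num)
          exact mul_le_mul hD1 hYb (by linarith) (by positivity)
      _ = 2 ^ (D + 5 + (D + 1 + q + N ^ 3) * D) := by
          rw [pow_add 2 (D + 5), pow_add 2 D 5, pow_add 2 D 1]
          norm_num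
          ring
  have hXD : X ^ D ≤ 2 ^ ((D + 5 + (D + 1 + q + N ^ 3) * D) * D) := by
    rw [pow_mul]
    exact pow_le_pow_left₀ hX0 hXb D
  have hfr : 200000 * ((d : ℝ) + 1) * H ≤ 2 ^ (18 + (d + 1) + H) := by
    have h1 : ((d : ℝ) + 1) ≤ 2 ^ (d + 1) := by exact_mod_cast hlt (d + 1)
    have h2 := hlt H
    rw [pow_add, pow_add]
    have h3 : (200000 : ℝ) ≤ 2 ^ 18 := by norm_num
    have h4 : (0 : ℝ) ≤ d := Nat.cast_nonneg d
    exact mul_le_mul (mul_le_mul h3 h1 (by linarith) (by positivity)) h2 (Nat.cast_nonneg H)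
      (by positivity)
  have hE : 18 + (d + 1) + H + (D + 5 + (D + 1 + q + N ^ 3) * D) * D ≤ H ^ (C + 3) := by
    have h1 : N ^ 3 ≤ (6 * d) ^ 3 * H ^ 3 := by
      rw [← mul_pow]
      refine Nat.pow_le_pow_left ?_ 3
      rw [hN]
      nlinarith
    have hH3 : 1 ≤ H ^ 3 := Nat.one_le_pow _ _ (by omega)
    have hHH : H ≤ H ^ 3 := by
      calc H = H ^ 1 := (pow_one H).symm
        _ ≤ H ^ 3 := Nat.pow_le_pow_right (by omega) (by norm_num)
    have h2 : 18 + (d + 1) + H + (D + 5 + (D + 1 + q + N ^ 3) * D) * D ≤ C * H ^ 3 := by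
      have h3 : D + 1 + q + N ^ 3 ≤ (D + 1 + q + (6 * d) ^ 3) * H ^ 3 := by
        calc D + 1 + q + N ^ 3 ≤ (D + 1 + q) * H ^ 3 + (6 * d) ^ 3 * H ^ 3 :=
              Nat.add_le_add (Nat.le_mul_of_pos_right _ hH3) h1
          _ = _ := by ring
      have h4 : D + 5 + (D + 1 + q + N ^ 3) * D ≤
          (D + 5 + (D + 1 + q + (6 * d) ^ 3) * D) * H ^ 3 := by
        calc D + 5 + (D + 1 + q + N ^ 3) * D
            ≤ (D + 5) * H ^ 3 + ((D + 1 + q + (6 * d) ^ 3) * H ^ 3) * D :=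
              Nat.add_le_add (Nat.le_mul_of_pos_right _ hH3) (Nat.mul_le_mul_right _ h3)
          _ = _ := by ring
      have h5 := Nat.mul_le_mul_right D h4
      have h6 : 18 + (d + 1) ≤ (18 + (d + 1)) * H ^ 3 := Nat.le_mul_of_pos_right _ hH3
      calc 18 + (d + 1) + H + (D + 5 + (D + 1 + q + N ^ 3) * D) * D
          ≤ (18 + (d + 1)) * H ^ 3 + H ^ 3 +
            (D + 5 + (D + 1 + q + (6 * d) ^ 3) * D) * H ^ 3 * D :=
            Nat.add_le_add (Nat.add_le_add h6 hHH) h5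
        _ = C * H ^ 3 := by
            rw [hC]
            ring
    refine h2.trans ?_
    rw [pow_add]
    refine Nat.mul_le_mul_right _ ?_
    exact (Nat.lt_two_pow_self (n := C)).le.trans (Nat.pow_le_pow_left hH C)
  calc 200000 * ((d : ℝ) + 1) * H * X ^ D
      ≤ 2 ^ (18 + (d + 1) + H) * 2 ^ ((D + 5 + (D + 1 + q + N ^ 3) * D) * D) :=
        mul_le_mul hfr hXD (by positivity) (by positivity)
    _ = 2 ^ (18 + (d + 1) + H + (D + 5 + (D + 1 + q + N ^ 3) * D) * D) := by rw [← pow_add]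
    _ ≤ 2 ^ (H ^ (C + 3)) := pow_le_pow_right₀ (by norm_num) hE

/-- The parameters of a window: the event times have bounded denominators. -/
theorem event_cv {P : Type} [Fintype P] [PartialOrder P] {L : ℝ} {s e st ka : P → ℝ} {d N : ℕ}
    (hS : Sched L s e st ka) (hN : Fintype.card P ≤ N) {I : Type} [Fintype I] {β : I → ℝ}
    (hex0 : ∀ h, s h = 0 → Cv β 1 (st h)) (hexL : ∀ h, e h = L → Cv β 1 (st h + ka h))
    (k : Fin (2 * d + 1)) (h : P) {ρ : ℝ}
    (hρ : ρ = ((k : ℝ) + 1) / (8 * (d + 1)) ∨ ρ = 1 - ((k : ℝ) + 1) / (8 * (d + 1))) :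
    Cv β (8 * (d + 1) * N.factorial ^ N) (st h + ρ * ka h) := by
  obtain ⟨h1, h2⟩ := exists_rational hS hex0 hexL h
  have hdvd : (Fintype.card P).factorial ^ Fintype.card P ∣ N.factorial ^ N :=
    (pow_dvd_pow_of_dvd (Nat.factorial_dvd_factorial hN) _).trans (pow_dvd_pow _ hN)
  have hk : (k : ℕ) + 1 ≤ 8 * (d + 1) := by omega
  have hq : (0 : ℝ) < 8 * (d + 1) := by positivity
  obtain ⟨a, ha⟩ : ∃ a, a + ((k : ℕ) + 1) = 8 * (d + 1) := ⟨8 * (d + 1) - (k + 1), by omega⟩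
  have ha' : (a : ℝ) + (k + 1) = 8 * (d + 1) := by exact_mod_cast ha
  rcases hρ with rfl | rfl
  · have h3 := h1.comb h2 a ((k : ℕ) + 1)
      (σ := st h + ((k : ℝ) + 1) / (8 * (d + 1)) * ka h) (by
        rw [ha]
        push_cast
        field_simp
        linear_combination (-(st h)) * ha')
    rw [ha] at h3
    exact h3.of_dvd (Nat.mul_dvd_mul_left _ hdvd)
  · have h3 := h1.comb h2 ((k : ℕ) + 1) a
      (σ := st h + (1 - ((k : ℝ) + 1) / (8 * (d + 1))) * ka h) (by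
        rw [add_comm ((k : ℕ) + 1) a, ha]
        push_cast
        field_simp
        linear_combination (-(st h + ka h)) * ha')
    rw [add_comm ((k : ℕ) + 1) a, ha] at h3
    exact h3.of_dvd (Nat.mul_dvd_mul_left _ hdvd)

theorem indexLemma_mono {d d' : ℕ} (hd : d ≤ d') (h : IndexLemma d') : IndexLemma d := by
  obtain ⟨K, A, h⟩ := h
  refine ⟨K, A, fun H hH => ?_⟩
  obtain ⟨r, δ, ε, h1, h2, h3⟩ := h H hH
  refine ⟨r, δ, ε, h1, h2, fun P _ _ C _ s e st ka v hS hP h0 hL => ?_⟩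
  exact h3 P C s e st ka v hS (hP.trans (Nat.mul_le_mul_right _ hd)) (h0.trans hd) (hL.trans hd)

/-- THE INDEX LEMMA. -/
theorem index_lemma (d : ℕ) : IndexLemma d := by
  classical
  wlog hd : 1 ≤ d generalizing d with hwlog
  · exact indexLemma_mono (Nat.le_succ d) (hwlog (d + 1) (by omega))
  obtain ⟨A, hA⟩ := index_param d
  obtain ⟨D, hD⟩ : ∃ D, D = 2 * d := ⟨_, rfl⟩
  refine ⟨(2 * d + 1) * (D + 1), A, fun H hH => ?_⟩
  obtain ⟨M, hM⟩ : ∃ M, M = 8 * (d + 1) * ((d * (5 * H + 2)).factorial) ^ (d * (5 * H + 2)) :=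
    ⟨_, rfl⟩
  obtain ⟨Y, hY⟩ : ∃ Y : ℝ, Y = (((2 * d : ℕ) + 1 : ℝ) * M) ^ (2 * d) := ⟨_, rfl⟩
  obtain ⟨X, hX⟩ : ∃ X : ℝ, X = 10 * ((2 * d : ℕ) + 1 : ℝ) * Y + 1 := ⟨_, rfl⟩
  have hbound := hA H hH X Y M hM hY hX
  rw [← hD] at hY hX hbound
  have hM1 : 1 ≤ M := by
    rw [hM]
    have h1 : 1 ≤ (d * (5 * H + 2)).factorial ^ (d * (5 * H + 2)) :=
      Nat.one_le_pow _ _ (Nat.factorial_pos _)
    exact Nat.mul_le_mul (show 1 ≤ 8 * (d + 1) by omega) h1
  have hM1' : (1 : ℝ) ≤ M := by exact_mod_cast hM1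
  have hD0 : (0 : ℝ) ≤ D := Nat.cast_nonneg D
  have hd0 : (1 : ℝ) ≤ d := by exact_mod_cast hd
  have hH0 : (2 : ℝ) ≤ H := by exact_mod_cast hH
  have hY1 : 1 ≤ Y := by
    rw [hY]
    refine one_le_pow₀ ?_
    nlinarith
  have hX1 : 1 ≤ X := by
    rw [hX]
    nlinarith
  have hX0 : 0 < X := by linarith
  obtain ⟨δ, hδ⟩ : ∃ δ : ℕ → ℝ, δ = fun l => 1 / (100 * X ^ l) := ⟨_, rfl⟩
  have hδ0 : ∀ l, 0 < δ l := fun l => by
    rw [hδ]
    positivity
  have hδs : ∀ l, 10 * ((D : ℝ) + 1) * Y * δ (l + 1) < δ l := by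
    intro l
    rw [hδ]
    have h1 : (1 : ℝ) / (100 * X ^ (l + 1)) = 1 / (100 * X ^ l) / X := by
      rw [pow_succ]
      field_simp
    show 10 * ((D : ℝ) + 1) * Y * (1 / (100 * X ^ (l + 1))) < 1 / (100 * X ^ l)
    rw [h1, ← mul_div_assoc, div_lt_iff₀ hX0]
    have h2 : (0 : ℝ) < 1 / (100 * X ^ l) := by positivity
    rw [hX] at h2 ⊢
    nlinarith
  have hδanti : ∀ l, l ≤ D → δ D ≤ δ l := by
    intro l hl
    rw [hδ]
    apply one_div_le_one_div_of_le (by positivity)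
    refine mul_le_mul_of_nonneg_left (pow_le_pow_right₀ hX1 hl) (by norm_num)
  have hδ1 : ∀ l, δ l ≤ 1 / 100 := by
    intro l
    rw [hδ]
    apply one_div_le_one_div_of_le (by norm_num)
    have := one_le_pow₀ hX1 (n := l)
    linarith
  obtain ⟨ε, hε⟩ : ∃ ε : ℝ, ε = δ D / (2000 * (d + 1) * H) := ⟨_, rfl⟩
  have hε0 : 0 < ε := by
    rw [hε]
    have := hδ0 D
    positivity
  have hden : (1 : ℝ) ≤ 2000 * (d + 1) * H := by nlinarith
  have hεδ : ∀ l, l ≤ D → ε ≤ δ l := by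
    intro l hl
    refine le_trans ?_ (hδanti l hl)
    rw [hε]
    exact div_le_self (hδ0 D).le hden
  have hεη : ε ≤ 1 / (100 * (d + 1)) := by
    rw [hε, div_le_div_iff₀ (by linarith) (by positivity)]
    have h1 := hδ1 D
    have h2 := hδ0 D
    nlinarith
  have hr0 : ∀ k : Fin (2 * d + 1), ε < ((k : ℝ) + 1) / (8 * (d + 1)) := by
    intro k
    refine lt_of_le_of_lt hεη ?_
    rw [div_lt_div_iff₀ (by positivity) (by positivity)]
    have : (0 : ℝ) ≤ k := Nat.cast_nonneg _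
    nlinarith
  have hr1 : ∀ k : Fin (2 * d + 1), ((k : ℝ) + 1) / (8 * (d + 1)) < 1 / 4 := by
    intro k
    rw [div_lt_iff₀ (by positivity)]
    have h1 : (k : ℕ) ≤ 2 * d := by omega
    have h2 : (k : ℝ) ≤ 2 * d := by exact_mod_cast h1
    linarith
  let E : Fin ((2 * d + 1) * (D + 1)) ≃ Fin (2 * d + 1) × Fin (D + 1) := finProdFinEquiv.symm
  refine ⟨fun p => (((E p).1 : ℝ) + 1) / (8 * (d + 1)), fun p => δ (E p).2, ε, ?_, fun p =>
    ⟨hr0 _, hr1 _, hεδ _ (by omega), hδ1 _⟩, ?_⟩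
  · rw [hε, hδ]
    show (1 : ℝ) / 2 ^ H ^ A ≤ 1 / (100 * X ^ D) / (2000 * (d + 1) * H)
    rw [div_div]
    apply one_div_le_one_div_of_le (by positivity)
    refine le_trans (le_of_eq ?_) hbound
    ring
  · intro P _ _ C _ s e st ka v hS hP h0 hL
    have hL0 : (0 : ℝ) ≤ 5 * H := by positivity
    obtain ⟨k, hk1, hk2⟩ := exists_thr hS (v := v) hd hL0 h0 hL
    -- the parameters
    let β : {h // s h = 0} ⊕ {h // e h = 5 * H} → ℝ :=
      Sum.elim (fun h => st h.1) (fun h => st h.1 + ka h.1)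
    have hex0 : ∀ h, s h = 0 → Cv β 1 (st h) := fun h hh => Cv.single β (Sum.inl ⟨h, hh⟩)
    have hexL : ∀ h, e h = 5 * H → Cv β 1 (st h + ka h) := fun h hh =>
      Cv.single β (Sum.inr ⟨h, hh⟩)
    have hcard : Fintype.card ({h // s h = 0} ⊕ {h // e h = 5 * H}) ≤ D := by
      rw [Fintype.card_sum]
      have e1 : Fintype.card {h // s h = 0} = {h | s h = 0}.ncard := by
        rw [← Nat.card_coe_set_eq, Nat.card_eq_fintype_card]
        exact Fintype.card_congr (Equiv.refl _)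
      have e2 : Fintype.card {h // e h = 5 * H} = {h | e h = 5 * H}.ncard := by
        rw [← Nat.card_coe_set_eq, Nat.card_eq_fintype_card]
        exact Fintype.card_congr (Equiv.refl _)
      omega
    obtain ⟨l, hl⟩ := exists_scale (T := {τ | ∃ h ρ, (ρ = ((k : ℝ) + 1) / (8 * (d + 1)) ∨
      ρ = 1 - ((k : ℝ) + 1) / (8 * (d + 1))) ∧ τ = st h + ρ * ka h}) hM1 hcard (by
        rintro τ ⟨h, ρ, hρ, rfl⟩
        rw [hM]
        exact event_cv hS hP hex0 hexL k h hρ) hδ0 (by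
        intro l
        have := hδs l
        rw [hY] at this
        exact this)
    refine ⟨E.symm (k, l), ?_⟩
    intro t ht t' ht' hb hb'
    simp only [Equiv.apply_symm_apply] at hb hb' ⊢
    have hB : ε * (100 * (d + 1) * (5 * H)) = δ D / 4 := by
      rw [hε]
      have : (H : ℝ) ≠ 0 := by linarith
      have : ((d : ℝ) + 1) ≠ 0 := by linarith
      field_simp
      ring
    obtain ⟨h, ρ, hρ, hτ⟩ := badT_near hS (hr0 k) (hr1 k) hεη (fun h hh => hk1 h hh t ht) hk2 hb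
    obtain ⟨h', ρ', hρ', hτ'⟩ := badT_near hS (hr0 k) (hr1 k) hεη
      (fun h hh => hk1 h hh t' ht') hk2 hb'
    rw [hB] at hτ hτ'
    have h1 := hδanti l (by omega)
    have h2 := hδ0 l
    rw [abs_le] at hτ hτ'
    rcases hl _ ⟨h, ρ, hρ, rfl⟩ _ ⟨h', ρ', hρ', rfl⟩ with h3 | h3
    · left
      rw [abs_lt] at h3
      rw [abs_le]
      constructor <;> linarith
    · right
      rw [lt_abs] at h3
      rw [le_abs]
      rcases h3 with h3 | h3
      · left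
        linarith
      · right
        linarith

end Pool.Agent.CC
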