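import Pool.Agent.Lib.MP_98022b_cc.TrackC
import Pool.Agent.Lib.MP_98022b_cc.IndexMain

/-!
# Row CY: the index lemma

The abstract index lemma (`Pool.Agent.CC.index_lemma`) is applied to the schedule of the halfspaces which are
entered by the path `endPt geo x y` in the window `[0, 5 n]` and to the constant fractional coordinates
(those with value `< 1 / 2`, one of each pair).
-/

set_option autoImplicit false

open Set Filter Topology

namespace Pool.Agent.CCC

open Pocset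
open Pool.Agent.GLN (endPt)

variable {H : Type} [Pocset H] {o : Set H}

private theorem Bal.sched {σ : ℝ → Pt o} {S E : H → ℝ} (h : Bal σ S E) {L : ℝ} (hL : 0 < L) :
    ∃ s e sv κ : {a : H // σ 0 a < σ 1 a}ᵒᵈ → ℝ, Pool.Agent.CC.Sched L s e sv κ ∧
      (∀ a, ∀ t ∈ Icc (0 : ℝ) L,
        σ (t / L) (OrderDual.ofDual a).1 = Pool.Agent.CC.cl ((t - sv a) / κ a)) ∧
      (∀ a t, s a < t → t < e a →
        0 < σ (t / L) (OrderDual.ofDual a).1 ∧ σ (t / L) (OrderDual.ofDual a).1 < 1) := by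
  have hsp : ∀ a : {a : H // σ 0 a < σ 1 a}, 0 < spd σ S E a.1 := fun a => h.spd_pos a.2
  have hzero : ∀ a : {a : H // σ 0 a < σ 1 a}, 0 < S a.1 → σ 0 a.1 = 0 := by
    intro a ha
    obtain ⟨b, hab, hb, -, -⟩ := h.bwd a.1 a.2 ha
    exact (Pt.nested2 (σ 0) (σ 1) hb a.2 hab).2
  have hone : ∀ a : {a : H // σ 0 a < σ 1 a}, E a.1 < 1 → σ 1 a.1 = 1 := by
    intro a ha
    obtain ⟨b, hab, hb, -, -⟩ := h.fwd a.1 a.2 ha
    exact (Pt.nested2 (σ 0) (σ 1) a.2 hb hab).1
  obtain ⟨κ, hκ⟩ : ∃ κ : {a : H // σ 0 a < σ 1 a} → ℝ, ∀ a, κ a = L / spd σ S E a.1 :=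
    ⟨_, fun _ => rfl⟩
  obtain ⟨Sv, hSv⟩ : ∃ Sv : {a : H // σ 0 a < σ 1 a} → ℝ,
      ∀ a, Sv a = L * S a.1 - κ a * σ 0 a.1 := ⟨_, fun _ => rfl⟩
  have hκpos : ∀ a, 0 < κ a := fun a => by
    rw [hκ]
    exact div_pos hL (hsp a)
  have hspκ : ∀ a, spd σ S E a.1 * κ a = L := fun a => by
    rw [hκ]
    field_simp [(hsp a).ne']
  have hval : ∀ a : {a : H // σ 0 a < σ 1 a}, ∀ s, L * S a.1 ≤ s → s ≤ L * E a.1 →
      σ (s / L) a.1 = (s - Sv a) / κ a := by
    intro a s h1 h2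
    have e1 : S a.1 ≤ s / L := by rw [le_div_iff₀ hL]; linarith
    have e2 : s / L ≤ E a.1 := by rw [div_le_iff₀ hL]; linarith
    rw [(h.mid' a.2 e1 e2).1, eq_div_iff (hκpos a).ne', hSv]
    have : spd σ S E a.1 * (s / L - S a.1) * κ a = s - L * S a.1 := by
      have e3 : spd σ S E a.1 * (s / L - S a.1) * κ a = (spd σ S E a.1 * κ a) * (s / L - S a.1) := by
        ring
      rw [e3, hspκ]
      field_simp
    rw [add_mul, this]
    ring
  have hbd := fun a : {a : H // σ 0 a < σ 1 a} => h.bd a.1 a.2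
  have hEnd : ∀ a, σ 1 a.1 * κ a = L * E a.1 - Sv a := by
    intro a
    obtain ⟨b1, b2, b3⟩ := hbd a
    have e1 := hval a (L * E a.1) (by nlinarith) le_rfl
    have e2 : L * E a.1 / L = E a.1 := by field_simp
    rw [e2] at e1
    have e3 : σ (E a.1) a.1 = σ 1 a.1 := h.after a.1 a.2 (E a.1) le_rfl b3
    rw [e3] at e1
    rw [e1]
    field_simp [(hκpos a).ne']
  have hSpos : ∀ a, 0 < S a.1 → Sv a = L * S a.1 := by
    intro a ha
    rw [hSv, hzero a ha]
    ring
  have hEone : ∀ a, E a.1 < 1 → Sv a + κ a = L * E a.1 := by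
    intro a ha
    have := hEnd a
    rw [hone a ha] at this
    linarith
  have hκmono : ∀ a b : {a : H // σ 0 a < σ 1 a}, spd σ S E a.1 ≤ spd σ S E b.1 → κ b ≤ κ a := by
    intro a b hab
    rw [hκ, hκ]
    exact div_le_div_of_nonneg_left hL.le (hsp a) hab
  have hLlt : ∀ c : ℝ, L * c < L → c < 1 := by
    intro c hc
    by_contra hcon
    have := mul_le_mul_of_nonneg_left (not_lt.1 hcon) hL.le
    linarith
  have hLpos : ∀ c : ℝ, 0 < L * c → 0 < c := fun c hc => (mul_pos_iff_of_pos_left hL).1 hc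
  refine ⟨fun a => L * S (OrderDual.ofDual a).1, fun a => L * E (OrderDual.ofDual a).1,
    fun a => Sv (OrderDual.ofDual a), fun a => κ (OrderDual.ofDual a),
    ⟨?_, ?_, ?_, ?_, ?_, ?_, ?_, ?_, ?_⟩, ?_, ?_⟩
  · intro a
    exact mul_nonneg hL.le (hbd (OrderDual.ofDual a)).1
  · intro a
    exact mul_lt_mul_of_pos_left (hbd (OrderDual.ofDual a)).2.1 hL
  · intro a
    have := mul_le_mul_of_nonneg_left (hbd (OrderDual.ofDual a)).2.2 hL.le
    linarith
  · intro a b hab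
    have h1 : (OrderDual.ofDual b).1 < (OrderDual.ofDual a).1 := hab
    exact mul_le_mul_of_nonneg_left
      (h.ord (OrderDual.ofDual a).2 (OrderDual.ofDual b).2 h1) hL.le
  · intro a
    exact hκpos _
  · intro a ha
    exact hSpos _ (hLpos _ ha)
  · intro a ha
    exact (hEone _ (hLlt _ ha)).symm
  · intro a ha
    obtain ⟨b, hba, hb, hSb, hsp'⟩ := h.fwd _ (OrderDual.ofDual a).2 (hLlt _ ha)
    refine ⟨OrderDual.toDual ⟨b, hb⟩, hba, ?_, hκmono (OrderDual.ofDual a) ⟨b, hb⟩ hsp'⟩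
    show L * S b = L * E (OrderDual.ofDual a).1
    rw [hSb]
  · intro a ha
    obtain ⟨b, hab, hb, hEb, hsp'⟩ := h.bwd _ (OrderDual.ofDual a).2 (hLpos _ ha)
    refine ⟨OrderDual.toDual ⟨b, hb⟩, hab, ?_, hκmono (OrderDual.ofDual a) ⟨b, hb⟩ hsp'⟩
    show L * E b = L * S (OrderDual.ofDual a).1
    rw [hEb]
  · suffices hv : ∀ a : {a : H // σ 0 a < σ 1 a}, ∀ s ∈ Icc (0 : ℝ) L,
        σ (s / L) a.1 = max 0 (min 1 ((s - Sv a) / κ a)) from
      fun a s hs => hv (OrderDual.ofDual a) s hs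
    intro a s hs
    obtain ⟨b1, b2, b3⟩ := hbd a
    have hsL : 0 ≤ s / L := div_nonneg hs.1 hL.le
    have hsL1 : s / L ≤ 1 := (div_le_one hL).2 hs.2
    rcases le_total (L * S a.1) s with h1 | h1
    · rcases le_total s (L * E a.1) with h2 | h2
      · have e := hval a s h1 h2
        rw [← e, min_eq_right (Pt.le_one _ _), max_eq_right ((σ (s / L)).nonneg a.1)]
      · have e2 : E a.1 ≤ s / L := by rw [le_div_iff₀ hL]; linarith
        rw [h.after a.1 a.2 _ e2 hsL1]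
        have h3 := hEnd a
        rcases b3.lt_or_eq with hE | hE
        · have h4 := hEone a hE
          have h5 : 1 ≤ (s - Sv a) / κ a := by
            rw [le_div_iff₀ (hκpos a)]
            linarith
          rw [hone a hE, min_eq_left h5, max_eq_right zero_le_one]
        · rw [hE, mul_one] at h2 h3
          have hsL' : s = L := le_antisymm hs.2 h2
          have h5 : (s - Sv a) / κ a = σ 1 a.1 := by
            rw [hsL', div_eq_iff (hκpos a).ne']
            linarith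
          rw [h5, min_eq_right (Pt.le_one _ _), max_eq_right ((σ 1).nonneg a.1)]
    · have e1 : s / L ≤ S a.1 := by rw [div_le_iff₀ hL]; linarith
      rw [h.before a.1 a.2 _ hsL e1]
      rcases b1.lt_or_eq with hS | hS
      · have h4 := hSpos a hS
        have h5 : (s - Sv a) / κ a ≤ 0 := by
          rw [div_le_iff₀ (hκpos a)]
          linarith
        rw [hzero a hS, min_eq_right (h5.trans zero_le_one), max_eq_left h5]
      · have hs0 : s = 0 := by
          rw [← hS, mul_zero] at h1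
          exact le_antisymm h1 hs.1
        have h5 : (s - Sv a) / κ a = σ 0 a.1 := by
          rw [hs0, hSv, ← hS, div_eq_iff (hκpos a).ne']
          ring
        rw [h5, min_eq_right (Pt.le_one _ _), max_eq_right ((σ 0).nonneg a.1)]
  · suffices hv : ∀ a : {a : H // σ 0 a < σ 1 a}, ∀ s, L * S a.1 < s → s < L * E a.1 →
        0 < σ (s / L) a.1 ∧ σ (s / L) a.1 < 1 from
      fun a s hs => hv (OrderDual.ofDual a) s hs
    intro a s hs1 hs2
    have e1 : S a.1 < s / L := by rw [lt_div_iff₀ hL]; linarith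
    have e2 : s / L < E a.1 := by rw [div_lt_iff₀ hL]; linarith
    have e3 := h.mid' a.2 e1.le e2.le
    have e4 := (σ 0).nonneg a.1
    have e5 := Pt.le_one (σ 1) a.1
    have e6 : 0 < spd σ S E a.1 * (s / L - S a.1) := mul_pos (hsp a) (by linarith)
    have e7 : 0 < spd σ S E a.1 * (E a.1 - s / L) := mul_pos (hsp a) (by linarith)
    constructor
    · rw [e3.1]
      linarith
    · rw [e3.2]
      linarith

private theorem count {d : ℕ} (hw : Width H d) (x y z : Pt o)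
    (hc : ∀ a, x a = y a → z a = x a) (Q : Set {a : H // x a < y a}ᵒᵈ)
    (hQ : ∀ a ∈ Q, 0 < z (OrderDual.ofDual a).1 ∧ z (OrderDual.ofDual a).1 < 1)
    [Fintype {a : H // x a = y a ∧ 0 < x a ∧ x a < 1 / 2}] :
    Q.ncard + Fintype.card {a : H // x a = y a ∧ 0 < x a ∧ x a < 1 / 2} ≤ d := by
  classical
  have hfin : Finite {a : H // x a < y a}ᵒᵈ := by
    have : {a : H | x a < y a}.Finite := (Pt.finite_ne x y).subset fun a ha => ne_of_lt ha
    exact this.to_subtype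
  have hQf : Q.Finite := Set.toFinite Q
  obtain ⟨F, hF⟩ : ∃ F : Finset H, F = hQf.toFinset.image fun a => (OrderDual.ofDual a).1 :=
    ⟨_, rfl⟩
  obtain ⟨G, hG⟩ : ∃ G : Finset H, G = (Finset.univ :
      Finset {a : H // x a = y a ∧ 0 < x a ∧ x a < 1 / 2}).image fun a => a.1 := ⟨_, rfl⟩
  have hinj : Function.Injective fun a : {a : H // x a < y a}ᵒᵈ => (OrderDual.ofDual a).1 :=
    fun a b hab => Subtype.val_injective hab
  have hFc : F.card = Q.ncard := by
    rw [hF, Finset.card_image_of_injective _ hinj, Set.ncard_eq_toFinset_card _ hQf]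
  have hGc : G.card = Fintype.card {a : H // x a = y a ∧ 0 < x a ∧ x a < 1 / 2} := by
    rw [hG, Finset.card_image_of_injective _ Subtype.val_injective, Finset.card_univ]
  have hFm : ∀ a ∈ F, x a < y a ∧ 0 < z a ∧ z a < 1 := by
    intro a ha
    rw [hF, Finset.mem_image] at ha
    obtain ⟨b, hb, rfl⟩ := ha
    rw [Set.Finite.mem_toFinset] at hb
    exact ⟨(OrderDual.ofDual b).2, hQ b hb⟩
  have hGm : ∀ a ∈ G, x a = y a ∧ 0 < x a ∧ x a < 1 / 2 := by
    intro a ha
    rw [hG, Finset.mem_image] at ha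
    obtain ⟨b, -, rfl⟩ := ha
    exact b.2
  have hdis : Disjoint F G := by
    rw [Finset.disjoint_left]
    intro a ha hb
    exact (hFm a ha).1.ne (hGm a hb).1
  rw [← hFc, ← hGc, ← Finset.card_union_of_disjoint hdis]
  refine Pt.card_frac z hw _ ?_ ?_
  · intro a ha
    rcases Finset.mem_union.1 ha with ha | ha
    · exact (hFm a ha).2
    · have := hGm a ha
      rw [hc a this.1]
      exact ⟨this.2.1, by linarith⟩
  · intro a ha hb
    have e1 := x.op_val a
    have e2 := y.op_val a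
    rcases Finset.mem_union.1 ha with ha | ha
    · have h1 := hFm a ha
      rcases Finset.mem_union.1 hb with hb | hb
      · have h2 := hFm _ hb
        linarith
      · have h2 := hGm _ hb
        linarith
    · have h1 := hGm a ha
      rcases Finset.mem_union.1 hb with hb | hb
      · have h2 := hFm _ hb
        linarith
      · have h2 := hGm _ hb
        linarith

private theorem st_const (r ε : ℝ) (hε : 0 < ε) (x y : Pt o) {s t : ℝ} (hs : 0 ≤ s)
    (hst : s ≤ t) (ht : t ≤ dist x y) (h : ∀ e ∈ Icc s t, far r ε (endPt geo x y e)) :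
    st r (endPt geo x y s) = st r (endPt geo x y t) := by
  obtain ⟨N, hN⟩ := exists_nat_gt ((t - s) / ε)
  have hN0 : (0 : ℝ) < N := lt_of_le_of_lt (div_nonneg (by linarith) hε.le) hN
  have hNne : (N : ℝ) ≠ 0 := hN0.ne'
  have hq0 : 0 ≤ (t - s) / N := div_nonneg (by linarith) hN0.le
  have hstep : (t - s) / N < ε := by
    rw [div_lt_iff₀ hN0]
    rw [div_lt_iff₀ hε] at hN
    linarith
  have key : ∀ i : ℕ, i ≤ N →
      st r (endPt geo x y (s + i * ((t - s) / N))) = st r (endPt geo x y s) := by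
    intro i
    induction i with
    | zero =>
      intro _
      simp
    | succ i ih =>
      intro hi
      rw [← ih (by omega)]
      have hi' : ((i : ℝ) + 1) ≤ N := by exact_mod_cast hi
      have h1 : (i : ℝ) * ((t - s) / N) + (t - s) / N ≤ t - s := by
        have h2 : ((i : ℝ) + 1) * ((t - s) / N) ≤ N * ((t - s) / N) :=
          mul_le_mul_of_nonneg_right hi' hq0
        have h3 : (N : ℝ) * ((t - s) / N) = t - s := by field_simp
        linarith
      have h0 : 0 ≤ (i : ℝ) * ((t - s) / N) := mul_nonneg (Nat.cast_nonneg i) hq0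
      refine st_eq (h (s + i * ((t - s) / N)) ⟨by linarith, by linarith⟩) ?_
      rw [dist_endPt x y (by linarith) (by push_cast; linarith) (by push_cast; linarith)]
      push_cast
      linarith
  have h2 := key N le_rfl
  have h3 : s + N * ((t - s) / N) = t := by
    field_simp
    ring
  rw [h3] at h2
  exact h2.symm

theorem exists_pairs_pt {d : ℕ} (hw : Width H d) (o : Set H) : ∃ K A : ℕ, ∀ n : ℕ, 2 ≤ n →
    ∃ (r δ : Fin K → ℝ) (ε : ℝ), 0 < ε ∧ 1 / 2 ^ (n ^ A) ≤ ε ∧ (∀ k, ε ≤ δ k ∧ δ k ≤ 1 / 100) ∧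
      ∀ x y : Pt o, 5 * (n : ℝ) ≤ dist x y → ∃ k,
        Pool.Agent.TR.IsEvents (n : ℝ) (δ k) (fun s => st (r k) (endPt geo x y s))
          {s | ¬ far (r k) ε (endPt geo x y s)} := by
  classical
  obtain ⟨K, A, hKA⟩ := Pool.Agent.CC.index_lemma d
  refine ⟨K, A, fun n hn => ?_⟩
  obtain ⟨r, δ, ε, hε, hp, hI⟩ := hKA n hn
  have hε0 : 0 < ε := lt_of_lt_of_le (by positivity) hε
  refine ⟨r, δ, ε, hε0, hε, fun k => ⟨(hp k).2.2.1, (hp k).2.2.2⟩, fun x y hT => ?_⟩
  have hn' : (2 : ℝ) ≤ n := by exact_mod_cast hn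
  obtain ⟨L, hLdef⟩ : ∃ L : ℝ, L = 5 * (n : ℝ) := ⟨_, rfl⟩
  rw [← hLdef] at hT
  have hL : 0 < L := by rw [hLdef]; linarith
  have hTpos : 0 < dist x y := lt_of_lt_of_le hL hT
  -- the restricted path
  obtain ⟨σ, S, E, hB, hσ⟩ : ∃ (σ : ℝ → Pt o) (S E : H → ℝ), Bal σ S E ∧
      ∀ s ∈ Icc (0 : ℝ) L, endPt geo x y s = σ (s / L) := by
    obtain ⟨S, E, hB⟩ := exists_bal_geo y x
    have hβ0 : 0 < L / dist x y := div_pos hL hTpos
    have hβ1 : L / dist x y ≤ 1 := (div_le_one hTpos).2 hT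
    refine ⟨_, _, _, hB.restrict (le_refl (0 : ℝ)) hβ0 hβ1, ?_⟩
    intro s hs
    have e0 : 0 ≤ s / dist x y := div_nonneg hs.1 hTpos.le
    have e1 : s / dist x y ≤ 1 := (div_le_one hTpos).2 (hs.2.trans hT)
    have e2 : (0 : ℝ) + (L / dist x y - 0) * (s / L) = s / dist x y := by
      field_simp
      ring
    show endPt geo x y s = geo y x (0 + (L / dist x y - 0) * (s / L))
    rw [e2]
    unfold endPt
    rw [geo_rev x y (t := 1 - s / dist x y) ⟨by linarith, by linarith⟩, sub_sub_cancel]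
  have hσ0 : endPt geo x y 0 = σ 0 := by
    rw [hσ 0 ⟨le_rfl, hL.le⟩, zero_div]
  have hσ1 : endPt geo x y L = σ 1 := by
    rw [hσ L ⟨hL.le, le_rfl⟩, div_self hL.ne']
  have hdist : dist (σ 0) (σ 1) = L := by
    rw [← hσ0, ← hσ1, dist_endPt x y le_rfl hL.le hT, sub_zero]
  have hPf : {a : H | σ 0 a < σ 1 a}.Finite :=
    (Pt.finite_ne (σ 0) (σ 1)).subset fun a ha => ne_of_lt ha
  have hCf : {a : H | σ 0 a = σ 1 a ∧ 0 < σ 0 a ∧ σ 0 a < 1 / 2}.Finite := by
    refine (σ 0).fin.subset ?_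
    rintro a ⟨-, h1, h2⟩
    show σ 0 a ≠ ind o a
    unfold ind
    split_ifs
    · intro h3
      linarith
    · exact h1.ne'
  let _ : Fintype {a : H // σ 0 a < σ 1 a}ᵒᵈ := hPf.fintype
  let _ : Fintype {a : H // σ 0 a = σ 1 a ∧ 0 < σ 0 a ∧ σ 0 a < 1 / 2} := hCf.fintype
  obtain ⟨s, e, sv, κ, hS, hcl, hfrac⟩ := hB.sched hL
  have hconst : ∀ t ∈ Icc (0 : ℝ) L, ∀ a, σ 0 a = σ 1 a → σ (t / L) a = σ 0 a := by
    intro t ht a ha
    exact hB.const a ha _ (div_nonneg ht.1 hL.le) ((div_le_one hL).2 ht.2)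
  -- the counts
  have hcP : Fintype.card {a : H // σ 0 a < σ 1 a}ᵒᵈ ≤ d * (5 * n + 2) := by
    have h1 := ncard_lt_le hw (σ 0) (σ 1)
    rw [hdist, hLdef] at h1
    have h2 : Fintype.card {a : H // σ 0 a < σ 1 a}ᵒᵈ = {a : H | σ 0 a < σ 1 a}.ncard := by
      rw [← Nat.card_coe_set_eq, ← Nat.card_eq_fintype_card]
      rfl
    rw [h2]
    exact_mod_cast h1
  have h0 : {a | s a = 0}.ncard +
      Fintype.card {a : H // σ 0 a = σ 1 a ∧ 0 < σ 0 a ∧ σ 0 a < 1 / 2} ≤ d := by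
    have hev : ∀ᶠ η in 𝓝[>] (0 : ℝ), ∀ a, η < e a := by
      rw [eventually_all]
      intro a
      exact (eventually_lt_nhds (lt_of_le_of_lt (hS.s_nonneg a) (hS.s_lt a))).filter_mono
        nhdsWithin_le_nhds
    have hev2 : ∀ᶠ η in 𝓝[>] (0 : ℝ), η < L :=
      (eventually_lt_nhds hL).filter_mono nhdsWithin_le_nhds
    obtain ⟨η, ⟨hη1, hη2⟩, hη3⟩ := ((hev.and hev2).and self_mem_nhdsWithin).exists
    have hη3' : 0 < η := hη3
    refine count hw (σ 0) (σ 1) (σ (η / L)) (hconst η ⟨hη3'.le, hη2.le⟩) _ ?_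
    intro a ha
    have ha' : s a = 0 := ha
    exact hfrac a η (by rw [ha']; exact hη3') (hη1 a)
  have h1 : {a | e a = L}.ncard +
      Fintype.card {a : H // σ 0 a = σ 1 a ∧ 0 < σ 0 a ∧ σ 0 a < 1 / 2} ≤ d := by
    have hev : ∀ᶠ η in 𝓝[<] L, ∀ a, s a < η := by
      rw [eventually_all]
      intro a
      exact (eventually_gt_nhds (lt_of_lt_of_le (hS.s_lt a) (hS.e_le a))).filter_mono
        nhdsWithin_le_nhds
    have hev2 : ∀ᶠ η in 𝓝[<] L, 0 < η :=
      (eventually_gt_nhds hL).filter_mono nhdsWithin_le_nhds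
    obtain ⟨η, ⟨hη1, hη2⟩, hη3⟩ := ((hev.and hev2).and self_mem_nhdsWithin).exists
    have hη3' : η < L := hη3
    refine count hw (σ 0) (σ 1) (σ (η / L)) (hconst η ⟨hη2.le, hη3'.le⟩) _ ?_
    intro a ha
    have ha' : e a = L := ha
    exact hfrac a η (hη1 a) (by rw [ha']; exact hη3')
  rw [hLdef] at hS h1
  obtain ⟨k, hk⟩ := hI _ {a : H // σ 0 a = σ 1 a ∧ 0 < σ 0 a ∧ σ 0 a < 1 / 2} s e sv κ
    (fun c => σ 0 c.1) hS hcP h0 h1
  obtain ⟨hr0, hr1, -, -⟩ := hp k
  have hthr : thr (r k) = r k := by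
    unfold thr
    rw [if_pos ⟨by linarith, by linarith⟩]
  -- bad times
  have hbad : ∀ t ∈ Icc (0 : ℝ) L, ¬ far (r k) ε (endPt geo x y t) →
      Pool.Agent.CC.BadT sv κ
        (fun c : {a : H // σ 0 a = σ 1 a ∧ 0 < σ 0 a ∧ σ 0 a < 1 / 2} => σ 0 c.1) (r k) ε t := by
    intro t ht hf
    unfold far at hf
    push Not at hf
    obtain ⟨a, ha⟩ := hf
    rw [hthr, hσ t ht] at ha
    rcases lt_trichotomy (σ 0 a) (σ 1 a) with hlt | heq | hgt
    · left
      refine ⟨OrderDual.toDual ⟨a, hlt⟩, Or.inl ?_⟩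
      rw [← hcl _ t ht]
      exact ha
    · right
      have h2 := hconst t ht a heq
      rw [h2] at ha
      have h3 := abs_lt.1 ha
      exact ⟨⟨a, heq, by linarith, by linarith⟩, Or.inl ha⟩
    · left
      have hop : σ 0 (op a) < σ 1 (op a) := by
        rw [(σ 0).op_val, (σ 1).op_val]
        linarith
      refine ⟨OrderDual.toDual ⟨op a, hop⟩, Or.inr ?_⟩
      rw [← hcl _ t ht]
      show |σ (t / L) (op a) - (1 - r k)| < ε
      rw [(σ (t / L)).op_val, abs_sub_comm]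
      have : 1 - r k - (1 - σ (t / L) a) = σ (t / L) a - r k := by ring
      rw [this]
      exact ha
  refine ⟨k, ⟨?_, ?_⟩⟩
  · intro s' hs' t' ht' hst hno
    rw [← hLdef] at hs' ht'
    refine st_const (r k) ε hε0 x y hs'.1 hst (ht'.2.trans hT) ?_
    intro e' he'
    by_contra hf
    exact hno e' hf he'
  · intro e₁ he₁ e₂ he₂ h₁ h₂
    have h₁' : e₁ ∈ Icc (0 : ℝ) L := by rw [hLdef]; exact h₁
    have h₂' : e₂ ∈ Icc (0 : ℝ) L := by rw [hLdef]; exact h₂
    exact hk e₁ h₁ e₂ h₂ (hbad e₁ h₁' he₁) (hbad e₂ h₂' he₂)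

end Pool.Agent.CCC
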