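import Pool.Agent.Lib.MP_98022b_cc.Asm
import Pool.Agent.Lib.MP_98022b_cc.ConeD
import Pool.Agent.Lib.MP_98022b_cc.GaugeFinC
import Pool.Agent.Lib.MP_98022b_cc.Index
import Pool.Agent.Lib.MP_98022b_gln.HullT

/-!
# Groups acting on finite dimensional CAT(0) cube complexes
-/

set_option autoImplicit false

open Set Filter Topology

namespace Pool.Agent.CCC

open Pocset Pool.Agent.GLN Pool.Agent.FJ

variable {Γ H : Type} [Group Γ] [Pocset H] [PocAct Γ H] {o : Set H} [Based Γ o]

theorem Width.mono {d d' : ℕ} (hw : Width H d) (h : d ≤ d') : Width H d' :=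
  fun s hs => (hw s hs).trans h

/-- The discretization of the complex for a subgroup. -/
noncomputable def discC (G : Subgroup Γ) {d : ℕ} (hw : Width H d) :
    DiscC G (Pt o) (Cube o) dC (6 * d) geo where
  st := st
  far := far
  st_smul g r w := st_smul (g : Γ) r w
  far_smul g r e w := far_smul (g : Γ) r e w
  far_mono _ _ _ _ h he := far_mono h he
  far_dist _ _ _ _ h := far_dist h
  st_eq _ _ _ _ h hd := st_eq h hd
  short := ⟨6 * d + 1, fun j => ((j : ℕ) + 1 : ℝ) / (16 * (d + 1)), 1 / (64 * (d + 1)),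
    by positivity, fun w => exists_thr hw w⟩
  track r x y T hT := exists_isTrack hw r x y T hT
  pairs := exists_pairs_pt hw o

/-- The data for the cone construction for a finite subset of a subgroup. -/
theorem coneData_subgroup (G : Subgroup Γ) {d : ℕ} (hw : Width H d) (ho : IsVertex o)
    (S : Finset G) (h1 : (1 : G) ∈ S) : ∃ η : ℝ,
      ConeData G S (Pt o) geo (Pt.base ho)
        (fun m x => gF (S.map ⟨Subtype.val, Subtype.val_injective⟩) m x) 1 η η := by
  obtain ⟨η, h⟩ := coneData (S := S.map ⟨((↑) : G → Γ), Subtype.val_injective⟩) hw ho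
    (Finset.mem_map.2 ⟨1, h1, rfl⟩)
  exact ⟨η, h.bicomb, fun g x y => h.isom (g : Γ) x y, fun g x y t h0 h1 =>
    h.geo_smul (g : Γ) x y t h0 h1, h.nonneg, h.anti, h.lip, h.base, h.convex, h.loc,
    fun s hs m x => h.smul (s : Γ) (Finset.mem_map.2 ⟨s, hs, rfl⟩) m x, h.radius, h.compact,
    fun s hs => h.eta (s : Γ) (Finset.mem_map.2 ⟨s, hs, rfl⟩)⟩

/-- A group `Γ` acting on a finite dimensional CAT(0) cube complex is in a class of groups with the
inheritance properties if the stabilizers of the cubes are in the class, the chains of pointwise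
stabilizers of far finite sets of cubes have bounded length, and for such a stabilizer `J` and an
element `t` which normalizes `J` the group generated by `J` and `t` is in the class. -/
theorem mem_of_pocset {P : ∀ (G : Type) [Group G], Prop} (hP : IsFJClassT P) (ho : IsVertex o)
    {d : ℕ} (hw : Width H d) (k₀ l₀ : ℕ) (hv : ∀ v : Cube o, P (MulAction.stabilizer Γ v))
    (hchain : ∀ T : ℕ → Set (Cube o), (∀ i, (T i).Finite) → (∀ i, T i ⊆ T (i + 1)) →
      (∃ v ∈ T 0, ∃ w ∈ T 0, k₀ ≤ dC v w) →
      ∃ i < l₀, fixingSubgroup Γ (T i) = fixingSubgroup Γ (T (i + 1)))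
    (hcyc : ∀ T : Set (Cube o), T.Finite → (∃ v ∈ T, ∃ w ∈ T, k₀ ≤ dC v w) → ∀ t : Γ,
      (∀ j, j ∈ fixingSubgroup Γ T ↔ t * j * t⁻¹ ∈ fixingSubgroup Γ T) →
      P (fixingSubgroup Γ T ⊔ Subgroup.zpowers t : Subgroup Γ)) : P Γ := by
  classical
  refine hP.toIsFJClass.locally fun S₀ => ?_
  obtain ⟨G, hG⟩ : ∃ G : Subgroup Γ, G = Subgroup.closure (S₀ : Set Γ) := ⟨_, rfl⟩
  refine ⟨G, fun x hx => hG ▸ Subgroup.subset_closure hx, ?_⟩
  have hfg : Group.FG G := by
    rw [hG]
    infer_instance
  have hw' : Width H (d + 1) := hw.mono (Nat.le_succ d)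
  have hst : StabCond Γ (Cube o) dC G (fun K => P K) k₀ l₀ := by
    refine ⟨fun v K hK => ?_, hchain, fun T hT hfar t ht K hK => ?_⟩
    · exact hP.of_injective
        ((G.subtype.comp K.subtype).codRestrict (MulAction.stabilizer Γ v) fun k => hK k.1 k.2)
        (fun a b hab => by
          have h1 := congrArg (fun x : MulAction.stabilizer Γ v => (x : Γ)) hab
          exact Subtype.ext (Subtype.ext h1)) (hv v)
    · exact hP.of_injective
        ((G.subtype.comp K.subtype).codRestrict (fixingSubgroup Γ T ⊔ Subgroup.zpowers t)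
          fun k => hK k.1 k.2)
        (fun a b hab => by
          have h1 := congrArg
            (fun x : (fixingSubgroup Γ T ⊔ Subgroup.zpowers t : Subgroup Γ) => (x : Γ)) hab
          exact Subtype.ext (Subtype.ext h1)) (hcyc T hT hfar t ht)
  have hTR := transferReducible_of_discC G hfg (isDist_dC (G := Γ) (o := o)) (fun K => P K) k₀ l₀
    hst (by omega) (discC G hw') (Pt.base ho) (2 * (d + 1) + 2) fun S hS => by
      obtain ⟨η, h⟩ := coneData_subgroup G hw' ho S hS
      refine ⟨_, _, _, _, h, ?_, coneOut h hS (smallCovers_pt hw')⟩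
      exact gaugeFin_pt hw' ho (Finset.mem_map.2 ⟨1, hS, rfl⟩)
  exact hP.transfer _ hTR fun _ h => h

end Pool.Agent.CCC
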