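import Pool.Agent.Lib.MP_98022b_cc.Metric2
import Pool.Agent.Lib.MP_98022b_gln.SeqDefs

/-!
# Row CS: the states of a point

`st r x` is the cube of the halfspaces `a` with `x a > r` (`0 < r < 1 / 2`; for the other `r` the
threshold `1 / 4` is used). `far r e x`: no value of `x` is within `e` of the threshold.
-/

set_option autoImplicit false

open Set
open scoped Pointwise

namespace Pool.Agent.CCC

open Pocset

variable {H : Type} [Pocset H] {o : Set H}

open Classical in
/-- The threshold. -/
noncomputable def thr (r : ℝ) : ℝ := if 0 < r ∧ r < 1 / 2 then r else 1 / 4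

theorem thr_pos (r : ℝ) : 0 < thr r ∧ thr r < 1 / 2 := by
  unfold thr
  split_ifs with h
  · exact h
  · norm_num

/-- The state of the point `x`. -/
noncomputable def st (r : ℝ) (x : Pt o) : Cube o :=
  ⟨{a | thr r < x a}, by
    obtain ⟨h1, h2⟩ := thr_pos r
    refine ⟨⟨fun a => ?_, fun a b hab ha hb => ?_⟩, ?_⟩
    · by_cases h : thr r < x a
      · exact Or.inl h
      · right
        show thr r < x (op a)
        rw [x.op_val]
        linarith
    · have ha' : thr r < x a := ha
      have hb' : thr r < x (op b) := hb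
      rw [x.op_val, x.eq_one_of_lt hab (by linarith)] at hb'
      linarith
    · refine x.fin.subset fun a ha => ?_
      show x a ≠ ind o a
      unfold ind
      rcases ha with ⟨h3, h4⟩ | ⟨h3, h4⟩
      · rw [if_neg h4]
        have h5 : thr r < x a := h3
        linarith
      · rw [if_pos h3]
        intro h5
        apply h4
        show thr r < x a
        rw [h5]
        linarith⟩

/-- No value is within `e` of the threshold. -/
def far (r e : ℝ) (x : Pt o) : Prop := ∀ a, e ≤ |x a - thr r|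

theorem far_mono {r e e' : ℝ} {x : Pt o} (h : far r e x) (he : e' ≤ e) : far r e' x :=
  fun a => he.trans (h a)

theorem far_dist {r e : ℝ} {x x' : Pt o} (h : far r e x) : far r (e - dist x x') x' := by
  intro a
  have h1 := h a
  have h2 := abs_sub_le_dist x x' a
  have h3 : |x a - thr r| ≤ |x a - x' a| + |x' a - thr r| := abs_sub_le _ _ _
  linarith

theorem st_eq {r e : ℝ} {x x' : Pt o} (h : far r e x) (hd : dist x x' < e) :
    st r x' = st r x := by
  apply Subtype.ext
  ext a
  show thr r < x' a ↔ thr r < x a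
  have h1 := h a
  have h2 := abs_sub_le_dist x x' a
  rw [abs_le] at h2
  obtain ⟨h3, h4⟩ := h2
  rcases le_abs.1 h1 with h5 | h5
  · constructor <;> intro _ <;> linarith
  · constructor <;> intro _ <;> linarith

private theorem fin_sd (U U' : Cube o) : (symmDiff U.1 U'.1).Finite := by
  refine (U.2.2.union U'.2.2).subset ?_
  have h := symmDiff_triangle U.1 o U'.1
  rwa [symmDiff_comm o U'.1] at h

theorem dC_eq_zero {U U' : Cube o} (h : dC U U' = 0) : U = U' := by
  unfold dC at h
  rw [Set.ncard_eq_zero (fin_sd U U')] at h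
  exact Subtype.ext (symmDiff_eq_bot.1 h)

/-- One of `2 * d + 1` thresholds is far. -/
theorem exists_thr {d : ℕ} (hw : Width H d) (x : Pt o) :
    ∃ j : Fin (6 * d + 1), far (((j : ℕ) + 1 : ℝ) / (16 * (d + 1))) (1 / (64 * (d + 1))) x := by
  classical
  by_contra hcon
  push Not at hcon
  have hd0 : (0 : ℝ) < (d : ℝ) + 1 := by positivity
  set u : ℝ := 1 / (64 * (d + 1)) with hu
  have hu0 : 0 < u := by positivity
  have hu1 : 64 * ((d : ℝ) + 1) * u = 1 := by
    rw [hu]
    field_simp
  have hr : ∀ j : Fin (6 * d + 1), (((j : ℕ) + 1 : ℝ) / (16 * (d + 1))) = 4 * ((j : ℕ) + 1) * u := by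
    intro j
    rw [hu]
    field_simp
    ring
  have hj : ∀ j : Fin (6 * d + 1), ((j : ℕ) : ℝ) ≤ 6 * d := by
    intro j
    have : (j : ℕ) ≤ 6 * d := by omega
    exact_mod_cast this
  have hthr : ∀ j : Fin (6 * d + 1), thr (((j : ℕ) + 1 : ℝ) / (16 * (d + 1))) = 4 * ((j : ℕ) + 1) * u := by
    intro j
    unfold thr
    rw [if_pos, hr]
    rw [hr]
    refine ⟨by positivity, ?_⟩
    have h1 := hj j
    have h2 : ((j : ℕ) : ℝ) * u ≤ 6 * d * u := mul_le_mul_of_nonneg_right h1 hu0.le
    have h3 : 0 ≤ (d : ℝ) * u := by positivity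
    nlinarith
  have hex : ∀ j : Fin (6 * d + 1), ∃ a, |x a - 4 * ((j : ℕ) + 1) * u| < u := by
    intro j
    have h1 := hcon j
    unfold far at h1
    push Not at h1
    obtain ⟨a, ha⟩ := h1
    rw [hthr] at ha
    exact ⟨a, ha⟩
  choose f hf using hex
  have hval : ∀ j, 0 < x (f j) ∧ x (f j) < 1 / 2 := by
    intro j
    have h1 := abs_lt.1 (hf j)
    have h2 := hj j
    have h3 : ((j : ℕ) : ℝ) * u ≤ 6 * d * u := mul_le_mul_of_nonneg_right h2 hu0.le
    have h4 : 0 ≤ (d : ℝ) * u := by positivity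
    have h5 : 0 ≤ ((j : ℕ) : ℝ) * u := by positivity
    constructor
    · nlinarith [h1.1]
    · nlinarith [h1.2]
  have hinj : Function.Injective f := by
    intro j j' hjj
    by_contra hne
    have h1 := abs_lt.1 (hf j)
    have h2 := abs_lt.1 (hf j')
    rw [hjj] at h1
    have hne' : (j : ℕ) ≠ (j' : ℕ) := fun h => hne (Fin.ext h)
    rcases lt_or_gt_of_ne hne' with h3 | h3
    · have h4 : ((j : ℕ) : ℝ) + 1 ≤ (j' : ℕ) := by exact_mod_cast h3
      have h5 : (((j : ℕ) : ℝ) + 1) * u ≤ (j' : ℕ) * u := mul_le_mul_of_nonneg_right h4 hu0.le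
      nlinarith [h1.2, h2.1]
    · have h4 : ((j' : ℕ) : ℝ) + 1 ≤ (j : ℕ) := by exact_mod_cast h3
      have h5 : (((j' : ℕ) : ℝ) + 1) * u ≤ (j : ℕ) * u := mul_le_mul_of_nonneg_right h4 hu0.le
      nlinarith [h1.1, h2.2]
  have hcard := x.card_frac hw (Finset.univ.image f) (by
    intro a ha
    obtain ⟨j, -, rfl⟩ := Finset.mem_image.1 ha
    exact ⟨(hval j).1, by linarith [(hval j).2]⟩) (by
    intro a ha hb
    obtain ⟨j, -, rfl⟩ := Finset.mem_image.1 ha
    obtain ⟨j', -, hj'⟩ := Finset.mem_image.1 hb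
    have h1 := (hval j').2
    rw [hj', x.op_val] at h1
    linarith [(hval j).2])
  rw [Finset.card_image_of_injective _ hinj, Finset.card_univ, Fintype.card_fin] at hcard
  omega

section action

variable {G : Type} [Group G] [PocAct G H] [Based G o]

noncomputable instance : MulAction G (Cube o) where
  smul g U := ⟨{a | g⁻¹ • a ∈ U.1}, by
    refine ⟨⟨fun a => ?_, fun a b hab ha hb => ?_⟩, ?_⟩
    · have h := U.2.1.or_op (g⁻¹ • a)
      rw [← PocAct.smul_op] at h
      exact h
    · have hlt : g⁻¹ • a < g⁻¹ • b :=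
        lt_of_le_of_ne (PocAct.smul_le _ _ _ hab.le) fun h => hab.ne (MulAction.injective g⁻¹ h)
      have hb' : g⁻¹ • op b ∈ U.1 := hb
      rw [PocAct.smul_op] at hb'
      exact U.2.1.nested _ _ hlt ha hb'
    · have h1 : symmDiff {a | g⁻¹ • a ∈ U.1} o ⊆
          ((fun a => g⁻¹ • a) ⁻¹' (symmDiff U.1 o)) ∪ {a | ind o (g⁻¹ • a) ≠ ind o a} := by
        intro a ha
        by_cases h : g⁻¹ • a ∈ o ↔ a ∈ o
        · left
          rcases ha with ⟨h2, h3⟩ | ⟨h2, h3⟩
          · exact Or.inl ⟨h2, fun h4 => h3 (h.1 h4)⟩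
          · exact Or.inr ⟨h.2 h2, h3⟩
        · right
          show ind o (g⁻¹ • a) ≠ ind o a
          intro h2
          apply h
          unfold ind at h2
          by_cases h3 : g⁻¹ • a ∈ o <;> by_cases h4 : a ∈ o
          · exact ⟨fun _ => h4, fun _ => h3⟩
          · rw [if_pos h3, if_neg h4] at h2
            exact absurd h2 one_ne_zero
          · rw [if_neg h3, if_pos h4] at h2
            exact absurd h2 zero_ne_one
          · exact ⟨fun h5 => absurd h5 h3, fun h5 => absurd h5 h4⟩
      exact Finite.subset (Finite.union (U.2.2.preimage (MulAction.injective g⁻¹).injOn) (Based.fin g)) h1⟩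
  one_smul U := by
    apply Subtype.ext
    ext a
    show (1 : G)⁻¹ • a ∈ U.1 ↔ a ∈ U.1
    rw [inv_one, one_smul]
  mul_smul g h U := by
    apply Subtype.ext
    ext a
    show (g * h)⁻¹ • a ∈ U.1 ↔ h⁻¹ • g⁻¹ • a ∈ U.1
    rw [mul_inv_rev, mul_smul]

theorem mem_smul_cube (g : G) (U : Cube o) (a : H) : a ∈ (g • U).1 ↔ g⁻¹ • a ∈ U.1 := Iff.rfl

theorem isDist_dC : Pool.Agent.GLN.IsDist G (dC (o := o)) := by
  refine ⟨fun U U' => ?_, fun U U' U'' => ?_, fun g U U' => ?_⟩
  · unfold dC
    rw [symmDiff_comm]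
  · unfold dC
    refine (Set.ncard_le_ncard (t := symmDiff U.1 U'.1 ∪ symmDiff U'.1 U''.1)
      (symmDiff_triangle U.1 U'.1 U''.1) ((fin_sd U U').union (fin_sd U' U''))).trans ?_
    exact Set.ncard_union_le _ _
  · unfold dC
    have h : symmDiff (g • U).1 (g • U').1 = (fun a => g • a) '' (symmDiff U.1 U'.1) := by
      ext a
      constructor
      · intro ha
        refine ⟨g⁻¹ • a, ?_, smul_inv_smul g a⟩
        rcases ha with ⟨h1, h2⟩ | ⟨h1, h2⟩
        · exact Or.inl ⟨h1, h2⟩
        · exact Or.inr ⟨h1, h2⟩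
      · rintro ⟨b, hb, rfl⟩
        have e : g⁻¹ • g • b = b := inv_smul_smul g b
        rcases hb with ⟨h1, h2⟩ | ⟨h1, h2⟩
        · left
          refine ⟨?_, fun h3 => h2 ?_⟩
          · show g⁻¹ • g • b ∈ U.1
            rw [e]
            exact h1
          · have h4 : g⁻¹ • g • b ∈ U'.1 := h3
            rwa [e] at h4
        · right
          refine ⟨?_, fun h3 => h2 ?_⟩
          · show g⁻¹ • g • b ∈ U'.1
            rw [e]
            exact h1
          · have h4 : g⁻¹ • g • b ∈ U.1 := h3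
            rwa [e] at h4
    rw [h]
    exact Set.ncard_image_of_injective _ (MulAction.injective g)

theorem st_smul (g : G) (r : ℝ) (x : Pt o) : st r (g • x) = g • st r x := by
  apply Subtype.ext
  ext a
  exact Iff.rfl

theorem far_smul (g : G) (r e : ℝ) (x : Pt o) : far r e (g • x) ↔ far r e x := by
  constructor
  · intro h a
    have h1 := h (g • a)
    rw [smul_val, inv_smul_smul] at h1
    exact h1
  · intro h a
    exact h (g⁻¹ • a)

end action

end Pool.Agent.CCC
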