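import Pool.Agent.Lib.MP_98022b_cc.ProdMem
import Pool.Agent.Lib.MP_98022b_cc.States

/-!
# Groups with a homomorphism whose kernel meets the stabilizers of the cubes in small groups
-/

set_option autoImplicit false

open Set

namespace Pool.Agent.CCC

open Pocset Pool.Agent.FJ

/-- The theorem for actions with a bound for all chains of stabilizers. -/
def ChainThm (P : ∀ (G : Type) [Group G], Prop) : Prop :=
  ∀ (G H : Type) [Group G] [Pocset H] [PocAct G H] (o : Set H) [Based G o] (d l₀ : ℕ), Width H d →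
    (∀ v : Cube o, P (MulAction.stabilizer G v)) →
    (∀ T : ℕ → Set (Cube o), (∀ i, (T i).Finite) → (∀ i, T i ⊆ T (i + 1)) → (T 0).Nonempty →
      ∃ i < l₀, fixingSubgroup G (T i) = fixingSubgroup G (T (i + 1))) →
    (∀ T : Set (Cube o), T.Finite → T.Nonempty → ∀ t : G,
      (∀ j, j ∈ fixingSubgroup G T ↔ t * j * t⁻¹ ∈ fixingSubgroup G T) →
      P (fixingSubgroup G T ⊔ Subgroup.zpowers t : Subgroup G)) → P G

variable {P : ∀ (G : Type) [Group G], Prop}

/-- Passing to a group `K` with an injective homomorphism to `G` and an action on a pocset which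
projects to the one of `G`, such that the stabilizers of the cubes are the ones of a
subgroup `N`. -/
theorem mem_of_proj (hP : IsFJClass P) (hT : ChainThm P) {G K H H' : Type} [Group G] [Group K]
    [Pocset H] [Pocset H'] [PocAct G H] [PocAct K H'] {o : Set H} {o' : Set H'} [Based G o]
    [Based K o'] (φ : K →* G) (hφ : Function.Injective φ) (N : Subgroup G) (hN : N ≤ φ.range)
    (pr : Cube o' → Cube o)
    (hpr : ∀ (k : K) (U : Cube o'), k • U = U ↔ φ k • pr U = pr U ∧ φ k ∈ N) {d l₀ : ℕ}
    (hw : Width H' d) (hv : ∀ v : Cube o, P (MulAction.stabilizer G v ⊓ N : Subgroup G))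
    (hchain : ∀ T : ℕ → Set (Cube o), (∀ i, (T i).Finite) → (∀ i, T i ⊆ T (i + 1)) →
      (T 0).Nonempty → ∃ i < l₀, fixingSubgroup G (T i) ⊓ N = fixingSubgroup G (T (i + 1)) ⊓ N)
    (hcyc : ∀ T : Set (Cube o), T.Finite → T.Nonempty → ∀ t : G,
      (∀ j, j ∈ fixingSubgroup G T ⊓ N ↔ t * j * t⁻¹ ∈ fixingSubgroup G T ⊓ N) →
      P ((fixingSubgroup G T ⊓ N) ⊔ Subgroup.zpowers t : Subgroup G)) : P K := by
  have hfix : ∀ T : Set (Cube o'), T.Nonempty → ∀ k : K,
      k ∈ fixingSubgroup K T ↔ φ k ∈ fixingSubgroup G (pr '' T) ⊓ N := by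
    intro T hTn k
    rw [mem_fixingSubgroup_iff, Subgroup.mem_inf, mem_fixingSubgroup_iff]
    constructor
    · intro h
      refine ⟨?_, ?_⟩
      · rintro _ ⟨U, hU, rfl⟩
        exact ((hpr k U).1 (h U hU)).1
      · obtain ⟨U, hU⟩ := hTn
        exact ((hpr k U).1 (h U hU)).2
    · rintro ⟨h1, h2⟩ U hU
      exact (hpr k U).2 ⟨h1 _ ⟨U, hU, rfl⟩, h2⟩
  refine hT K H' o' d l₀ hw (fun v => ?_) (fun T hfin hmono hne => ?_) (fun T hfin hne t ht => ?_)
  · refine hP.of_injective ((φ.comp (MulAction.stabilizer K v).subtype).codRestrict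
      (MulAction.stabilizer G (pr v) ⊓ N) fun k => ?_) ?_ (hv (pr v))
    · obtain ⟨h1, h2⟩ := (hpr k v).1 k.2
      exact ⟨h1, h2⟩
    · intro a b hab
      have h1 := congrArg (fun x : (MulAction.stabilizer G (pr v) ⊓ N : Subgroup G) => (x : G)) hab
      exact Subtype.ext (hφ h1)
  · obtain ⟨i, hi, h⟩ := hchain (fun i => pr '' T i) (fun i => (hfin i).image _)
      (fun i => Set.image_mono (hmono i)) (hne.image _)
    refine ⟨i, hi, ?_⟩
    have hne' : ∀ j, (T j).Nonempty := by
      intro j
      induction j with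
      | zero => exact hne
      | succ j ih => exact ih.mono (hmono j)
    ext k
    rw [hfix _ (hne' _), hfix _ (hne' _), h]
  · have key : ∀ j, j ∈ fixingSubgroup G (pr '' T) ⊓ N ↔
        φ t * j * (φ t)⁻¹ ∈ fixingSubgroup G (pr '' T) ⊓ N := by
      intro j
      constructor
      · intro hj
        obtain ⟨k, rfl⟩ := hN hj.2
        have h1 := (ht k).1 ((hfix T hne k).2 hj)
        have h2 := (hfix T hne _).1 h1
        rwa [map_mul, map_mul, map_inv] at h2
      · intro hj
        obtain ⟨k, hk⟩ := hN hj.2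
        obtain ⟨k', hk'⟩ : ∃ k', k' = t⁻¹ * k * t := ⟨_, rfl⟩
        have h0 : φ k' = j := by
          rw [hk', map_mul, map_mul, map_inv, hk]
          group
        rw [← h0] at hj ⊢
        rw [← map_mul, ← map_inv, ← map_mul] at hj
        exact (hfix T hne _).1 ((ht k').2 ((hfix T hne _).2 hj))
    refine hP.of_injective ((φ.comp (fixingSubgroup K T ⊔ Subgroup.zpowers t).subtype).codRestrict
      ((fixingSubgroup G (pr '' T) ⊓ N) ⊔ Subgroup.zpowers (φ t)) fun k => ?_) ?_
      (hcyc (pr '' T) (hfin.image _) (hne.image _) (φ t) key)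
    · have h1 : fixingSubgroup K T ⊔ Subgroup.zpowers t ≤
          ((fixingSubgroup G (pr '' T) ⊓ N) ⊔ Subgroup.zpowers (φ t)).comap φ := by
        refine sup_le (fun k hk => ?_) ?_
        · exact Subgroup.mem_sup_left ((hfix T hne k).1 hk)
        · rw [Subgroup.zpowers_le]
          exact Subgroup.mem_sup_right (Subgroup.mem_zpowers _)
      exact h1 k.2
    · intro a b hab
      have h1 := congrArg (fun x : ((fixingSubgroup G (pr '' T) ⊓ N) ⊔ Subgroup.zpowers (φ t) :
        Subgroup G) => (x : G)) hab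
      exact Subtype.ext (hφ h1)

/-- The projection of the cubes of the product with the line. -/
def LH.pr {H : Type} [Pocset H] {o : Set H} (U : Cube (LH.base o)) : Cube o :=
  ⟨{a | LH.fac a ∈ U.1}, LH.isCube_fac U.2.1, LH.finite_fac U.2.2⟩

/-- Let `f : G → Q` be a homomorphism to a group in the class with the kernel `N`. The group `G` is
in the class if the intersections of the stabilizers of cubes with `N` are in the class, the chains
of the intersections of `N` with the pointwise stabilizers of finite sets of cubes have bounded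
length, and if for each such intersection `J` and each element `t` of `G` which normalizes `J` the
group generated by `J` and `t` is in the class. -/
theorem mem_of_hom (hP : IsFJClass P) (hT : ChainThm P) {G H Q : Type} [Group G] [Group Q]
    [Pocset H] [PocAct G H] (o : Set H) [hB : Based G o] {d l₀ : ℕ} (hw : Width H d)
    (f : G →* Q) (hQ : P Q) (hv : ∀ v : Cube o, P (MulAction.stabilizer G v ⊓ f.ker : Subgroup G))
    (hchain : ∀ T : ℕ → Set (Cube o), (∀ i, (T i).Finite) → (∀ i, T i ⊆ T (i + 1)) →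
      (T 0).Nonempty →
      ∃ i < l₀, fixingSubgroup G (T i) ⊓ f.ker = fixingSubgroup G (T (i + 1)) ⊓ f.ker)
    (hcyc : ∀ T : Set (Cube o), T.Finite → T.Nonempty → ∀ t : G,
      (∀ j, j ∈ fixingSubgroup G T ⊓ f.ker ↔ t * j * t⁻¹ ∈ fixingSubgroup G T ⊓ f.ker) →
      P ((fixingSubgroup G T ⊓ f.ker) ⊔ Subgroup.zpowers t : Subgroup G)) : P G := by
  refine hP.extension f hQ fun q => ?_
  obtain ⟨K, hK⟩ : ∃ K : Subgroup G, K = (Subgroup.zpowers q).comap f := ⟨_, rfl⟩
  rw [← hK]
  have hKm : ∀ g : K, ∃ n : ℤ, q ^ n = f (g : G) := by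
    intro g
    have h1 : (g : G) ∈ (Subgroup.zpowers q).comap f := hK ▸ g.2
    exact Subgroup.mem_zpowers_iff.1 (Subgroup.mem_comap.1 h1)
  have hker : f.ker ≤ K := by
    intro g hg
    rw [hK, Subgroup.mem_comap, MonoidHom.mem_ker.1 hg]
    exact one_mem _
  by_cases hq : IsOfFinOrder q
  · -- elements of finite order
    have : Finite (Subgroup.zpowers q) := hq.finite_zpowers
    obtain ⟨F, hF⟩ : ∃ F : K →* Subgroup.zpowers q, ∀ g : K, ((F g : Subgroup.zpowers q) : Q) = f g :=
      ⟨(f.comp K.subtype).codRestrict (Subgroup.zpowers q) fun g => by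
        obtain ⟨n, hn⟩ := hKm g
        exact Subgroup.mem_zpowers_iff.2 ⟨n, hn⟩, fun g => rfl⟩
    refine hP.of_finite_range F ?_
    have h1 : P f.ker := by
      letI := pocSub (H := H) f.ker
      haveI := basedSub f.ker o
      refine mem_of_proj hP hT (K := f.ker) (H' := H) (o' := o) f.ker.subtype
        (Subgroup.subtype_injective _) f.ker (by rw [Subgroup.range_subtype]) (fun U => U) ?_ hw
        hv hchain hcyc
      intro k U
      constructor
      · intro h
        exact ⟨h, k.2⟩
      · intro h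
        exact h.1
    refine hP.of_injective ((K.subtype.comp F.ker.subtype).codRestrict f.ker fun g => ?_) ?_ h1
    · have h2 : F g = 1 := g.2
      have h3 := hF (g : K)
      rw [h2] at h3
      exact h3.symm
    · intro a b hab
      have h1 := congrArg (fun x : f.ker => (x : G)) hab
      exact Subtype.ext (Subtype.ext h1)
  · -- elements of infinite order: product with the line
    obtain ⟨ψ, hψ⟩ : ∃ ψ : Multiplicative ℤ →* Q, ∀ n, ψ n = q ^ n.toAdd :=
      ⟨zpowersHom Q q, fun n => rfl⟩
    have hinj : Function.Injective ψ := by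
      rw [injective_iff_map_eq_one]
      intro n hn
      rw [hψ] at hn
      have h1 : n.toAdd = 0 := by
        by_contra h2
        exact hq (isOfFinOrder_iff_zpow_eq_one.2 ⟨n.toAdd, h2, hn⟩)
      exact Multiplicative.toAdd.injective h1
    obtain ⟨χ, hχ⟩ : ∃ χ : K →* Multiplicative ℤ, ∀ g : K, f (g : G) = ψ (χ g) := by
      let e : Multiplicative ℤ ≃* ψ.range := MonoidHom.ofInjective hinj
      let φ : K →* ψ.range := (f.comp K.subtype).codRestrict ψ.range fun g => by
        obtain ⟨n, hn⟩ := hKm g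
        exact ⟨Multiplicative.ofAdd n, by rw [hψ]; exact hn⟩
      refine ⟨e.symm.toMonoidHom.comp φ, fun g => ?_⟩
      have h1 : e (e.symm (φ g)) = φ g := e.apply_symm_apply _
      have h2 : ((e (e.symm (φ g)) : ψ.range) : Q) = f (g : G) := by
        rw [h1]
        rfl
      rw [← h2]
      rfl
    letI := pocSub (H := H) K
    haveI := basedSub K o
    letI i1 : PocAct K (LH H) := LH.pocAct χ
    haveI : Based K (LH.base o) := LH.based χ
    refine mem_of_proj hP hT (K := K) (H' := LH H) (o' := LH.base o) K.subtype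
      (Subgroup.subtype_injective _) f.ker (by rw [Subgroup.range_subtype]; exact hker) LH.pr
      ?_ (LH.width hw) hv hchain hcyc
    intro k U
    constructor
    · intro h
      have hU : ∀ a : LH H, k⁻¹ • a ∈ U.1 ↔ a ∈ U.1 := by
        intro a
        rw [← mem_smul_cube, h]
      have h1 : (χ k⁻¹).toAdd = 0 := by
        refine LH.trans_eq_zero U.2.2 fun m => ?_
        exact (hU (LH.lo m)).symm
      refine ⟨?_, ?_⟩
      · apply Subtype.ext
        ext a
        exact hU (LH.fac a)
      · have h2 : χ k = 1 := by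
          rw [map_inv, toAdd_inv, neg_eq_zero] at h1
          exact Multiplicative.toAdd.injective h1
        show f (k : G) = 1
        rw [hχ, h2, map_one]
    · rintro ⟨h1, h2⟩
      have h3 : χ k = 1 := by
        apply hinj
        rw [← hχ, map_one]
        exact h2
      have h4 : (χ k⁻¹).toAdd = 0 := by rw [map_inv, h3, inv_one, toAdd_one]
      apply Subtype.ext
      ext a
      rw [mem_smul_cube]
      cases a with
      | fac a =>
        have h5 : a ∈ ((k : G) • LH.pr U).1 ↔ a ∈ (LH.pr U).1 := by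
          rw [show (k : G) • LH.pr U = LH.pr U from h1]
        exact h5
      | lo m =>
        have h5 : k⁻¹ • (LH.lo m : LH H) = LH.lo m := by
          show LH.lo (m + (χ k⁻¹).toAdd) = LH.lo m
          rw [h4, add_zero]
        rw [h5]
      | hi m =>
        have h5 : k⁻¹ • (LH.hi m : LH H) = LH.hi m := by
          show LH.hi (m + (χ k⁻¹).toAdd) = LH.hi m
          rw [h4, add_zero]
        rw [h5]

/-- Elements of the group generated by a subgroup `F` and an element `t` which normalizes `F`. -/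
theorem mem_sup_zpowers {G : Type} [Group G] {F : Subgroup G} {t : G}
    (ht : ∀ j, j ∈ F ↔ t * j * t⁻¹ ∈ F) {x : G} (hx : x ∈ F ⊔ Subgroup.zpowers t) :
    ∃ f ∈ F, ∃ n : ℤ, x = f * t ^ n := by
  have hn : ∀ (n : ℤ) (g : G), g ∈ F → t ^ n * g * (t ^ n)⁻¹ ∈ F := by
    intro n g hg
    have h1 : t ∈ Subgroup.normalizer (F : Set G) := Subgroup.mem_normalizer_iff.2 ht
    exact (Subgroup.mem_normalizer_iff.1 (zpow_mem h1 n) g).1 hg
  obtain ⟨S, hS⟩ : ∃ S : Subgroup G, ∀ y, y ∈ S ↔ ∃ f ∈ F, ∃ n : ℤ, y = f * t ^ n := by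
    refine ⟨⟨⟨⟨{y | ∃ f ∈ F, ∃ n : ℤ, y = f * t ^ n}, ?_⟩, ?_⟩, ?_⟩, fun y => Iff.rfl⟩
    · rintro _ _ ⟨f, hf, n, rfl⟩ ⟨g, hg, m, rfl⟩
      refine ⟨f * (t ^ n * g * (t ^ n)⁻¹), F.mul_mem hf (hn n g hg), n + m, ?_⟩
      rw [zpow_add]
      group
    · exact ⟨1, F.one_mem, 0, by simp⟩
    · rintro _ ⟨f, hf, n, rfl⟩
      refine ⟨t ^ (-n) * f⁻¹ * (t ^ (-n))⁻¹, hn _ _ (F.inv_mem hf), -n, ?_⟩
      group
  have h1 : F ⊔ Subgroup.zpowers t ≤ S := by
    refine sup_le (fun f hf => (hS f).2 ⟨f, hf, 0, by simp⟩) ?_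
    rw [Subgroup.zpowers_le]
    exact (hS t).2 ⟨1, F.one_mem, 1, by simp⟩
  exact (hS x).1 (h1 hx)

theorem IsFJClass_zpowers (hP : IsFJClass P) {G : Type} [Group G] (t : G) :
    P (Subgroup.zpowers t) := by
  by_cases h : IsOfFinOrder t
  · have : Finite (Subgroup.zpowers t) := h.finite_zpowers
    exact hP.of_finite
  · obtain ⟨ψ, hψ⟩ : ∃ ψ : Multiplicative ℤ →* G, ∀ n, ψ n = t ^ n.toAdd :=
      ⟨zpowersHom G t, fun n => rfl⟩
    have hinj : Function.Injective ψ := by
      rw [injective_iff_map_eq_one]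
      intro n hn
      rw [hψ] at hn
      have h1 : n.toAdd = 0 := by
        by_contra h2
        exact h (isOfFinOrder_iff_zpow_eq_one.2 ⟨n.toAdd, h2, hn⟩)
      exact Multiplicative.toAdd.injective h1
    have e : Multiplicative ℤ ≃* ψ.range := MonoidHom.ofInjective hinj
    refine hP.of_injective ((e.symm.toMonoidHom).comp (Subgroup.inclusion ?_)) ?_ hP.int
    · rw [Subgroup.zpowers_le]
      exact ⟨Multiplicative.ofAdd 1, by rw [hψ]; simp⟩
    · exact e.symm.injective.comp (Subgroup.inclusion_injective _)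

/-- A finite group extended by a cyclic group. -/
theorem IsFJClass_sup_zpowers (hP : IsFJClass P) {G : Type} [Group G] {F : Subgroup G}
    (hF : Finite F) {t : G} (ht : ∀ j, j ∈ F ↔ t * j * t⁻¹ ∈ F) :
    P (F ⊔ Subgroup.zpowers t : Subgroup G) := by
  obtain ⟨E, hE⟩ : ∃ E : Subgroup G, E = F ⊔ Subgroup.zpowers t := ⟨_, rfl⟩
  rw [← hE]
  have htE : t ∈ E := by
    rw [hE]
    exact Subgroup.mem_sup_right (Subgroup.mem_zpowers t)
  have hFE : F ≤ E := by
    rw [hE]
    exact le_sup_left
  have hfin : Finite (E ⧸ Subgroup.zpowers (⟨t, htE⟩ : E)) := by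
    refine Finite.of_surjective (α := F) (fun g => QuotientGroup.mk (⟨g, hFE g.2⟩ : E)) ?_
    intro x
    obtain ⟨y, rfl⟩ := QuotientGroup.mk_surjective x
    have hy : (y : G) ∈ F ⊔ Subgroup.zpowers t := hE ▸ y.2
    obtain ⟨g, hg, n, hy⟩ := mem_sup_zpowers ht hy
    refine ⟨⟨g, hg⟩, ?_⟩
    show QuotientGroup.mk _ = QuotientGroup.mk y
    rw [QuotientGroup.eq]
    refine Subgroup.mem_zpowers_iff.2 ⟨n, ?_⟩
    apply Subtype.ext
    simp [hy]
  refine hP.of_finiteIndex (Subgroup.zpowers (⟨t, htE⟩ : E))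
    Subgroup.finiteIndex_of_finite_quotient ?_
  exact IsFJClass_zpowers hP _

/-- Let `f : G → Q` be a homomorphism to a group in the class such that the intersections of the
kernel with the stabilizers of the cubes are finite groups of bounded order. Then `G` is in the
class. -/
theorem mem_of_hom_finite (hP : IsFJClass P) (hT : ChainThm P) {G H Q : Type} [Group G] [Group Q]
    [Pocset H] [PocAct G H] (o : Set H) [hB : Based G o] {d : ℕ} (hw : Width H d)
    (f : G →* Q) (hQ : P Q) (k : ℕ)
    (hfin : ∀ v : Cube o, Finite (MulAction.stabilizer G v ⊓ f.ker : Subgroup G))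
    (hk : ∀ v : Cube o, Nat.card (MulAction.stabilizer G v ⊓ f.ker : Subgroup G) ≤ k) : P G := by
  have hle : ∀ T : Set (Cube o), ∀ v ∈ T,
      fixingSubgroup G T ⊓ f.ker ≤ MulAction.stabilizer G v ⊓ f.ker := by
    intro T v hv
    refine inf_le_inf_right _ fun g hg => ?_
    exact (mem_fixingSubgroup_iff G).1 hg v hv
  have hfT : ∀ T : Set (Cube o), T.Nonempty → Finite (fixingSubgroup G T ⊓ f.ker : Subgroup G) := by
    rintro T ⟨v, hv⟩
    have := hfin v
    exact Finite.of_injective _ (Subgroup.inclusion_injective (hle T v hv))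
  refine mem_of_hom hP hT o hw (l₀ := k + 1) f hQ (fun v => ?_) (fun T _ hmono hne => ?_)
    (fun T _ hne t ht => ?_)
  · have := hfin v
    exact hP.of_finite
  · have hne' : ∀ j, (T j).Nonempty := by
      intro j
      induction j with
      | zero => exact hne
      | succ j ih => exact ih.mono (hmono j)
    by_contra hcon
    push Not at hcon
    have hanti : ∀ j, fixingSubgroup G (T (j + 1)) ⊓ f.ker ≤ fixingSubgroup G (T j) ⊓ f.ker :=
      fun j => inf_le_inf_right _ (fixingSubgroup_antitone G _ (hmono j))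
    have hlt : ∀ j < k + 1, Nat.card (fixingSubgroup G (T (j + 1)) ⊓ f.ker : Subgroup G) <
        Nat.card (fixingSubgroup G (T j) ⊓ f.ker : Subgroup G) := by
      intro j hj
      have := hfT _ (hne' j)
      refine lt_of_le_of_ne (Subgroup.card_le_of_le (hanti j)) fun h => hcon j hj ?_
      exact (Subgroup.eq_of_le_of_card_ge (hanti j) h.ge).symm
    have hsum : ∀ j ≤ k + 1, Nat.card (fixingSubgroup G (T j) ⊓ f.ker : Subgroup G) + j ≤ k := by
      intro j
      induction j with
      | zero =>
        intro _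
        obtain ⟨v, hv⟩ := hne
        have := hfin v
        exact (Subgroup.card_le_of_le (hle (T 0) v hv)).trans (hk v)
      | succ j ih =>
        intro hj
        have h1 := ih (by omega)
        have h2 := hlt j (by omega)
        omega
    have := hsum (k + 1) le_rfl
    omega
  · have := hfT T hne
    exact IsFJClass_sup_zpowers hP this ht

end Pool.Agent.CCC
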