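import Pool.Agent.Lib.MP_98022b_cc.MedWidth
import Pool.Agent.Lib.MP_98022b_cc.Final
import Pool.Agent.Lib.MP_98022b_cc.ProdChain

/-!
# Groups acting on median graphs of finite dimension
-/

set_option autoImplicit false

open Set
open scoped Pointwise

namespace Pool.Agent.CCC

open Pocset Pool.Agent.FJ

section orbits

/-- A group which acts such that an orbit is finite. -/
theorem finiteIndex_of_orbit {F Y : Type} [Group F] [MulAction F Y] (y : Y) {S : Set Y}
    (hS : S.Finite) (h : ∀ g : F, g • y ∈ S) :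
    (MulAction.stabilizer F y).FiniteIndex ∧ (MulAction.stabilizer F y).index ≤ S.ncard := by
  have h1 : MulAction.orbit F y ⊆ S := by
    rintro _ ⟨g, rfl⟩
    exact h g
  have h2 : (MulAction.stabilizer F y).index = (MulAction.orbit F y).ncard :=
    MulAction.index_stabilizer F y
  have h3 : 0 < (MulAction.orbit F y).ncard := by
    rw [Set.ncard_pos (hS.subset h1)]
    exact ⟨y, MulAction.mem_orbit_self y⟩
  refine ⟨⟨by omega⟩, ?_⟩
  rw [h2]
  exact Set.ncard_le_ncard h1 hS

theorem card_le_of_orbit {F Y : Type} [Group F] [MulAction F Y] (y : Y) {S : Set Y}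
    (hS : S.Finite) (h : ∀ g : F, g • y ∈ S) {N : ℕ} (hfin : Finite (MulAction.stabilizer F y))
    (hN : Nat.card (MulAction.stabilizer F y) ≤ N) : Finite F ∧ Nat.card F ≤ N * S.ncard := by
  obtain ⟨h1, h2⟩ := finiteIndex_of_orbit y hS h
  have h3 := (MulAction.stabilizer F y).card_mul_index
  refine ⟨?_, ?_⟩
  · have h4 : 0 < Nat.card (MulAction.stabilizer F y) := Nat.card_pos
    have h5 : (MulAction.stabilizer F y).index ≠ 0 := h1.index_ne_zero
    have h6 : Nat.card F ≠ 0 := by
      rw [← h3]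
      exact Nat.mul_ne_zero h4.ne' h5
    exact Nat.finite_of_card_ne_zero h6
  · rw [← h3]
    exact Nat.mul_le_mul hN h2

/-- A descending chain of finite groups. -/
theorem exists_eq_of_card {G : Type} [Group G] (F : ℕ → Subgroup G) (hanti : ∀ i, F (i + 1) ≤ F i)
    (hfin : Finite (F 0)) {k : ℕ} (hk : Nat.card (F 0) ≤ k) : ∃ i < k + 1, F i = F (i + 1) := by
  have hf : ∀ j, Finite (F j) := by
    intro j
    induction j with
    | zero => exact hfin
    | succ j ih => exact Finite.of_injective _ (Subgroup.inclusion_injective (hanti j))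
  by_contra hcon
  push Not at hcon
  have hsum : ∀ j ≤ k + 1, Nat.card (F j) + j ≤ k := by
    intro j
    induction j with
    | zero =>
      intro _
      exact hk
    | succ j ih =>
      intro hj
      have h1 := ih (by omega)
      have h2 : Nat.card (F (j + 1)) < Nat.card (F j) := by
        have := hf j
        refine lt_of_le_of_ne (Subgroup.card_le_of_le (hanti j)) fun h => hcon j (by omega) ?_
        exact (Subgroup.eq_of_le_of_card_ge (hanti j) h.ge).symm
      omega
  have := hsum (k + 1) le_rfl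
  omega

end orbits

variable {V : Type} {X : SimpleGraph V}

theorem IsCubeSet.finite {C : Set V} (h : IsCubeSet X C) : C.Finite := by
  obtain ⟨n, e, -, rfl⟩ := h
  exact Set.finite_range e

theorem IsCubeSet.nonempty {C : Set V} (h : IsCubeSet X C) : C.Nonempty := by
  obtain ⟨n, e, -, rfl⟩ := h
  exact Set.range_nonempty e

theorem IsCubeSet.ncard_le {d : ℕ} (hd : ∀ n (e : (Fin n → Bool) → V), IsomCube X n e → n ≤ d)
    {C : Set V} (h : IsCubeSet X C) : C.ncard ≤ 2 ^ d := by
  obtain ⟨n, e, he, rfl⟩ := h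
  rw [← Set.image_univ]
  refine (Set.ncard_image_le Set.finite_univ).trans ?_
  rw [Set.ncard_univ, Nat.card_eq_fintype_card, Fintype.card_fun, Fintype.card_bool,
    Fintype.card_fin]
  exact Nat.pow_le_pow_right (by norm_num) (hd n e he)

theorem isCubeSet_singleton (X : SimpleGraph V) (x : V) : IsCubeSet X {x} := by
  refine ⟨0, fun _ => x, ?_, ?_⟩
  · intro s t
    rw [Subsingleton.elim s t, hammingDist_self, SimpleGraph.dist_self]
  · rw [Set.range_const]

variable {P : ∀ (G : Type) [Group G], Prop} {Γ : Type} [Group Γ] [MulAction Γ V]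

theorem smul_mem_of_stab {C : Set V} {g : Γ} (hg : g • C = C) {x : V} (hx : x ∈ C) : g • x ∈ C := by
  rw [← hg]
  exact Set.smul_mem_smul_set hx

/-- The stabilizer of a cube is in the class if the ones of the vertices are. -/
theorem stab_cubeSet (hP : IsFJClass P) (hv : ∀ x : V, P (MulAction.stabilizer Γ x)) {C : Set V}
    (hC : IsCubeSet X C) : P (MulAction.stabilizer Γ C) := by
  obtain ⟨x, hx⟩ := hC.nonempty
  obtain ⟨h1, -⟩ := finiteIndex_of_orbit (F := MulAction.stabilizer Γ C) x hC.finite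
    fun g => smul_mem_of_stab g.2 hx
  refine hP.of_finiteIndex _ h1 ?_
  refine hP.of_injective (((MulAction.stabilizer Γ C).subtype.comp
    (MulAction.stabilizer (MulAction.stabilizer Γ C) x).subtype).codRestrict
      (MulAction.stabilizer Γ x) fun g => ?_) ?_ (hv x)
  · exact g.2
  · intro a b hab
    have h2 := congrArg (fun y : MulAction.stabilizer Γ x => (y : Γ)) hab
    exact Subtype.ext (Subtype.ext h2)

section cubes

variable (hX : IsMedianGraph X) (hact : ∀ (g : Γ) x y, X.Adj (g • x) (g • y) ↔ X.Adj x y)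

/-- The action on the cubes. -/
theorem vset_smul (x₀ : V) (g : Γ) (U : Cube (sig X x₀)) :
    letI := hsAct hact hX.conn
    haveI := hsBased hX hact x₀
    vset (g • U) = g • vset U := by
  letI := hsAct hact hX.conn
  haveI := hsBased hX hact x₀
  show vset (g • U) = g • vset U
  ext z
  rw [Set.mem_smul_set_iff_inv_smul_mem]
  constructor
  · intro hz b hb
    have h1 : (g • b : HS X) ∈ sig X z := hb
    have h2 : (g • b : HS X) ∈ (g • U).1 := hz h1
    rw [mem_smul_cube, inv_smul_smul] at h2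
    exact h2
  · intro hz a ha
    rw [mem_smul_cube]
    refine hz ?_
    show (g⁻¹)⁻¹ • g⁻¹ • z ∈ a.1
    rw [inv_inv, smul_inv_smul]
    exact ha

theorem smul_eq_iff (x₀ : V) (g : Γ) (U : Cube (sig X x₀)) :
    letI := hsAct hact hX.conn
    haveI := hsBased hX hact x₀
    (g • U = U ↔ g • vset U = vset U) := by
  letI := hsAct hact hX.conn
  haveI := hsBased hX hact x₀
  show g • U = U ↔ g • vset U = vset U
  rw [← vset_smul hX hact x₀ g U]
  constructor
  · intro h
    rw [h]
  · intro h
    exact hX.vset_injective h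

theorem fixing_eq (x₀ : V) (T : Set (Cube (sig X x₀))) :
    letI := hsAct hact hX.conn
    haveI := hsBased hX hact x₀
    fixingSubgroup Γ T = fixingSubgroup Γ (vset '' T) := by
  letI := hsAct hact hX.conn
  haveI := hsBased hX hact x₀
  show fixingSubgroup Γ T = fixingSubgroup Γ (vset '' T)
  ext g
  rw [mem_fixingSubgroup_iff, mem_fixingSubgroup_iff]
  constructor
  · rintro h _ ⟨U, hU, rfl⟩
    exact (smul_eq_iff hX hact x₀ g U).1 (h U hU)
  · intro h U hU
    exact (smul_eq_iff hX hact x₀ g U).2 (h _ ⟨U, hU, rfl⟩)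

end cubes

/-- Let `Γ` act by automorphisms on a median graph `X` without isometric cubes of dimension larger
than `d`. If the stabilizers of the vertices are in the class, the chains of the pointwise
stabilizers of finite sets of cubes which contain two far cubes have bounded length, and for each
such stabilizer `J` and each element `t` which normalizes `J` the group generated by `J` and `t` is
in the class, then `Γ` is in the class. -/
theorem mem_of_median (hP : IsFJClassT P) (hX : IsMedianGraph X)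
    (hact : ∀ (g : Γ) x y, X.Adj (g • x) (g • y) ↔ X.Adj x y) {d : ℕ}
    (hd : ∀ n (e : (Fin n → Bool) → V), IsomCube X n e → n ≤ d) (k l : ℕ)
    (hv : ∀ x : V, P (MulAction.stabilizer Γ x))
    (hchain : ∀ T : ℕ → Set (Set V), (∀ i, (T i).Finite) → (∀ i, ∀ C ∈ T i, IsCubeSet X C) →
      (∀ i, T i ⊆ T (i + 1)) → (∃ C ∈ T 0, ∃ C' ∈ T 0, ∀ x ∈ C, ∀ y ∈ C', k ≤ X.dist x y) →
      ∃ i < l, fixingSubgroup Γ (T i) = fixingSubgroup Γ (T (i + 1)))
    (hcyc : ∀ T : Set (Set V), T.Finite → (∀ C ∈ T, IsCubeSet X C) →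
      (∃ C ∈ T, ∃ C' ∈ T, ∀ x ∈ C, ∀ y ∈ C', k ≤ X.dist x y) → ∀ t : Γ,
      (∀ j, j ∈ fixingSubgroup Γ T ↔ t * j * t⁻¹ ∈ fixingSubgroup Γ T) →
      P (fixingSubgroup Γ T ⊔ Subgroup.zpowers t : Subgroup Γ)) : P Γ := by
  obtain ⟨x₀⟩ := hX.conn.nonempty
  letI := hsAct hact hX.conn
  haveI := hsBased hX hact x₀
  have hfar : ∀ T : Set (Cube (sig X x₀)), (∃ v ∈ T, ∃ w ∈ T, 2 * k + 2 * d ≤ dC v w) →
      ∃ C ∈ vset '' T, ∃ C' ∈ vset '' T, ∀ x ∈ C, ∀ y ∈ C', k ≤ X.dist x y := by
    rintro T ⟨v, hvT, w, hwT, h⟩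
    refine ⟨_, ⟨v, hvT, rfl⟩, _, ⟨w, hwT, rfl⟩, fun x hx y hy => ?_⟩
    have := hX.dC_le hd v w hx hy
    omega
  have hcube : ∀ T : Set (Cube (sig X x₀)), ∀ C ∈ vset '' T, IsCubeSet X C := by
    rintro T _ ⟨U, -, rfl⟩
    exact hX.isCubeSet_vset U
  refine mem_of_pocset hP (isVertex_sig x₀) (hX.width_HS x₀ hd) (2 * k + 2 * d) l (fun v => ?_)
    (fun T hfin hmono h => ?_) (fun T hfin h t ht => ?_)
  · have h1 : MulAction.stabilizer Γ v = MulAction.stabilizer Γ (vset v) := by
      ext g
      rw [MulAction.mem_stabilizer_iff, MulAction.mem_stabilizer_iff]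
      exact smul_eq_iff hX hact x₀ g v
    rw [h1]
    exact stab_cubeSet hP.toIsFJClass hv (hX.isCubeSet_vset v)
  · obtain ⟨i, hi, h1⟩ := hchain (fun i => vset '' T i) (fun i => (hfin i).image _)
      (fun i => hcube (T i)) (fun i => Set.image_mono (hmono i)) (hfar _ h)
    refine ⟨i, hi, ?_⟩
    rw [fixing_eq hX hact x₀, fixing_eq hX hact x₀]
    exact h1
  · have h1 := fixing_eq hX hact x₀ T
    rw [h1] at ht ⊢
    exact hcyc _ (hfin.image _) (hcube T) (hfar T h) t ht

/-- ACYLINDRICAL ACTIONS. Let `Γ` act by automorphisms on a median graph `X` without isometric cubes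
of dimension larger than `d`. If the stabilizers of the vertices are in the class and the common
stabilizers of two vertices of distance at least `k` are finite groups of order at most `N`, then
`Γ` is in the class. -/
theorem mem_of_median_acyl (hP : IsFJClassT P) (hX : IsMedianGraph X)
    (hact : ∀ (g : Γ) x y, X.Adj (g • x) (g • y) ↔ X.Adj x y) {d : ℕ}
    (hd : ∀ n (e : (Fin n → Bool) → V), IsomCube X n e → n ≤ d) (k N : ℕ)
    (hv : ∀ x : V, P (MulAction.stabilizer Γ x))
    (hfin : ∀ x y : V, k ≤ X.dist x y →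
      Finite (MulAction.stabilizer Γ x ⊓ MulAction.stabilizer Γ y : Subgroup Γ))
    (hcard : ∀ x y : V, k ≤ X.dist x y →
      Nat.card (MulAction.stabilizer Γ x ⊓ MulAction.stabilizer Γ y : Subgroup Γ) ≤ N) : P Γ := by
  have key : ∀ T : Set (Set V), (∀ C ∈ T, IsCubeSet X C) →
      (∃ C ∈ T, ∃ C' ∈ T, ∀ x ∈ C, ∀ y ∈ C', k ≤ X.dist x y) →
      Finite (fixingSubgroup Γ T) ∧ Nat.card (fixingSubgroup Γ T) ≤ N * (2 ^ d * 2 ^ d) := by
    rintro T hT ⟨C, hC, C', hC', hfar⟩
    obtain ⟨x, hx⟩ := (hT C hC).nonempty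
    obtain ⟨y, hy⟩ := (hT C' hC').nonempty
    have h1 : ∀ g : fixingSubgroup Γ T, g • (x, y) ∈ C ×ˢ C' := by
      intro g
      have h2 := (mem_fixingSubgroup_iff Γ).1 g.2
      exact ⟨smul_mem_of_stab (h2 C hC) hx, smul_mem_of_stab (h2 C' hC') hy⟩
    have hinj : Function.Injective (((fixingSubgroup Γ T).subtype.comp
        (MulAction.stabilizer (fixingSubgroup Γ T) (x, y)).subtype).codRestrict
          (MulAction.stabilizer Γ x ⊓ MulAction.stabilizer Γ y) fun g => by
            have h3 := MulAction.mem_stabilizer_iff.1 g.2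
            exact ⟨congrArg Prod.fst h3, congrArg Prod.snd h3⟩) := by
      intro a b hab
      have h2 := congrArg
        (fun z : (MulAction.stabilizer Γ x ⊓ MulAction.stabilizer Γ y : Subgroup Γ) => (z : Γ)) hab
      exact Subtype.ext (Subtype.ext h2)
    have hf := hfin x y (hfar x hx y hy)
    obtain ⟨h4, h5⟩ := card_le_of_orbit (x, y) ((hT C hC).finite.prod (hT C' hC').finite) h1
      (Finite.of_injective _ hinj)
      ((Nat.card_le_card_of_injective _ hinj).trans (hcard x y (hfar x hx y hy)))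
    refine ⟨h4, h5.trans (Nat.mul_le_mul_left _ ?_)⟩
    rw [Set.ncard_prod]
    exact Nat.mul_le_mul ((hT C hC).ncard_le hd) ((hT C' hC').ncard_le hd)
  refine mem_of_median hP hX hact hd k (N * (2 ^ d * 2 ^ d) + 1) hv
    (fun T _ hT hmono hfar => ?_) (fun T _ hT hfar t ht => ?_)
  · obtain ⟨h1, h2⟩ := key (T 0) (hT 0) hfar
    exact exists_eq_of_card (fun i => fixingSubgroup Γ (T i))
      (fun i => fixingSubgroup_antitone Γ _ (hmono i)) h1 h2
  · obtain ⟨h1, h2⟩ := key T hT hfar
    exact IsFJClass_sup_zpowers hP.toIsFJClass h1 ht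

/-- The theorem for all chains. -/
theorem chainThm (hP : IsFJClassT P) : ChainThm P := by
  intro G H _ _ _ o hB d l hw hv hchain hcyc
  refine mem_of_pocset hP hB.vertex hw 0 l hv (fun T hfin hmono hfar => ?_)
    (fun T hfin hfar t ht => ?_)
  · obtain ⟨v, hv, -⟩ := hfar
    exact hchain T hfin hmono ⟨v, hv⟩
  · obtain ⟨v, hv, -⟩ := hfar
    exact hcyc T hfin ⟨v, hv⟩ t ht

/-- HOMOMORPHISMS WITH FINITE KERNELS ON THE STABILIZERS. Let `Γ` act by automorphisms on a median
graph `X` without isometric cubes of dimension larger than `d`, and let `f : Γ → Q` be a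
homomorphism to a group in the class. If the kernel of `f` meets the stabilizers of the vertices in
finite groups of order at most `N`, then `Γ` is in the class. -/
theorem mem_of_median_hom (hP : IsFJClassT P) (hX : IsMedianGraph X)
    (hact : ∀ (g : Γ) x y, X.Adj (g • x) (g • y) ↔ X.Adj x y) {d : ℕ}
    (hd : ∀ n (e : (Fin n → Bool) → V), IsomCube X n e → n ≤ d) {Q : Type} [Group Q] (f : Γ →* Q)
    (hQ : P Q) (N : ℕ) (hfin : ∀ x : V, Finite (MulAction.stabilizer Γ x ⊓ f.ker : Subgroup Γ))
    (hcard : ∀ x : V, Nat.card (MulAction.stabilizer Γ x ⊓ f.ker : Subgroup Γ) ≤ N) : P Γ := by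
  obtain ⟨x₀⟩ := hX.conn.nonempty
  letI := hsAct hact hX.conn
  haveI := hsBased hX hact x₀
  have key : ∀ v : Cube (sig X x₀), Finite (MulAction.stabilizer Γ v ⊓ f.ker : Subgroup Γ) ∧
      Nat.card (MulAction.stabilizer Γ v ⊓ f.ker : Subgroup Γ) ≤ N * 2 ^ d := by
    intro v
    have hC := hX.isCubeSet_vset v
    obtain ⟨x, hx⟩ := hC.nonempty
    have h1 : ∀ g : (MulAction.stabilizer Γ v ⊓ f.ker : Subgroup Γ), g • x ∈ vset v := by
      intro g
      exact smul_mem_of_stab ((smul_eq_iff hX hact x₀ _ v).1 g.2.1) hx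
    have hinj : Function.Injective (((MulAction.stabilizer Γ v ⊓ f.ker : Subgroup Γ).subtype.comp
        (MulAction.stabilizer (MulAction.stabilizer Γ v ⊓ f.ker : Subgroup Γ) x).subtype).codRestrict
          (MulAction.stabilizer Γ x ⊓ f.ker) fun g => ⟨g.2, g.1.2.2⟩) := by
      intro a b hab
      have h2 := congrArg (fun z : (MulAction.stabilizer Γ x ⊓ f.ker : Subgroup Γ) => (z : Γ)) hab
      exact Subtype.ext (Subtype.ext h2)
    have hf := hfin x
    obtain ⟨h4, h5⟩ := card_le_of_orbit x hC.finite h1 (Finite.of_injective _ hinj)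
      ((Nat.card_le_card_of_injective _ hinj).trans (hcard x))
    exact ⟨h4, h5.trans (Nat.mul_le_mul_left _ (hC.ncard_le hd))⟩
  exact mem_of_hom_finite hP.toIsFJClass (chainThm hP) (sig X x₀) (hX.width_HS x₀ hd) f hQ
    (N * 2 ^ d) (fun v => (key v).1) fun v => (key v).2

end Pool.Agent.CCC
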