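import Mathlib

/-!
# The parameters
-/

set_option autoImplicit false

namespace Pool.Agent.CCC

private theorem two_cube_lt {D : ℕ} (hD : 12 ≤ D) : 2 * D ^ 3 < 2 ^ D := by
  induction D, hD using Nat.le_induction with
  | base => norm_num
  | succ D hD ih =>
    have h1 : (D + 1) ^ 3 ≤ 2 * D ^ 3 := by
      have h2 : 12 * D ^ 2 ≤ D ^ 3 := by
        have := Nat.mul_le_mul_right (D ^ 2) hD
        calc 12 * D ^ 2 ≤ D * D ^ 2 := this
          _ = D ^ 3 := by ring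
      have h3 : 12 * D ≤ D ^ 2 := by nlinarith
      have h4 : (D + 1) ^ 3 = D ^ 3 + 3 * D ^ 2 + 3 * D + 1 := by ring
      rw [h4]
      omega
    calc 2 * (D + 1) ^ 3 ≤ 2 * (2 * D ^ 3) := Nat.mul_le_mul_left 2 h1
      _ < 2 * 2 ^ D := by omega
      _ = 2 ^ (D + 1) := by ring

private theorem sq_le_two_pow {m : ℕ} (hm : 4 ≤ m) : m ^ 2 ≤ 2 ^ m := by
  induction m, hm using Nat.le_induction with
  | base => norm_num
  | succ m hm ih =>
    calc (m + 1) ^ 2 ≤ 2 * m ^ 2 := by nlinarith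
      _ ≤ 2 * 2 ^ m := Nat.mul_le_mul_left 2 ih
      _ = 2 ^ (m + 1) := by ring

theorem geo_param (C b : ℝ) (hC : 0 < C) (hb : 0 < b) (a η C' : ℕ) : ∃ A₀ H₀ : ℕ, ∀ H ≥ H₀,
    ∃ D : ℕ, C ≤ D ∧ b ≤ D ∧ 20 * (2 * (H : ℝ) + 2 * η) * b ≤ D ∧
    C * (1 / D + 5 * (2 * (H : ℝ) + 2 * η) * b / D) < 1 / 2 ^ ((2 * H + 2 * η) ^ a) / 4 ∧
    C * D / 2 ^ D < 1 / 2 ^ ((2 * H + 2 * η) ^ a) / 2 ∧ C' * (D ^ 2 + 2) ≤ 2 ^ (H ^ A₀) := by
  obtain ⟨K, hK⟩ := exists_nat_gt ((4 * C + 20) * (1 + 5 * b) + 12)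
  refine ⟨3 * a + 4, 8 + η + 2 * K + C', fun H hH => ?_⟩
  obtain ⟨h, hh⟩ : ∃ h : ℕ, h = 2 * H + 2 * η := ⟨_, rfl⟩
  have hhR : (2 * (H : ℝ) + 2 * η) = h := by
    rw [hh]
    push_cast
    ring
  rw [hhR, ← hh]
  obtain ⟨D, hD⟩ : ∃ D : ℕ, D = 2 ^ (h ^ (a + 1)) := ⟨_, rfl⟩
  -- natural numbers
  have hKh : K * h ≤ 2 ^ (h - 1) := by
    refine le_trans ?_ (sq_le_two_pow (by omega))
    obtain ⟨m, hm⟩ : ∃ m, h = m + 1 := ⟨h - 1, by omega⟩
    rw [hm, Nat.add_sub_cancel]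
    have h1 : 2 * K ≤ m := by omega
    nlinarith
  have hmain : K * h * 2 ^ (h ^ a) ≤ D := by
    calc K * h * 2 ^ (h ^ a) ≤ 2 ^ (h - 1) * 2 ^ (h ^ a) := Nat.mul_le_mul_right _ hKh
      _ = 2 ^ (h - 1 + h ^ a) := (pow_add _ _ _).symm
      _ ≤ D := by
        rw [hD]
        refine Nat.pow_le_pow_right (by norm_num) ?_
        have h1 : 1 ≤ h ^ a := Nat.one_le_pow _ _ (by omega)
        obtain ⟨m, hm⟩ : ∃ m, h = m + 1 := ⟨h - 1, by omega⟩
        rw [pow_succ, hm, Nat.add_sub_cancel]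
        rw [hm] at h1
        nlinarith
  have hone : 1 ≤ 2 ^ (h ^ a) := Nat.one_le_two_pow
  have hDKh : K * h ≤ D := by
    calc K * h = K * h * 1 := (mul_one _).symm
      _ ≤ K * h * 2 ^ (h ^ a) := Nat.mul_le_mul_left _ hone
      _ ≤ D := hmain
  have hh1 : 1 ≤ h := by omega
  have hDK : K ≤ D := by
    calc K = K * 1 := (mul_one _).symm
      _ ≤ K * h := Nat.mul_le_mul_left _ hh1
      _ ≤ D := hDKh
  have h2D : 2 ^ (h ^ a) ≤ D := by
    have : 1 ≤ K * h := Nat.mul_pos (by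
      have h3 : (0 : ℝ) < K := lt_trans (by positivity) hK
      exact_mod_cast h3) hh1
    calc 2 ^ (h ^ a) = 1 * 2 ^ (h ^ a) := (one_mul _).symm
      _ ≤ K * h * 2 ^ (h ^ a) := Nat.mul_le_mul_right _ this
      _ ≤ D := hmain
  -- real numbers
  have hmainR : (K : ℝ) * h * 2 ^ (h ^ a) ≤ D := by exact_mod_cast hmain
  have hDKhR : (K : ℝ) * h ≤ D := by exact_mod_cast hDKh
  have hDKR : (K : ℝ) ≤ D := by exact_mod_cast hDK
  have h2DR : (2 : ℝ) ^ (h ^ a) ≤ D := by exact_mod_cast h2D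
  have hh1R : (1 : ℝ) ≤ h := by exact_mod_cast hh1
  have hpow : (0 : ℝ) < 2 ^ (h ^ a) := by positivity
  have hKpos : (0 : ℝ) < K := lt_trans (by positivity) hK
  have hDpos : (0 : ℝ) < D := lt_of_lt_of_le hKpos hDKR
  have hCb : 0 < C * b := mul_pos hC hb
  refine ⟨D, by nlinarith, by nlinarith, ?_, ?_, ?_, ?_⟩
  · have h1 : 20 * b ≤ K := by nlinarith
    calc 20 * (h : ℝ) * b = 20 * b * h := by ring
      _ ≤ K * h := mul_le_mul_of_nonneg_right h1 (by linarith)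
      _ ≤ D := hDKhR
  · rw [div_div, ← add_div, mul_div_assoc', div_lt_div_iff₀ hDpos (by positivity), one_mul]
    have h1 : 4 * C * (1 + 5 * b) < K := by nlinarith
    have h2 : C * (1 + 5 * (h : ℝ) * b) * 4 ≤ 4 * C * (1 + 5 * b) * h := by nlinarith
    have h3 : 4 * C * (1 + 5 * b) * h < K * h := mul_lt_mul_of_pos_right h1 (by linarith)
    calc C * (1 + 5 * (h : ℝ) * b) * (2 ^ (h ^ a) * 4) =
          C * (1 + 5 * (h : ℝ) * b) * 4 * 2 ^ (h ^ a) := by ring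
      _ < K * h * 2 ^ (h ^ a) := mul_lt_mul_of_pos_right (h2.trans_lt h3) hpow
      _ ≤ D := hmainR
  · rw [div_div, div_lt_div_iff₀ (by positivity) (by positivity), one_mul]
    have h2 : C ≤ D := by nlinarith
    have h3 : 12 ≤ D := by
      have h4 : (12 : ℝ) ≤ D := by nlinarith
      exact_mod_cast h4
    have h4 : ((2 * D ^ 3 : ℕ) : ℝ) < ((2 ^ D : ℕ) : ℝ) := by
      exact_mod_cast two_cube_lt h3
    push_cast at h4
    calc C * D * ((2 : ℝ) ^ (h ^ a) * 2) ≤ D * D * (D * 2) := by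
          refine mul_le_mul (mul_le_mul_of_nonneg_right h2 hDpos.le) ?_ (by positivity)
            (by positivity)
          linarith
      _ = 2 * (D : ℝ) ^ 3 := by ring
      _ < 2 ^ D := h4
  · clear hmainR hDKhR hDKR h2DR hh1R hpow hKpos hDpos hCb hK hhR
    have h1 : h ≤ H ^ 3 := by
      have h2 : h ≤ 4 * H := by omega
      have h3 : 4 * H ≤ H ^ 3 := by
        have h4 : 4 ≤ H ^ 2 := by nlinarith
        calc 4 * H ≤ H ^ 2 * H := Nat.mul_le_mul_right H h4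
          _ = H ^ 3 := by ring
      exact h2.trans h3
    have h2 : h ^ (a + 1) ≤ H ^ (3 * a + 3) := by
      have h3 : (H ^ 3) ^ (a + 1) = H ^ (3 * a + 3) := by
        rw [← pow_mul]
        congr 1
      exact h3 ▸ Nat.pow_le_pow_left h1 (a + 1)
    have h3 : 1 ≤ H ^ (3 * a + 3) := Nat.one_le_pow _ _ (by omega)
    have h4 : C' + (2 * h ^ (a + 1) + 2) ≤ H ^ (3 * a + 4) := by
      rw [pow_succ]
      have h5 : 4 + C' ≤ H := by omega
      calc C' + (2 * h ^ (a + 1) + 2) ≤ C' * H ^ (3 * a + 3) +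
            (2 * H ^ (3 * a + 3) + 2 * H ^ (3 * a + 3)) := by nlinarith
        _ = H ^ (3 * a + 3) * (4 + C') := by ring
        _ ≤ H ^ (3 * a + 3) * H := Nat.mul_le_mul_left _ h5
    have h6 : C' ≤ 2 ^ C' := Nat.lt_two_pow_self.le
    have h7 : D ^ 2 + 2 ≤ 2 ^ (2 * h ^ (a + 1) + 2) := by
      rw [hD, ← pow_mul, mul_comm (h ^ (a + 1)) 2, pow_add 2 _ 2]
      have : 1 ≤ 2 ^ (2 * h ^ (a + 1)) := Nat.one_le_two_pow
      omega
    calc C' * (D ^ 2 + 2) ≤ 2 ^ C' * 2 ^ (2 * h ^ (a + 1) + 2) := Nat.mul_le_mul h6 h7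
      _ = 2 ^ (C' + (2 * h ^ (a + 1) + 2)) := (pow_add _ _ _).symm
      _ ≤ 2 ^ (H ^ (3 * a + 4)) := Nat.pow_le_pow_right (by norm_num) h4

end Pool.Agent.CCC
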