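import Pool.Agent.Lib.MP_98022b_cc.Mach4

/-!
# Transfer reducible groups from families of sequences, third form

The conditions on the pointwise stabilizers of sets of states are only needed for sets which are far
apart for a part `d'` of the distance; there are additional colours for the windows in which the
images of the states in a quotient `V'` hardly change.
-/

set_option autoImplicit false

open Set
open scoped Pointwise

namespace Pool.Agent.CCM

open Pool.Agent.GLN Pool.Agent.FA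

variable {Γ X V V' : Type} [Group Γ] [MulAction Γ V] [MulAction Γ V'] {G : Subgroup Γ}
  {dV d' d'' : V → V → ℕ} {B W q : ℕ}

/-- The distance `dV` is the sum of the pseudo-distances `d'` and `d''`, and states of
`d'`-distance `0` have the same image in `V'`. -/
structure PartDist (Γ : Type) {V V' : Type} [Group Γ] [MulAction Γ V] [MulAction Γ V']
    (dV d' d'' : V → V → ℕ) (π : V → V') : Prop where
  add : ∀ u v, dV u v = d' u v + d'' u v
  tri : ∀ u v w, d' u w ≤ d' u v + d' v w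
  tri' : ∀ u v w, d'' u w ≤ d'' u v + d'' v w
  smul : ∀ (g : Γ) u v, d' (g • u) (g • v) = d' u v
  map : ∀ (g : Γ) u, π (g • u) = g • π u
  eq : ∀ u v, d' u v = 0 → π u = π v

/-- Far sets. -/
def Far (d' : V → V → ℕ) (k₀ : ℕ) (T : Set V) : Prop := ∃ v ∈ T, ∃ w ∈ T, k₀ ≤ d' v w

theorem Far.mono {k₀ : ℕ} {T T' : Set V} (h : Far d' k₀ T) (hT : T ⊆ T') : Far d' k₀ T' := by
  obtain ⟨v, hv, w, hw, h⟩ := h
  exact ⟨v, hT hv, w, hT hw, h⟩

/-- The chain condition for far sets. -/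
def ChainCond' (Γ : Type) {V : Type} [Group Γ] [MulAction Γ V] (d' : V → V → ℕ) (k₀ l₀ : ℕ) :
    Prop :=
  ∀ T : ℕ → Set V, Monotone T → (∀ i, (T i).Finite) → Far d' k₀ (T 0) →
    ∃ i < l₀, fixingSubgroup Γ (T i) = fixingSubgroup Γ (T (i + 1))

variable {π : V → V'}

/-- The part `d'` is additive along the sequences. -/
theorem PartDist.additive (hp : PartDist Γ dV d' d'' π) (D : SeqData G X V dV B W q) {g : G} {x : X}
    (hx : D.Dom g x) {a b c : ℤ} (hab : a ≤ b) (hbc : b ≤ c) (ha : |a| ≤ W) (hb : |b| ≤ W)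
    (hc : |c| ≤ W) {u v w : V} (hu : D.P g x a = some u) (hv : D.P g x b = some v)
    (hw : D.P g x c = some w) : d' u w = d' u v + d' v w := by
  have h1 := D.dist g x hx a b ha hb u v hu hv
  have h2 := D.dist g x hx b c hb hc v w hv hw
  have h3 := D.dist g x hx a c ha hc u w hu hw
  rw [abs_sub_comm, abs_of_nonneg (by linarith)] at h1 h2 h3
  have e1 := hp.add u v
  have e2 := hp.add v w
  have e3 := hp.add u w
  have t1 := hp.tri u v w
  have t2 := hp.tri' u v w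
  omega

/-- The image of the states in an interval is constant. -/
def ConstOn (π : V → V') (P : ℤ → Option V) (a b : ℤ) : Prop :=
  ∀ i j : ℤ, a ≤ i → i ≤ b → a ≤ j → j ≤ b → ∀ v w, P i = some v → P j = some w → π v = π w

/-- The colour by the constant image in an interval. -/
def colV (D : SeqData G X V dV B W q) (π : V → V') (a b : ℤ) (g : G) (x : X) (l : V') : Prop :=
  D.Dom g x ∧ ConstOn π (D.P g x) a b ∧ ∃ i v, a ≤ i ∧ i ≤ b ∧ D.P g x i = some v ∧ π v = l

theorem isCol_colV (hp : PartDist Γ dV d' d'' π) (D : SeqData G X V dV B W q) (a b : ℤ) :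
    IsCol (fun _ => True) (colV D π a b) := by
  refine ⟨?_, ?_, fun _ _ _ _ => trivial⟩
  · rintro g x l l' ⟨-, h1, i, v, hi, hi', hv, rfl⟩ ⟨-, -, j, w, hj, hj', hw, rfl⟩
    exact h1 i j hi hi' hj hj' v w hv hw
  · rintro h g x l ⟨hx, h1, i, v, hi, hi', hv, rfl⟩
    refine ⟨D.dom_smul h g x hx, ?_, i, h • v, hi, hi', ?_, hp.map (h : Γ) v⟩
    · intro i j hi hi' hj hj' u w hu hw
      rw [D.smul] at hu hw
      have hu' : D.P g x i = some (h⁻¹ • u) := by
        rw [← Option.smul_some, ← hu, inv_smul_smul]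
      have hw' : D.P g x j = some (h⁻¹ • w) := by
        rw [← Option.smul_some, ← hw, inv_smul_smul]
      have h2 := h1 i j hi hi' hj hj' _ _ hu' hw'
      have e1 : π (h⁻¹ • u) = h⁻¹ • π u := hp.map ((h⁻¹ : G) : Γ) u
      have e2 : π (h⁻¹ • w) = h⁻¹ • π w := hp.map ((h⁻¹ : G) : Γ) w
      rw [e1, e2] at h2
      exact (MulAction.injective h⁻¹) h2
    · rw [D.smul, hv, Option.smul_some]

theorem common_colV (D : SeqData G X V dV B W q) {η : ℕ} {a b : ℤ}
    (ha : |a| + η ≤ W) (hb : |b| + η ≤ W) (hab : a + B ≤ b) {g : G} {x : X} (hx : D.Dom g x)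
    (hc : ConstOn π (D.P g x) (a - η) (b + η)) :
    ∃ l, ∀ h y, D.Sees η g x h y → colV D π a b h y l := by
  have hη : (0 : ℤ) ≤ η := Int.natCast_nonneg η
  have ha' := abs_le.1 (show |a| ≤ W - η by linarith)
  have hb' := abs_le.1 (show |b| ≤ W - η by linarith)
  have hB : (0 : ℤ) ≤ B := Int.natCast_nonneg B
  obtain ⟨m, hm, v, hv⟩ := D.dense g x hx a (by rw [abs_le]; constructor <;> linarith)
    (by rw [abs_le]; constructor <;> linarith)
  refine ⟨π v, fun h y hs => ?_⟩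
  obtain ⟨hy, σ, hσ, hs⟩ := hs
  have hσ' := abs_le.1 hσ
  -- the states of the other frame
  have hsee : ∀ i : ℤ, a ≤ i → i ≤ b → D.P h y i = D.P g x (i - σ) := by
    intro i hi hi'
    rw [← hs (i - σ) (by rw [abs_le]; constructor <;> linarith), sub_add_cancel]
  refine ⟨hy, ?_, ?_⟩
  · intro i j hi hi' hj hj' u w hu hw
    rw [hsee i hi hi'] at hu
    rw [hsee j hj hj'] at hw
    exact hc _ _ (by linarith) (by linarith) (by linarith) (by linarith) u w hu hw
  · obtain ⟨m', hm', w, hw⟩ := D.dense h y hy a (by rw [abs_le]; constructor <;> linarith)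
      (by rw [abs_le]; constructor <;> linarith)
    have hm2 : ((m' : ℕ) : ℤ) ≤ B := by exact_mod_cast hm'
    have hm1 : ((m : ℕ) : ℤ) ≤ B := by exact_mod_cast hm
    refine ⟨a + m', w, by linarith [Int.natCast_nonneg m'], by linarith, hw, ?_⟩
    rw [hsee _ (by linarith [Int.natCast_nonneg m']) (by linarith)] at hw
    exact hc _ _ (by linarith [Int.natCast_nonneg m']) (by linarith)
      (by linarith [Int.natCast_nonneg m]) (by linarith) w v hw hv

/-- Either the images are constant on one of several intervals, or the window is far. -/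
theorem const_or_far (hp : PartDist Γ dV d' d'' π) (D : SeqData G X V dV B W q) {L : ℕ}
    {g : G} {x : X} (hx : D.Dom g x) (n : ℕ) (hW : (n + 1) * L + B ≤ W) (hL : 0 < L)
    (hc : ∀ j < n, ¬ ConstOn π (D.P g x) (j * L) (j * L + (L - 1))) :
    ∃ a b : ℤ, 0 ≤ a ∧ a ≤ b ∧ b ≤ n * L + B ∧ ∃ u w, D.P g x a = some u ∧ D.P g x b = some w ∧
      n ≤ d' u w ∧ (0 < n → b < n * L) := by
  induction n with
  | zero =>
    obtain ⟨m, hm, v, hv⟩ := D.dense g x hx 0 (by simp) (by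
      rw [zero_add, Nat.abs_cast]
      have : B ≤ W := by nlinarith
      exact_mod_cast this)
    rw [zero_add] at hv
    exact ⟨m, m, by positivity, le_rfl, by
      have : ((m : ℕ) : ℤ) ≤ B := by exact_mod_cast hm
      simpa using this, v, v, hv, hv, Nat.zero_le _, fun h => absurd h (lt_irrefl 0)⟩
  | succ n ih =>
    have hcn := hc n (Nat.lt_succ_self n)
    unfold ConstOn at hcn
    push Not at hcn
    obtain ⟨i, j, hi, hi', hj, hj', v, w, hv, hw, hne⟩ := hcn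
    have hWz : ((n : ℤ) + 1 + 1) * L + B ≤ W := by exact_mod_cast hW
    have hLz : (0 : ℤ) < L := by exact_mod_cast hL
    have hn0 : (0 : ℤ) ≤ n := Int.natCast_nonneg n
    have hB : (0 : ℤ) ≤ B := Int.natCast_nonneg B
    have hnL : (0 : ℤ) ≤ n * L := by positivity
    -- ordered positions
    obtain ⟨r, s, hr, hrs, hs, v, w, hv, hw, hvw⟩ : ∃ r s : ℤ, (n : ℤ) * L ≤ r ∧ r ≤ s ∧
        s ≤ n * L + (L - 1) ∧ ∃ v w, D.P g x r = some v ∧ D.P g x s = some w ∧ 1 ≤ d' v w := by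
      rcases le_total i j with hij | hij
      · refine ⟨i, j, hi, hij, hj', v, w, hv, hw, ?_⟩
        rw [Nat.one_le_iff_ne_zero]
        exact fun h => hne (hp.eq _ _ h)
      · refine ⟨j, i, hj, hij, hi', w, v, hw, hv, ?_⟩
        rw [Nat.one_le_iff_ne_zero]
        exact fun h => hne (hp.eq _ _ h).symm
    have hs2 : s < (n + 1) * L := by linarith
    have hsW : |s| ≤ W := by
      rw [abs_le]
      constructor <;> nlinarith
    have hrW : |r| ≤ W := by
      rw [abs_le]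
      constructor <;> nlinarith
    rcases Nat.eq_zero_or_pos n with rfl | hn
    · refine ⟨r, s, by simpa using hr, hrs, ?_, v, w, hv, hw, by simpa using hvw, fun _ => ?_⟩
      · push_cast at hs2 ⊢
        linarith
      · push_cast at hs2 ⊢
        linarith
    · obtain ⟨a, b, ha, hab, -, u, z, hu, hz, hd, hb⟩ := ih (by nlinarith)
        (fun j hj => hc j (hj.trans (Nat.lt_succ_self n)))
      have hb' := hb hn
      have haW : |a| ≤ W := by
        rw [abs_le]
        constructor <;> nlinarith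
      have hbW : |b| ≤ W := by
        rw [abs_le]
        constructor <;> nlinarith
      have e1 := hp.additive D hx hab (by linarith : b ≤ s) haW hbW hsW hu hz hw
      have e2 := hp.additive D hx (by linarith : b ≤ r) hrs hbW hrW hsW hz hv hw
      refine ⟨a, s, ha, by linarith, ?_, u, w, hu, hw, by omega, fun _ => ?_⟩
      · push_cast
        linarith
      · push_cast
        linarith

/-- The colour by two-sided extensions of far windows. -/
def colP' (D : SeqData G X V dV B W q) (d' : V → V → ℕ) (k₀ : ℕ) (R a b ρ : ℤ) (g : G) (x : X)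
    (l : Set (ℤ → Option V)) : Prop :=
  colP D R a b ρ g x l ∧ Far d' k₀ (wset (D.P g x) a)

theorem far_smul' (hsm : ∀ (g : Γ) u v, d' (g • u) (g • v) = d' u v) {k₀ : ℕ} {P P' : ℤ → Option V}
    (h : Γ) (hP : ∀ c, P' c = h • P c) {a : ℤ} (hf : Far d' k₀ (wset P a)) :
    Far d' k₀ (wset P' a) := by
  rw [wset_smul h hP]
  obtain ⟨v, hv, w, hw, hvw⟩ := hf
  exact ⟨h • v, ⟨v, hv, rfl⟩, h • w, ⟨w, hw, rfl⟩, by rw [hsm]; exact hvw⟩

theorem isCol_colP' (hp : PartDist Γ dV d' d'' π) (D : SeqData G X V dV B W q) {R a b ρ : ℤ}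
    {k₀ : ℕ} (ha : R ≤ a) (hb : a + R ≤ b) (hρ : a + 2 * R ≤ ρ) (haW : a ≤ W)
    (hak : 2 * B ≤ 2 * a) :
    IsCol (goodL G d' k₀) (colP' D d' k₀ R a b ρ) := by
  have hc := isCol_colP D (k₀ := 0) ha hb hρ haW (by simpa using hak)
  refine ⟨?_, ?_, ?_⟩
  · rintro g x l l' ⟨h, -⟩ ⟨h', -⟩
    exact hc.unique g x l l' h h'
  · rintro h g x l ⟨hl, hf⟩
    exact ⟨hc.smul h g x l hl, far_smul' hp.smul (h : Γ) (D.smul h g x) hf⟩
  · rintro g x l ⟨⟨hx, hJ, k, γ, Q, hk, hkR, hQ, hQP, rfl⟩, hf⟩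
    obtain ⟨t, ht, hn⟩ := stab_ext (γ := (γ : Γ)) hk hkR ha hb hρ hJ hQ hQP
    refine ⟨wset (D.P g x) a, wset_finite _ _, hf, t, ht, fun n hnl => ?_⟩
    refine hn n ?_
    have h1 : (fun j => n • Q j) ∈ n • cls Q := ⟨Q, mem_cls Q, rfl⟩
    rw [hnl] at h1
    obtain ⟨s, hs⟩ := h1
    exact ⟨s, fun j => congrFun hs j⟩

theorem common_colP' (D : SeqData G X V dV B W q) {k₀ l₀ : ℕ} (hch : ChainCond' Γ d' k₀ l₀)
    {η : ℕ} {R a₀ ρ : ℤ} (hR : 0 ≤ R) (ha₀ : 0 ≤ a₀)
    (hρ : a₀ + (l₀ + 1) * (R + 2 * η) ≤ ρ) (hW : ρ + 2 * η + R ≤ W)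
    {g : G} {x : X} (hfar : Far d' k₀ (wset (D.P g x) a₀))
    (hP : Per G (D.P g x) R (ρ + η)) :
    ∃ (i : Fin l₀) (l : Set (ℤ → Option V)), ∀ h y, D.Sees η g x h y →
      colP' D d' k₀ R (a₀ + (i : ℕ) * (R + 2 * η) + η) (a₀ + (i : ℕ) * (R + 2 * η) + η + R) ρ
        h y l := by
  have hη : (0 : ℤ) ≤ η := Int.natCast_nonneg η
  have hl₀ : (0 : ℤ) ≤ l₀ := Int.natCast_nonneg l₀
  have haρ : a₀ + (R + 2 * η) ≤ ρ := by nlinarith
  obtain ⟨k, hk, hkR, γ, hγ⟩ := hP
  obtain ⟨Q, hQ, hQP⟩ := exists_ext hk (by linarith) hγ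
  -- the levels
  obtain ⟨T, hT⟩ : ∃ T : ℕ → Set V, ∀ i, T i = wset (D.P g x) (a₀ + (i : ℕ) * (R + 2 * η)) :=
    ⟨_, fun _ => rfl⟩
  have hmono : Monotone T := by
    refine monotone_nat_of_le_succ fun i => ?_
    rw [hT, hT]
    refine wset_mono _ ?_
    push_cast
    nlinarith
  obtain ⟨i, hi, hJ⟩ := hch T hmono (fun i => by rw [hT]; exact wset_finite _ _) (by
    rw [hT]
    simpa using hfar)
  have hil : ((i : ℕ) : ℤ) + 1 ≤ l₀ := by exact_mod_cast hi
  have hlev : a₀ + ((i : ℕ) + 1) * (R + 2 * η) ≤ ρ := by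
    have : ((i : ℕ) + 1) * (R + 2 * η) ≤ (l₀ + 1) * (R + 2 * (η : ℤ)) :=
      mul_le_mul_of_nonneg_right (by linarith) (by linarith)
    linarith
  have hi0 : (0 : ℤ) ≤ (i : ℕ) * (R + 2 * η) := by positivity
  refine ⟨⟨i, hi⟩, cls Q, fun h y hs => ?_⟩
  obtain ⟨hy, σ, hσ, hs⟩ := hs
  obtain ⟨α, hα⟩ : ∃ α : ℤ, α = a₀ + (i : ℕ) * (R + 2 * η) := ⟨_, rfl⟩
  have hα1 : T i = wset (D.P g x) α := by rw [hT, hα]
  have hα2 : T (i + 1) = wset (D.P g x) (α + R + 2 * η) := by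
    rw [hT, hα]
    congr 1
    push_cast
    ring
  have hαρ : α + R + 2 * η ≤ ρ := by
    rw [hα]
    linarith [hlev]
  have hα0 : 0 ≤ α := by
    rw [hα]
    positivity
  have h1 : T i ⊆ wset (D.P h y) (α + η) := by
    rw [hα1]
    rintro v ⟨j, hj, hv⟩
    refine ⟨j + σ, (abs_add_le _ _).trans (by linarith), ?_⟩
    rw [hs j (hj.trans (by linarith))]
    exact hv
  refine ⟨⟨hy, ?_, k, γ, fun j => Q (j - σ), hk, hkR, fun j => ?_, fun j hj => ?_, ?_⟩, ?_⟩
  · -- the pointwise stabilizers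
    show fixingSubgroup Γ (wset (D.P h y) (a₀ + (i : ℕ) * (R + 2 * η) + η)) =
      fixingSubgroup Γ (wset (D.P h y) (a₀ + (i : ℕ) * (R + 2 * η) + η + R))
    rw [← hα]
    have h2 : wset (D.P h y) (α + η + R) ⊆ T (i + 1) := by
      rw [hα2]
      rintro v ⟨j, hj, hv⟩
      have h3 : |j - σ| ≤ α + R + 2 * η := (abs_sub _ _).trans (by linarith)
      refine ⟨j - σ, h3, ?_⟩
      rw [← hs _ (h3.trans (by linarith)), sub_add_cancel]
      exact hv
    have h3 : wset (D.P h y) (α + η) ⊆ wset (D.P h y) (α + η + R) := wset_mono _ (by linarith)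
    refine le_antisymm ?_ (fixingSubgroup_antitone Γ V h3)
    calc fixingSubgroup Γ (wset (D.P h y) (α + η)) ≤ fixingSubgroup Γ (T i) :=
          fixingSubgroup_antitone Γ V h1
      _ = fixingSubgroup Γ (T (i + 1)) := hJ
      _ ≤ fixingSubgroup Γ (wset (D.P h y) (α + η + R)) := fixingSubgroup_antitone Γ V h2
  · show γ • Q (j - σ) = Q (j + k - σ)
    rw [hQ]
    congr 1
    ring
  · show Q (j - σ) = D.P h y j
    have h3 : |j - σ| ≤ ρ + η := (abs_sub _ _).trans (by linarith)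
    rw [hQP _ h3, ← hs _ (h3.trans (by linarith)), sub_add_cancel]
  · have := cls_shift Q (-σ)
    rw [← this]
    rfl
  · show Far d' k₀ (wset (D.P h y) (a₀ + (i : ℕ) * (R + 2 * η) + η))
    rw [← hα]
    refine Far.mono ?_ h1
    rw [hα1, hα]
    exact hfar.mono (wset_mono _ (by linarith))

/-- The colours of a family of sequences. -/
theorem exists_long_colours' (hp : PartDist Γ dV d' d'' π) {k₀ l₀ : ℕ}
    (hch : ChainCond' Γ d' k₀ l₀) (η B : ℕ) :
    ∃ a b : ℕ, ∀ (X : Type) (W q : ℕ) (D : SeqData G X V dV B W q),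
      kap4 (4 * η + 4) ((q + 1) ^ a) + b ≤ W →
      ∃ (cV : Fin k₀ → G → X → V' → Prop) (cF : Fin l₀ → G → X → Set (ℤ → Option V) → Prop)
        (cK : Fin 4 → G → X → V → Prop), (∀ j, IsCol (fun _ => True) (cV j)) ∧
        (∀ j, IsCol (goodL G d' k₀) (cF j)) ∧ (∀ κ, IsCol (fun _ => True) (cK κ)) ∧
        ∀ g x, D.Dom g x → (∃ j l, ∀ h y, D.Sees η g x h y → cV j h y l) ∨
          (∃ j l, ∀ h y, D.Sees η g x h y → cF j h y l) ∨
          ∃ κ l, ∀ h y, D.Sees η g x h y → cK κ h y l := by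
  classical
  obtain ⟨R, hR⟩ : ∃ R : ℕ, R = 4 * η + 4 := ⟨_, rfl⟩
  obtain ⟨L, hL⟩ : ∃ L : ℕ, L = B + 2 * η + 1 := ⟨_, rfl⟩
  obtain ⟨a₀, ha₀⟩ : ∃ a₀ : ℕ, a₀ = R + k₀ * L + 2 * B := ⟨_, rfl⟩
  obtain ⟨ρ, hρ⟩ : ∃ ρ : ℕ, ρ = a₀ + (l₀ + 1) * (R + 2 * η) + 3 * R := ⟨_, rfl⟩
  obtain ⟨r, hr⟩ : ∃ r, r = 6 * η + 6 + R + ρ + 2 * η := ⟨_, rfl⟩
  refine ⟨2 * r + 1, r + 10 * η + 10 + B + ρ + 2 * η + R + (k₀ + 1) * L, fun X W q D hW => ?_⟩
  obtain ⟨A₀, hA₀, hcard, hfin⟩ := D.fin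
  obtain ⟨Q, hQ⟩ : ∃ Q, Q = (q + 1) ^ (2 * r + 1) := ⟨_, rfl⟩
  rw [← hQ, ← hR] at hW
  have hA1 : (insert none (some '' A₀) : Set (Option V)).Finite := (hA₀.image _).insert _
  have hA1c : (insert none (some '' A₀) : Set (Option V)).ncard ≤ q + 1 := by
    refine (Set.ncard_insert_le _ _).trans ?_
    have := Set.ncard_image_le (f := some) hA₀
    omega
  have hmem : ∀ g x, D.Dom g x → ∀ c : ℤ, |c| ≤ W →
      g⁻¹ • D.P g x c ∈ (insert none (some '' A₀) : Set (Option V)) := by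
    intro g x hx c hc
    rcases hP : D.P g x c with _ | v
    · rw [Option.smul_none]
      exact Set.mem_insert _ _
    · rw [Option.smul_some]
      exact Set.mem_insert_of_mem _ ⟨_, hfin g x hx c hc v hP, rfl⟩
  obtain ⟨e, he, he1, he2⟩ := exists_enc hA1 r Q (by
    rw [hQ]
    exact Nat.pow_le_pow_left hA1c _)
  obtain ⟨F, hrule, hF⟩ := exists_marks4 R (by omega) Q
  refine ⟨fun j => colV D π (((j : ℕ) : ℤ) * L + η) (((j : ℕ) : ℤ) * L + (L - 1) - η),
    fun i => colP' D d' k₀ R (a₀ + ((i : ℕ) : ℤ) * (R + 2 * η) + η)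
      (a₀ + ((i : ℕ) : ℤ) * (R + 2 * η) + η + R) ρ,
    fun κ => colK D R (ρ + 2 * η) e F (((κ : ℕ) : ℤ) * (2 * η + 2)) R, ?_, ?_, ?_, ?_⟩
  · exact fun j => isCol_colV hp D _ _
  · intro i
    have h0 : (0 : ℤ) ≤ ((i : ℕ) : ℤ) * (R + 2 * η) := by positivity
    have h1 : ((i : ℕ) : ℤ) * (R + 2 * η) ≤ (l₀ + 1) * (R + 2 * η) := by
      refine mul_le_mul_of_nonneg_right ?_ (by positivity)
      have := i.2
      have h2 : ((i : ℕ) : ℤ) ≤ l₀ := by exact_mod_cast this.le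
      linarith
    have h3 : (ρ : ℤ) = a₀ + (l₀ + 1) * (R + 2 * η) + 3 * R := by exact_mod_cast hρ
    have h4 : (η : ℤ) ≤ R := by
      rw [hR]
      push_cast
      omega
    have h5 : (ρ : ℤ) ≤ W := by
      have : ρ ≤ W := by omega
      exact_mod_cast this
    have h6 : (a₀ : ℤ) = R + k₀ * L + 2 * B := by exact_mod_cast ha₀
    have h7 : (0 : ℤ) ≤ k₀ * L := by positivity
    refine isCol_colP' hp D ?_ le_rfl ?_ ?_ ?_
    · linarith [Int.natCast_nonneg B, Int.natCast_nonneg η]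
    · linarith
    · linarith [Int.natCast_nonneg R]
    · linarith [Int.natCast_nonneg B, Int.natCast_nonneg η, Int.natCast_nonneg R]
  · intro κ
    have hκ : ((κ : ℕ) : ℤ) * (2 * η + 2) ≤ 6 * η + 6 := by
      have h3 : ((κ : ℕ) : ℤ) ≤ 3 := by
        have := κ.2
        omega
      nlinarith
    have hκ0 : 0 ≤ ((κ : ℕ) : ℤ) * (2 * η + 2) := by positivity
    refine isCol_colK D (Z := kap4 R Q) he he1 he2 hmem hrule (fun c hc => (hF c hc).1) le_rfl
      hκ0 ?_ ?_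
    · rw [hr]
      push_cast
      omega
    · omega
  · intro g x hx
    by_cases hV : ∃ j < k₀, ConstOn π (D.P g x) ((j : ℕ) * L) ((j : ℕ) * L + (L - 1))
    · left
      obtain ⟨j, hj, hc⟩ := hV
      have h1 : ((j : ℕ) : ℤ) + 1 ≤ k₀ := by exact_mod_cast hj
      have h2 : (((j : ℕ) : ℤ) + 1) * L ≤ k₀ * L :=
        mul_le_mul_of_nonneg_right h1 (Int.natCast_nonneg L)
      have h3 : (0 : ℤ) ≤ ((j : ℕ) : ℤ) * L := by positivity
      have h4 : (k₀ : ℤ) * L + L + η ≤ W := by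
        have h5 : r + 10 * η + 10 + B + ρ + 2 * η + R + (k₀ + 1) * L ≤ W := by omega
        have h6 : k₀ * L + L + η ≤ W := by
          have : (k₀ + 1) * L = k₀ * L + L := by ring
          omega
        exact_mod_cast h6
      have hLz : (L : ℤ) = B + 2 * η + 1 := by exact_mod_cast hL
      obtain ⟨l, hl⟩ := common_colV (η := η) (a := ((j : ℕ) : ℤ) * L + η)
        (b := ((j : ℕ) : ℤ) * L + (L - 1) - η) D
        (by
          rw [abs_of_nonneg (by positivity)]
          linarith [Int.natCast_nonneg B])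
        (by
          rw [abs_of_nonneg (by linarith [Int.natCast_nonneg B, Int.natCast_nonneg η])]
          linarith [Int.natCast_nonneg B, Int.natCast_nonneg η])
        (by linarith) hx (π := π) (by
          rw [show ((j : ℕ) : ℤ) * L + η - η = (j : ℕ) * L by ring,
            show ((j : ℕ) : ℤ) * L + (L - 1) - η + η = (j : ℕ) * L + (L - 1) by ring]
          exact hc)
      exact ⟨⟨j, hj⟩, l, hl⟩
    right
    push Not at hV
    have hb1 : r + 10 * η + 10 + B + ρ + 2 * η + R + (k₀ + 1) * L ≤ W := by omega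
    obtain ⟨a, b, ha, hab, hb, u, w, hu, hw, hd, -⟩ := const_or_far hp D hx k₀ (L := L)
      (by omega) (by omega) hV
    have h6 : (a₀ : ℤ) = R + k₀ * L + 2 * B := by exact_mod_cast ha₀
    have hfar : Far d' k₀ (wset (D.P g x) a₀) := by
      refine ⟨u, ⟨a, ?_, hu⟩, w, ⟨b, ?_, hw⟩, hd⟩
      · rw [abs_le]
        constructor <;> linarith [Int.natCast_nonneg B, Int.natCast_nonneg R]
      · rw [abs_le]
        constructor <;> linarith [Int.natCast_nonneg B, Int.natCast_nonneg R]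
    by_cases hN : Per G (D.P g x) R (ρ + η)
    · left
      have h3 : (ρ : ℤ) = a₀ + (l₀ + 1) * (R + 2 * η) + 3 * R := by exact_mod_cast hρ
      have h7 : (ρ : ℤ) + 2 * η + R ≤ W := by
        have : ρ + 2 * η + R ≤ W := by omega
        exact_mod_cast this
      obtain ⟨i, l, hl⟩ := common_colP' D hch (R := R) (a₀ := a₀) (ρ := ρ) (by positivity)
        (by positivity) (by linarith [Int.natCast_nonneg R]) h7 hfar hN
      exact ⟨i, l, hl⟩
    · right
      have h7 : (ρ : ℤ) + 2 * η + R ≤ W := by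
        have : ρ + 2 * η + R ≤ W := by omega
        exact_mod_cast this
      obtain ⟨κ, l, hl⟩ := common_colK D (Z := kap4 R Q) (R' := R) he hrule
        (fun c hc => by rw [← hR]; exact (hF c hc).2) hR h7 (by omega) hx hN
      exact ⟨κ, l, hl⟩

/-- The geometric input of the machine: wide colours and families of sequences. `N₀, n₁, n₂` do
not depend on `S`, and `η, B, A₀, H₀` do not depend on `H`. -/
def SeqInput (G : Subgroup Γ) (dV : V → V → ℕ) (N₀ n₁ n₂ : ℕ) : Prop :=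
  ∀ S : Finset G, (1 : G) ∈ S → ∃ η B A₀ H₀ : ℕ, ∀ H ≥ H₀, ∃ q : ℕ,
    q ≤ 2 ^ 2 ^ (H ^ A₀) ∧ ∃ (X : Type) (_ : TopologicalSpace X), CompactSpace X ∧
    TopologicalSpace.MetrizableSpace X ∧ ContractibleSpace X ∧
    StronglyLocallyContractibleSpace X ∧ CovDimLE X N₀ ∧
    ∃ (θ : HomotopyAction G S X) (cS : Fin n₁ → G → X → V → Prop)
      (D : Fin n₂ → SeqData G X V dV B H q), (∀ j, IsCol (fun _ => True) (cS j)) ∧
      ∀ g x, (∃ j l, ∀ q ∈ θ.nbhd S.card (g, x), ∀ᶠ y in nhds q.2, cS j q.1 y l) ∨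
        ∃ j, (D j).Dom g x ∧
          ∀ q ∈ θ.nbhd S.card (g, x), ∀ᶠ y in nhds q.2, (D j).Sees η g x q.1 y

/-- The interface between the geometry and the coding. -/
theorem transferReducible_of_parts (hfg : Group.FG G) (hp : PartDist Γ dV d' d'' π) {k₀ l₀ : ℕ}
    (hch : ChainCond' Γ d' k₀ l₀) (𝓕 : Subgroup G → Prop)
    (hJ : ∀ T : Set V, T.Finite → Far d' k₀ T → ∀ t : Γ,
      Nrm (fixingSubgroup Γ T) t → ∀ H : Subgroup G,
      (∀ n ∈ H, (n : Γ) ∈ fixingSubgroup Γ T ⊔ Subgroup.zpowers t) → 𝓕 H)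
    (hV : ∀ v : V', ∀ H : Subgroup G, (∀ h ∈ H, h • v = v) → 𝓕 H) {N₀ n₁ n₂ : ℕ}
    (hgeo : SeqInput G dV N₀ n₁ n₂) : TransferReducible G 𝓕 := by
  classical
  refine ⟨hfg, max N₀ (n₁ + n₂ * (k₀ + (l₀ + 4))), fun S hS => ?_⟩
  obtain ⟨η, B, A₀, H₀, hgeo⟩ := hgeo S hS
  obtain ⟨a, b, hcol⟩ := exists_long_colours' (G := G) hp hch η B
  obtain ⟨H, hH, hparam⟩ := exists_param4 A₀ (4 * η + 4) a H₀ b
  obtain ⟨q, hq, X, _, h1, h2, h3, h4, h5, θ, cS, D, hcS, hwide⟩ := hgeo H hH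
  have hkap : kap4 (4 * η + 4) ((q + 1) ^ a) + b ≤ H := by
    refine le_trans ?_ hparam
    have hm : (q + 1) ^ a ≤ (2 ^ 2 ^ 2 ^ (H ^ A₀) + 1) ^ a := by
      refine Nat.pow_le_pow_left ?_ _
      have h6 : 2 ^ 2 ^ (H ^ A₀) ≤ 2 ^ 2 ^ 2 ^ (H ^ A₀) :=
        Nat.pow_le_pow_right (by norm_num) (Nat.lt_two_pow_self).le
      omega
    have := kap4_mono (R := 4 * η + 4) hm
    omega
  choose cV cF cK hcV hcF hcK hlong using fun j => hcol X H q (D j) hkap
  refine ⟨X, inferInstance, h1, h2, h3, h4, ?_, θ, ?_⟩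
  · -- the dimension bound is monotone
    intro ι O hO hcov
    obtain ⟨κ, W, hW1, hW2, hW3, hW4⟩ := h5 ι O hO hcov
    refine ⟨κ, W, hW1, hW2, hW3, fun x => (hW4 x).trans ?_⟩
    gcongr
    exact le_max_left _ _
  · -- the colours
    let I := Fin n₁ ⊕ (Fin n₂ × (Fin k₀ ⊕ (Fin l₀ ⊕ Fin 4)))
    let L : I → Type := fun i => match i with
      | Sum.inl _ => V
      | Sum.inr (_, Sum.inl _) => V'
      | Sum.inr (_, Sum.inr (Sum.inl _)) => Set (ℤ → Option V)
      | Sum.inr (_, Sum.inr (Sum.inr _)) => V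
    let mL : ∀ i, MulAction G (L i) := fun i => match i with
      | Sum.inl _ => inferInstanceAs (MulAction G V)
      | Sum.inr (_, Sum.inl _) => inferInstanceAs (MulAction G V')
      | Sum.inr (_, Sum.inr (Sum.inl _)) => inferInstanceAs (MulAction G (Set (ℤ → Option V)))
      | Sum.inr (_, Sum.inr (Sum.inr _)) => inferInstanceAs (MulAction G V)
    let good : ∀ i, L i → Prop := fun i => match i with
      | Sum.inl _ => fun _ => True
      | Sum.inr (_, Sum.inl _) => fun _ => True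
      | Sum.inr (_, Sum.inr (Sum.inl _)) => goodL G d' k₀
      | Sum.inr (_, Sum.inr (Sum.inr _)) => fun _ => True
    let c : ∀ i, G → X → L i → Prop := fun i => match i with
      | Sum.inl j => cS j
      | Sum.inr (j, Sum.inl k) => cV j k
      | Sum.inr (j, Sum.inr (Sum.inl k)) => cF j k
      | Sum.inr (j, Sum.inr (Sum.inr k)) => cK j k
    have hVV : ∀ v : V, ∀ H : Subgroup G, (∀ h ∈ H, h • v = v) → 𝓕 H := by
      intro v H hH
      refine hV (π v) H fun h hh => ?_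
      have h6 : π (h • v) = h • π v := hp.map (h : Γ) v
      rw [← h6, hH h hh]
    refine ⟨_, isLongCover_of_cols θ (ι := I) L good c ?_
      (N := max N₀ (n₁ + n₂ * (k₀ + (l₀ + 4)))) ?_ (𝓕 := 𝓕) ?_
      (fun p => ⟨p, mem_nbhd θ hS _ p⟩) ?_⟩
    · rintro (j | ⟨j, k | k | k⟩)
      · exact hcS j
      · exact hcV j k
      · exact hcF j k
      · exact hcK j k
    · have : Nat.card I = n₁ + n₂ * (k₀ + (l₀ + 4)) := by
        simp [I]
      rw [this]
      have := le_max_right N₀ (n₁ + n₂ * (k₀ + (l₀ + 4)))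
      omega
    · rintro (j | ⟨j, k | k | k⟩) l hl H hH
      · exact hVV l H hH
      · exact hV l H hH
      · obtain ⟨T, hT, hfar, t, ht, hn⟩ : goodL G d' k₀ l := hl
        exact hJ T hT hfar t ht H fun n hnH => hn n (hH n hnH)
      · exact hVV l H hH
    · intro g x
      rcases hwide g x with ⟨j, l, h⟩ | ⟨j, hx, h⟩
      · exact ⟨Sum.inl j, l, h⟩
      · rcases hlong j g x hx with ⟨k, l, h'⟩ | ⟨k, l, h'⟩ | ⟨k, l, h'⟩
        · exact ⟨Sum.inr (j, Sum.inl k), l, fun q hq => (h q hq).mono fun y hy => h' _ _ hy⟩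
        · exact ⟨Sum.inr (j, Sum.inr (Sum.inl k)), l,
            fun q hq => (h q hq).mono fun y hy => h' _ _ hy⟩
        · exact ⟨Sum.inr (j, Sum.inr (Sum.inr k)), l,
            fun q hq => (h q hq).mono fun y hy => h' _ _ hy⟩

end Pool.Agent.CCM
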