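import Pool.Agent.Lib.MP_98022b_cc.BalDefs

/-!
# Row CG: restriction, reversal, translates of balanced paths

`ord`: for `b < a` both in `P`: at a time `t` with `S b < t < E a`: `σ t b > 0` but `σ t a < 1`.
`restrict`: `a` moves on `[α, β]` iff `(S a, E a)` meets `(α, β)`; new times `S' a = (max (S a) α - α) /
(β - α)`, `E' a = (min (E a) β - α) / (β - α)`, new speed `(β - α) *` old speed.
`rev`: the halfspaces entered by the reversed path are the `op a`.
-/

set_option autoImplicit false

open Set

namespace Pool.Agent.CCC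

open Pocset

variable {H : Type} [Pocset H] {o : Set H} {σ : ℝ → Pt o} {S E : H → ℝ}

/-- the clamped time -/
private noncomputable def cg_c (S E t : ℝ) : ℝ := max S (min t E)

private theorem cg_c_mono {S E s t : ℝ} (h : s ≤ t) : cg_c S E s ≤ cg_c S E t := by
  unfold cg_c
  exact max_le_max le_rfl (min_le_min h le_rfl)

theorem Bal.spd_pos (h : Bal σ S E) {a : H} (ha : σ 0 a < σ 1 a) : 0 < spd σ S E a := by
  unfold spd
  have h1 := h.bd a ha
  exact div_pos (by linarith) (by linarith [h1.2.1])

/-- The value in the middle. -/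
theorem Bal.mid' (h : Bal σ S E) {a : H} (ha : σ 0 a < σ 1 a) {t : ℝ} (h1 : S a ≤ t)
    (h2 : t ≤ E a) : σ t a = σ 0 a + spd σ S E a * (t - S a) ∧
      σ t a = σ 1 a - spd σ S E a * (E a - t) := by
  have h3 := h.mid a ha t h1 h2
  have h4 : E a - S a ≠ 0 := by linarith [(h.bd a ha).2.1]
  have h5 : spd σ S E a * (E a - S a) = σ 1 a - σ 0 a := by
    unfold spd
    field_simp
  have h6 : σ t a = σ 0 a + spd σ S E a * (t - S a) := by
    rw [h3]
    unfold spd
    ring
  refine ⟨h6, ?_⟩
  rw [h6]
  linear_combination h5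

private theorem cg_val (h : Bal σ S E) {a : H} (ha : σ 0 a < σ 1 a) {t : ℝ} (h0 : 0 ≤ t)
    (h1 : t ≤ 1) : σ t a = σ 0 a + spd σ S E a * (cg_c (S a) (E a) t - S a) := by
  have hb := h.bd a ha
  unfold cg_c
  rcases le_total t (S a) with h2 | h2
  · rw [h.before a ha t h0 h2, min_eq_left (by linarith), max_eq_left h2]
    ring
  · rcases le_total t (E a) with h3 | h3
    · rw [(h.mid' ha h2 h3).1, min_eq_left h3, max_eq_right h2]
    · rw [h.after a ha t h3 h1, min_eq_right h3, max_eq_right hb.2.1.le]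
      have := (h.mid' ha hb.2.1.le le_rfl)
      linarith [this.1, this.2]

private theorem cg_gt (h : Bal σ S E) {a : H} (ha : σ 0 a < σ 1 a) {t : ℝ} (h0 : S a < t)
    (h1 : t ≤ 1) : σ 0 a < σ t a := by
  have hb := h.bd a ha
  rw [cg_val h ha (by linarith) h1]
  have h2 : S a < cg_c (S a) (E a) t := by
    unfold cg_c
    exact lt_of_lt_of_le (lt_min h0 hb.2.1) (le_max_right _ _)
  have := mul_pos (h.spd_pos ha) (sub_pos.2 h2)
  linarith

private theorem cg_lt (h : Bal σ S E) {a : H} (ha : σ 0 a < σ 1 a) {t : ℝ} (h0 : 0 ≤ t)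
    (h1 : t < E a) : σ t a < σ 1 a := by
  have hb := h.bd a ha
  rw [cg_val h ha h0 (by linarith)]
  have h2 : cg_c (S a) (E a) t < E a := by
    unfold cg_c
    exact max_lt hb.2.1 (lt_of_le_of_lt (min_le_left _ _) h1)
  have h3 := (h.mid' ha hb.2.1.le le_rfl).1
  have h4 := h.after a ha (E a) le_rfl hb.2.2
  have := mul_lt_mul_of_pos_left h2 (h.spd_pos ha)
  rw [← h4, h3]
  linarith

theorem Bal.ord (h : Bal σ S E) {a b : H} (ha : σ 0 a < σ 1 a) (hb : σ 0 b < σ 1 b)
    (hab : b < a) : E a ≤ S b := by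
  by_contra hc
  push Not at hc
  have h1 := h.bd a ha
  have h2 := h.bd b hb
  have h3 : σ 0 b < σ ((S b + E a) / 2) b := cg_gt h hb (by linarith) (by linarith)
  have h4 : σ ((S b + E a) / 2) a < σ 1 a := cg_lt h ha (by linarith) (by linarith)
  rcases (σ ((S b + E a) / 2)).nested b a hab with h5 | h5
  · have h6 := (σ 0).nonneg b
    have h7 : (σ ((S b + E a) / 2)) b = 0 := h5
    rw [h7] at h3
    have h8 : (0 : ℝ) ≤ σ 0 b := h6
    linarith
  · have h6 := (σ 1).le_one a
    have h7 : (σ ((S b + E a) / 2)) a = 1 := h5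
    rw [h7] at h4
    linarith

theorem Bal.mono (h : Bal σ S E) {a : H} (ha : σ 0 a ≤ σ 1 a) {s t : ℝ} (hs : 0 ≤ s)
    (hst : s ≤ t) (ht : t ≤ 1) : σ s a ≤ σ t a := by
  rcases eq_or_lt_of_le ha with h1 | h1
  · rw [h.const a h1 s hs (by linarith), h.const a h1 t (by linarith) ht]
  · rw [cg_val h h1 hs (by linarith), cg_val h h1 (by linarith) ht]
    have h2 := cg_c_mono (S := S a) (E := E a) hst
    have := mul_le_mul_of_nonneg_left (sub_le_sub_right h2 (S a)) (h.spd_pos h1).le
    linarith

private theorem cg_op (x : Pt o) (a : H) : x (op a) = 1 - x a := x.op_val a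

/-- what moves inside moves -/
private theorem cg_moves (h : Bal σ S E) {α β : ℝ} (h0 : 0 ≤ α) (h1 : α < β) (h2 : β ≤ 1) {a : H}
    (ha : σ α a < σ β a) : σ 0 a < σ 1 a ∧ max (S a) α < min (E a) β ∧
      cg_c (S a) (E a) α = max (S a) α ∧ cg_c (S a) (E a) β = min (E a) β := by
  have h3 : σ 0 a < σ 1 a := by
    by_contra hc
    push Not at hc
    have h4 : σ 0 (op a) ≤ σ 1 (op a) := by
      rw [cg_op, cg_op]
      linarith
    have h5 := h.mono h4 h0 h1.le h2
    rw [cg_op, cg_op] at h5
    linarith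
  have hb := h.bd a h3
  have h4 : cg_c (S a) (E a) α < cg_c (S a) (E a) β := by
    rw [cg_val h h3 h0 (by linarith), cg_val h h3 (by linarith) h2] at ha
    have h5 : spd σ S E a * cg_c (S a) (E a) α < spd σ S E a * cg_c (S a) (E a) β := by linarith
    exact lt_of_mul_lt_mul_left h5 (h.spd_pos h3).le
  have h5 : α < E a := by
    by_contra hc
    push Not at hc
    unfold cg_c at h4
    rw [min_eq_right hc, min_eq_right (by linarith : E a ≤ β)] at h4
    exact lt_irrefl _ h4
  have h6 : S a < β := by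
    by_contra hc
    push Not at hc
    unfold cg_c at h4
    rw [min_eq_left (by linarith : β ≤ E a), max_eq_left hc] at h4
    exact absurd h4 (not_lt.2 (le_max_left _ _))
  refine ⟨h3, ?_, ?_, ?_⟩
  · exact max_lt (lt_min hb.2.1 h6) (lt_min h5 h1)
  · unfold cg_c
    rw [min_eq_left h5.le]
  · unfold cg_c
    rw [min_comm, max_eq_right (le_min hb.2.1.le h6.le)]

/-- the converse -/
private theorem cg_moves' (h : Bal σ S E) {α β : ℝ} (h0 : 0 ≤ α) (h1 : α < β) (h2 : β ≤ 1) {a : H}
    (ha : σ 0 a < σ 1 a) (h3 : α < E a) (h4 : S a < β) : σ α a < σ β a := by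
  have hb := h.bd a ha
  rw [cg_val h ha h0 (by linarith), cg_val h ha (by linarith) h2]
  have h5 : cg_c (S a) (E a) α < cg_c (S a) (E a) β := by
    unfold cg_c
    rw [min_eq_left h3.le]
    refine max_lt (lt_of_lt_of_le (lt_min h4 hb.2.1) (le_max_right _ _))
      (lt_of_lt_of_le (lt_min h1 h3) (le_max_right _ _))
  have := mul_lt_mul_of_pos_left h5 (h.spd_pos ha)
  linarith

private theorem cg_spd (h : Bal σ S E) {α β : ℝ} (h0 : 0 ≤ α) (h1 : α < β) (h2 : β ≤ 1) {a : H}
    (ha : σ α a < σ β a) :
    spd (fun t => σ (α + (β - α) * t)) (fun a => (max (S a) α - α) / (β - α))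
      (fun a => (min (E a) β - α) / (β - α)) a = (β - α) * spd σ S E a := by
  obtain ⟨h3, h4, h5, h6⟩ := cg_moves h h0 h1 h2 ha
  have e0 : α + (β - α) * 0 = α := by ring
  have e1 : α + (β - α) * 1 = β := by ring
  have e2 : σ β a - σ α a = spd σ S E a * (min (E a) β - max (S a) α) := by
    rw [cg_val h h3 h0 (by linarith), cg_val h h3 (by linarith) h2, h5, h6]
    ring
  have e3 : spd (fun t => σ (α + (β - α) * t)) (fun a => (max (S a) α - α) / (β - α))
      (fun a => (min (E a) β - α) / (β - α)) a = (σ β a - σ α a) /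
        ((min (E a) β - α) / (β - α) - (max (S a) α - α) / (β - α)) := by
    unfold spd
    simp only [e0, e1]
  rw [e3, e2]
  have h7 : β - α ≠ 0 := by linarith
  have h8 : min (E a) β - max (S a) α ≠ 0 := by linarith
  have e4 : (min (E a) β - α) / (β - α) - (max (S a) α - α) / (β - α) =
      (min (E a) β - max (S a) α) / (β - α) := by
    field_simp
    ring
  rw [e4]
  field_simp

theorem Bal.restrict (h : Bal σ S E) {α β : ℝ} (h0 : 0 ≤ α) (h1 : α < β) (h2 : β ≤ 1) :
    Bal (fun t => σ (α + (β - α) * t)) (fun a => (max (S a) α - α) / (β - α))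
      (fun a => (min (E a) β - α) / (β - α)) := by
  have hd : 0 < β - α := by linarith
  have e0 : α + (β - α) * 0 = α := by ring
  have e1 : α + (β - α) * 1 = β := by ring
  have hu0 : ∀ {t : ℝ}, 0 ≤ t → α ≤ α + (β - α) * t := fun {t} ht => by
    nlinarith [mul_nonneg hd.le ht]
  have hu1 : ∀ {t : ℝ}, t ≤ 1 → α + (β - α) * t ≤ β := fun {t} ht => by
    nlinarith [mul_le_mul_of_nonneg_left ht hd.le]
  constructor
  · intro a ha
    simp only [e0, e1] at ha
    obtain ⟨h3, h4, h5, h6⟩ := cg_moves h h0 h1 h2 ha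
    refine ⟨div_nonneg (by linarith [le_max_right (S a) α]) hd.le, ?_, ?_⟩
    · exact div_lt_div_of_pos_right (by linarith) hd
    · rw [div_le_one hd]
      linarith [min_le_right (E a) β]
  · intro a ha t ht0 ht
    simp only [e0, e1] at ha ⊢
    obtain ⟨h3, h4, h5, h6⟩ := cg_moves h h0 h1 h2 ha
    rw [le_div_iff₀ hd] at ht
    have hle : α + (β - α) * t ≤ max (S a) α := by linarith
    have hle' : α + (β - α) * t ≤ β := by linarith [min_le_right (E a) β]
    rw [cg_val h h3 (by linarith [hu0 ht0]) (by linarith), cg_val h h3 h0 (by linarith)]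
    have : cg_c (S a) (E a) (α + (β - α) * t) = cg_c (S a) (E a) α := by
      refine le_antisymm ?_ (cg_c_mono (hu0 ht0))
      rw [h5]
      unfold cg_c
      exact max_le (le_max_left _ _) (le_trans (min_le_left _ _) hle)
    rw [this]
  · intro a ha t ht0 ht1
    simp only [e0, e1] at ha ⊢
    obtain ⟨h3, h4, h5, h6⟩ := cg_moves h h0 h1 h2 ha
    rw [div_le_iff₀ hd] at ht0
    rw [le_div_iff₀ hd] at ht1
    have hu2 : max (S a) α ≤ α + (β - α) * t := by linarith
    have hu3 : α + (β - α) * t ≤ min (E a) β := by linarith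
    have h7 : cg_c (S a) (E a) (α + (β - α) * t) = α + (β - α) * t := by
      unfold cg_c
      rw [min_eq_left (le_trans hu3 (min_le_left _ _)),
        max_eq_right (le_trans (le_max_left _ _) hu2)]
    have h8 : α ≤ α + (β - α) * t := le_trans (le_max_right _ _) hu2
    have h9 : α + (β - α) * t ≤ β := le_trans hu3 (min_le_right _ _)
    rw [cg_val h h3 (by linarith) (by linarith), cg_val h h3 h0 (by linarith),
      cg_val h h3 (by linarith) h2, h5, h6, h7]
    have e4 : (min (E a) β - α) / (β - α) - (max (S a) α - α) / (β - α) =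
        (min (E a) β - max (S a) α) / (β - α) := by
      field_simp
      ring
    rw [e4]
    have h10 : min (E a) β - max (S a) α ≠ 0 := by linarith
    have h11 : β - α ≠ 0 := hd.ne'
    have e5 : (t - (max (S a) α - α) / (β - α)) / ((min (E a) β - max (S a) α) / (β - α)) =
        (α + (β - α) * t - max (S a) α) / (min (E a) β - max (S a) α) := by
      field_simp
      ring
    rw [e5]
    field_simp
    ring
  · intro a ha t ht ht1
    simp only [e0, e1] at ha ⊢
    obtain ⟨h3, h4, h5, h6⟩ := cg_moves h h0 h1 h2 ha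
    rw [div_le_iff₀ hd] at ht
    have hu2 : min (E a) β ≤ α + (β - α) * t := by linarith
    have hu3 := hu1 ht1
    have hu4 : α ≤ α + (β - α) * t := by linarith [le_max_right (S a) α]
    rw [cg_val h h3 (by linarith) (by linarith), cg_val h h3 (by linarith) h2]
    have : cg_c (S a) (E a) (α + (β - α) * t) = cg_c (S a) (E a) β := by
      refine le_antisymm (cg_c_mono hu3) ?_
      rw [h6]
      unfold cg_c
      exact le_trans (le_min hu2 (min_le_left _ _)) (le_max_right _ _)
    rw [this]
  · intro a ha t ht0 ht1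
    simp only [e0, e1] at ha ⊢
    rcases le_total (σ 0 a) (σ 1 a) with h3 | h3
    · have h4 := h.mono h3 h0 (hu0 ht0) (by linarith [hu1 ht1])
      have h5 := h.mono h3 (by linarith [hu0 ht0]) (hu1 ht1) h2
      linarith
    · have h3' : σ 0 (op a) ≤ σ 1 (op a) := by
        rw [cg_op, cg_op]
        linarith
      have h4 := h.mono h3' h0 (hu0 ht0) (by linarith [hu1 ht1])
      have h5 := h.mono h3' (by linarith [hu0 ht0]) (hu1 ht1) h2
      rw [cg_op, cg_op] at h4 h5
      linarith
  · intro a ha hE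
    simp only [e0, e1] at ha
    obtain ⟨h3, h4, h5, h6⟩ := cg_moves h h0 h1 h2 ha
    rw [div_lt_one hd] at hE
    have hEb : E a < β := by
      by_contra hc
      push Not at hc
      rw [min_eq_right hc] at hE
      linarith
    obtain ⟨b, hba, hb, hSb, hsp⟩ := h.fwd a h3 (by linarith)
    have hbb := h.bd b hb
    have hαE : α < E a := by
      have := le_max_right (S a) α
      have := min_le_left (E a) β
      linarith
    have hb' : σ α b < σ β b := cg_moves' h h0 h1 h2 hb (by linarith) (by linarith)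
    refine ⟨b, hba, by simpa only [e0, e1] using hb', ?_, ?_⟩
    · show (max (S b) α - α) / (β - α) = (min (E a) β - α) / (β - α)
      rw [hSb, max_eq_left hαE.le, min_eq_left hEb.le]
    · rw [cg_spd h h0 h1 h2 ha, cg_spd h h0 h1 h2 hb']
      exact mul_le_mul_of_nonneg_left hsp hd.le
  · intro a ha hS
    simp only [e0, e1] at ha
    obtain ⟨h3, h4, h5, h6⟩ := cg_moves h h0 h1 h2 ha
    have hS' : α < S a := by
      by_contra hc
      push Not at hc
      rw [max_eq_right hc, sub_self, zero_div] at hS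
      exact lt_irrefl _ hS
    obtain ⟨b, hba, hb, hEb, hsp⟩ := h.bwd a h3 (by linarith)
    have hbb := h.bd b hb
    have hSβ : S a < β := by
      have := le_max_left (S a) α
      have := min_le_right (E a) β
      linarith
    have hb' : σ α b < σ β b := cg_moves' h h0 h1 h2 hb (by linarith) (by linarith)
    refine ⟨b, hba, by simpa only [e0, e1] using hb', ?_, ?_⟩
    · show (min (E b) β - α) / (β - α) = (max (S a) α - α) / (β - α)
      rw [hEb, max_eq_left hS'.le, min_eq_left hSβ.le]
    · rw [cg_spd h h0 h1 h2 ha, cg_spd h h0 h1 h2 hb']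
      exact mul_le_mul_of_nonneg_left hsp hd.le

theorem Bal.spd_restrict (h : Bal σ S E) {α β : ℝ} (h0 : 0 ≤ α) (h1 : α < β) (h2 : β ≤ 1) {a : H}
    (ha : σ α a < σ β a) :
    spd (fun t => σ (α + (β - α) * t)) (fun a => (max (S a) α - α) / (β - α))
      (fun a => (min (E a) β - α) / (β - α)) a = (β - α) * spd σ S E a :=
  cg_spd h h0 h1 h2 ha

private theorem cg_spd_rev (a : H) :
    spd (fun t => σ (1 - t)) (fun a => 1 - E (op a)) (fun a => 1 - S (op a)) a =
      spd σ S E (op a) := by
  unfold spd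
  simp only [sub_self, sub_zero, cg_op]
  congr 1 <;> ring

theorem Bal.rev (h : Bal σ S E) :
    Bal (fun t => σ (1 - t)) (fun a => 1 - E (op a)) (fun a => 1 - S (op a)) := by
  have key : ∀ {a : H}, σ 1 a < σ 0 a → σ 0 (op a) < σ 1 (op a) := fun {a} ha => by
    rw [cg_op, cg_op]
    linarith
  constructor
  · intro a ha
    simp only [sub_self, sub_zero] at ha
    have h1 := h.bd _ (key ha)
    exact ⟨by linarith, by linarith, by linarith⟩
  · intro a ha t ht0 ht
    simp only [sub_self, sub_zero] at ha ⊢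
    have h1 := h.bd _ (key ha)
    have h2 := h.after _ (key ha) (1 - t) (by linarith) (by linarith)
    rw [cg_op, cg_op] at h2
    linarith
  · intro a ha t ht0 ht1
    simp only [sub_self, sub_zero] at ha ⊢
    have h1 := h.bd _ (key ha)
    have h2 := (h.mid' (key ha) (t := 1 - t) (by linarith) (by linarith)).2
    unfold spd at h2
    simp only [cg_op] at h2
    have h3 : E (op a) - S (op a) ≠ 0 := by linarith
    have h4 : 1 - S (op a) - (1 - E (op a)) = E (op a) - S (op a) := by ring
    rw [h4]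
    have h5 : σ (1 - t) a = σ 1 a + (1 - σ 1 a - (1 - σ 0 a)) / (E (op a) - S (op a)) *
        (E (op a) - (1 - t)) := by linarith
    rw [h5]
    field_simp
    ring
  · intro a ha t ht ht1
    simp only [sub_self, sub_zero] at ha ⊢
    have h1 := h.bd _ (key ha)
    have h2 := h.before _ (key ha) (1 - t) (by linarith) (by linarith)
    rw [cg_op, cg_op] at h2
    linarith
  · intro a ha t ht0 ht1
    simp only [sub_self, sub_zero] at ha ⊢
    rw [h.const a ha.symm (1 - t) (by linarith) (by linarith), ha]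
  · intro a ha hE
    simp only [sub_self, sub_zero] at ha
    obtain ⟨b, hab, hb, hEb, hsp⟩ := h.bwd _ (key ha) (by linarith)
    refine ⟨op b, ?_, ?_, ?_, ?_⟩
    · have := op_lt_op hab
      rwa [op_op] at this
    · simp only [sub_self, sub_zero]
      rw [cg_op, cg_op]
      linarith
    · show 1 - E (op (op b)) = 1 - S (op a)
      rw [op_op, hEb]
    · rw [cg_spd_rev, cg_spd_rev, op_op]
      exact hsp
  · intro a ha hS
    simp only [sub_self, sub_zero] at ha
    obtain ⟨b, hab, hb, hSb, hsp⟩ := h.fwd _ (key ha) (by linarith)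
    refine ⟨op b, ?_, ?_, ?_, ?_⟩
    · have := op_lt_op hab
      rwa [op_op] at this
    · simp only [sub_self, sub_zero]
      rw [cg_op, cg_op]
      linarith
    · show 1 - S (op (op b)) = 1 - E (op a)
      rw [op_op, hSb]
    · rw [cg_spd_rev, cg_spd_rev, op_op]
      exact hsp

theorem Bal.smul {G : Type} [Group G] [PocAct G H] [Based G o] (h : Bal σ S E) (g : G) :
    Bal (fun t => g • σ t) (fun a => S (g⁻¹ • a)) (fun a => E (g⁻¹ • a)) := by
  have hsp : ∀ a : H, spd (fun t => g • σ t) (fun a => S (g⁻¹ • a)) (fun a => E (g⁻¹ • a)) a =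
      spd σ S E (g⁻¹ • a) := fun a => by
    unfold spd
    simp only [smul_val]
  have hlt : ∀ (k : G) {a b : H}, a < b → k • a < k • b := fun k {a b} hab =>
    lt_of_le_of_ne (PocAct.smul_le _ _ _ hab.le) fun h1 => hab.ne (MulAction.injective k h1)
  constructor
  · intro a ha
    simp only [smul_val] at ha
    exact h.bd _ ha
  · intro a ha t ht0 ht
    simp only [smul_val] at ha ⊢
    exact h.before _ ha t ht0 ht
  · intro a ha t ht0 ht1
    simp only [smul_val] at ha ⊢
    exact h.mid _ ha t ht0 ht1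
  · intro a ha t ht ht1
    simp only [smul_val] at ha ⊢
    exact h.after _ ha t ht ht1
  · intro a ha t ht0 ht1
    simp only [smul_val] at ha ⊢
    exact h.const _ ha t ht0 ht1
  · intro a ha hE
    simp only [smul_val] at ha
    obtain ⟨b, hab, hb, hSb, hs⟩ := h.fwd _ ha hE
    refine ⟨g • b, ?_, ?_, ?_, ?_⟩
    · have := hlt g hab
      rwa [smul_inv_smul] at this
    · simp only [smul_val, inv_smul_smul]
      exact hb
    · show S (g⁻¹ • g • b) = E (g⁻¹ • a)
      rw [inv_smul_smul, hSb]
    · rw [hsp, hsp, inv_smul_smul]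
      exact hs
  · intro a ha hS
    simp only [smul_val] at ha
    obtain ⟨b, hab, hb, hEb, hs⟩ := h.bwd _ ha hS
    refine ⟨g • b, ?_, ?_, ?_, ?_⟩
    · have := hlt g hab
      rwa [smul_inv_smul] at this
    · simp only [smul_val, inv_smul_smul]
      exact hb
    · show E (g⁻¹ • g • b) = S (g⁻¹ • a)
      rw [inv_smul_smul, hEb]
    · rw [hsp, hsp, inv_smul_smul]
      exact hs

end Pool.Agent.CCC
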