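import Pool.Agent.Lib.MP_98022b_cc.Metric2

/-!
# Balanced paths: definition

`σ` is a path (only the times in `[0, 1]` matter); the halfspaces `a` with `σ 0 a < σ 1 a` are entered
between the times `S a` and `E a` with constant speed.
-/

set_option autoImplicit false

open Set

namespace Pool.Agent.CCC

open Pocset

variable {H : Type} [Pocset H] {o : Set H}

/-- The speed with which the path `σ` enters `a`. -/
noncomputable def spd (σ : ℝ → Pt o) (S E : H → ℝ) (a : H) : ℝ := (σ 1 a - σ 0 a) / (E a - S a)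

/-- Balanced paths. -/
structure Bal (σ : ℝ → Pt o) (S E : H → ℝ) : Prop where
  bd : ∀ a, σ 0 a < σ 1 a → 0 ≤ S a ∧ S a < E a ∧ E a ≤ 1
  before : ∀ a, σ 0 a < σ 1 a → ∀ t, 0 ≤ t → t ≤ S a → σ t a = σ 0 a
  mid : ∀ a, σ 0 a < σ 1 a → ∀ t, S a ≤ t → t ≤ E a →
    σ t a = σ 0 a + (σ 1 a - σ 0 a) * ((t - S a) / (E a - S a))
  after : ∀ a, σ 0 a < σ 1 a → ∀ t, E a ≤ t → t ≤ 1 → σ t a = σ 1 a
  const : ∀ a, σ 0 a = σ 1 a → ∀ t, 0 ≤ t → t ≤ 1 → σ t a = σ 0 a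
  fwd : ∀ a, σ 0 a < σ 1 a → E a < 1 → ∃ b, b < a ∧ σ 0 b < σ 1 b ∧ S b = E a ∧
    spd σ S E a ≤ spd σ S E b
  bwd : ∀ a, σ 0 a < σ 1 a → 0 < S a → ∃ b, a < b ∧ σ 0 b < σ 1 b ∧ E b = S a ∧
    spd σ S E a ≤ spd σ S E b

end Pool.Agent.CCC
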