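import Mathlib

/-!
# Row CE: balanced schedules (steepest chain first)

`ι` is a finite partially ordered set (`i < j`: `i` has to be done before `j`), `l i > 0` the work of
`i`. THEOREM: there are start times `s` and end times `e` in `[0, 1]` such that `e i ≤ s j` for
`i < j` and, with the speed `l i / (e i - s i)`:
(F) if `e i < 1` then some `j > i` has `s j = e i` and at least the speed of `i`;
(B) if `0 < s i` then some `j < i` has `e j = s i` and at least the speed of `i`.

PROOF (without chains). Induction on the finite set `P` of the elements not yet scheduled, with lower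
bounds `lo` and upper bounds `hi` for the times. `Feas κ a`: all elements of `P` can be done with the
slowness `κ` starting at the times `a`. Let `κ` be the largest feasible slowness (compactness) and `a`,
`z` the earliest and the latest feasible start times for `κ`. The set `C` of the elements with
`a h = z h` is nonempty (otherwise `κ` could be increased) and satisfies (F), (B) by the extremality of
`a` and `z`. Schedule `C` with the start times `a` and go on with `P \ C` and the new bounds.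
-/

set_option autoImplicit false

open Set

namespace Pool.Agent.CCC

namespace Sched

variable {ι : Type} [PartialOrder ι]

/-- the elements of `P` can be done with slowness `κ`, starting at the times `a` -/
def Feas (l : ι → ℝ) (P : Finset ι) (lo hi : ι → ℝ) (κ : ℝ) (a : ι → ℝ) : Prop :=
  ∀ h ∈ P, lo h ≤ a h ∧ a h + κ * l h ≤ hi h ∧ ∀ k ∈ P, h < k → a h + κ * l h ≤ a k

theorem exists_rank [Finite ι] : ∃ t : ι → ℝ, (∀ h, 0 < t h) ∧ (∀ h, t h < 1) ∧
    ∀ h k, h < k → t h < t k := by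
  classical
  have := Fintype.ofFinite ι
  refine ⟨fun h => ((Finset.univ.filter (fun x => x ≤ h)).card : ℝ) / (Fintype.card ι + 1), ?_, ?_, ?_⟩
  · intro h
    have : 0 < (Finset.univ.filter (fun x => x ≤ h)).card :=
      Finset.card_pos.2 ⟨h, by simp⟩
    have h2 : (0:ℝ) < ((Finset.univ.filter (fun x => x ≤ h)).card : ℝ) := by exact_mod_cast this
    positivity
  · intro h
    have : (Finset.univ.filter (fun x => x ≤ h)).card ≤ Fintype.card ι := Finset.card_le_univ _
    have h2 : ((Finset.univ.filter (fun x => x ≤ h)).card : ℝ) ≤ (Fintype.card ι : ℝ) := by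
      exact_mod_cast this
    rw [div_lt_one (by positivity)]
    linarith
  · intro h k hhk
    have : (Finset.univ.filter (fun x => x ≤ h)).card < (Finset.univ.filter (fun x => x ≤ k)).card := by
      apply Finset.card_lt_card
      rw [Finset.ssubset_iff_of_subset]
      · exact ⟨k, by simp, by simpa using not_le_of_gt hhk⟩
      · intro x hx
        simp only [Finset.mem_filter, Finset.mem_univ, true_and] at hx ⊢
        exact hx.trans hhk.le
    have h2 : ((Finset.univ.filter (fun x => x ≤ h)).card : ℝ) <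
        ((Finset.univ.filter (fun x => x ≤ k)).card : ℝ) := by exact_mod_cast this
    exact div_lt_div_of_pos_right h2 (by positivity)

theorem exists_improve [Finite ι] {l : ι → ℝ} {P : Finset ι} {lo hi : ι → ℝ} {κ : ℝ} {a z : ι → ℝ}
    (ha : Feas l P lo hi κ a) (hz : Feas l P lo hi κ z) (hlt : ∀ h ∈ P, a h < z h) :
    ∃ κ' m, κ < κ' ∧ Feas l P lo hi κ' m := by
  classical
  obtain ⟨t, ht0, ht1, htm⟩ := exists_rank (ι := ι)
  obtain ⟨m, hm⟩ : ∃ m : ι → ℝ, ∀ h, m h = a h + t h * (z h - a h) := ⟨_, fun _ => rfl⟩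
  have h1 : ∀ h ∈ P, lo h ≤ m h := by
    intro h hh
    have := (ha h hh).1
    have := mul_pos (ht0 h) (sub_pos.2 (hlt h hh))
    rw [hm]; linarith
  have h2 : ∀ h ∈ P, m h + κ * l h < hi h := by
    intro h hh
    have := (hz h hh).2.1
    have := mul_pos (sub_pos.2 (ht1 h)) (sub_pos.2 (hlt h hh))
    rw [hm]; nlinarith
  have h3 : ∀ h ∈ P, ∀ k ∈ P, h < k → m h + κ * l h < m k := by
    intro h hh k hk hhk
    have e1 := (ha h hh).2.2 k hk hhk
    have e2 := (hz h hh).2.2 k hk hhk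
    have e3 := mul_pos (sub_pos.2 (htm h k hhk)) (sub_pos.2 (hlt k hk))
    have e4 := mul_nonneg (sub_pos.2 (ht1 h)).le (sub_nonneg.2 e1)
    have e5 := mul_nonneg (ht0 h).le (sub_nonneg.2 e2)
    rw [hm, hm]; nlinarith
  have hc : ∀ h, ContinuousAt (fun κ' : ℝ => m h + κ' * l h) κ := fun h => by fun_prop
  have h4 : ∀ᶠ κ' in nhdsWithin κ (Ioi κ), ∀ h ∈ P, m h + κ' * l h < hi h ∧
      ∀ k ∈ P, h < k → m h + κ' * l h < m k := by
    apply Filter.Eventually.filter_mono nhdsWithin_le_nhds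
    rw [Filter.eventually_all_finset]
    intro h hh
    refine Filter.Eventually.and ((hc h).eventually_lt continuousAt_const (h2 h hh)) ?_
    rw [Filter.eventually_all_finset]
    intro k hk
    by_cases hhk : h < k
    · filter_upwards [(hc h).eventually_lt continuousAt_const (h3 h hh k hk hhk)] with x hx _
      exact hx
    · exact Filter.Eventually.of_forall fun x hx => absurd hx hhk
  obtain ⟨κ', hκ', h5⟩ := (h4.and self_mem_nhdsWithin).exists
  exact ⟨κ', m, h5, fun h hh => ⟨h1 h hh, (hκ' h hh).1.le, fun k hk hhk => ((hκ' h hh).2 k hk hhk).le⟩⟩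

theorem exists_max [Finite ι] {l : ι → ℝ} (hl : ∀ i, 0 < l i) {P : Finset ι} (hP : P.Nonempty)
    {lo hi : ι → ℝ} (h1 : ∀ h ∈ P, lo h < hi h)
    (h2 : ∀ h ∈ P, ∀ k ∈ P, h < k → lo h ≤ lo k ∧ hi h ≤ hi k) :
    ∃ κ a, 0 < κ ∧ Feas l P lo hi κ a ∧ ∀ κ' a', Feas l P lo hi κ' a' → κ' ≤ κ := by
  classical
  have := Fintype.ofFinite ι
  obtain ⟨h₀, hh₀⟩ := hP
  -- positive slowness
  have hA : Feas l P lo hi 0 lo := fun h hh =>
    ⟨le_rfl, by rw [zero_mul, add_zero]; exact (h1 h hh).le, fun k hk hhk => by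
      rw [zero_mul, add_zero]; exact (h2 h hh k hk hhk).1⟩
  have hB : Feas l P lo hi 0 hi := fun h hh =>
    ⟨(h1 h hh).le, by rw [zero_mul, add_zero], fun k hk hhk => by
      rw [zero_mul, add_zero]; exact (h2 h hh k hk hhk).2⟩
  obtain ⟨κ₀, a₀, hκ₀, ha₀⟩ := exists_improve hA hB h1
  -- compactness
  let S : Set (ℝ × (ι → ℝ)) := {x | 0 ≤ x.1 ∧ Feas l P lo hi x.1 x.2 ∧ ∀ h, h ∉ P → x.2 h = 0}
  have hext : ∀ κ a, 0 ≤ κ → Feas l P lo hi κ a → (κ, fun h => if h ∈ P then a h else 0) ∈ S := by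
    intro κ a hκ ha
    refine ⟨hκ, fun h hh => ?_, fun h hh => by simp [hh]⟩
    have := ha h hh
    refine ⟨by simpa [hh] using this.1, by simpa [hh] using this.2.1, fun k hk hhk => ?_⟩
    simpa [hh, hk] using this.2.2 k hk hhk
  have hSc : IsClosed S := by
    have e1 : IsClosed {x : ℝ × (ι → ℝ) | 0 ≤ x.1} := isClosed_le continuous_const continuous_fst
    have e2 : IsClosed {x : ℝ × (ι → ℝ) | Feas l P lo hi x.1 x.2} := by
      have : {x : ℝ × (ι → ℝ) | Feas l P lo hi x.1 x.2} = ⋂ h ∈ P, ({x : ℝ × (ι → ℝ) | lo h ≤ x.2 h} ∩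
          ({x : ℝ × (ι → ℝ) | x.2 h + x.1 * l h ≤ hi h} ∩
            ⋂ k ∈ P, ⋂ (_ : h < k), {x : ℝ × (ι → ℝ) | x.2 h + x.1 * l h ≤ x.2 k})) := by
        ext x
        simp only [Feas, mem_ofPred_eq, mem_iInter, mem_inter_iff]
      rw [this]
      refine isClosed_biInter fun h _ => IsClosed.inter ?_ (IsClosed.inter ?_ ?_)
      · exact isClosed_le (by fun_prop) (by fun_prop)
      · exact isClosed_le (by fun_prop) (by fun_prop)
      · exact isClosed_biInter fun k _ => isClosed_iInter fun _ => isClosed_le (by fun_prop) (by fun_prop)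
    have e3 : IsClosed {x : ℝ × (ι → ℝ) | ∀ h, h ∉ P → x.2 h = 0} := by
      have : {x : ℝ × (ι → ℝ) | ∀ h, h ∉ P → x.2 h = 0} = ⋂ h, ⋂ (_ : h ∉ P), {x : ℝ × (ι → ℝ) | x.2 h = 0} := by
        ext x
        simp only [mem_ofPred_eq, mem_iInter]
      rw [this]
      exact isClosed_iInter fun h => isClosed_iInter fun _ => isClosed_eq (by fun_prop) (by fun_prop)
    exact e1.inter (e2.inter e3)
  have hSub : S ⊆ Icc (0, fun h => if h ∈ P then lo h else 0)
      ((hi h₀ - lo h₀) / l h₀, fun h => if h ∈ P then hi h else 0) := by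
    rintro ⟨κ, a⟩ ⟨hκ, ha, ha0⟩
    refine ⟨⟨hκ, fun h => ?_⟩, ⟨?_, fun h => ?_⟩⟩
    · by_cases hh : h ∈ P
      · simpa [hh] using (ha h hh).1
      · simp only [hh, if_false]; exact (ha0 h hh).ge
    · have := ha h₀ hh₀
      show κ ≤ _
      rw [le_div_iff₀ (hl h₀)]
      have := this.1
      have := (ha h₀ hh₀).2.1
      simp only at *
      linarith
    · by_cases hh : h ∈ P
      · have := (ha h hh).2.1
        have h5 := mul_nonneg hκ (hl h).le
        simp only [hh, if_true]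
        simp only at this h5
        show a h ≤ hi h
        linarith
      · simp only [hh, if_false]; exact (ha0 h hh).le
  have hK : IsCompact S := isCompact_Icc.of_isClosed_subset hSc hSub
  obtain ⟨⟨κ, a⟩, hx, hmax⟩ := hK.exists_isMaxOn ⟨_, hext κ₀ a₀ hκ₀.le ha₀⟩ continuous_fst.continuousOn
  have hmax' : ∀ κ' a', Feas l P lo hi κ' a' → 0 ≤ κ' → κ' ≤ κ := fun κ' a' h h0 =>
    hmax (hext κ' a' h0 h)
  refine ⟨κ, a, lt_of_lt_of_le hκ₀ (hmax' κ₀ a₀ ha₀ hκ₀.le), hx.2.1, fun κ' a' h => ?_⟩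
  rcases le_total 0 κ' with h0 | h0
  · exact hmax' κ' a' h h0
  · exact h0.trans hx.1

/-- the critical set -/
theorem exists_crit [Finite ι] {l : ι → ℝ} (hl : ∀ i, 0 < l i) {P : Finset ι} (hP : P.Nonempty)
    {lo hi : ι → ℝ} (h1 : ∀ h ∈ P, lo h < hi h)
    (h2 : ∀ h ∈ P, ∀ k ∈ P, h < k → lo h ≤ lo k ∧ hi h ≤ hi k) :
    ∃ (κ : ℝ) (a : ι → ℝ) (C : Finset ι), 0 < κ ∧ Feas l P lo hi κ a ∧ C ⊆ P ∧ C.Nonempty ∧
      (∀ κ' a', Feas l P lo hi κ' a' → κ' ≤ κ) ∧
      (∀ h ∈ C, a h + κ * l h < hi h → ∃ k ∈ C, h < k ∧ a k = a h + κ * l h) ∧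
      (∀ h ∈ C, lo h < a h → ∃ k ∈ C, k < h ∧ a k + κ * l k = a h) := by
  classical
  obtain ⟨κ, b, hκ, hb, hmax⟩ := exists_max hl hP h1 h2
  have hne : Nonempty {a // Feas l P lo hi κ a} := ⟨⟨b, hb⟩⟩
  obtain ⟨a, hadef⟩ : ∃ a : ι → ℝ, ∀ h, a h = ⨅ x : {a // Feas l P lo hi κ a}, x.1 h := ⟨_, fun _ => rfl⟩
  obtain ⟨z, hzdef⟩ : ∃ z : ι → ℝ, ∀ h, z h = ⨆ x : {a // Feas l P lo hi κ a}, x.1 h := ⟨_, fun _ => rfl⟩
  have hal : ∀ x, Feas l P lo hi κ x → ∀ h ∈ P, a h ≤ x h := by
    intro x hx h hh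
    rw [hadef]
    refine ciInf_le (f := fun x : {a // Feas l P lo hi κ a} => x.1 h) ⟨lo h, ?_⟩ ⟨x, hx⟩
    rintro _ ⟨y, rfl⟩
    exact (y.2 h hh).1
  have hzl : ∀ x, Feas l P lo hi κ x → ∀ h ∈ P, x h ≤ z h := by
    intro x hx h hh
    rw [hzdef]
    refine le_ciSup (f := fun x : {a // Feas l P lo hi κ a} => x.1 h) ⟨hi h - κ * l h, ?_⟩ ⟨x, hx⟩
    rintro _ ⟨y, rfl⟩
    have := (y.2 h hh).2.1
    simp only
    linarith
  have hag : ∀ h, ∀ c : ℝ, (∀ x, Feas l P lo hi κ x → c ≤ x h) → c ≤ a h := by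
    intro h c hc
    rw [hadef]
    exact le_ciInf fun x => hc x.1 x.2
  have hzg : ∀ h, ∀ c : ℝ, (∀ x, Feas l P lo hi κ x → x h ≤ c) → z h ≤ c := by
    intro h c hc
    rw [hzdef]
    exact ciSup_le fun x => hc x.1 x.2
  have ha : Feas l P lo hi κ a := by
    intro h hh
    refine ⟨hag h _ fun x hx => (hx h hh).1, ?_, fun k hk hhk => hag k _ fun x hx => ?_⟩
    · have := hal b hb h hh
      have := (hb h hh).2.1
      linarith
    · have := hal x hx h hh
      have := (hx h hh).2.2 k hk hhk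
      linarith
  have hz : Feas l P lo hi κ z := by
    intro h hh
    refine ⟨?_, ?_, fun k hk hhk => ?_⟩
    · have := hzl b hb h hh
      have := (hb h hh).1
      linarith
    · have := hzg h (hi h - κ * l h) fun x hx => by
        have := (hx h hh).2.1
        linarith
      linarith
    · have := hzg h (z k - κ * l h) fun x hx => by
        have := (hx h hh).2.2 k hk hhk
        have := hzl x hx k hk
        linarith
      linarith
  have haz : ∀ h ∈ P, a h ≤ z h := fun h hh => hal z hz h hh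
  refine ⟨κ, a, P.filter (fun h => a h = z h), hκ, ha, Finset.filter_subset _ _, ?_, hmax, ?_, ?_⟩
  · -- nonempty
    by_contra hno
    rw [Finset.not_nonempty_iff_eq_empty, Finset.filter_eq_empty_iff] at hno
    obtain ⟨κ', m, h3, h4⟩ := exists_improve ha hz fun h hh => lt_of_le_of_ne (haz h hh) (hno hh)
    exact absurd (hmax κ' m h4) (not_le.2 h3)
  · -- (F)
    intro h hh hlt
    rw [Finset.mem_filter] at hh
    obtain ⟨hhP, hhz⟩ := hh
    by_contra hno
    push Not at hno
    -- all later elements start later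
    have h5 : ∀ k ∈ P, h < k → z h + κ * l h < z k := by
      intro k hk hhk
      refine lt_of_le_of_ne ((hz h hhP).2.2 k hk hhk) fun heq => ?_
      have h6 := (ha h hhP).2.2 k hk hhk
      have h7 := haz k hk
      refine hno k (Finset.mem_filter.2 ⟨hk, ?_⟩) hhk ?_ <;> linarith
    -- push z h
    have hcont : ContinuousAt (fun x : ℝ => x + κ * l h) (z h) := by fun_prop
    have h8 : ∀ᶠ x in nhdsWithin (z h) (Ioi (z h)), x + κ * l h < hi h ∧
        ∀ k ∈ P, h < k → x + κ * l h < z k := by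
      apply Filter.Eventually.filter_mono nhdsWithin_le_nhds
      refine Filter.Eventually.and (hcont.eventually_lt continuousAt_const (by rw [← hhz]; exact hlt)) ?_
      rw [Filter.eventually_all_finset]
      intro k hk
      by_cases hhk : h < k
      · filter_upwards [hcont.eventually_lt continuousAt_const (h5 k hk hhk)] with x hx _
        exact hx
      · exact Filter.Eventually.of_forall fun x hx => absurd hx hhk
    obtain ⟨x, ⟨hx1, hx2⟩, hx3⟩ := (h8.and self_mem_nhdsWithin).exists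
    have hx3' : z h < x := hx3
    have hfe : Feas l P lo hi κ (Function.update z h x) := by
      intro k hk
      by_cases hkh : k = h
      · subst hkh
        simp only [Function.update_self]
        refine ⟨(hz k hk).1.trans hx3'.le, hx1.le, fun j hj hkj => ?_⟩
        rw [Function.update_of_ne hkj.ne']
        exact (hx2 j hj hkj).le
      · rw [Function.update_of_ne hkh]
        refine ⟨(hz k hk).1, (hz k hk).2.1, fun j hj hkj => ?_⟩
        by_cases hjh : j = h
        · subst hjh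
          rw [Function.update_self]
          exact ((hz k hk).2.2 j hj hkj).trans hx3'.le
        · rw [Function.update_of_ne hjh]
          exact (hz k hk).2.2 j hj hkj
    have := hzl _ hfe h hhP
    rw [Function.update_self] at this
    linarith
  · -- (B)
    intro h hh hlt
    rw [Finset.mem_filter] at hh
    obtain ⟨hhP, hhz⟩ := hh
    by_contra hno
    push Not at hno
    have h5 : ∀ k ∈ P, k < h → a k + κ * l k < a h := by
      intro k hk hhk
      refine lt_of_le_of_ne ((ha k hk).2.2 h hhP hhk) fun heq => ?_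
      have h6 := (hz k hk).2.2 h hhP hhk
      have h7 := haz k hk
      refine hno k (Finset.mem_filter.2 ⟨hk, ?_⟩) hhk ?_ <;> linarith
    have hcont : ContinuousAt (fun x : ℝ => x) (a h) := by fun_prop
    have h8 : ∀ᶠ x in nhdsWithin (a h) (Iio (a h)), lo h < x ∧
        ∀ k ∈ P, k < h → a k + κ * l k < x := by
      apply Filter.Eventually.filter_mono nhdsWithin_le_nhds
      refine Filter.Eventually.and (continuousAt_const.eventually_lt hcont hlt) ?_
      rw [Filter.eventually_all_finset]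
      intro k hk
      by_cases hhk : k < h
      · filter_upwards [continuousAt_const.eventually_lt hcont (h5 k hk hhk)] with x hx _
        exact hx
      · exact Filter.Eventually.of_forall fun x hx => absurd hx hhk
    obtain ⟨x, ⟨hx1, hx2⟩, hx3⟩ := (h8.and self_mem_nhdsWithin).exists
    have hx3' : x < a h := hx3
    have hfe : Feas l P lo hi κ (Function.update a h x) := by
      intro k hk
      by_cases hkh : k = h
      · subst hkh
        simp only [Function.update_self]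
        have := (ha k hk).2.1
        refine ⟨hx1.le, by linarith, fun j hj hkj => ?_⟩
        rw [Function.update_of_ne hkj.ne']
        have := (ha k hk).2.2 j hj hkj
        linarith
      · rw [Function.update_of_ne hkh]
        refine ⟨(ha k hk).1, (ha k hk).2.1, fun j hj hkj => ?_⟩
        by_cases hjh : j = h
        · subst hjh
          rw [Function.update_self]
          exact (hx2 k hk hkj).le
        · rw [Function.update_of_ne hjh]
          exact (ha k hk).2.2 j hj hkj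
    have := hal _ hfe h hhP
    rw [Function.update_self] at this
    linarith

/-- the induction -/
theorem main [Finite ι] {l : ι → ℝ} (hl : ∀ i, 0 < l i) (n : ℕ) : ∀ (P : Finset ι), P.card = n →
    ∀ (lo hi : ι → ℝ), (∀ h ∈ P, lo h < hi h) →
    (∀ h ∈ P, ∀ k ∈ P, h < k → lo h ≤ lo k ∧ hi h ≤ hi k) →
    ∃ s e : ι → ℝ, (∀ h ∈ P, lo h ≤ s h ∧ s h < e h ∧ e h ≤ hi h) ∧
      (∀ h ∈ P, ∀ k ∈ P, h < k → e h ≤ s k) ∧
      (∀ h ∈ P, e h < hi h → ∃ k ∈ P, h < k ∧ s k = e h ∧ l h / (e h - s h) ≤ l k / (e k - s k)) ∧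
      (∀ h ∈ P, lo h < s h → ∃ k ∈ P, k < h ∧ e k = s h ∧ l h / (e h - s h) ≤ l k / (e k - s k)) ∧
      ∀ κ a, Feas l P lo hi κ a → ∀ h ∈ P, κ * l h ≤ e h - s h := by
  classical
  induction n using Nat.strong_induction_on with
  | _ n ih =>
  intro P hPn lo hi h1 h2
  rcases P.eq_empty_or_nonempty with rfl | hP
  · exact ⟨lo, hi, by simp, by simp, by simp, by simp, by simp⟩
  obtain ⟨κ, a, C, hκ, ha, hCP, hC, hmax, hF, hB⟩ := exists_crit hl hP h1 h2
  -- the new bounds
  obtain ⟨lo', hlo'⟩ : ∃ lo' : ι → ℝ, ∀ h, lo' h =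
      (insert (lo h) ((C.filter (fun c => c < h)).image (fun c => a c + κ * l c))).max'
        (Finset.insert_nonempty _ _) := ⟨_, fun _ => rfl⟩
  obtain ⟨hi', hhi'⟩ : ∃ hi' : ι → ℝ, ∀ h, hi' h =
      (insert (hi h) ((C.filter (fun c => h < c)).image a)).min'
        (Finset.insert_nonempty _ _) := ⟨_, fun _ => rfl⟩
  have lo1 : ∀ h, lo h ≤ lo' h := fun h => by
    rw [hlo']; exact Finset.le_max' _ _ (Finset.mem_insert_self _ _)
  have lo2 : ∀ h, ∀ c ∈ C, c < h → a c + κ * l c ≤ lo' h := fun h c hc hch => by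
    rw [hlo']
    exact Finset.le_max' _ _ (Finset.mem_insert_of_mem (Finset.mem_image_of_mem
      (fun c => a c + κ * l c) (Finset.mem_filter.2 ⟨hc, hch⟩)))
  have lo3 : ∀ h, lo' h = lo h ∨ ∃ c ∈ C, c < h ∧ lo' h = a c + κ * l c := fun h => by
    have := Finset.max'_mem (insert (lo h) ((C.filter (fun c => c < h)).image (fun c => a c + κ * l c)))
      (Finset.insert_nonempty _ _)
    rw [← hlo', Finset.mem_insert, Finset.mem_image] at this
    rcases this with h3 | ⟨c, hc, h3⟩
    · exact Or.inl h3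
    · exact Or.inr ⟨c, (Finset.mem_filter.1 hc).1, (Finset.mem_filter.1 hc).2, h3.symm⟩
  have hi1 : ∀ h, hi' h ≤ hi h := fun h => by
    rw [hhi']; exact Finset.min'_le _ _ (Finset.mem_insert_self _ _)
  have hi2 : ∀ h, ∀ c ∈ C, h < c → hi' h ≤ a c := fun h c hc hch => by
    rw [hhi']
    exact Finset.min'_le _ _ (Finset.mem_insert_of_mem (Finset.mem_image_of_mem
      a (Finset.mem_filter.2 ⟨hc, hch⟩)))
  have hi3 : ∀ h, hi' h = hi h ∨ ∃ c ∈ C, h < c ∧ hi' h = a c := fun h => by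
    have := Finset.min'_mem (insert (hi h) ((C.filter (fun c => h < c)).image a))
      (Finset.insert_nonempty _ _)
    rw [← hhi', Finset.mem_insert, Finset.mem_image] at this
    rcases this with h3 | ⟨c, hc, h3⟩
    · exact Or.inl h3
    · exact Or.inr ⟨c, (Finset.mem_filter.1 hc).1, (Finset.mem_filter.1 hc).2, h3.symm⟩
  have hbl : ∀ h ∈ P, lo' h ≤ a h := by
    intro h hh
    rcases lo3 h with h3 | ⟨c, hc, hch, h3⟩
    · rw [h3]; exact (ha h hh).1
    · rw [h3]; exact (ha c (hCP hc)).2.2 h hh hch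
  have hbh : ∀ h ∈ P, a h + κ * l h ≤ hi' h := by
    intro h hh
    rcases hi3 h with h3 | ⟨c, hc, hch, h3⟩
    · rw [h3]; exact (ha h hh).2.1
    · rw [h3]; exact (ha h hh).2.2 c (hCP hc) hch
  have hkl : ∀ h, 0 < κ * l h := fun h => mul_pos hκ (hl h)
  -- induction hypothesis
  have hcard : (P \ C).card < n := by
    rw [← hPn]
    exact Finset.card_lt_card (Finset.sdiff_ssubset hCP hC)
  obtain ⟨s', e', g1, g2, g3, g4, g5⟩ := ih _ hcard (P \ C) rfl lo' hi'
    (fun h hh => by
      have hh' := (Finset.mem_sdiff.1 hh).1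
      have := hbl h hh'
      have := hbh h hh'
      have := hkl h
      linarith)
    (fun h _ k _ hhk => by
      constructor
      · rcases lo3 h with h3 | ⟨c, hc, hch, h3⟩
        · rw [h3]
          rename_i hh hk
          exact ((h2 h (Finset.mem_sdiff.1 hh).1 k (Finset.mem_sdiff.1 hk).1 hhk).1).trans (lo1 k)
        · rw [h3]; exact lo2 k c hc (hch.trans hhk)
      · rcases hi3 k with h3 | ⟨c, hc, hch, h3⟩
        · rw [h3]
          rename_i hh hk
          exact (hi1 h).trans (h2 h (Finset.mem_sdiff.1 hh).1 k (Finset.mem_sdiff.1 hk).1 hhk).2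
        · rw [h3]; exact hi2 h c hc (hhk.trans hch))
  have hfe' : Feas l (P \ C) lo' hi' κ a := by
    intro h hh
    have hh' := (Finset.mem_sdiff.1 hh).1
    exact ⟨hbl h hh', hbh h hh', fun k hk hhk => (ha h hh').2.2 k (Finset.mem_sdiff.1 hk).1 hhk⟩
  have hslow := g5 κ a hfe'
  -- the schedule
  obtain ⟨s, hs⟩ : ∃ s : ι → ℝ, s = fun h => if h ∈ C then a h else s' h := ⟨_, rfl⟩
  obtain ⟨e, he⟩ : ∃ e : ι → ℝ, e = fun h => if h ∈ C then a h + κ * l h else e' h := ⟨_, rfl⟩
  have sC : ∀ h ∈ C, s h = a h := fun h hh => by rw [hs]; simp [hh]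
  have sN : ∀ h, h ∉ C → s h = s' h := fun h hh => by rw [hs]; simp [hh]
  have eC : ∀ h ∈ C, e h = a h + κ * l h := fun h hh => by rw [he]; simp [hh]
  have eN : ∀ h, h ∉ C → e h = e' h := fun h hh => by rw [he]; simp [hh]
  have hspC : ∀ h ∈ C, l h / (e h - s h) = 1 / κ := by
    intro h hh
    rw [sC h hh, eC h hh]
    have := (hl h).ne'
    have := hκ.ne'
    field_simp
    ring
  have hspN : ∀ h ∈ P, h ∉ C → l h / (e h - s h) ≤ 1 / κ := by
    intro h hh hhC
    have h3 := hslow h (Finset.mem_sdiff.2 ⟨hh, hhC⟩)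
    have h4 := g1 h (Finset.mem_sdiff.2 ⟨hh, hhC⟩)
    rw [sN h hhC, eN h hhC, div_le_div_iff₀ (by linarith) hκ]
    linarith
  refine ⟨s, e, ?_, ?_, ?_, ?_, ?_⟩
  · intro h hh
    by_cases hhC : h ∈ C
    · rw [sC h hhC, eC h hhC]
      exact ⟨(ha h hh).1, by have := hkl h; linarith, (ha h hh).2.1⟩
    · rw [sN h hhC, eN h hhC]
      have := g1 h (Finset.mem_sdiff.2 ⟨hh, hhC⟩)
      exact ⟨(lo1 h).trans this.1, this.2.1, this.2.2.trans (hi1 h)⟩
  · intro h hh k hk hhk
    by_cases hhC : h ∈ C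
    · rw [eC h hhC]
      by_cases hkC : k ∈ C
      · rw [sC k hkC]
        exact (ha h hh).2.2 k hk hhk
      · rw [sN k hkC]
        exact (lo2 k h hhC hhk).trans (g1 k (Finset.mem_sdiff.2 ⟨hk, hkC⟩)).1
    · rw [eN h hhC]
      by_cases hkC : k ∈ C
      · rw [sC k hkC]
        exact (g1 h (Finset.mem_sdiff.2 ⟨hh, hhC⟩)).2.2.trans (hi2 h k hkC hhk)
      · rw [sN k hkC]
        exact g2 h (Finset.mem_sdiff.2 ⟨hh, hhC⟩) k (Finset.mem_sdiff.2 ⟨hk, hkC⟩) hhk
  · intro h hh hlt
    by_cases hhC : h ∈ C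
    · rw [eC h hhC] at hlt
      obtain ⟨k, hkC, hhk, hak⟩ := hF h hhC hlt
      refine ⟨k, hCP hkC, hhk, ?_, ?_⟩
      · rw [sC k hkC, eC h hhC, hak]
      · rw [hspC h hhC, hspC k hkC]
    · have hhm := Finset.mem_sdiff.2 ⟨hh, hhC⟩
      rcases lt_or_ge (e' h) (hi' h) with h3 | h3
      · obtain ⟨k, hk, hhk, h4, h5⟩ := g3 h hhm h3
        obtain ⟨hkP, hkC⟩ := Finset.mem_sdiff.1 hk
        refine ⟨k, hkP, hhk, ?_, ?_⟩
        · rw [sN k hkC, eN h hhC, h4]
        · rw [sN k hkC, eN k hkC, sN h hhC, eN h hhC]; exact h5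
      · have h4 : e' h = hi' h := le_antisymm (g1 h hhm).2.2 h3
        rcases hi3 h with h5 | ⟨c, hc, hhc, h5⟩
        · rw [eN h hhC, h4, h5] at hlt
          exact absurd hlt (lt_irrefl _)
        · refine ⟨c, hCP hc, hhc, ?_, ?_⟩
          · rw [sC c hc, eN h hhC, h4, h5]
          · rw [hspC c hc]; exact hspN h hh hhC
  · intro h hh hlt
    by_cases hhC : h ∈ C
    · rw [sC h hhC] at hlt
      obtain ⟨k, hkC, hhk, hak⟩ := hB h hhC hlt
      refine ⟨k, hCP hkC, hhk, ?_, ?_⟩
      · rw [eC k hkC, sC h hhC, hak]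
      · rw [hspC h hhC, hspC k hkC]
    · have hhm := Finset.mem_sdiff.2 ⟨hh, hhC⟩
      rcases lt_or_ge (lo' h) (s' h) with h3 | h3
      · obtain ⟨k, hk, hhk, h4, h5⟩ := g4 h hhm h3
        obtain ⟨hkP, hkC⟩ := Finset.mem_sdiff.1 hk
        refine ⟨k, hkP, hhk, ?_, ?_⟩
        · rw [eN k hkC, sN h hhC, h4]
        · rw [sN k hkC, eN k hkC, sN h hhC, eN h hhC]; exact h5
      · have h4 : s' h = lo' h := le_antisymm h3 (g1 h hhm).1
        rcases lo3 h with h5 | ⟨c, hc, hhc, h5⟩
        · rw [sN h hhC, h4, h5] at hlt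
          exact absurd hlt (lt_irrefl _)
        · refine ⟨c, hCP hc, hhc, ?_, ?_⟩
          · rw [eC c hc, sN h hhC, h4, h5]
          · rw [hspC c hc]; exact hspN h hh hhC
  · intro κ' a' hfe h hh
    have h3 : κ' * l h ≤ κ * l h := mul_le_mul_of_nonneg_right (hmax κ' a' hfe) (hl h).le
    by_cases hhC : h ∈ C
    · rw [sC h hhC, eC h hhC]; linarith
    · rw [sN h hhC, eN h hhC]
      have := hslow h (Finset.mem_sdiff.2 ⟨hh, hhC⟩)
      linarith

end Sched

theorem exists_sched {ι : Type} [Finite ι] [PartialOrder ι] (l : ι → ℝ) (hl : ∀ i, 0 < l i) :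
    ∃ s e : ι → ℝ, (∀ i, 0 ≤ s i ∧ s i < e i ∧ e i ≤ 1) ∧ (∀ i j, i < j → e i ≤ s j) ∧
      (∀ i, e i < 1 → ∃ j, i < j ∧ s j = e i ∧ l i / (e i - s i) ≤ l j / (e j - s j)) ∧
      ∀ i, 0 < s i → ∃ j, j < i ∧ e j = s i ∧ l i / (e i - s i) ≤ l j / (e j - s j) := by
  have := Fintype.ofFinite ι
  obtain ⟨s, e, h1, h2, h3, h4, -⟩ := Sched.main hl _ (Finset.univ : Finset ι) rfl (fun _ => 0)
    (fun _ => 1) (fun _ _ => zero_lt_one) (fun _ _ _ _ _ => ⟨le_rfl, le_rfl⟩)
  refine ⟨s, e, fun i => h1 i (Finset.mem_univ i), fun i j hij =>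
    h2 i (Finset.mem_univ i) j (Finset.mem_univ j) hij, fun i hi => ?_, fun i hi => ?_⟩
  · obtain ⟨k, -, h⟩ := h3 i (Finset.mem_univ i) hi
    exact ⟨k, h⟩
  · obtain ⟨k, -, h⟩ := h4 i (Finset.mem_univ i) hi
    exact ⟨k, h⟩

end Pool.Agent.CCC
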