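import Pool.Agent.Lib.MP_98022b_cc.BalDefs
import Pool.Agent.Lib.MP_98022b_cc.Sched

/-!
# Row CF: existence of balanced paths

Apply `exists_sched` to `ι = {a // x a < y a}` with the order dual of the inclusion (`i < j` iff
`j.1 < i.1`: the smaller halfspace is entered later), `l a = y a - x a`. Put `σ t a = x a + l a * clamp
((t - s a) / (e a - s a))` if `x a < y a`, `1 -` (the same for `op a`) if `y a < x a` and `x a`
otherwise. `σ t` is a point: for `a < b` one needs `σ t a = 0` or `σ t b = 1`: if both are in `P`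
then `e b ≤ s a` (for `t ≤ s a`: `σ t a = x a = 0` by `nested2`, for `t ≥ e b`: `σ t b = y b = 1`);
the other cases: use `nested` for `x` and for `y`, e.g. `a ∈ P`, `b` constant: `y a > 0` so `y b = 1`;
`a` constant, `b ∈ P`: `x b < 1` so `x a = 0`; `a ∈ P`, `op b ∈ P` (`b` decreasing): `y a > 0` gives
`y b = 1`, so `x b > 1`, impossible; `op a ∈ P` (`a` decreasing), `b ∈ P`: `x b < 1` so `x a = 0`,
impossible; `a`, `b` both decreasing: `op b < op a` both in `P`.
-/

set_option autoImplicit false

open Set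

namespace Pool.Agent.CCC

open Pocset

variable {H : Type} [Pocset H] {o : Set H}

/-- the coordinate of an entered halfspace -/
private noncomputable def gg (x y : Pt o) (S E : H → ℝ) (t : ℝ) (a : H) : ℝ :=
  x a + (y a - x a) * max 0 (min 1 ((t - S a) / (E a - S a)))

private structure Sch (x y : Pt o) (S E : H → ℝ) : Prop where
  bd : ∀ a, x a < y a → 0 ≤ S a ∧ S a < E a ∧ E a ≤ 1
  rule : ∀ a b, x a < y a → x b < y b → a < b → E b ≤ S a
  fwd : ∀ a, x a < y a → E a < 1 → ∃ b, b < a ∧ x b < y b ∧ S b = E a ∧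
    (y a - x a) / (E a - S a) ≤ (y b - x b) / (E b - S b)
  bwd : ∀ a, x a < y a → 0 < S a → ∃ b, a < b ∧ x b < y b ∧ E b = S a ∧
    (y a - x a) / (E a - S a) ≤ (y b - x b) / (E b - S b)

private theorem exists_sch (x y : Pt o) : ∃ S E : H → ℝ, Sch x y S E := by
  classical
  have hfin : Finite {a : H // x a < y a} := by
    have h := Pt.finite_ne x y
    exact (h.subset (fun a (ha : x a < y a) => ne_of_lt ha)).to_subtype
  have : Finite ({a : H // x a < y a}ᵒᵈ) := hfin
  obtain ⟨s, e, h1, h2, h3, h4⟩ := exists_sched (ι := {a : H // x a < y a}ᵒᵈ)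
    (fun i => y (OrderDual.ofDual i).1 - x (OrderDual.ofDual i).1)
    (fun i => by have := (OrderDual.ofDual i).2; linarith)
  refine ⟨fun a => if h : x a < y a then s (OrderDual.toDual ⟨a, h⟩) else 0,
    fun a => if h : x a < y a then e (OrderDual.toDual ⟨a, h⟩) else 0, ?_, ?_, ?_, ?_⟩
  · intro a ha
    simp only [dif_pos ha]
    exact h1 _
  · intro a b ha hb hab
    simp only [dif_pos ha, dif_pos hb]
    apply h2
    exact hab
  · intro a ha hE
    simp only [dif_pos ha] at hE ⊢
    obtain ⟨j, hj1, hj2, hj3⟩ := h3 _ hE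
    refine ⟨(OrderDual.ofDual j).1, hj1, (OrderDual.ofDual j).2, ?_, ?_⟩
    · rw [dif_pos (OrderDual.ofDual j).2]; exact hj2
    · rw [dif_pos (OrderDual.ofDual j).2, dif_pos (OrderDual.ofDual j).2]; exact hj3
  · intro a ha hE
    simp only [dif_pos ha] at hE ⊢
    obtain ⟨j, hj1, hj2, hj3⟩ := h4 _ hE
    refine ⟨(OrderDual.ofDual j).1, hj1, (OrderDual.ofDual j).2, ?_, ?_⟩
    · rw [dif_pos (OrderDual.ofDual j).2]; exact hj2
    · rw [dif_pos (OrderDual.ofDual j).2, dif_pos (OrderDual.ofDual j).2]; exact hj3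

section

variable {x y : Pt o} {S E : H → ℝ}

private theorem gg_before (h : Sch x y S E) {t : ℝ} {a : H} (ha : x a < y a) (ht : t ≤ S a) :
    gg x y S E t a = x a := by
  obtain ⟨_, h2, _⟩ := h.bd a ha
  unfold gg
  have h3 : (t - S a) / (E a - S a) ≤ 0 := div_nonpos_of_nonpos_of_nonneg (by linarith) (by linarith)
  rw [min_eq_right (by linarith), max_eq_left h3]
  ring

private theorem gg_after (h : Sch x y S E) {t : ℝ} {a : H} (ha : x a < y a) (ht : E a ≤ t) :
    gg x y S E t a = y a := by
  obtain ⟨_, h2, _⟩ := h.bd a ha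
  unfold gg
  have h3 : 1 ≤ (t - S a) / (E a - S a) := by
    rw [le_div_iff₀ (by linarith)]; linarith
  rw [min_eq_left h3, max_eq_right zero_le_one]
  ring

private theorem gg_mid (h : Sch x y S E) {t : ℝ} {a : H} (ha : x a < y a) (ht : S a ≤ t) (ht' : t ≤ E a) :
    gg x y S E t a = x a + (y a - x a) * ((t - S a) / (E a - S a)) := by
  obtain ⟨_, h2, _⟩ := h.bd a ha
  unfold gg
  have h3 : (t - S a) / (E a - S a) ≤ 1 := by
    rw [div_le_one (by linarith)]; linarith
  have h4 : 0 ≤ (t - S a) / (E a - S a) := div_nonneg (by linarith) (by linarith)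
  rw [min_eq_right h3, max_eq_right h4]

private theorem gg_ge {t : ℝ} {a : H} (ha : x a < y a) : x a ≤ gg x y S E t a := by
  unfold gg
  have h1 : 0 ≤ max 0 (min 1 ((t - S a) / (E a - S a))) := le_max_left _ _
  have : 0 ≤ (y a - x a) * max 0 (min 1 ((t - S a) / (E a - S a))) := mul_nonneg (by linarith) h1
  linarith

private theorem gg_le {t : ℝ} {a : H} (ha : x a < y a) : gg x y S E t a ≤ y a := by
  unfold gg
  have h1 : max 0 (min 1 ((t - S a) / (E a - S a))) ≤ 1 := max_le zero_le_one (min_le_left _ _)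
  have : (y a - x a) * max 0 (min 1 ((t - S a) / (E a - S a))) ≤ (y a - x a) * 1 :=
    mul_le_mul_of_nonneg_left h1 (by linarith)
  linarith

open Classical in
private noncomputable def vv (x y : Pt o) (S E : H → ℝ) (t : ℝ) (a : H) : ℝ :=
  if x a < y a then gg x y S E t a else if y a < x a then 1 - gg x y S E t (op a) else x a

private theorem vv_P {t : ℝ} {a : H} (ha : x a < y a) : vv x y S E t a = gg x y S E t a := by
  unfold vv; rw [if_pos ha]

private theorem vv_N {t : ℝ} {a : H} (ha : y a < x a) : vv x y S E t a = 1 - gg x y S E t (op a) := by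
  unfold vv; rw [if_neg (by linarith), if_pos ha]

private theorem vv_C {t : ℝ} {a : H} (ha : x a = y a) : vv x y S E t a = x a := by
  unfold vv; rw [if_neg (by linarith), if_neg (by linarith)]

private theorem op_lt {a : H} (ha : y a < x a) : x (op a) < y (op a) := by
  rw [x.op_val, y.op_val]; linarith

private theorem vv_nested (h : Sch x y S E) (t : ℝ) (a b : H) (hab : a < b) :
    vv x y S E t a = 0 ∨ vv x y S E t b = 1 := by
  rcases lt_trichotomy (x a) (y a) with ha | ha | ha <;> rcases lt_trichotomy (x b) (y b) with hb | hb | hb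
  · have h1 := Pt.nested2 x y hb ha hab
    rcases le_total t (S a) with ht | ht
    · left; rw [vv_P ha, gg_before h ha ht]; exact h1.2
    · right; rw [vv_P hb, gg_after h hb ((h.rule a b ha hb hab).trans ht)]; exact h1.1
  · right
    rw [vv_C hb, hb]
    exact Pt.eq_one_of_lt y hab (lt_of_le_of_lt (x.nonneg a) ha)
  · exfalso
    have h1 := Pt.eq_one_of_lt y hab (lt_of_le_of_lt (x.nonneg a) ha)
    have h2 := Pt.le_one x b
    linarith
  · left
    rw [vv_C ha]
    exact Pt.eq_zero_of_lt x hab (lt_of_lt_of_le hb (Pt.le_one y b))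
  · rw [vv_C ha, vv_C hb]
    exact x.nested a b hab
  · left
    rw [vv_C ha, ha]
    exact Pt.eq_zero_of_lt y hab (lt_of_lt_of_le hb (Pt.le_one x b))
  · exfalso
    have h1 := Pt.eq_one_of_lt x hab (lt_of_le_of_lt (y.nonneg a) ha)
    have h2 := Pt.le_one y b
    linarith
  · right
    rw [vv_C hb]
    exact Pt.eq_one_of_lt x hab (lt_of_le_of_lt (y.nonneg a) ha)
  · have ha' := op_lt ha
    have hb' := op_lt hb
    have hop := op_lt_op hab
    have h1 := Pt.nested2 x y ha' hb' hop
    rcases le_total t (S (op b)) with ht | ht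
    · right; rw [vv_N hb, gg_before h hb' ht, h1.2, sub_zero]
    · left; rw [vv_N ha, gg_after h ha' ((h.rule _ _ hb' ha' hop).trans ht), h1.1, sub_self]

private noncomputable def pp (h : Sch x y S E) (t : ℝ) : Pt o where
  val := vv x y S E t
  nonneg a := by
    rcases lt_trichotomy (x a) (y a) with ha | ha | ha
    · rw [vv_P ha]; exact (x.nonneg a).trans (gg_ge ha)
    · rw [vv_C ha]; exact x.nonneg a
    · rw [vv_N ha]
      have h1 := gg_le (S := S) (E := E) (t := t) (op_lt ha)
      rw [y.op_val] at h1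
      have := y.nonneg a
      linarith
  op_val a := by
    rcases lt_trichotomy (x a) (y a) with ha | ha | ha
    · have h1 : y (op a) < x (op a) := by rw [x.op_val, y.op_val]; linarith
      rw [vv_P ha, vv_N h1, op_op]
    · have h1 : x (op a) = y (op a) := by rw [x.op_val, y.op_val, ha]
      rw [vv_C ha, vv_C h1, x.op_val]
    · rw [vv_N ha, vv_P (op_lt ha)]; ring
  nested := vv_nested h t
  fin := by
    refine (x.fin.union y.fin).subset ?_
    intro a ha
    by_contra hcon
    apply ha
    have h1 : x a = ind o a := by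
      by_contra hh; exact hcon (Or.inl hh)
    have h2 : y a = ind o a := by
      by_contra hh; exact hcon (Or.inr hh)
    rw [vv_C (by rw [h1, h2]), h1]

private theorem pp_val (h : Sch x y S E) (t : ℝ) (a : H) : (pp h t) a = vv x y S E t a := rfl

private theorem pp_zero (h : Sch x y S E) : pp h 0 = x := by
  ext a
  show vv x y S E 0 a = x a
  rcases lt_trichotomy (x a) (y a) with ha | ha | ha
  · rw [vv_P ha, gg_before h ha (h.bd a ha).1]
  · rw [vv_C ha]
  · rw [vv_N ha, gg_before h (op_lt ha) (h.bd _ (op_lt ha)).1, x.op_val]; ring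

private theorem pp_one (h : Sch x y S E) : pp h 1 = y := by
  ext a
  show vv x y S E 1 a = y a
  rcases lt_trichotomy (x a) (y a) with ha | ha | ha
  · rw [vv_P ha, gg_after h ha (h.bd a ha).2.2]
  · rw [vv_C ha, ha]
  · rw [vv_N ha, gg_after h (op_lt ha) (h.bd _ (op_lt ha)).2.2, y.op_val]; ring

end

theorem exists_bal (x y : Pt o) : ∃ (σ : ℝ → Pt o) (S E : H → ℝ), Bal σ S E ∧ σ 0 = x ∧
    σ 1 = y := by
  obtain ⟨S, E, h⟩ := exists_sch x y
  refine ⟨pp h, S, E, ?_, pp_zero h, pp_one h⟩
  constructor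
  · rw [pp_zero h, pp_one h]
    exact h.bd
  · rw [pp_zero h, pp_one h]
    intro a ha t _ ht
    rw [pp_val, vv_P ha, gg_before h ha ht]
  · rw [pp_zero h, pp_one h]
    intro a ha t ht ht'
    rw [pp_val, vv_P ha, gg_mid h ha ht ht']
  · rw [pp_zero h, pp_one h]
    intro a ha t ht _
    rw [pp_val, vv_P ha, gg_after h ha ht]
  · rw [pp_zero h, pp_one h]
    intro a ha t _ _
    rw [pp_val, vv_C ha]
  · unfold spd
    rw [pp_zero h, pp_one h]
    exact h.fwd
  · unfold spd
    rw [pp_zero h, pp_one h]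
    exact h.bwd

end Pool.Agent.CCC
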