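import Pool.Agent.Lib.MP_98022b_cc.Defs

/-!
# Row CA: basic properties of the points

`transverse_of`: if `a ≤ op b` then `0 ≤ x b < y b ≤ 1`, `y (op b) < 1` .. gives `y a = 0` or
`a = op b` with `x a < y a` and `x (op b) > y (op b)`; similarly `op a ≤ b`.
-/

set_option autoImplicit false

open Set

namespace Pool.Agent.CCC

open Pocset

variable {H : Type} [Pocset H] {o : Set H}

theorem op_inj {a b : H} (h : op a = op b) : a = b := by
  rw [← op_op a, h, op_op]

theorem op_ne (a : H) : op a ≠ a := by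
  intro h
  exact not_le_op a (le_of_eq h.symm)

theorem op_lt_op {a b : H} (h : a < b) : op b < op a := by
  refine lt_of_le_of_ne (op_le_op a b h.le) fun h1 => ?_
  exact h.ne (op_inj h1).symm

theorem Transverse.symm {a b : H} (h : Transverse a b) : Transverse b a := by
  obtain ⟨h1, h2, h3, h4⟩ := h
  refine ⟨h2, h1, fun h5 => h3 ?_, fun h5 => h4 ?_⟩
  · have := op_le_op _ _ h5
    rwa [op_op] at this
  · have := op_le_op _ _ h5
    rwa [op_op] at this

theorem Transverse.op_right {a b : H} (h : Transverse a b) : Transverse a (op b) := by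
  obtain ⟨h1, h2, h3, h4⟩ := h
  refine ⟨h3, fun h5 => h4 ?_, fun h5 => h1 ?_, fun h5 => h2 ?_⟩
  · have := op_le_op _ _ h5
    rwa [op_op] at this
  · rwa [op_op] at h5
  · have := op_le_op _ _ h5
    rwa [op_op, op_op] at this

theorem Transverse.ne {a b : H} (h : Transverse a b) : a ≠ b ∧ a ≠ op b := by
  obtain ⟨h1, h2, h3, h4⟩ := h
  exact ⟨fun h5 => h1 (le_of_eq h5), fun h5 => h3 (le_of_eq h5)⟩

namespace Pt

variable (x y : Pt o)

theorem le_one (a : H) : x a ≤ 1 := by
  have h := x.nonneg (op a)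
  rw [x.op_val] at h
  linarith

theorem eq_one_of_lt {a b : H} (h : a < b) (ha : 0 < x a) : x b = 1 := by
  rcases x.nested a b h with h1 | h1
  · exact absurd h1 ha.ne'
  · exact h1

theorem eq_zero_of_lt {a b : H} (h : a < b) (hb : x b < 1) : x a = 0 := by
  rcases x.nested a b h with h1 | h1
  · exact h1
  · exact absurd h1 hb.ne

/-- the smaller halfspace is crossed later -/
theorem nested2 {a b : H} (ha : x a < y a) (hb : x b < y b) (h : b < a) : y a = 1 ∧ x b = 0 := by
  refine ⟨y.eq_one_of_lt h ?_, x.eq_zero_of_lt h ?_⟩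
  · have := x.nonneg b
    linarith
  · have := y.le_one a
    linarith

theorem finite_ne : {a | x a ≠ y a}.Finite := by
  refine (x.fin.union y.fin).subset fun a ha => ?_
  by_contra h
  simp only [mem_union, mem_ofPred_eq, not_or, ne_eq, not_not] at h
  exact ha (h.1.trans h.2.symm)

theorem transverse_of {a b : H} (ha : x a < y a) (hb : x b < y b) (h1 : ¬ a ≤ b) (h2 : ¬ b ≤ a) :
    Transverse a b := by
  have xa := x.nonneg a
  have xb := x.nonneg b
  have ya := y.le_one a
  have yb := y.le_one b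
  refine ⟨h1, h2, fun h3 => ?_, fun h3 => ?_⟩
  · rcases h3.lt_or_eq with h4 | h4
    · have h5 := y.eq_one_of_lt h4 (by linarith)
      rw [y.op_val] at h5
      linarith
    · have h5 := x.op_val b
      have h6 := y.op_val b
      rw [← h4] at h5 h6
      linarith
  · rcases h3.lt_or_eq with h4 | h4
    · have h5 := x.eq_zero_of_lt h4 (by linarith)
      rw [x.op_val] at h5
      linarith
    · have h5 := x.op_val a
      have h6 := y.op_val a
      rw [h4] at h5 h6
      linarith

theorem transverse_frac {a b : H} (ha : 0 < x a) (ha' : x a < 1) (hb : 0 < x b) (hb' : x b < 1)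
    (h1 : a ≠ b) (h2 : a ≠ op b) : Transverse a b := by
  refine ⟨fun h3 => ?_, fun h3 => ?_, fun h3 => ?_, fun h3 => ?_⟩
  · have := x.eq_one_of_lt (lt_of_le_of_ne h3 h1) ha
    linarith
  · have := x.eq_one_of_lt (lt_of_le_of_ne h3 h1.symm) hb
    linarith
  · have := x.eq_one_of_lt (lt_of_le_of_ne h3 h2) ha
    rw [x.op_val] at this
    linarith
  · have h4 : op a ≠ b := fun h5 => h2 (by rw [← h5, op_op])
    have := x.eq_zero_of_lt (lt_of_le_of_ne h3 h4) hb'
    rw [x.op_val] at this
    linarith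

theorem card_frac {d : ℕ} (hw : Width H d) (s : Finset H) (hs : ∀ a ∈ s, 0 < x a ∧ x a < 1)
    (hs' : ∀ a ∈ s, op a ∉ s) : s.card ≤ d := by
  refine hw s fun a ha b hb hab => ?_
  refine x.transverse_frac (hs a ha).1 (hs a ha).2 (hs b hb).1 (hs b hb).2 hab fun h => ?_
  exact hs' b hb (h ▸ ha)

theorem card_antichain {d : ℕ} (hw : Width H d) (s : Finset H) (hs : ∀ a ∈ s, x a < y a)
    (hs' : ∀ a ∈ s, ∀ b ∈ s, a ≠ b → ¬ a ≤ b) : s.card ≤ d := by
  refine hw s fun a ha b hb hab => ?_
  exact transverse_of x y (hs a ha) (hs b hb) (hs' a ha b hb hab) (hs' b hb a ha hab.symm)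

end Pt

end Pool.Agent.CCC
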