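import Pool.Agent.Lib.MP_98022b_cc.SecDiff
import Pool.Agent.Lib.MP_98022b_cc.MidConvex
import Pool.Agent.Lib.MP_98022b_cc.BalSpeed

/-!
# Row CK: the distance of two balanced paths is convex

`φ t = dist (σ' t) (σ t)`, continuous (`Bal.dist_eq`). At `t₀` take a chain `c` (`exists_chain`, with
`σ' t₀ a < σ t₀ a` for `a ∈ c`); if `c = ∅` then `φ t₀ = 0`. Let `a` be the smallest and `b` the largest
element of `c` (maybe `a = b`). For small `ε` and `t = t₀ ± ε`: `σ' t a' < σ t a'` for all `a' ∈ c` (continuity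
in `t`: `abs_sub_le_dist`), so `σ t a' = 1` for `a' ∈ c`, `a' ≠ a` (`Pt.eq_one_of_lt`, as `σ t a > 0`) and
`σ' t a' = 0` for `a' ≠ b`. So `∑_{c} (σ t - σ' t) = (card c - 1) + σ t a - σ' t b`. Apply `Bal.secDiff` to
`σ, a` and to `σ', op b` (`σ' t (op b) = 1 - σ' t b`): get `B, B'` below `a` and `C, C'` below `op b`. The
set `c ∪ B ∪ op C` is a chain (`b₁ < a ≤` everything; `b < op c₁`); its sum at `t` is at least
`(card c - 1) + σ t a - σ' t b + ext (σ t) B + ext (σ' t) C`: for `b₁ ∈ B`: `σ' t b₁ = 0` because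
`σ' t a < 1` and `b₁ < a`; for `c₁ ∈ C`: `σ t (op c₁) = 1` because `b < op c₁` and `σ t b > 0`, so the term
of `op c₁` is `1 - σ' t (op c₁) = σ' t c₁`. (If `op c₁ ∈ c ∪ B`.. it is larger than `b`, so new.)
Add the two inequalities.
-/

set_option autoImplicit false

open Set Filter Topology

namespace Pool.Agent.CCC

open Pocset

variable {H : Type} [Pocset H] {o : Set H} {σ σ' : ℝ → Pt o} {S E S' E' : H → ℝ}

/-- a finite nonempty chain has a least and a greatest element -/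
private theorem ck_ends {c : Finset H} (hc : Ch c) (hne : c.Nonempty) :
    ∃ a ∈ c, ∃ b ∈ c, ∀ e ∈ c, a ≤ e ∧ e ≤ b := by
  obtain ⟨a, ha⟩ := c.exists_minimal hne
  obtain ⟨b, hb⟩ := c.exists_maximal hne
  refine ⟨a, ha.1, b, hb.1, fun e he => ⟨?_, ?_⟩⟩
  · rcases hc.total ha.1 he with h | h
    · exact h
    · exact ha.2 he h
  · rcases hc.total he hb.1 with h | h
    · exact h
    · exact hb.2 he h

private theorem ck_sum {x y : Pt o} {c : Finset H} {a b : H} (ha : a ∈ c) (hb : b ∈ c)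
    (hab : ∀ e ∈ c, a ≤ e ∧ e ≤ b) (h : ∀ e ∈ c, x e < y e) :
    ∑ e ∈ c, (y e - x e) = ((c.card : ℝ) - 1) + y a - x b := by
  classical
  have hcard : 1 ≤ c.card := Finset.card_pos.2 ⟨a, ha⟩
  rw [Finset.sum_sub_distrib, ← Finset.add_sum_erase c (fun e => y e) ha,
    ← Finset.add_sum_erase c (fun e => x e) hb]
  have h1 : ∑ e ∈ c.erase a, y e = (c.card : ℝ) - 1 := by
    rw [Finset.sum_congr rfl (g := fun _ => (1 : ℝ))]
    · rw [Finset.sum_const, Finset.card_erase_of_mem ha, nsmul_eq_mul, Nat.cast_sub hcard]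
      simp
    · intro e he
      have hec := Finset.mem_of_mem_erase he
      refine y.eq_one_of_lt (lt_of_le_of_ne (hab e hec).1 (Finset.ne_of_mem_erase he).symm) ?_
      exact lt_of_le_of_lt (x.nonneg a) (h a ha)
  have h2 : ∑ e ∈ c.erase b, x e = 0 := by
    refine Finset.sum_eq_zero fun e he => ?_
    have hec := Finset.mem_of_mem_erase he
    refine x.eq_zero_of_lt (lt_of_le_of_ne (hab e hec).2 (Finset.ne_of_mem_erase he)) ?_
    exact lt_of_lt_of_le (h b hb) (y.le_one b)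
  rw [h1, h2]
  ring

private theorem ck_low {x y : Pt o} {c : Finset H} {a : H}
    (hc : Ch c) (hab : ∀ e ∈ c, a ≤ e) (hx : x a < 1) {B : Option H} (hB : ∀ b ∈ B, b < a) :
    ∃ c' : Finset H, Ch c' ∧ (∀ e ∈ c', e ∈ c ∨ e < a) ∧
      ∑ e ∈ c', (y e - x e) = ∑ e ∈ c, (y e - x e) + ext y B := by
  classical
  cases B with
  | none => exact ⟨c, hc, fun e he => Or.inl he, by simp [ext]⟩
  | some b =>
    have hb : b < a := hB b rfl
    have hnot : b ∉ c := fun h => absurd (hab b h) (not_le_of_gt hb)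
    refine ⟨insert b c, ?_, ?_, ?_⟩
    · unfold Ch
      rw [Finset.coe_insert]
      exact hc.insert fun e he _ => Or.inl (hb.le.trans (hab e he))
    · intro e he
      rcases Finset.mem_insert.1 he with h | h
      · right; rw [h]; exact hb
      · exact Or.inl h
    · rw [Finset.sum_insert hnot, x.eq_zero_of_lt hb hx]
      simp only [ext]
      ring

private theorem ck_high {x y : Pt o} {c : Finset H} {b : H}
    (hc : Ch c) (hab : ∀ e ∈ c, e ≤ b) (hy : 0 < y b) {C : Option H} (hC : ∀ d ∈ C, d < op b) :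
    ∃ c' : Finset H, Ch c' ∧
      ∑ e ∈ c', (y e - x e) = ∑ e ∈ c, (y e - x e) + ext x C := by
  classical
  cases C with
  | none => exact ⟨c, hc, by simp [ext]⟩
  | some d =>
    have hd : d < op b := hC d rfl
    have hd' : b < op d := by
      have := op_lt_op hd
      rwa [op_op] at this
    have hnot : op d ∉ c := fun h => absurd (hab _ h) (not_le_of_gt hd')
    refine ⟨insert (op d) c, ?_, ?_⟩
    · unfold Ch
      rw [Finset.coe_insert]
      exact hc.insert fun e he _ => Or.inr ((hab e he).trans hd'.le)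
    · rw [Finset.sum_insert hnot, y.eq_one_of_lt hd' hy, x.op_val]
      simp only [ext]
      ring

/-- the extended chain -/
private theorem ck_ext {x y : Pt o} {c : Finset H} {a b : H} (hc : Ch c) (ha : a ∈ c) (hb : b ∈ c)
    (hab : ∀ e ∈ c, a ≤ e ∧ e ≤ b) (h : ∀ e ∈ c, x e < y e) {B C : Option H}
    (hB : ∀ e ∈ B, e < a) (hC : ∀ d ∈ C, d < op b) :
    ((c.card : ℝ) - 1) + y a - x b + ext y B + ext x C ≤ dist x y := by
  obtain ⟨c1, h1, h2, h3⟩ := ck_low (x := x) (y := y) hc (fun e he => (hab e he).1)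
    (lt_of_lt_of_le (h a ha) (y.le_one a)) hB
  obtain ⟨c2, h4, h5⟩ := ck_high (x := x) (y := y) (b := b) h1 (by
      intro e he
      rcases h2 e he with h6 | h6
      · exact (hab e h6).2
      · exact h6.le.trans (hab a ha).2)
    (lt_of_le_of_lt (x.nonneg b) (h b hb)) hC
  have h6 := sum_le_dist x y h4
  rw [h5, h3, ck_sum ha hb hab h] at h6
  exact h6

private theorem ck_lip (h : Bal σ S E) {s t : ℝ} (hs : s ∈ Icc (0 : ℝ) 1) (ht : t ∈ Icc (0 : ℝ) 1) :
    dist (σ s) (σ t) = |s - t| * dist (σ 0) (σ 1) := by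
  rcases le_total s t with h1 | h1
  · rw [h.dist_eq hs.1 h1 ht.2, abs_sub_comm, abs_of_nonneg (sub_nonneg.2 h1)]
  · rw [dist_comm, h.dist_eq ht.1 h1 hs.2, abs_of_nonneg (sub_nonneg.2 h1)]

theorem Bal.dist_convex (h : Bal σ S E) (h' : Bal σ' S' E') {t : ℝ} (ht : t ∈ Icc (0 : ℝ) 1) :
    dist (σ t) (σ' t) ≤ (1 - t) * dist (σ 0) (σ' 0) + t * dist (σ 1) (σ' 1) := by
  classical
  refine le_of_midConvex (φ := fun t => dist (σ t) (σ' t)) ?_ ?_ t ht
  · -- continuity
    have hc : ∀ {τ : ℝ → Pt o} {S₁ E₁ : H → ℝ}, Bal τ S₁ E₁ → ContinuousOn τ (Icc 0 1) := by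
      intro τ S₁ E₁ hτ
      have : LipschitzOnWith (Real.toNNReal (dist (τ 0) (τ 1))) τ (Icc 0 1) := by
        refine LipschitzOnWith.of_dist_le_mul fun s hs t ht => ?_
        rw [ck_lip hτ hs ht, Real.coe_toNNReal _ dist_nonneg, Real.dist_eq, mul_comm]
      exact this.continuousOn
    exact continuous_dist.comp_continuousOn ((hc h).prodMk (hc h'))
  · intro t₀ ht₀
    obtain ⟨c, hc, hlt, hsum⟩ := exists_chain (σ' t₀) (σ t₀)
    rcases c.eq_empty_or_nonempty with rfl | hne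
    · refine ⟨1, one_pos, fun ε _ _ => ?_⟩
      rw [Finset.sum_empty] at hsum
      rw [dist_comm (σ t₀), ← hsum, mul_zero]
      positivity
    · obtain ⟨a, ha, b, hb, hab⟩ := ck_ends hc hne
      obtain ⟨ε1, h1, h1'⟩ := h.secDiff ht₀ a
      obtain ⟨ε2, h2, h2'⟩ := h'.secDiff ht₀ (op b)
      -- the margin
      obtain ⟨δ, hδ, hδ'⟩ : ∃ δ > 0, ∀ e ∈ c, δ ≤ σ t₀ e - σ' t₀ e := by
        obtain ⟨e, he, hmin⟩ := c.exists_min_image (fun e => σ t₀ e - σ' t₀ e) hne
        exact ⟨_, sub_pos.2 (hlt e he), hmin⟩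
      set D := dist (σ 0) (σ 1) + dist (σ' 0) (σ' 1) + 1 with hD
      have hDpos : 0 < D := by positivity
      refine ⟨min (min ε1 ε2) (min (δ / D) (min t₀ (1 - t₀))), ?_, ?_⟩
      · have : 0 < 1 - t₀ := by linarith [ht₀.2]
        have h3 := ht₀.1
        positivity
      · intro ε hε hε'
        rw [lt_min_iff, lt_min_iff, lt_min_iff, lt_min_iff] at hε'
        obtain ⟨⟨h3, h4⟩, h5, h6, h7⟩ := hε'
        rw [lt_div_iff₀ hDpos] at h5
        obtain ⟨B, B', hB, hB', hBB⟩ := h1' ε hε h3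
        obtain ⟨C, C', hC, hC', hCC⟩ := h2' ε hε h4
        have hmem0 : t₀ ∈ Icc (0 : ℝ) 1 := ⟨ht₀.1.le, ht₀.2.le⟩
        have hnear : ∀ t ∈ Icc (0 : ℝ) 1, |t - t₀| = ε → ∀ e ∈ c, σ' t e < σ t e := by
          intro t ht htε e he
          have h8 := abs_le.1 (abs_sub_le_dist (σ t) (σ t₀) e)
          have h9 := abs_le.1 (abs_sub_le_dist (σ' t) (σ' t₀) e)
          rw [ck_lip h ht hmem0, htε] at h8
          rw [ck_lip h' ht hmem0, htε] at h9
          have h10 := hδ' e he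
          have h11 : ε * D = ε * dist (σ 0) (σ 1) + ε * dist (σ' 0) (σ' 1) + ε := by
            rw [hD]; ring
          linarith [h8.1, h9.2]
        have hm1 : t₀ - ε ∈ Icc (0 : ℝ) 1 := ⟨by linarith, by linarith [ht₀.2]⟩
        have hm2 : t₀ + ε ∈ Icc (0 : ℝ) 1 := ⟨by linarith [ht₀.1], by linarith⟩
        have hn1 := hnear _ hm1 (by rw [show t₀ - ε - t₀ = -ε by ring, abs_neg, abs_of_pos hε])
        have hn2 := hnear _ hm2 (by rw [show t₀ + ε - t₀ = ε by ring, abs_of_pos hε])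
        have k1 := ck_ext hc ha hb hab hn1 hB hC
        have k2 := ck_ext hc ha hb hab hn2 hB' hC'
        rw [ck_sum ha hb hab hlt] at hsum
        rw [Pt.op_val, Pt.op_val, Pt.op_val] at hCC
        rw [dist_comm (σ t₀), dist_comm (σ (t₀ - ε)), dist_comm (σ (t₀ + ε)), ← hsum]
        linarith

end Pool.Agent.CCC
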