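import Mathlib

/-!
# Cube complexes given by their halfspaces: definitions

`H` is the set of the halfspaces of a CAT(0) cube complex, ordered by inclusion, `op a` is the
complementary halfspace. The complex is the space `Pt o` (`o` is a vertex): a point is a function
`x` on the halfspaces with values in `[0, 1]` (`x a` measures how far `x` is in `a`).
-/

set_option autoImplicit false

open Set

namespace Pool.Agent.CCC

/-- A set of halfspaces: a partially ordered set with an order reversing involution `op`, such that
`a ≤ op a` never holds. -/
class Pocset (H : Type) extends PartialOrder H where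
  /-- the complementary halfspace -/
  op : H → H
  op_op : ∀ a, op (op a) = a
  op_le_op : ∀ a b, a ≤ b → op b ≤ op a
  not_le_op : ∀ a, ¬ a ≤ op a

open Pocset

section

variable {H : Type} [Pocset H]

/-- The halfspaces `a` and `b` are transverse: all four intersections of `a`, `op a` with `b`,
`op b` are nonempty. -/
def Transverse (a b : H) : Prop := ¬ a ≤ b ∧ ¬ b ≤ a ∧ ¬ a ≤ op b ∧ ¬ op a ≤ b

/-- There are at most `d` pairwise transverse halfspaces: the cube complex has dimension at
most `d`. -/
def Width (H : Type) [Pocset H] (d : ℕ) : Prop :=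
  ∀ s : Finset H, (∀ a ∈ s, ∀ b ∈ s, a ≠ b → Transverse a b) → s.card ≤ d

/-- `o` is (the set of the halfspaces which contain) a vertex. -/
structure IsVertex (o : Set H) : Prop where
  iff_op : ∀ a, a ∈ o ↔ op a ∉ o
  up : ∀ a b, a ≤ b → a ∈ o → b ∈ o

/-- `U` is (the set of the halfspaces which meet) a cube. -/
structure IsCube (U : Set H) : Prop where
  or_op : ∀ a, a ∈ U ∨ op a ∈ U
  nested : ∀ a b, a < b → a ∈ U → op b ∉ U

open Classical in
/-- The indicator function of `o`. -/
noncomputable def ind (o : Set H) (a : H) : ℝ := if a ∈ o then 1 else 0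

/-- The points of the cube complex with the vertex `o`. -/
@[ext]
structure Pt (o : Set H) where
  val : H → ℝ
  nonneg : ∀ a, 0 ≤ val a
  op_val : ∀ a, val (op a) = 1 - val a
  nested : ∀ a b, a < b → val a = 0 ∨ val b = 1
  fin : {a | val a ≠ ind o a}.Finite

instance (o : Set H) : CoeFun (Pt o) (fun _ => H → ℝ) := ⟨Pt.val⟩

/-- The cubes of the cube complex with the vertex `o`. -/
def Cube (o : Set H) : Type := {U : Set H // IsCube U ∧ (symmDiff U o).Finite}

/-- The combinatorial distance of two cubes. -/
noncomputable def dC {o : Set H} (U U' : Cube o) : ℕ := (symmDiff U.1 U'.1).ncard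

/-- The base vertex as a point. -/
noncomputable def Pt.base {o : Set H} (ho : IsVertex o) : Pt o where
  val := ind o
  nonneg a := by unfold ind; split_ifs <;> norm_num
  op_val a := by
    unfold ind
    by_cases h : a ∈ o
    · rw [if_pos h, if_neg ((ho.iff_op a).1 h), sub_self]
    · have h2 : op a ∈ o := by
        by_contra h3
        exact h ((ho.iff_op a).2 h3)
      rw [if_neg h, if_pos h2, sub_zero]
  nested a b hab := by
    unfold ind
    by_cases h : a ∈ o
    · right
      rw [if_pos (ho.up a b hab.le h)]
    · left
      rw [if_neg h]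
  fin := by simp

/-- `c` is a chain of halfspaces. -/
def Ch (c : Finset H) : Prop := IsChain (· ≤ ·) (c : Set H)

/-- The sums which define the distance of `x` and `y`. -/
def sums {o : Set H} (x y : Pt o) : Set ℝ := {r | ∃ c : Finset H, Ch c ∧ r = ∑ a ∈ c, (y a - x a)}

/-- The `ℓ^∞`-distance: the largest weight of a chain of walls between `x` and `y`. -/
noncomputable def dP {o : Set H} (x y : Pt o) : ℝ := sSup (sums x y)

end

/-- An action on a set of halfspaces. -/
class PocAct (G H : Type) [Group G] [Pocset H] extends MulAction G H where
  smul_le : ∀ (g : G) (a b : H), a ≤ b → g • a ≤ g • b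
  smul_op : ∀ (g : G) (a : H), g • op a = op (g • a)

/-- The vertices `g • o` and `o` are separated by finitely many walls. -/
class Based (G : Type) {H : Type} [Group G] [Pocset H] [PocAct G H] (o : Set H) : Prop where
  vertex : IsVertex o
  fin : ∀ g : G, {a | ind o (g⁻¹ • a) ≠ ind o a}.Finite

end Pool.Agent.CCC
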