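import Pool.Agent.Lib.MP_98022b_cc.AsmV
import Pool.Agent.Lib.MP_98022b_cc.Final
import Pool.Agent.Lib.MP_98022b_cc.ProdChain

/-!
# Groups acting on cube complexes: conditions for sets which are far for a part of the distance
-/

set_option autoImplicit false

open Set Filter Topology

namespace Pool.Agent.CCC

open Pocset Pool.Agent.GLN Pool.Agent.FJ Pool.Agent.CCM

/-- The theorem for a part of the distance. -/
theorem mem_of_parts {P : ∀ (G : Type) [Group G], Prop} (hP : IsFJClassT P)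
    {Γ H V' : Type} [Group Γ] [Pocset H] [PocAct Γ H] {o : Set H} [Based Γ o] [MulAction Γ V']
    (ho : IsVertex o) {d : ℕ} (hw : Width H d) {π : Cube o → V'} {d' d'' : Cube o → Cube o → ℕ}
    (hp : PartDist Γ dC d' d'' π) (k₀ l₀ : ℕ) (hv : ∀ v : V', P (MulAction.stabilizer Γ v))
    (hchain : ∀ T : ℕ → Set (Cube o), (∀ i, (T i).Finite) → (∀ i, T i ⊆ T (i + 1)) →
      (∃ v ∈ T 0, ∃ w ∈ T 0, k₀ ≤ d' v w) →
      ∃ i < l₀, fixingSubgroup Γ (T i) = fixingSubgroup Γ (T (i + 1)))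
    (hcyc : ∀ T : Set (Cube o), T.Finite → (∃ v ∈ T, ∃ w ∈ T, k₀ ≤ d' v w) → ∀ t : Γ,
      (∀ j, j ∈ fixingSubgroup Γ T ↔ t * j * t⁻¹ ∈ fixingSubgroup Γ T) →
      P (fixingSubgroup Γ T ⊔ Subgroup.zpowers t : Subgroup Γ)) : P Γ := by
  classical
  refine hP.toIsFJClass.locally fun S₀ => ?_
  obtain ⟨G, hG⟩ : ∃ G : Subgroup Γ, G = Subgroup.closure (S₀ : Set Γ) := ⟨_, rfl⟩
  refine ⟨G, fun x hx => hG ▸ Subgroup.subset_closure hx, ?_⟩
  have hfg : Group.FG G := by
    rw [hG]
    infer_instance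
  have hw' : Width H (d + 1) := hw.mono (Nat.le_succ d)
  obtain ⟨n₁, n₂, hgeo⟩ := seqInput_of_discC G (isDist_dC (G := Γ) (o := o)) (by omega)
    (discC G hw') (Pt.base ho) (2 * (d + 1) + 2) fun S hS => by
      obtain ⟨η, h⟩ := coneData_subgroup G hw' ho S hS
      refine ⟨_, _, _, _, h, ?_, coneOut h hS (smallCovers_pt hw')⟩
      exact gaugeFin_pt hw' ho (Finset.mem_map.2 ⟨1, hS, rfl⟩)
  have hTR := transferReducible_of_parts (G := G) (k₀ := k₀) (l₀ := l₀) hfg hp
    (fun T hmono hfin hfar => hchain T hfin (fun i => hmono (Nat.le_succ i)) hfar) (fun K => P K)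
    (fun T hT hfar t ht K hK => by
      refine hP.of_injective
        ((G.subtype.comp K.subtype).codRestrict (fixingSubgroup Γ T ⊔ Subgroup.zpowers t)
          fun k => hK k.1 k.2)
        (fun a b hab => ?_) (hcyc T hT hfar t fun j => ⟨fun hj => (ht j hj).1, fun hj => ?_⟩)
      · have h1 := congrArg
          (fun x : (fixingSubgroup Γ T ⊔ Subgroup.zpowers t : Subgroup Γ) => (x : Γ)) hab
        exact Subtype.ext (Subtype.ext h1)
      · have h1 := (ht _ hj).2
        convert h1 using 1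
        group)
    (fun v K hK => hP.of_injective
      ((G.subtype.comp K.subtype).codRestrict (MulAction.stabilizer Γ v) fun k => hK k.1 k.2)
      (fun a b hab => by
        have h1 := congrArg (fun x : MulAction.stabilizer Γ v => (x : Γ)) hab
        exact Subtype.ext (Subtype.ext h1)) (hv v)) hgeo
  exact hP.transfer _ hTR fun _ h => h

section product

variable {K H : Type} [Group K] [Pocset H] [PocAct K H] {o : Set H} [hB : Based K o]

/-- The part of the distance of the product with the line which comes from the line. -/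
noncomputable def dL (U U' : Cube (LH.base o)) : ℕ :=
  (symmDiff U.1 U'.1 \ Set.range LH.fac).ncard

theorem dC_eq_add (U U' : Cube (LH.base o)) : dC U U' = dC (LH.pr U) (LH.pr U') + dL U U' := by
  have hfin : (symmDiff U.1 U'.1).Finite := by
    refine (U.2.2.union U'.2.2).subset ?_
    have h := symmDiff_triangle U.1 (LH.base o) U'.1
    rwa [symmDiff_comm (LH.base o) U'.1] at h
  have h1 : symmDiff U.1 U'.1 ∩ Set.range LH.fac =
      LH.fac '' symmDiff (LH.pr U).1 (LH.pr U').1 := by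
    ext a
    constructor
    · rintro ⟨ha, b, rfl⟩
      exact ⟨b, ha, rfl⟩
    · rintro ⟨b, hb, rfl⟩
      exact ⟨hb, b, rfl⟩
  have hinj : Function.Injective (LH.fac : H → LH H) := fun x y h => by simpa using h
  unfold dC dL
  rw [← Set.ncard_inter_add_ncard_sdiff_eq_ncard (symmDiff U.1 U'.1) (Set.range LH.fac) hfin, h1,
    Set.ncard_image_of_injective _ hinj]

theorem dL_triangle (U U' U'' : Cube (LH.base o)) : dL U U'' ≤ dL U U' + dL U' U'' := by
  have hfin : ∀ U U' : Cube (LH.base o), (symmDiff U.1 U'.1).Finite := by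
    intro U U'
    refine (U.2.2.union U'.2.2).subset ?_
    have h := symmDiff_triangle U.1 (LH.base o) U'.1
    rwa [symmDiff_comm (LH.base o) U'.1] at h
  unfold dL
  refine (Set.ncard_le_ncard ?_ (((hfin U U').sdiff).union ((hfin U' U'').sdiff))).trans
    (Set.ncard_union_le _ _)
  rintro a ⟨h1, h2⟩
  rcases symmDiff_triangle U.1 U'.1 U''.1 h1 with h3 | h3
  · exact Or.inl ⟨h3, h2⟩
  · exact Or.inr ⟨h3, h2⟩

theorem partDist_line (χ : K →* Multiplicative ℤ) :
    letI : PocAct K (LH H) := LH.pocAct χ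
    haveI : Based K (LH.base o) := LH.based χ
    PartDist K (dC (o := LH.base o)) (fun U U' => dC (LH.pr U) (LH.pr U')) dL LH.pr := by
  letI : PocAct K (LH H) := LH.pocAct χ
  haveI : Based K (LH.base o) := LH.based χ
  have hmap : ∀ (g : K) (U : Cube (LH.base o)), LH.pr (g • U) = g • LH.pr U := fun g U => rfl
  refine ⟨dC_eq_add, fun u v w => (isDist_dC (G := K) (o := o)).triangle _ _ _, dL_triangle,
    fun g u v => ?_, hmap, fun u v h => dC_eq_zero h⟩
  show dC (LH.pr (g • u)) (LH.pr (g • v)) = dC (LH.pr u) (LH.pr v)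
  rw [hmap, hmap]
  exact (isDist_dC (G := K) (o := o)).smul g _ _

/-- A cube of the product is fixed if its projection is fixed and the translation is trivial. -/
theorem smul_line_iff (χ : K →* Multiplicative ℤ) (k : K) (U : Cube (LH.base o)) :
    letI : PocAct K (LH H) := LH.pocAct χ
    haveI : Based K (LH.base o) := LH.based χ
    (k • U = U ↔ k • LH.pr U = LH.pr U ∧ χ k = 1) := by
  letI : PocAct K (LH H) := LH.pocAct χ
  haveI : Based K (LH.base o) := LH.based χ
  show k • U = U ↔ k • LH.pr U = LH.pr U ∧ χ k = 1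
  constructor
  · intro h
    have hU : ∀ a : LH H, k⁻¹ • a ∈ U.1 ↔ a ∈ U.1 := by
      intro a
      rw [← mem_smul_cube, h]
    have h1 : (χ k⁻¹).toAdd = 0 := by
      refine LH.trans_eq_zero U.2.2 fun m => ?_
      exact (hU (LH.lo m)).symm
    refine ⟨?_, ?_⟩
    · apply Subtype.ext
      ext a
      exact hU (LH.fac a)
    · rw [map_inv, toAdd_inv, neg_eq_zero] at h1
      exact Multiplicative.toAdd.injective h1
  · rintro ⟨h1, h2⟩
    have h4 : (χ k⁻¹).toAdd = 0 := by rw [map_inv, h2, inv_one, toAdd_one]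
    apply Subtype.ext
    ext a
    rw [mem_smul_cube]
    cases a with
    | fac a =>
      have h5 : a ∈ (k • LH.pr U).1 ↔ a ∈ (LH.pr U).1 := by rw [h1]
      exact h5
    | lo m =>
      have h5 : k⁻¹ • (LH.lo m : LH H) = LH.lo m := by
        show LH.lo (m + (χ k⁻¹).toAdd) = LH.lo m
        rw [h4, add_zero]
      rw [h5]
    | hi m =>
      have h5 : k⁻¹ • (LH.hi m : LH H) = LH.hi m := by
        show LH.hi (m + (χ k⁻¹).toAdd) = LH.hi m
        rw [h4, add_zero]
      rw [h5]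

/-- A group with a homomorphism `χ` to `ℤ` which acts on a cube complex; the conditions on the
pointwise stabilizers are conditions on their intersections with the kernel of `χ`. -/
theorem mem_of_line {P : ∀ (G : Type) [Group G], Prop} (hP : IsFJClassT P)
    (ho : IsVertex o) {d : ℕ} (hw : Width H d) (χ : K →* Multiplicative ℤ) (k₀ l₀ : ℕ)
    (hv : ∀ v : Cube o, P (MulAction.stabilizer K v))
    (hchain : ∀ T : ℕ → Set (Cube o), (∀ i, (T i).Finite) → (∀ i, T i ⊆ T (i + 1)) →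
      (∃ v ∈ T 0, ∃ w ∈ T 0, k₀ ≤ dC v w) →
      ∃ i < l₀, fixingSubgroup K (T i) ⊓ χ.ker = fixingSubgroup K (T (i + 1)) ⊓ χ.ker)
    (hcyc : ∀ T : Set (Cube o), T.Finite → (∃ v ∈ T, ∃ w ∈ T, k₀ ≤ dC v w) → ∀ t : K,
      (∀ j, j ∈ fixingSubgroup K T ⊓ χ.ker ↔ t * j * t⁻¹ ∈ fixingSubgroup K T ⊓ χ.ker) →
      P ((fixingSubgroup K T ⊓ χ.ker) ⊔ Subgroup.zpowers t : Subgroup K)) : P K := by
  letI : PocAct K (LH H) := LH.pocAct χ
  haveI : Based K (LH.base o) := LH.based χ
  have hfix : ∀ T : Set (Cube (LH.base o)), (∃ v ∈ T, ∃ w ∈ T, k₀ ≤ dC (LH.pr v) (LH.pr w)) →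
      fixingSubgroup K T = fixingSubgroup K (LH.pr '' T) ⊓ χ.ker := by
    rintro T ⟨v, hv, -⟩
    ext k
    rw [mem_fixingSubgroup_iff, Subgroup.mem_inf, mem_fixingSubgroup_iff, MonoidHom.mem_ker]
    constructor
    · intro h
      refine ⟨?_, ((smul_line_iff χ k v).1 (h v hv)).2⟩
      rintro _ ⟨U, hU, rfl⟩
      exact ((smul_line_iff χ k U).1 (h U hU)).1
    · rintro ⟨h1, h2⟩ U hU
      exact (smul_line_iff χ k U).2 ⟨h1 _ ⟨U, hU, rfl⟩, h2⟩
  have hfar : ∀ T : Set (Cube (LH.base o)), (∃ v ∈ T, ∃ w ∈ T, k₀ ≤ dC (LH.pr v) (LH.pr w)) →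
      ∃ v ∈ LH.pr '' T, ∃ w ∈ LH.pr '' T, k₀ ≤ dC v w := by
    rintro T ⟨v, hv, w, hw, h⟩
    exact ⟨_, ⟨v, hv, rfl⟩, _, ⟨w, hw, rfl⟩, h⟩
  refine mem_of_parts hP (LH.isVertex ho) (LH.width hw) (partDist_line χ) k₀ l₀ hv
    (fun T hfin hmono hf => ?_) (fun T hfin hf t ht => ?_)
  · obtain ⟨i, hi, h⟩ := hchain (fun i => LH.pr '' T i) (fun i => (hfin i).image _)
      (fun i => Set.image_mono (hmono i)) (hfar _ hf)
    have hmono' : ∀ i, T 0 ⊆ T i := by
      intro i
      induction i with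
      | zero => exact Set.Subset.rfl
      | succ i ih => exact ih.trans (hmono i)
    have hf' : ∀ i, ∃ v ∈ T i, ∃ w ∈ T i, k₀ ≤ dC (LH.pr v) (LH.pr w) := by
      intro i
      obtain ⟨v, hv, w, hw, hvw⟩ := hf
      exact ⟨v, hmono' i hv, w, hmono' i hw, hvw⟩
    exact ⟨i, hi, by rw [hfix _ (hf' _), hfix _ (hf' _)]; exact h⟩
  · rw [hfix T hf] at ht ⊢
    exact hcyc _ (hfin.image _) (hfar T hf) t ht

end product

end Pool.Agent.CCC
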