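import Pool.Agent.Lib.MP_98022b_cc.HullDefs

/-!
# Row CM: gauges, metric properties

The sums in `gz` are bounded: `x a = 0` for almost all `a` with `op a ∈ U` (then `a ∉ o` because `op a ∈ o`,
`IsVertex`). The supremum is attained by a chain with `0 < x a`. `gz_lip`: `∑ x a - ∑ y a ≤ dist y x`.
`exists_proj`: `p = x` changed to `1` on `U` and to `0` on `{a | op a ∈ U}`; it is a point: let `a < b`, suppose
`p a ≠ 0` and `p b ≠ 1`. Then `op a ∉ U`, `b ∉ U`, so `a ∉ U` (`up`), `op b ∉ U` (as `op b ≤ op a`), so `p = x` at `a`,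
`b`. `dist x p`: a chain `c` of halfspaces with `p a < x a` consists of `a` with `op a ∈ U`, and `p a = 0`.
-/

set_option autoImplicit false

open Set

namespace Pool.Agent.CCC

open Pocset

variable {H : Type} [Pocset H] {o U : Set H}

private theorem gz_notMem (ho : IsVertex o) (hU : IsHull o U) {a : H} (h : op a ∈ U) : a ∉ o :=
  fun ha => (ho.iff_op a).1 ha (hU.sub h)

private theorem gz_ind_notMem {a : H} (h : a ∉ o) : ind o a = 0 := if_neg h

private theorem gz_ind_mem {a : H} (h : a ∈ o) : ind o a = 1 := if_pos h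

private theorem gz_greatest (ho : IsVertex o) (hU : IsHull o U) (x : Pt o) :
    ∃ c : Finset H, Ch c ∧ (∀ a ∈ c, op a ∈ U ∧ 0 < x a) ∧
      IsGreatest {r | ∃ c : Finset H, Ch c ∧ (∀ a ∈ c, op a ∈ U) ∧ r = ∑ a ∈ c, x a}
        (∑ a ∈ c, x a) := by
  classical
  have hfin : {a | op a ∈ U ∧ 0 < x a}.Finite := by
    refine x.fin.subset fun a ha => ?_
    change x a ≠ ind o a
    rw [gz_ind_notMem (gz_notMem ho hU ha.1)]
    exact ha.2.ne'
  set P : Finset H := hfin.toFinset with hP
  have hPm : ∀ a, a ∈ P ↔ op a ∈ U ∧ 0 < x a := fun a => hfin.mem_toFinset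
  set Q : Finset (Finset H) := P.powerset.filter (fun c => Ch c) with hQ
  have hQne : Q.Nonempty := ⟨∅, by
    rw [hQ, Finset.mem_filter]
    refine ⟨Finset.empty_mem_powerset _, ?_⟩
    intro a ha
    simp at ha⟩
  obtain ⟨c, hc, hmax⟩ := Finset.exists_max_image Q (fun c => ∑ a ∈ c, x a) hQne
  rw [hQ, Finset.mem_filter, Finset.mem_powerset] at hc
  refine ⟨c, hc.2, fun a ha => (hPm a).1 (hc.1 ha), ⟨c, hc.2, fun a ha =>
    ((hPm a).1 (hc.1 ha)).1, rfl⟩, ?_⟩
  rintro r ⟨c', hc', hU', rfl⟩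
  have h1 : ∑ a ∈ c', x a = ∑ a ∈ c'.filter (fun a => 0 < x a), x a := by
    symm
    apply Finset.sum_filter_of_ne
    intro a _ hne
    exact lt_of_le_of_ne (x.nonneg a) (Ne.symm hne)
  rw [h1]
  apply hmax
  rw [hQ, Finset.mem_filter, Finset.mem_powerset]
  constructor
  · intro a ha
    rw [Finset.mem_filter] at ha
    exact (hPm a).2 ⟨hU' a ha.1, ha.2⟩
  · intro a ha b hb hab
    exact hc' (Finset.mem_coe.2 (Finset.mem_filter.1 (Finset.mem_coe.1 ha)).1)
      (Finset.mem_coe.2 (Finset.mem_filter.1 (Finset.mem_coe.1 hb)).1) hab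

theorem exists_chain_gz (ho : IsVertex o) (hU : IsHull o U) (x : Pt o) :
    ∃ c : Finset H, Ch c ∧ (∀ a ∈ c, op a ∈ U ∧ 0 < x a) ∧ ∑ a ∈ c, x a = gz U x := by
  obtain ⟨c, h1, h2, h3⟩ := gz_greatest ho hU x
  exact ⟨c, h1, h2, h3.csSup_eq.symm⟩

theorem sum_le_gz (ho : IsVertex o) (hU : IsHull o U) (x : Pt o) {c : Finset H} (hc : Ch c)
    (h : ∀ a ∈ c, op a ∈ U) : ∑ a ∈ c, x a ≤ gz U x := by
  obtain ⟨c', h1, h2, h3⟩ := gz_greatest ho hU x
  have h4 : ∑ a ∈ c', x a = gz U x := h3.csSup_eq.symm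
  rw [← h4]
  exact h3.2 ⟨c, hc, h, rfl⟩

theorem gz_nonneg (ho : IsVertex o) (hU : IsHull o U) (x : Pt o) : 0 ≤ gz U x := by
  have h := sum_le_gz ho hU x (c := ∅) (by intro a ha; simp at ha) (by simp)
  simpa using h

theorem gz_base (ho : IsVertex o) (hU : IsHull o U) : gz U (Pt.base ho) = 0 := by
  obtain ⟨c, h1, h2, h3⟩ := exists_chain_gz ho hU (Pt.base ho)
  rw [← h3]
  apply Finset.sum_eq_zero
  intro a ha
  exact gz_ind_notMem (gz_notMem ho hU (h2 a ha).1)

private theorem gz_le_add (ho : IsVertex o) (hU : IsHull o U) (x y : Pt o) :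
    gz U x ≤ gz U y + dist x y := by
  obtain ⟨c, h1, h2, h3⟩ := exists_chain_gz ho hU x
  have h4 := sum_le_gz ho hU y h1 (fun a ha => (h2 a ha).1)
  have h5 := sum_le_dist y x h1
  rw [Finset.sum_sub_distrib, dist_comm] at h5
  linarith

theorem gz_lip (ho : IsVertex o) (hU : IsHull o U) (x y : Pt o) :
    |gz U x - gz U y| ≤ dist x y := by
  rw [abs_le]
  have h1 := gz_le_add ho hU x y
  have h2 := gz_le_add ho hU y x
  rw [dist_comm] at h2
  constructor <;> linarith

theorem gz_mono (ho : IsVertex o) {U' : Set H} (hU : IsHull o U) (hU' : IsHull o U')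
    (h : U ⊆ U') (x : Pt o) : gz U x ≤ gz U' x := by
  obtain ⟨c, h1, h2, h3⟩ := exists_chain_gz ho hU x
  rw [← h3]
  exact sum_le_gz ho hU' x h1 (fun a ha => h (h2 a ha).1)

theorem exists_proj (ho : IsVertex o) (hU : IsHull o U) (x : Pt o) :
    ∃ p : Pt o, (∀ a ∈ U, p a = 1) ∧ dist x p ≤ gz U x := by
  classical
  have hne : ∀ a, a ∈ U → op a ∉ U := fun a ha hb => (ho.iff_op a).1 (hU.sub ha) (hU.sub hb)
  set f : H → ℝ := fun a => if a ∈ U then 1 else if op a ∈ U then 0 else x a with hf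
  have f1 : ∀ a, a ∈ U → f a = 1 := fun a ha => if_pos ha
  have f2 : ∀ a, op a ∈ U → f a = 0 := by
    intro a ha
    have h1 : a ∉ U := fun h => hne a h ha
    rw [hf]
    simp only
    rw [if_neg h1, if_pos ha]
  have f3 : ∀ a, a ∉ U → op a ∉ U → f a = x a := by
    intro a ha hb
    rw [hf]
    simp only
    rw [if_neg ha, if_neg hb]
  let p : Pt o :=
    { val := f
      nonneg := by
        intro a
        by_cases h1 : a ∈ U
        · rw [f1 a h1]; norm_num
        · by_cases h2 : op a ∈ U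
          · rw [f2 a h2]
          · rw [f3 a h1 h2]; exact x.nonneg a
      op_val := by
        intro a
        by_cases h1 : a ∈ U
        · rw [f1 a h1, f2 (op a) (by rwa [op_op])]; norm_num
        · by_cases h2 : op a ∈ U
          · rw [f2 a h2, f1 (op a) h2]; norm_num
          · rw [f3 a h1 h2, f3 (op a) h2 (by rwa [op_op])]; exact x.op_val a
      nested := by
        intro a b hab
        by_cases hb : b ∈ U
        · exact Or.inr (f1 b hb)
        · by_cases ha : op a ∈ U
          · exact Or.inl (f2 a ha)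
          · have h1 : a ∉ U := fun h => hb (hU.up a b hab.le h)
            have h2 : op b ∉ U := fun h => ha (hU.up _ _ (op_le_op a b hab.le) h)
            rw [f3 a h1 ha, f3 b hb h2]
            exact x.nested a b hab
      fin := by
        refine x.fin.subset fun a ha => ?_
        change f a ≠ ind o a at ha
        change x a ≠ ind o a
        by_cases h1 : a ∈ U
        · exact absurd ((f1 a h1).trans (gz_ind_mem (hU.sub h1)).symm) ha
        · by_cases h2 : op a ∈ U
          · exact absurd ((f2 a h2).trans (gz_ind_notMem (gz_notMem ho hU h2)).symm) ha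
          · rwa [f3 a h1 h2] at ha }
  have hp : ∀ a, p a = f a := fun _ => rfl
  refine ⟨p, fun a ha => f1 a ha, ?_⟩
  obtain ⟨c, h1, h2, h3⟩ := exists_chain p x
  rw [dist_comm, ← h3]
  have h4 : ∀ a ∈ c, op a ∈ U ∧ p a = 0 := by
    intro a ha
    have h5 := h2 a ha
    rw [hp] at h5
    have h6 : a ∉ U := by
      intro h
      rw [f1 a h] at h5
      exact absurd h5 (not_lt.2 (x.le_one a))
    have h7 : op a ∈ U := by
      by_contra h
      rw [f3 a h6 h] at h5
      exact lt_irrefl _ h5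
    exact ⟨h7, f2 a h7⟩
  have h5 : ∑ a ∈ c, (x a - p a) = ∑ a ∈ c, x a := by
    apply Finset.sum_congr rfl
    intro a ha
    rw [(h4 a ha).2, sub_zero]
  rw [h5]
  exact sum_le_gz ho hU x h1 fun a ha => (h4 a ha).1

end Pool.Agent.CCC
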