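import Pool.Agent.Lib.MP_98022b_cc.Convex
import Pool.Agent.Lib.MP_98022b_cc.BalEx
import Pool.Agent.Lib.MP_98022b_gln.ConeDefs

/-!
# Row CL: the bicombing

`geo x y` is the balanced path from `x` to `y`; it is unique by `Bal.dist_convex`. All properties follow:
`consistent` from `Bal.restrict` (for `a < b`), `Bal.rev` and uniqueness (`a > b`), `a = b` trivial
(`geo z z t = z` by `Bal.dist_eq`).
-/

set_option autoImplicit false

open Set

namespace Pool.Agent.CCC

open Pocset

variable {H : Type} [Pocset H] {o : Set H}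

/-- The balanced path from `x` to `y`. -/
noncomputable def geo (x y : Pt o) : ℝ → Pt o := (exists_bal x y).choose

theorem exists_bal_geo (x y : Pt o) : ∃ S E, Bal (geo x y) S E :=
  ⟨_, _, (exists_bal x y).choose_spec.choose_spec.choose_spec.1⟩

theorem geo_zero (x y : Pt o) : geo x y 0 = x :=
  (exists_bal x y).choose_spec.choose_spec.choose_spec.2.1

theorem geo_one (x y : Pt o) : geo x y 1 = y :=
  (exists_bal x y).choose_spec.choose_spec.choose_spec.2.2

theorem Bal.eq_geo {σ : ℝ → Pt o} {S E : H → ℝ} (h : Bal σ S E) {t : ℝ} (ht : t ∈ Icc (0 : ℝ) 1) :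
    σ t = geo (σ 0) (σ 1) t := by
  obtain ⟨S', E', h'⟩ := exists_bal_geo (σ 0) (σ 1)
  have h1 := h.dist_convex h' ht
  rw [geo_zero, geo_one, dist_self, dist_self, mul_zero, mul_zero, add_zero] at h1
  exact dist_le_zero.1 h1

/-- the same with the end points named -/
private theorem eq_geo_CL {σ : ℝ → Pt o} {S E : H → ℝ} (h : Bal σ S E) {x y : Pt o} (h0 : σ 0 = x)
    (h1 : σ 1 = y) {t : ℝ} (ht : t ∈ Icc (0 : ℝ) 1) : σ t = geo x y t := by
  subst h0 h1
  exact h.eq_geo ht

private theorem geo_self_CL (z : Pt o) {t : ℝ} (h0 : 0 ≤ t) (h1 : t ≤ 1) : geo z z t = z := by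
  obtain ⟨S, E, h⟩ := exists_bal_geo z z
  have h2 := h.dist_eq le_rfl h0 h1
  rw [geo_zero, geo_one, dist_self, mul_zero] at h2
  exact (dist_eq_zero.1 h2).symm

private theorem consistent_CL (x y : Pt o) {a b : ℝ} (ha : 0 ≤ a) (hab : a < b) (hb : b ≤ 1)
    {t : ℝ} (ht0 : 0 ≤ t) (ht1 : t ≤ 1) :
    geo (geo x y a) (geo x y b) t = geo x y (a + (b - a) * t) ∧
      geo (geo x y b) (geo x y a) t = geo x y (a + (b - a) * (1 - t)) := by
  obtain ⟨S, E, h⟩ := exists_bal_geo x y
  have h1 := h.restrict ha hab hb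
  constructor
  · refine (eq_geo_CL h1 ?_ ?_ ⟨ht0, ht1⟩).symm
    · show geo x y (a + (b - a) * 0) = geo x y a
      rw [mul_zero, add_zero]
    · show geo x y (a + (b - a) * 1) = geo x y b
      rw [mul_one, add_sub_cancel]
  · refine (eq_geo_CL h1.rev ?_ ?_ ⟨ht0, ht1⟩).symm
    · show geo x y (a + (b - a) * (1 - 0)) = geo x y b
      rw [sub_zero, mul_one, add_sub_cancel]
    · show geo x y (a + (b - a) * (1 - 1)) = geo x y a
      rw [sub_self, mul_zero, add_zero]

theorem bicomb_geo : Pool.Agent.GLN.Bicomb (Pt o) geo := by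
  refine ⟨geo_zero, geo_one, ?_, ?_, ?_⟩
  · intro x y s t hs0 hs1 ht0 ht1
    obtain ⟨S, E, h⟩ := exists_bal_geo x y
    rcases le_total s t with hst | hst
    · have h1 := h.dist_eq hs0 hst ht1
      rw [geo_zero, geo_one] at h1
      rw [h1, abs_sub_comm, abs_of_nonneg (sub_nonneg.2 hst)]
    · have h1 := h.dist_eq ht0 hst hs1
      rw [geo_zero, geo_one] at h1
      rw [dist_comm (geo x y s), h1, abs_of_nonneg (sub_nonneg.2 hst)]
  · intro x y x' y' t ht0 ht1
    obtain ⟨S, E, h⟩ := exists_bal_geo x y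
    obtain ⟨S', E', h'⟩ := exists_bal_geo x' y'
    have h1 := h.dist_convex h' ⟨ht0, ht1⟩
    rw [geo_zero, geo_one, geo_zero, geo_one] at h1
    exact h1
  · intro x y a b t ha0 ha1 hb0 hb1 ht0 ht1
    rcases lt_trichotomy a b with hab | hab | hab
    · rw [(consistent_CL x y ha0 hab hb1 ht0 ht1).1]
      congr 1
      ring
    · subst hab
      rw [geo_self_CL _ ht0 ht1]
      congr 1
      ring
    · rw [(consistent_CL x y hb0 hab ha1 ht0 ht1).2]
      congr 1
      ring

theorem geo_rev (x y : Pt o) {t : ℝ} (ht : t ∈ Icc (0 : ℝ) 1) : geo x y t = geo y x (1 - t) := by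
  obtain ⟨S, E, h⟩ := exists_bal_geo y x
  refine (eq_geo_CL h.rev ?_ ?_ ht).symm
  · show geo y x (1 - 0) = x
    rw [sub_zero, geo_one]
  · show geo y x (1 - 1) = y
    rw [sub_self, geo_zero]

theorem geo_smul {G : Type} [Group G] [PocAct G H] [Based G o] (g : G) (x y : Pt o) (t : ℝ)
    (h0 : 0 ≤ t) (h1 : t ≤ 1) : g • geo x y t = geo (g • x) (g • y) t := by
  obtain ⟨S, E, h⟩ := exists_bal_geo x y
  refine eq_geo_CL (h.smul g) ?_ ?_ ⟨h0, h1⟩
  · show g • geo x y 0 = g • x
    rw [geo_zero]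
  · show g • geo x y 1 = g • y
    rw [geo_one]

end Pool.Agent.CCC
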