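import Pool.Agent.Lib.MP_98022b_cc.Metric2

/-!
# Convex hulls and gauges: definitions

A convex subcomplex which contains `o` is given by the set `U ⊆ o` of the halfspaces which contain it;
`gz U x` is the distance of `x` to it: the largest weight of a chain of halfspaces `a` with
`op a ∈ U`. `hH S m o` is the set of the halfspaces which contain all vertices `g • o`, `g ∈ S ^ m`.
-/

set_option autoImplicit false

open Set
open scoped Pointwise

namespace Pool.Agent.CCC

open Pocset

variable {H : Type} [Pocset H] {o : Set H}

/-- `U` is a set of halfspaces, closed upwards, contained in `o`. -/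
structure IsHull (o U : Set H) : Prop where
  sub : U ⊆ o
  up : ∀ a b, a ≤ b → a ∈ U → b ∈ U

/-- The gauge of the hull given by `U`. -/
noncomputable def gz (U : Set H) (x : Pt o) : ℝ :=
  sSup {r | ∃ c : Finset H, Ch c ∧ (∀ a ∈ c, op a ∈ U) ∧ r = ∑ a ∈ c, x a}

/-- The halfspaces which contain the vertices `g • o`, `g ∈ S ^ m`. -/
def hH {G : Type} [Group G] [PocAct G H] (S : Finset G) (m : ℕ) (o : Set H) : Set H :=
  {a | ∀ g ∈ (S : Set G) ^ m, g⁻¹ • a ∈ o}

/-- The gauge functions. -/
noncomputable def gF {G : Type} [Group G] [PocAct G H] (S : Finset G) (m : ℕ) (x : Pt o) : ℝ :=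
  gz (hH S m o) x

end Pool.Agent.CCC
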