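import Pool.Agent.Lib.MP_98022b_gln.GeoIface
import Pool.Agent.Lib.MP_98022b_gln.ConeDefs
import Pool.Agent.Lib.MP_98022b_gln.Track

/-!
# The interface between the geometry and the machine
-/

set_option autoImplicit false

open Set Filter Topology

namespace Pool.Agent.CCC

open Pool.Agent.GLN Pool.Agent.FA

/-- Discretization. -/
structure DiscC (G B V : Type) [Group G] [MetricSpace B] [MulAction G B] [MulAction G V]
    (dV : V → V → ℕ) (M : ℕ) (geo : B → B → ℝ → B) where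
  st : ℝ → B → V
  far : ℝ → ℝ → B → Prop
  st_smul : ∀ (g : G) r w, st r (g • w) = g • st r w
  far_smul : ∀ (g : G) r e w, far r e (g • w) ↔ far r e w
  far_mono : ∀ r e e' w, far r e w → e' ≤ e → far r e' w
  far_dist : ∀ r e w w', far r e w → far r (e - dist w w') w'
  st_eq : ∀ r e w w', far r e w → dist w w' < e → st r w' = st r w
  short : ∃ (n : ℕ) (r : Fin n → ℝ) (e : ℝ), 0 < e ∧ ∀ w, ∃ j, far (r j) e w
  track : ∀ (r : ℝ) (x y : B) (T : ℝ), T ≤ dist x y → ∃ κ : ℝ → ℤ,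
    TR.IsTrack (fun p q => (dV p q : ℤ)) M T (fun s => st r (endPt geo x y s)) κ
  pairs : ∃ K A : ℕ, ∀ n : ℕ, 2 ≤ n → ∃ (r δ : Fin K → ℝ) (ε : ℝ), 0 < ε ∧ 1 / 2 ^ (n ^ A) ≤ ε ∧
    (∀ k, ε ≤ δ k ∧ δ k ≤ 1 / 100) ∧ ∀ x y : B, 5 * (n : ℝ) ≤ dist x y → ∃ k,
      TR.IsEvents (n : ℝ) (δ k) (fun s => st (r k) (endPt geo x y s))
        {s | ¬ far (r k) ε (endPt geo x y s)}

/-- Finiteness of the states of small gauge. -/
def GaugeFinC {G B V : Type} [Group G] [MetricSpace B] [MulAction G B] [MulAction G V]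
    {dV : V → V → ℕ} {M : ℕ} {geo : B → B → ℝ → B} (Δ : DiscC G B V dV M geo) (F : ℕ → B → ℝ) :
    Prop :=
  ∃ C : ℕ, ∀ m : ℕ, ∃ A : Set V, A.Finite ∧ A.ncard ≤ 2 ^ (C * (m + 1)) ∧
    ∀ r e w, Δ.far r e w → F m w < e → Δ.st r w ∈ A

/-- The chain condition for far sets and the condition on the stabilisers `J` of far sets and
elements normalising `J`. -/
structure StabCond (Γ V : Type) [Group Γ] [MulAction Γ V] (dV : V → V → ℕ)
    (G : Subgroup Γ) (𝓕 : Subgroup G → Prop) (k₀ l₀ : ℕ) : Prop where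
  vx : ∀ v : V, ∀ K : Subgroup G, (∀ h ∈ K, h • v = v) → 𝓕 K
  chain : ∀ T : ℕ → Set V, (∀ i, (T i).Finite) → (∀ i, T i ⊆ T (i + 1)) →
    (∃ v ∈ T 0, ∃ w ∈ T 0, k₀ ≤ dV v w) →
    ∃ i < l₀, fixingSubgroup Γ (T i) = fixingSubgroup Γ (T (i + 1))
  cyc : ∀ T : Set V, T.Finite → (∃ v ∈ T, ∃ w ∈ T, k₀ ≤ dV v w) → ∀ t : Γ,
    (∀ j, j ∈ fixingSubgroup Γ T ↔ t * j * t⁻¹ ∈ fixingSubgroup Γ T) → ∀ K : Subgroup G,
    (∀ h ∈ K, (h : Γ) ∈ fixingSubgroup Γ T ⊔ Subgroup.zpowers t) → 𝓕 K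

end Pool.Agent.CCC
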