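import Mathlib

/-!
# The index lemma: definitions

A path in a cube complex moves the halfspaces `h : P` during a window of time `[0, L]`: `h` moves
from the time `s h` to the time `e h`, with the slowness `ka h` (the reciprocal of the speed) and
the virtual start `st h`, so that its coordinate is `cl ((t - st h) / ka h)`.
-/

set_option autoImplicit false

open Set

namespace Pool.Agent.CC

/-- The projection to `[0, 1]`. -/
noncomputable def cl (x : ℝ) : ℝ := max 0 (min 1 x)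

/-- A balanced schedule in the window `[0, L]`. -/
structure Sched {P : Type} [PartialOrder P] (L : ℝ) (s e st ka : P → ℝ) : Prop where
  s_nonneg : ∀ h, 0 ≤ s h
  s_lt : ∀ h, s h < e h
  e_le : ∀ h, e h ≤ L
  order : ∀ h h', h < h' → e h ≤ s h'
  ka_pos : ∀ h, 0 < ka h
  start : ∀ h, 0 < s h → st h = s h
  stop : ∀ h, e h < L → e h = st h + ka h
  fwd : ∀ h, e h < L → ∃ h', h < h' ∧ s h' = e h ∧ ka h' ≤ ka h
  bwd : ∀ h, 0 < s h → ∃ h', h' < h ∧ e h' = s h ∧ ka h' ≤ ka h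

/-- The time `t` is bad for the threshold `r`: a moving coordinate or one of the constant
coordinates `v c` is within `ε` of `r` or of `1 - r`. -/
def BadT {P C : Type} (st ka : P → ℝ) (v : C → ℝ) (r ε t : ℝ) : Prop :=
  (∃ h, |cl ((t - st h) / ka h) - r| < ε ∨ |cl ((t - st h) / ka h) - (1 - r)| < ε) ∨
    ∃ c, |v c - r| < ε ∨ |v c - (1 - r)| < ε

/-- THE INDEX LEMMA. `C` is the set of the constant fractional coordinates. -/
def IndexLemma (d : ℕ) : Prop :=
  ∃ K A : ℕ, ∀ H : ℕ, 2 ≤ H → ∃ (r δ : Fin K → ℝ) (ε : ℝ), 1 / 2 ^ (H ^ A) ≤ ε ∧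
    (∀ k, ε < r k ∧ r k < 1 / 4 ∧ ε ≤ δ k ∧ δ k ≤ 1 / 100) ∧
    ∀ (P : Type) [Fintype P] [PartialOrder P] (C : Type) [Fintype C] (s e st ka : P → ℝ)
      (v : C → ℝ), Sched (5 * H) s e st ka → Fintype.card P ≤ d * (5 * H + 2) →
      {h | s h = 0}.ncard + Fintype.card C ≤ d → {h | e h = 5 * H}.ncard + Fintype.card C ≤ d →
      ∃ k, ∀ t ∈ Icc (0 : ℝ) (5 * H), ∀ t' ∈ Icc (0 : ℝ) (5 * H),
        BadT st ka v (r k) ε t → BadT st ka v (r k) ε t' → |t - t'| ≤ δ k ∨ 4 * δ k ≤ |t - t'|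

end Pool.Agent.CC
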