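import Pool.Agent.Lib.MP_98022b_cc.IndexRat

/-!
# The index lemma: the scales
-/

set_option autoImplicit false

open Set
open scoped Matrix Matrix.Norms.Elementwise

namespace Pool.Agent.CC

/-- Small integer relations. -/
theorem exists_relation {I : Type} [Fintype I] [Nonempty I] {D M : ℕ} (hI : Fintype.card I ≤ D)
    (hM : 1 ≤ M) (A : I → Fin (D + 1) → ℤ) (hA : ∀ i l, |A i l| ≤ M) :
    ∃ x : Fin (D + 1) → ℤ, x ≠ 0 ∧ (∀ i, ∑ l, A i l * x l = 0) ∧
      ∀ l, |x l| ≤ ((D + 1) * M) ^ D := by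
  classical
  obtain ⟨x, h1, h2, h3⟩ := Int.Matrix.exists_ne_zero_int_vec_norm_le (Matrix.of A)
    (by rw [Fintype.card_fin]; omega) Fintype.card_pos
  refine ⟨x, h1, fun i => ?_, fun l => ?_⟩
  · exact congrFun h2 i
  · have hcard : 0 < Fintype.card I := Fintype.card_pos
    have h4 : ‖x l‖ ≤ ‖x‖ := norm_le_pi_norm x l
    have hnA : ‖Matrix.of A‖ ≤ M := by
      rw [Matrix.norm_le_iff (Nat.cast_nonneg M)]
      intro i j
      rw [Matrix.of_apply, Int.norm_eq_abs]
      exact_mod_cast hA i j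
    have h5 : ((D : ℝ) + 1) * max 1 ‖Matrix.of A‖ ≤ (D + 1) * M := by
      refine mul_le_mul_of_nonneg_left (max_le ?_ hnA) (by positivity)
      exact_mod_cast hM
    have h6 : (1 : ℝ) ≤ ((D : ℝ) + 1) * max 1 ‖Matrix.of A‖ := by
      have h7 : (1 : ℝ) ≤ max 1 ‖Matrix.of A‖ := le_max_left _ _
      have h8 : (0 : ℝ) ≤ D := Nat.cast_nonneg D
      nlinarith
    have h9 : ‖x‖ ≤ (((D : ℝ) + 1) * M) ^ D := by
      refine h3.trans ?_
      rw [Fintype.card_fin]
      push_cast
      have hm : (Fintype.card I : ℝ) ≤ D := by exact_mod_cast hI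
      have he : ((Fintype.card I : ℝ) / ((D : ℝ) + 1 - Fintype.card I)) ≤ (D : ℝ) := by
        rw [div_le_iff₀ (by linarith)]
        have h0 : (0 : ℝ) ≤ Fintype.card I := Nat.cast_nonneg _
        nlinarith
      calc _ ≤ (((D : ℝ) + 1) * max 1 ‖Matrix.of A‖) ^ (D : ℝ) :=
            Real.rpow_le_rpow_of_exponent_le h6 he
        _ = (((D : ℝ) + 1) * max 1 ‖Matrix.of A‖) ^ D := Real.rpow_natCast _ _
        _ ≤ _ := pow_le_pow_left₀ (by linarith) h5 D
    have h10 := h4.trans h9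
    rw [Int.norm_eq_abs] at h10
    exact_mod_cast h10

/-- The scales: for one of the scales no distance of two members of `T` is comparable to it. -/
theorem exists_scale {I : Type} [Fintype I] {β : I → ℝ} {M D : ℕ} (hM : 1 ≤ M)
    (hI : Fintype.card I ≤ D) {T : Set ℝ} (hT : ∀ t ∈ T, Cv β M t) {δ : ℕ → ℝ}
    (hδ0 : ∀ l, 0 < δ l)
    (hδ : ∀ l, 10 * (D + 1) * (((D : ℝ) + 1) * M) ^ D * δ (l + 1) < δ l) :
    ∃ l : Fin (D + 1), ∀ t ∈ T, ∀ t' ∈ T, |t - t'| < δ l / 2 ∨ 5 * δ l < |t - t'| := by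
  classical
  by_contra hcon
  push Not at hcon
  choose t ht t' ht' hlow hup using hcon
  -- the coefficients
  have hc : ∀ l, ∃ c : I → ℤ, (∀ i, |c i| ≤ M) ∧ (M : ℝ) * (t l - t' l) = ∑ i, (c i : ℝ) * β i := by
    intro l
    obtain ⟨c, h1, h2⟩ := hT _ (ht l)
    obtain ⟨c', h1', h2'⟩ := hT _ (ht' l)
    refine ⟨fun i => (c i : ℤ) - c' i, fun i => ?_, ?_⟩
    · have h3 : c i ≤ M := by
        rw [← h1]
        exact Finset.single_le_sum (fun _ _ => Nat.zero_le _) (Finset.mem_univ i)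
      have h4 : c' i ≤ M := by
        rw [← h1']
        exact Finset.single_le_sum (fun _ _ => Nat.zero_le _) (Finset.mem_univ i)
      show |(c i : ℤ) - c' i| ≤ M
      rw [abs_le]
      constructor <;> omega
    · rw [mul_sub, h2, h2', ← Finset.sum_sub_distrib]
      refine Finset.sum_congr rfl fun i _ => ?_
      push_cast
      ring
  choose c hcM hcβ using hc
  have hne : Nonempty I := by
    by_contra hI'
    rw [not_nonempty_iff] at hI'
    obtain ⟨c₀, h1, -⟩ := hT _ (ht 0)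
    rw [Finset.univ_eq_empty, Finset.sum_empty] at h1
    omega
  obtain ⟨x, hx0, hx1, hx2⟩ := exists_relation hI hM (fun i l => c l i) (fun i l => hcM l i)
  have hMr : (0 : ℝ) < M := by exact_mod_cast hM
  have hsum : ∑ l, (x l : ℝ) * (t l - t' l) = 0 := by
    have h1 : (M : ℝ) * ∑ l, (x l : ℝ) * (t l - t' l) = 0 := by
      calc (M : ℝ) * ∑ l, (x l : ℝ) * (t l - t' l)
          = ∑ l, (x l : ℝ) * ∑ i, (c l i : ℝ) * β i := by
            rw [Finset.mul_sum]
            refine Finset.sum_congr rfl fun l _ => ?_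
            rw [← hcβ]
            ring
        _ = ∑ i, β i * ∑ l, (c l i : ℝ) * x l := by
            simp only [Finset.mul_sum]
            rw [Finset.sum_comm]
            refine Finset.sum_congr rfl fun i _ => Finset.sum_congr rfl fun l _ => ?_
            ring
        _ = 0 := by
            refine Finset.sum_eq_zero fun i _ => ?_
            have h2 := hx1 i
            have h3 : ∑ l, (c l i : ℝ) * x l = 0 := by exact_mod_cast h2
            rw [h3, mul_zero]
    exact (mul_eq_zero.1 h1).resolve_left hMr.ne'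
  -- the first index with a nonzero coefficient
  have hex : (Finset.univ.filter (fun l => x l ≠ 0)).Nonempty := by
    obtain ⟨l, hl⟩ := Function.ne_iff.1 hx0
    exact ⟨l, Finset.mem_filter.2 ⟨Finset.mem_univ _, hl⟩⟩
  obtain ⟨l₀, hl₀, hmin⟩ := Finset.exists_min_image _ (fun l : Fin (D + 1) => (l : ℕ)) hex
  rw [Finset.mem_filter] at hl₀
  obtain ⟨X, hX⟩ : ∃ X : ℝ, X = (((D : ℝ) + 1) * M) ^ D := ⟨_, rfl⟩
  have hX1 : 1 ≤ X := by
    rw [hX]
    refine one_le_pow₀ ?_
    have h1 : (1 : ℝ) ≤ M := by exact_mod_cast hM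
    have h2 : (0 : ℝ) ≤ D := Nat.cast_nonneg D
    nlinarith
  have hD0 : (0 : ℝ) ≤ D := Nat.cast_nonneg D
  rw [← hX] at hδ
  have hanti : ∀ l, δ (l + 1) ≤ δ l := by
    intro l
    refine le_trans ?_ (hδ l).le
    have h1 : 1 ≤ 10 * ((D : ℝ) + 1) * X := by nlinarith
    have h2 := hδ0 (l + 1)
    nlinarith
  have hanti' : ∀ a b, a ≤ b → δ b ≤ δ a := fun a b hab => antitone_nat_of_succ_le hanti hab
  have h1 : (x l₀ : ℝ) * (t l₀ - t' l₀) =
      -∑ l ∈ Finset.univ.erase l₀, (x l : ℝ) * (t l - t' l) := by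
    rw [← Finset.add_sum_erase _ _ (Finset.mem_univ l₀)] at hsum
    linarith
  have h2 : |∑ l ∈ Finset.univ.erase l₀, (x l : ℝ) * (t l - t' l)| ≤
      ∑ l ∈ Finset.univ.erase l₀, X * (5 * δ (l₀ + 1)) := by
    refine (Finset.abs_sum_le_sum_abs _ _).trans (Finset.sum_le_sum fun l hl => ?_)
    by_cases hxl : x l = 0
    · rw [hxl]
      simp only [Int.cast_zero, zero_mul, abs_zero]
      have := hδ0 (l₀ + 1)
      positivity
    · have h3 := hmin l (Finset.mem_filter.2 ⟨Finset.mem_univ _, hxl⟩)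
      have h4 : (l₀ : ℕ) ≠ l := fun h => Finset.ne_of_mem_erase hl (Fin.ext h.symm)
      have h5 : (l₀ : ℕ) + 1 ≤ l := by omega
      rw [abs_mul]
      refine mul_le_mul ?_ ((hup l).trans ?_) (abs_nonneg _) (by linarith)
      · have h6 := hx2 l
        rw [hX]
        exact_mod_cast h6
      · have := hanti' _ _ h5
        linarith
  have h3 : ∑ l ∈ Finset.univ.erase l₀, X * (5 * δ (l₀ + 1)) ≤ (D + 1) * (X * (5 * δ (l₀ + 1))) := by
    rw [Finset.sum_const, nsmul_eq_mul]
    refine mul_le_mul_of_nonneg_right ?_ ?_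
    · have : (Finset.univ.erase l₀).card ≤ D + 1 := by
        refine (Finset.card_le_univ _).trans ?_
        rw [Fintype.card_fin]
      exact_mod_cast this
    · have := hδ0 (l₀ + 1)
      positivity
  have h4 : |t l₀ - t' l₀| ≤ |(x l₀ : ℝ) * (t l₀ - t' l₀)| := by
    rw [abs_mul]
    have h5 : (1 : ℝ) ≤ |(x l₀ : ℝ)| := by
      have := Int.one_le_abs hl₀.2
      exact_mod_cast this
    have := abs_nonneg (t l₀ - t' l₀)
    nlinarith
  have h5 := hlow l₀
  have h6 := hδ l₀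
  rw [h1, abs_neg] at h4
  nlinarith

end Pool.Agent.CC
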