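import Pool.Agent.Lib.MP_98022b_cc.IndexDefs

/-!
# The index lemma: the rational structure

All virtual starts and ends of the moving halfspaces are convex combinations with bounded
denominators of the virtual starts of the halfspaces which move at the time `0` and the virtual ends
of the halfspaces which move at the time `L`.
-/

set_option autoImplicit false

open Set

namespace Pool.Agent.CC

/-- `τ` is a convex combination of the `β i` with denominator `M`. -/
def Cv {I : Type} [Fintype I] (β : I → ℝ) (M : ℕ) (τ : ℝ) : Prop :=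
  ∃ c : I → ℕ, ∑ i, c i = M ∧ (M : ℝ) * τ = ∑ i, (c i : ℝ) * β i

section Cv

variable {I : Type} [Fintype I] {β : I → ℝ} {M : ℕ} {τ τ' : ℝ}

theorem Cv.single (β : I → ℝ) (i : I) : Cv β 1 (β i) := by
  classical
  refine ⟨Pi.single i 1, by simp, ?_⟩
  rw [Finset.sum_eq_single i]
  · simp
  · intro j _ hj
    simp [hj]
  · intro h
    exact absurd (Finset.mem_univ i) h

theorem Cv.mul (h : Cv β M τ) (k : ℕ) : Cv β (k * M) τ := by
  obtain ⟨c, h1, h2⟩ := h
  refine ⟨fun i => k * c i, ?_, ?_⟩
  · rw [← Finset.mul_sum, h1]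
  · push_cast
    rw [mul_assoc, h2, Finset.mul_sum]
    exact Finset.sum_congr rfl fun i _ => by ring

theorem Cv.of_dvd (h : Cv β M τ) {M' : ℕ} (hM : M ∣ M') : Cv β M' τ := by
  obtain ⟨k, rfl⟩ := hM
  rw [mul_comm]
  exact h.mul k

theorem Cv.comb (h : Cv β M τ) (h' : Cv β M τ') (a b : ℕ) {σ : ℝ}
    (hσ : ((a + b : ℕ) : ℝ) * σ = a * τ + b * τ') : Cv β ((a + b) * M) σ := by
  obtain ⟨c, h1, h2⟩ := h
  obtain ⟨c', h1', h2'⟩ := h'
  refine ⟨fun i => a * c i + b * c' i, ?_, ?_⟩
  · rw [Finset.sum_add_distrib, ← Finset.mul_sum, ← Finset.mul_sum, h1, h1']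
    ring
  · have e : (((a + b) * M : ℕ) : ℝ) * σ = a * (M * τ) + b * (M * τ') := by
      calc (((a + b) * M : ℕ) : ℝ) * σ = M * (((a + b : ℕ) : ℝ) * σ) := by
            push_cast
            ring
        _ = a * (M * τ) + b * (M * τ') := by
            rw [hσ]
            ring
    rw [e, h2, h2', Finset.mul_sum, Finset.mul_sum, ← Finset.sum_add_distrib]
    refine Finset.sum_congr rfl fun i _ => ?_
    push_cast
    ring

end Cv

section Rat

variable {P : Type} [Fintype P] [PartialOrder P] {L : ℝ} {s e st ka : P → ℝ}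

open Classical in
/-- The forward run of `h`. -/
theorem run_fwd (hS : Sched L s e st ka) {I : Type} [Fintype I] {β : I → ℝ} {M : ℕ} {κ : ℝ}
    (hex : ∀ h, e h = L → Cv β M (st h + ka h)) (hlow : ∀ h, ka h < κ → Cv β M (st h)) (h : P)
    (hκ : ka h = κ) :
    ∃ m : ℕ, m ≤ (Finset.univ.filter (fun x => h < x)).card ∧ Cv β M (st h + κ + m * κ) := by
  revert hκ
  refine WellFoundedGT.induction (motive := fun h => ka h = κ → ∃ m : ℕ,
    m ≤ (Finset.univ.filter (fun x => h < x)).card ∧ Cv β M (st h + κ + m * κ)) h ?_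
  intro h ih hκ
  rcases (hS.e_le h).lt_or_eq with h1 | h1
  · obtain ⟨h', h2, h3, h4⟩ := hS.fwd h h1
    have h0 : 0 < s h' := by
      rw [h3]
      exact lt_of_le_of_lt (hS.s_nonneg h) (hS.s_lt h)
    have h5 : st h' = st h + κ := by rw [hS.start h' h0, h3, hS.stop h h1, hκ]
    rw [hκ] at h4
    rcases h4.lt_or_eq with h6 | h6
    · refine ⟨0, Nat.zero_le _, ?_⟩
      have := hlow h' h6
      rw [h5] at this
      simpa using this
    · obtain ⟨m, hm, hm'⟩ := ih h' h2 h6
      refine ⟨m + 1, ?_, ?_⟩
      · refine lt_of_le_of_lt hm (Finset.card_lt_card ?_)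
        refine Finset.ssubset_iff_subset_ne.2 ⟨fun x hx => ?_, fun he => ?_⟩
        · rw [Finset.mem_filter] at hx ⊢
          exact ⟨Finset.mem_univ _, h2.trans hx.2⟩
        · have : h' ∈ Finset.univ.filter (fun x => h < x) := by
            rw [Finset.mem_filter]
            exact ⟨Finset.mem_univ _, h2⟩
          rw [← he, Finset.mem_filter] at this
          exact lt_irrefl _ this.2
      · have e1 : st h + κ + ((m + 1 : ℕ) : ℝ) * κ = st h' + κ + m * κ := by
          rw [h5]
          push_cast
          ring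
        rw [e1]
        exact hm'
  · refine ⟨0, Nat.zero_le _, ?_⟩
    have := hex h h1
    rw [hκ] at this
    simpa using this

open Classical in
/-- The backward run of `h`. -/
theorem run_bwd (hS : Sched L s e st ka) {I : Type} [Fintype I] {β : I → ℝ} {M : ℕ} {κ : ℝ}
    (hex : ∀ h, s h = 0 → Cv β M (st h)) (hlow : ∀ h, ka h < κ → Cv β M (st h + ka h)) (h : P)
    (hκ : ka h = κ) :
    ∃ m : ℕ, m ≤ (Finset.univ.filter (fun x => x < h)).card ∧ Cv β M (st h - m * κ) := by
  revert hκ
  refine WellFoundedLT.induction (motive := fun h => ka h = κ → ∃ m : ℕ,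
    m ≤ (Finset.univ.filter (fun x => x < h)).card ∧ Cv β M (st h - m * κ)) h ?_
  intro h ih hκ
  rcases (hS.s_nonneg h).lt_or_eq with h1 | h1
  · obtain ⟨h', h2, h3, h4⟩ := hS.bwd h h1
    have h0 : e h' < L := by
      rw [h3]
      exact lt_of_lt_of_le (hS.s_lt h) (hS.e_le h)
    have h5 : st h = st h' + ka h' := by rw [hS.start h h1, ← h3, hS.stop h' h0]
    rw [hκ] at h4
    rcases h4.lt_or_eq with h6 | h6
    · refine ⟨0, Nat.zero_le _, ?_⟩
      have := hlow h' h6
      rw [← h5] at this
      simpa using this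
    · obtain ⟨m, hm, hm'⟩ := ih h' h2 h6
      refine ⟨m + 1, ?_, ?_⟩
      · refine lt_of_le_of_lt hm (Finset.card_lt_card ?_)
        refine Finset.ssubset_iff_subset_ne.2 ⟨fun x hx => ?_, fun he => ?_⟩
        · rw [Finset.mem_filter] at hx ⊢
          exact ⟨Finset.mem_univ _, hx.2.trans h2⟩
        · have : h' ∈ Finset.univ.filter (fun x => x < h) := by
            rw [Finset.mem_filter]
            exact ⟨Finset.mem_univ _, h2⟩
          rw [← he, Finset.mem_filter] at this
          exact lt_irrefl _ this.2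
      · have e1 : st h - ((m + 1 : ℕ) : ℝ) * κ = st h' - m * κ := by
          rw [h5, h6]
          push_cast
          ring
        rw [e1]
        exact hm'
  · refine ⟨0, Nat.zero_le _, ?_⟩
    have := hex h h1.symm
    simpa using this

/-- The rational structure. -/
theorem exists_rational (hS : Sched L s e st ka) {I : Type} [Fintype I] {β : I → ℝ}
    (hex0 : ∀ h, s h = 0 → Cv β 1 (st h)) (hexL : ∀ h, e h = L → Cv β 1 (st h + ka h)) (h : P) :
    Cv β ((Fintype.card P).factorial ^ Fintype.card P) (st h) ∧
      Cv β ((Fintype.card P).factorial ^ Fintype.card P) (st h + ka h) := by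
  classical
  obtain ⟨N, hN⟩ : ∃ N, N = Fintype.card P := ⟨_, rfl⟩
  rw [← hN]
  have key : ∀ j : ℕ, ∀ h : P, (Finset.univ.filter (fun x => ka x < ka h)).card = j →
      Cv β (N.factorial ^ (j + 1)) (st h) ∧ Cv β (N.factorial ^ (j + 1)) (st h + ka h) := by
    intro j
    induction j using Nat.strong_induction_on with
    | _ j ih =>
      intro h hj
      have hlow : ∀ h', ka h' < ka h →
          Cv β (N.factorial ^ j) (st h') ∧ Cv β (N.factorial ^ j) (st h' + ka h') := by
        intro h' hh
        have h1 : (Finset.univ.filter (fun x => ka x < ka h')).card < j := by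
          rw [← hj]
          refine Finset.card_lt_card (Finset.ssubset_iff_subset_ne.2 ⟨fun x hx => ?_, fun he => ?_⟩)
          · rw [Finset.mem_filter] at hx ⊢
            exact ⟨Finset.mem_univ _, hx.2.trans hh⟩
          · have : h' ∈ Finset.univ.filter (fun x => ka x < ka h) := by
              rw [Finset.mem_filter]
              exact ⟨Finset.mem_univ _, hh⟩
            rw [← he, Finset.mem_filter] at this
            exact lt_irrefl _ this.2
        obtain ⟨h2, h3⟩ := ih _ h1 h' rfl
        have h4 : N.factorial ^ ((Finset.univ.filter (fun x => ka x < ka h')).card + 1) ∣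
            N.factorial ^ j := pow_dvd_pow _ h1
        exact ⟨h2.of_dvd h4, h3.of_dvd h4⟩
      obtain ⟨m, hm, hm'⟩ := run_fwd hS (M := N.factorial ^ j) (κ := ka h)
        (fun x hx => (hexL x hx).of_dvd (one_dvd _)) (fun x hx => (hlow x hx).1) h rfl
      obtain ⟨n, hn, hn'⟩ := run_bwd hS (M := N.factorial ^ j) (κ := ka h)
        (fun x hx => (hex0 x hx).of_dvd (one_dvd _)) (fun x hx => (hlow x hx).2) h rfl
      have hmn : m + n + 1 ≤ N := by
        have h1 : Disjoint (Finset.univ.filter (fun x => h < x))
            (Finset.univ.filter (fun x => x < h)) := by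
          rw [Finset.disjoint_left]
          intro x hx hx'
          rw [Finset.mem_filter] at hx hx'
          exact lt_irrefl _ (hx.2.trans hx'.2)
        have h2 : h ∉ Finset.univ.filter (fun x => h < x) ∪ Finset.univ.filter (fun x => x < h) := by
          simp
        have h3 := Finset.card_le_univ (insert h (Finset.univ.filter (fun x => h < x) ∪
          Finset.univ.filter (fun x => x < h)))
        rw [Finset.card_insert_of_notMem h2, Finset.card_union_of_disjoint h1] at h3
        omega
      have hdvd : ∀ {k : ℕ}, k = m + n + 1 → k * N.factorial ^ j ∣ N.factorial ^ (j + 1) := by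
        rintro k rfl
        rw [pow_succ, mul_comm]
        exact Nat.mul_dvd_mul_left _ (Nat.dvd_factorial (by omega) hmn)
      constructor
      · refine (hn'.comb hm' (m + 1) n ?_).of_dvd (hdvd (by ring))
        push_cast
        ring
      · refine (hn'.comb hm' m (n + 1) ?_).of_dvd (hdvd (by ring))
        push_cast
        ring
  obtain ⟨h1, h2⟩ := key _ h rfl
  have h3 : (Finset.univ.filter (fun x => ka x < ka h)).card + 1 ≤ N := by
    have h4 : h ∉ Finset.univ.filter (fun x => ka x < ka h) := by simp
    have h5 := Finset.card_le_univ (insert h (Finset.univ.filter (fun x => ka x < ka h)))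
    rw [Finset.card_insert_of_notMem h4] at h5
    omega
  exact ⟨h1.of_dvd (pow_dvd_pow _ h3), h2.of_dvd (pow_dvd_pow _ h3)⟩

end Rat

end Pool.Agent.CC
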