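import Pool.Agent.Lib.MP_98022b_cc.IndexGap

/-!
# The index lemma: slow halfspaces and bad times
-/

set_option autoImplicit false

open Set

namespace Pool.Agent.CC

theorem cl_eq {x ρ ε : ℝ} (h : |cl x - ρ| < ε) (h0 : ε < ρ) (h1 : ρ + ε < 1) : cl x = x := by
  rw [abs_lt] at h
  have h2 : 0 < cl x := by linarith
  have h3 : cl x < 1 := by linarith
  unfold cl at h2 h3 ⊢
  rcases le_total 1 x with h4 | h4
  · rw [min_eq_left h4] at h3
    exact absurd (le_max_right (0 : ℝ) 1) (not_le.2 h3)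
  · rw [min_eq_right h4] at h2 h3 ⊢
    rcases le_total x 0 with h5 | h5
    · rw [max_eq_left h5] at h2
      exact absurd h2 (lt_irrefl 0)
    · exact max_eq_right h5

theorem cl_lip (x y : ℝ) : |cl x - cl y| ≤ |x - y| := by
  unfold cl
  refine (abs_max_sub_max_le_max _ _ _ _).trans ?_
  rw [sub_self, abs_zero]
  refine max_le (abs_nonneg _) ((abs_min_sub_min_le_max _ _ _ _).trans ?_)
  rw [sub_self, abs_zero]
  exact max_le (abs_nonneg _) le_rfl

variable {P : Type} [Fintype P] [PartialOrder P] {L : ℝ} {s e st ka : P → ℝ}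

/-- There are few slow halfspaces. -/
theorem card_slow (hS : Sched L s e st ka) {C : Type} [Fintype C] {d : ℕ} {B : ℝ} (hB : L ≤ B)
    (h0 : {h | s h = 0}.ncard + Fintype.card C ≤ d)
    (hL : {h | e h = L}.ncard + Fintype.card C ≤ d) [Fintype {h // B < ka h}] :
    Fintype.card ({h // B < ka h} ⊕ C) ≤ 2 * d := by
  classical
  rw [Fintype.card_sum]
  have h1 : Fintype.card {h // B < ka h} ≤ {h | s h = 0}.ncard + {h | e h = L}.ncard := by
    have h2 : Fintype.card {h // B < ka h} = {h | B < ka h}.ncard := by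
      rw [← Nat.card_coe_set_eq, Nat.card_eq_fintype_card]
      exact Fintype.card_congr (Equiv.refl _)
    rw [h2]
    refine (Set.ncard_le_ncard (t := {h | s h = 0} ∪ {h | e h = L}) ?_ (Set.toFinite _)).trans
      (Set.ncard_union_le _ _)
    intro h hh
    by_contra hcon
    rw [mem_union, not_or] at hcon
    obtain ⟨k1, k2⟩ := hcon
    have k3 : 0 < s h := lt_of_le_of_ne (hS.s_nonneg h) (Ne.symm k1)
    have k4 : e h < L := lt_of_le_of_ne (hS.e_le h) k2
    have k5 := hS.start h k3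
    have k6 := hS.stop h k4
    have k7 : B < ka h := hh
    linarith
  omega

/-- A threshold which is far from the slow halfspaces and from the constants. -/
theorem exists_thr (hS : Sched L s e st ka) {C : Type} [Fintype C] {v : C → ℝ} {d : ℕ} (hd : 1 ≤ d)
    (hL0 : 0 ≤ L) (h0 : {h | s h = 0}.ncard + Fintype.card C ≤ d)
    (hL : {h | e h = L}.ncard + Fintype.card C ≤ d) :
    ∃ k : Fin (2 * d + 1), (∀ h, 100 * (d + 1) * L < ka h → ∀ t ∈ Icc 0 L,
      1 / (100 * (d + 1)) ≤ |cl ((t - st h) / ka h) - ((k : ℝ) + 1) / (8 * (d + 1))| ∧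
      1 / (100 * (d + 1)) ≤ |cl ((t - st h) / ka h) - (1 - ((k : ℝ) + 1) / (8 * (d + 1)))|) ∧
      ∀ c, 1 / (100 * (d + 1)) ≤ |v c - ((k : ℝ) + 1) / (8 * (d + 1))| ∧
        1 / (100 * (d + 1)) ≤ |v c - (1 - ((k : ℝ) + 1) / (8 * (d + 1)))| := by
  classical
  by_contra hcon
  push Not at hcon
  obtain ⟨η, hη⟩ : ∃ η : ℝ, η = 1 / (100 * (d + 1)) := ⟨_, rfl⟩
  obtain ⟨q, hq⟩ : ∃ q : ℝ, q = 8 * ((d : ℝ) + 1) := ⟨_, rfl⟩
  rw [← hη] at hcon
  rw [← hq] at hcon
  have hd1 : (1 : ℝ) ≤ d := by exact_mod_cast hd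
  have hη0 : 0 < η := by rw [hη]; positivity
  have hη1 : η ≤ 1 / 200 := by
    rw [hη]
    apply one_div_le_one_div_of_le (by norm_num)
    linarith
  have hqη : 3 * η < 1 / q := by
    rw [hη, hq, lt_div_iff₀ (by positivity)]
    field_simp
    norm_num
  have hq0 : 0 < q := by rw [hq]; positivity
  -- the values of the killed thresholds
  have hkill : ∀ k : Fin (2 * d + 1), ∃ x : {h // 100 * ((d : ℝ) + 1) * L < ka h} ⊕ C, ∃ y : ℝ,
      (∃ t ∈ Icc 0 L, y = Sum.elim (fun h => cl ((t - st h.1) / ka h.1)) v x) ∧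
      (|y - ((k : ℝ) + 1) / q| < η ∨ |y - (1 - ((k : ℝ) + 1) / q)| < η) := by
    intro k
    by_cases h1 : ∀ h, 100 * ((d : ℝ) + 1) * L < ka h → ∀ t ∈ Icc 0 L,
        η ≤ |cl ((t - st h) / ka h) - ((k : ℝ) + 1) / q| ∧
        η ≤ |cl ((t - st h) / ka h) - (1 - ((k : ℝ) + 1) / q)|
    · obtain ⟨c, hc⟩ := hcon k h1
      refine ⟨Sum.inr c, v c, ⟨0, ⟨le_rfl, hL0⟩, rfl⟩, ?_⟩
      by_contra h2
      rw [not_or, not_lt, not_lt] at h2
      exact absurd (hc h2.1) (not_lt.2 h2.2)
    · push Not at h1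
      obtain ⟨h, hh, t, ht, h2⟩ := h1
      refine ⟨Sum.inl ⟨h, hh⟩, _, ⟨t, ht, rfl⟩, ?_⟩
      by_contra h3
      rw [not_or, not_lt, not_lt] at h3
      exact absurd (h2 h3.1) (not_lt.2 h3.2)
  choose x y hxy hyk using hkill
  -- two values of one coordinate are close
  have hclose : ∀ k k', x k = x k' → |y k - y k'| ≤ η := by
    intro k k' hkk
    obtain ⟨t, ht, h1⟩ := hxy k
    obtain ⟨t', ht', h2⟩ := hxy k'
    rw [← hkk] at h2
    rw [h1, h2]
    rcases x k with ⟨h, hh⟩ | c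
    · simp only [Sum.elim_inl]
      refine (cl_lip _ _).trans ?_
      have hka := hS.ka_pos h
      have e1 : (t - st h) / ka h - (t' - st h) / ka h = (t - t') / ka h := by ring
      rw [e1, abs_div, abs_of_pos hka, div_le_iff₀ hka]
      have h3 : |t - t'| ≤ L := by
        rw [abs_le]
        constructor <;> linarith [ht.1, ht.2, ht'.1, ht'.2]
      have h4 : L ≤ η * ka h := by
        rw [hη, div_mul_eq_mul_div, one_mul, le_div_iff₀ (by positivity)]
        linarith
      linarith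
    · simp only [Sum.elim_inr, sub_self, abs_zero]
      exact hη0.le
  have hinj : Function.Injective x := by
    intro k k' hkk
    by_contra hne
    have h1 := hclose k k' hkk
    have hr : ∀ j : Fin (2 * d + 1), ((j : ℝ) + 1) / q ≤ 1 / 4 := by
      intro j
      rw [div_le_iff₀ hq0, hq]
      have : (j : ℕ) ≤ 2 * d := by omega
      have : (j : ℝ) ≤ 2 * d := by exact_mod_cast this
      linarith
    have hdiff : 1 / q ≤ |((k : ℝ) + 1) / q - ((k' : ℝ) + 1) / q| := by
      rw [← sub_div, abs_div, abs_of_pos hq0]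
      apply div_le_div_of_nonneg_right _ hq0.le
      have h2 : (k : ℤ) ≠ k' := fun h => hne (Fin.ext (by exact_mod_cast h))
      have h3 : (1 : ℤ) ≤ |(k : ℤ) - k'| := Int.one_le_abs (sub_ne_zero.2 h2)
      have h4 : ((1 : ℤ) : ℝ) ≤ ((|(k : ℤ) - k'| : ℤ) : ℝ) := by exact_mod_cast h3
      push_cast at h4
      rw [show ((k : ℝ) + 1) - ((k' : ℝ) + 1) = (k : ℝ) - k' by ring]
      exact h4
    have a1 := hr k
    have a2 := hr k'
    rcases hyk k with h2 | h2 <;> rcases hyk k' with h3 | h3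
    · rw [abs_lt] at h2 h3
      rw [abs_le] at h1
      have h5 : |((k : ℝ) + 1) / q - ((k' : ℝ) + 1) / q| ≤ 3 * η := by
        rw [abs_le]
        constructor <;> linarith
      linarith
    · rw [abs_lt] at h2 h3
      rw [abs_le] at h1
      linarith
    · rw [abs_lt] at h2 h3
      rw [abs_le] at h1
      linarith
    · rw [abs_lt] at h2 h3
      rw [abs_le] at h1
      have h5 : |((k : ℝ) + 1) / q - ((k' : ℝ) + 1) / q| ≤ 3 * η := by
        rw [abs_le]
        constructor <;> linarith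
      linarith
  have h1 := Fintype.card_le_of_injective x hinj
  rw [Fintype.card_fin] at h1
  have h2 := card_slow hS (C := C) (d := d) (B := 100 * ((d : ℝ) + 1) * L) (by nlinarith) h0 hL
  omega

/-- The bad times are close to the event times of the fast halfspaces. -/
theorem badT_near (hS : Sched L s e st ka) {C : Type} {v : C → ℝ} {B η r ε t : ℝ} (hε : ε < r)
    (hr : r < 1 / 4) (hεη : ε ≤ η)
    (hslow : ∀ h, B < ka h → η ≤ |cl ((t - st h) / ka h) - r| ∧
      η ≤ |cl ((t - st h) / ka h) - (1 - r)|)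
    (hconst : ∀ c, η ≤ |v c - r| ∧ η ≤ |v c - (1 - r)|) (h : BadT st ka v r ε t) :
    ∃ h ρ, (ρ = r ∨ ρ = 1 - r) ∧ |t - (st h + ρ * ka h)| ≤ ε * B := by
  rcases h with ⟨h, hh⟩ | ⟨c, hc⟩
  · have hB : ka h ≤ B := by
      by_contra hcon
      obtain ⟨h1, h2⟩ := hslow h (not_le.1 hcon)
      rcases hh with h3 | h3 <;> linarith
    have hka := hS.ka_pos h
    have key : ∀ ρ, ε < ρ → ρ + ε < 1 → |cl ((t - st h) / ka h) - ρ| < ε →
        |t - (st h + ρ * ka h)| ≤ ε * B := by
      intro ρ h0 h1 h2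
      have h3 := cl_eq h2 h0 h1
      rw [h3] at h2
      have e1 : t - (st h + ρ * ka h) = ((t - st h) / ka h - ρ) * ka h := by
        field_simp
        ring
      rw [e1, abs_mul, abs_of_pos hka]
      have h4 : 0 ≤ ε := (abs_nonneg _).trans h2.le
      exact mul_le_mul h2.le hB hka.le h4
    rcases hh with h3 | h3
    · exact ⟨h, r, Or.inl rfl, key r hε (by linarith) h3⟩
    · exact ⟨h, 1 - r, Or.inr rfl, key (1 - r) (by linarith) (by linarith) h3⟩
  · obtain ⟨h1, h2⟩ := hconst c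
    rcases hc with h3 | h3 <;> linarith

end Pool.Agent.CC
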