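import Pool.Agent.Lib.MP_98022b_gln.SeqMarks

/-!
# Marks with very small radius

Four reductions, then greedy marks.
-/

set_option autoImplicit false

open Set

namespace Pool.Agent.GLN

open Pool.Agent.GT (redB exists_red exists_greedy)

/-- The radius of the marks. -/
def kap4 (R Q : ℕ) : ℕ :=
  4 * R + R * redB (2 * R + 1) (redB (2 * R + 1) (redB (2 * R + 1) (redB (2 * R + 1) Q)))

theorem exists_marks4 (R : ℕ) (hR : 0 < R) (Q : ℕ) :
    ∃ F : (ℤ → ℕ) → ℤ → Prop, IsRule F (kap4 R Q) ∧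
      ∀ c, (∀ n, c n ≤ Q) →
        (∀ n n' : ℤ, |n' - n| < R → F c n → F c n' → c n = c n') ∧
        ∀ n : ℤ, ∃ n', |n' - n| < R ∧ F c n' := by
  have hcard : ∀ M : ℕ, M ^ Nat.card Unit = M := by simp
  obtain ⟨r1, hr1, hr1b, hr1c⟩ := exists_red Unit R Q
  rw [hcard] at hr1b
  obtain ⟨r2, hr2, hr2b, hr2c⟩ := exists_red Unit R (redB (2 * R + 1) Q)
  rw [hcard] at hr2b
  obtain ⟨r3, hr3, hr3b, hr3c⟩ := exists_red Unit R (redB (2 * R + 1) (redB (2 * R + 1) Q))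
  rw [hcard] at hr3b
  obtain ⟨r4, hr4, hr4b, hr4c⟩ := exists_red Unit R
    (redB (2 * R + 1) (redB (2 * R + 1) (redB (2 * R + 1) Q)))
  rw [hcard] at hr4b
  obtain ⟨F, hF, hF2⟩ := exists_greedy Unit R hR (redB (2 * R + 1) (redB (2 * R + 1)
    (redB (2 * R + 1) (redB (2 * R + 1) Q))))
  have hrule : GT.IsRule (fun c => F (r4 (r3 (r2 (r1 c))))) (kap4 R Q) := by
    have h1 := GT.IsRule.comp hr1 (GT.IsRule.comp hr2 (GT.IsRule.comp hr3 (GT.IsRule.comp hr4 hF)))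
    have h2 : R + (R + (R + (R + R * redB (2 * R + 1) (redB (2 * R + 1)
        (redB (2 * R + 1) (redB (2 * R + 1) Q)))))) = kap4 R Q := by
      unfold kap4
      ring
    rw [← h2]
    exact h1
  refine ⟨fun c n => F (r4 (r3 (r2 (r1 (fun m => c (m ())))))) (fun _ => n), ?_, fun c hc => ?_⟩
  · intro c c' n n' h
    refine hrule (fun m => c (m ())) (fun m => c' (m ())) (fun _ => n) (fun _ => n') fun δ hδ => ?_
    exact h (δ ()) (hδ ())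
  · have hc' : ∀ n : Unit → ℤ, (fun m : Unit → ℤ => c (m ())) n ≤ Q := fun n => hc _
    have hb1 := hr1b _ hc'
    have hb2 := hr2b _ hb1
    have hb3 := hr3b _ hb2
    have hb4 := hr4b _ hb3
    obtain ⟨h1, h2⟩ := hF2 _ hb4
    refine ⟨fun n n' hn hFn hFn' => ?_, fun n => ?_⟩
    · have h3 := h1 (fun _ => n) (fun _ => n') (fun _ => hn) hFn hFn'
      by_contra hne
      exact hr4c _ hb3 (fun _ => n) (fun _ => n') (fun _ => hn.le)
        (hr3c _ hb2 (fun _ => n) (fun _ => n') (fun _ => hn.le)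
        (hr2c _ hb1 _ _ (fun _ => hn.le)
          (hr1c _ hc' (fun _ => n) (fun _ => n') (fun _ => hn.le) hne))) h3
    · obtain ⟨n', hn', hFn'⟩ := h2 (fun _ => n)
      exact ⟨n' (), hn' (), hFn'⟩

theorem kap4_mono {R Q Q' : ℕ} (h : Q ≤ Q') : kap4 R Q ≤ kap4 R Q' := by
  unfold kap4
  have := Nat.mul_le_mul_left R (redB_mono (M := 2 * R + 1) (redB_mono (M := 2 * R + 1)
    (redB_mono (M := 2 * R + 1) (redB_mono (M := 2 * R + 1) h))))
  omega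

/-- The parameters: `H` is large, and `Q` is the number of the codes. -/
theorem exists_param4 (A R a H₀ b : ℕ) :
    ∃ H : ℕ, H₀ ≤ H ∧ kap4 R ((2 ^ 2 ^ 2 ^ (H ^ A) + 1) ^ a) + b ≤ H := by
  obtain ⟨M, hM⟩ : ∃ M, M = 2 * R + 1 := ⟨_, rfl⟩
  obtain ⟨t, ht₀, ht1, ht⟩ := exists_t' M
    (4 * R + b + R * (2 * (M * (A + a + 3 * M + 9) + 1)) ^ M) H₀
  refine ⟨2 ^ t, ht₀.trans Nat.lt_two_pow_self.le, le_trans ?_ ht⟩
  have hpos : 1 ≤ t ^ M := Nat.one_le_pow _ _ ht1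
  obtain ⟨Y, hY⟩ : ∃ Y, Y = (2 ^ t) ^ A := ⟨_, rfl⟩
  rw [← hY]
  -- the first logarithm
  have h1 : Nat.log 2 ((2 ^ 2 ^ 2 ^ Y + 1) ^ a) + 1 ≤ 2 ^ (2 ^ Y + a + 1) := by
    have h2 : (2 ^ 2 ^ 2 ^ Y + 1) ^ a ≤ 2 ^ ((2 ^ 2 ^ Y + 1) * a) := by
      rw [pow_mul]
      refine Nat.pow_le_pow_left ?_ _
      rw [pow_succ]
      have : 1 ≤ 2 ^ 2 ^ 2 ^ Y := Nat.one_le_two_pow
      omega
    have h3 : Nat.log 2 ((2 ^ 2 ^ 2 ^ Y + 1) ^ a) ≤ (2 ^ 2 ^ Y + 1) * a := by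
      refine (Nat.log_mono_right h2).trans ?_
      rw [Nat.log_pow (by norm_num)]
    have h4 : a + 1 ≤ 2 ^ a := Nat.lt_two_pow_self
    have h5 : 1 ≤ 2 ^ 2 ^ Y := Nat.one_le_two_pow
    calc Nat.log 2 ((2 ^ 2 ^ 2 ^ Y + 1) ^ a) + 1
        ≤ (2 ^ 2 ^ Y + 1) * a + 1 := by omega
      _ ≤ (2 ^ 2 ^ Y * 2) * (a + 1) := by nlinarith
      _ ≤ (2 ^ 2 ^ Y * 2) * 2 ^ a := Nat.mul_le_mul_left _ h4
      _ = 2 ^ (2 ^ Y + a + 1) := by
          rw [pow_add, pow_add]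
          ring
  have h6 : Nat.log 2 (redB M ((2 ^ 2 ^ 2 ^ Y + 1) ^ a)) ≤ M * (2 ^ Y + a + 3) := by
    refine (log_redB _ _).trans (Nat.mul_le_mul_left _ ?_)
    have := Nat.log_mono_right (b := 2) h1
    rw [Nat.log_pow (by norm_num)] at this
    omega
  -- the second logarithm
  have h7 : M * (2 ^ Y + a + 3) + 1 ≤ 2 ^ (Y + a + M + 3) := by
    have h4 : a + 1 ≤ 2 ^ a := Nat.lt_two_pow_self
    have h8 : M + 1 ≤ 2 ^ M := Nat.lt_two_pow_self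
    have h9 : 1 ≤ 2 ^ Y := Nat.one_le_two_pow
    have h10 : 2 ^ Y + a + 3 ≤ 2 ^ Y * (a + 1) * 4 := by nlinarith
    calc M * (2 ^ Y + a + 3) + 1 ≤ M * (2 ^ Y * (a + 1) * 4) + 2 ^ Y * (a + 1) * 4 := by nlinarith
      _ = 2 ^ Y * (a + 1) * (M + 1) * 4 := by ring
      _ ≤ 2 ^ Y * 2 ^ a * 2 ^ M * 4 := by gcongr
      _ ≤ 2 ^ Y * 2 ^ a * 2 ^ M * 8 := by nlinarith [Nat.zero_le (2 ^ Y * 2 ^ a * 2 ^ M)]
      _ = 2 ^ (Y + a + M + 3) := by
          rw [pow_add, pow_add, pow_add, show (2 : ℕ) ^ 3 = 8 from rfl]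
  have h11 : Nat.log 2 (redB M (redB M ((2 ^ 2 ^ 2 ^ Y + 1) ^ a))) ≤ M * (Y + a + M + 5) := by
    refine (log_redB _ _).trans (Nat.mul_le_mul_left _ ?_)
    have h12 : Nat.log 2 (redB M ((2 ^ 2 ^ 2 ^ Y + 1) ^ a)) + 1 ≤ 2 ^ (Y + a + M + 3) := by omega
    have := Nat.log_mono_right (b := 2) h12
    rw [Nat.log_pow (by norm_num)] at this
    omega
  -- the third logarithm
  have hA : Y = 2 ^ (t * A) := by rw [hY, ← pow_mul]
  have h13 : M * (Y + a + M + 5) + 1 ≤ 2 ^ (t * A + a + 2 * M + 4) := by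
    rw [hA]
    have h4 : a + 1 ≤ 2 ^ a := Nat.lt_two_pow_self
    have h8 : M + 1 ≤ 2 ^ M := Nat.lt_two_pow_self
    have h9 : 1 ≤ 2 ^ (t * A) := Nat.one_le_two_pow
    have h10 : 2 ^ (t * A) + a + M + 5 ≤ 2 ^ (t * A) * (a + 1) * (M + 1) * 8 := by
      have e1 : a + M + 1 ≤ (a + 1) * (M + 1) := by nlinarith
      have e2 : 1 ≤ (a + 1) * (M + 1) := Nat.mul_pos (by omega) (by omega)
      have e3 : (a + 1) * (M + 1) ≤ 2 ^ (t * A) * ((a + 1) * (M + 1)) :=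
        Nat.le_mul_of_pos_left _ (by omega)
      have e4 : 2 ^ (t * A) ≤ 2 ^ (t * A) * ((a + 1) * (M + 1)) :=
        Nat.le_mul_of_pos_right _ (by omega)
      calc 2 ^ (t * A) + a + M + 5 ≤ 8 * (2 ^ (t * A) * ((a + 1) * (M + 1))) := by omega
        _ = 2 ^ (t * A) * (a + 1) * (M + 1) * 8 := by ring
    calc M * (2 ^ (t * A) + a + M + 5) + 1
        ≤ M * (2 ^ (t * A) * (a + 1) * (M + 1) * 8) + 2 ^ (t * A) * (a + 1) * (M + 1) * 8 := by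
          refine Nat.add_le_add (Nat.mul_le_mul_left _ h10) ?_
          have : 1 ≤ 2 ^ (t * A) * (a + 1) * (M + 1) :=
            Nat.mul_pos (Nat.mul_pos (by omega) (by omega)) (by omega)
          omega
      _ = 2 ^ (t * A) * (a + 1) * ((M + 1) * (M + 1)) * 8 := by ring
      _ ≤ 2 ^ (t * A) * 2 ^ a * (2 ^ M * 2 ^ M) * 8 := by gcongr
      _ ≤ 2 ^ (t * A) * 2 ^ a * (2 ^ M * 2 ^ M) * 16 := by
          nlinarith [Nat.zero_le (2 ^ (t * A) * 2 ^ a * (2 ^ M * 2 ^ M))]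
      _ = 2 ^ (t * A + a + 2 * M + 4) := by
          rw [show t * A + a + 2 * M + 4 = t * A + a + (M + M) + 4 by ring, pow_add, pow_add,
            pow_add, pow_add, show (2 : ℕ) ^ 4 = 16 from rfl]
  have h14 : Nat.log 2 (redB M (redB M (redB M ((2 ^ 2 ^ 2 ^ Y + 1) ^ a)))) ≤
      M * (t * A + a + 2 * M + 6) := by
    refine (log_redB _ _).trans (Nat.mul_le_mul_left _ ?_)
    have h15 : Nat.log 2 (redB M (redB M ((2 ^ 2 ^ 2 ^ Y + 1) ^ a))) + 1 ≤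
        2 ^ (t * A + a + 2 * M + 4) := by omega
    have := Nat.log_mono_right (b := 2) h15
    rw [Nat.log_pow (by norm_num)] at this
    omega
  -- the last one
  have h16 : redB M (redB M (redB M (redB M ((2 ^ 2 ^ 2 ^ Y + 1) ^ a)))) ≤
      (2 * (M * (A + a + 3 * M + 9) + 1)) ^ M * t ^ M := by
    rw [← Nat.mul_pow]
    conv_lhs => unfold redB
    refine Nat.pow_le_pow_left ?_ _
    have h17 : M * (t * A + a + 2 * M + 6) + 1 ≤ (M * (A + a + 3 * M + 9) + 1) * t := by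
      have h18 : t * A + a + 2 * M + 6 ≤ (A + a + 3 * M + 9) * t := by nlinarith
      calc M * (t * A + a + 2 * M + 6) + 1 ≤ M * ((A + a + 3 * M + 9) * t) + t :=
            Nat.add_le_add (Nat.mul_le_mul_left _ h18) ht1
        _ = (M * (A + a + 3 * M + 9) + 1) * t := by ring
    calc 2 * (Nat.log 2 (redB M (redB M (redB M ((2 ^ 2 ^ 2 ^ Y + 1) ^ a)))) + 1)
        ≤ 2 * (M * (t * A + a + 2 * M + 6) + 1) := by omega
      _ ≤ 2 * ((M * (A + a + 3 * M + 9) + 1) * t) := Nat.mul_le_mul_left _ h17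
      _ = 2 * (M * (A + a + 3 * M + 9) + 1) * t := by ring
  unfold kap4
  rw [← hM]
  calc 4 * R + R * redB M (redB M (redB M (redB M ((2 ^ 2 ^ 2 ^ Y + 1) ^ a)))) + b
      ≤ 4 * R + R * ((2 * (M * (A + a + 3 * M + 9) + 1)) ^ M * t ^ M) + b := by
        have := Nat.mul_le_mul_left R h16
        omega
    _ = (4 * R + b) * 1 + R * (2 * (M * (A + a + 3 * M + 9) + 1)) ^ M * t ^ M := by ring
    _ ≤ (4 * R + b) * t ^ M + R * (2 * (M * (A + a + 3 * M + 9) + 1)) ^ M * t ^ M :=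
        Nat.add_le_add_right (Nat.mul_le_mul_left _ hpos) _
    _ = (4 * R + b + R * (2 * (M * (A + a + 3 * M + 9) + 1)) ^ M) * t ^ M := by ring

end Pool.Agent.GLN
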