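import Pool.Agent.Lib.MP_98022b_gln.SeqDefs

/-!
# Periodic windows and their two-sided extensions

`P : ℤ → Option V` is a sequence of states, `Γ` acts on `V`. If `γ` shifts a long window of `P` by
`k`, then there is a unique `γ`-equivariant extension of the window, and it does not depend on the
choice of `γ` and `k` if the pointwise stabilizers of two windows agree.
-/

set_option autoImplicit false

open Set

namespace Pool.Agent.CCM

section

variable {Γ V : Type} [Group Γ] [MulAction Γ V]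

/-- The states of the window of radius `a`. -/
def wset (P : ℤ → Option V) (a : ℤ) : Set V := {v | ∃ j : ℤ, |j| ≤ a ∧ P j = some v}

theorem wset_mono (P : ℤ → Option V) {a b : ℤ} (h : a ≤ b) : wset P a ⊆ wset P b := by
  rintro v ⟨j, hj, hv⟩
  exact ⟨j, hj.trans h, hv⟩

theorem wset_finite (P : ℤ → Option V) (a : ℤ) : (wset P a).Finite := by
  have h1 : (Set.Icc (-a) a).Finite := Set.finite_Icc _ _
  have h2 := (h1.image P)
  refine Set.Finite.subset (h2.preimage (f := some) (fun x _ y _ h => Option.some.inj h)) ?_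
  rintro v ⟨j, hj, hv⟩
  exact ⟨j, abs_le.1 hj, hv⟩

theorem wset_smul (g : Γ) {P P' : ℤ → Option V} (h : ∀ c, P' c = g • P c) (a : ℤ) :
    wset P' a = (fun v => g • v) '' wset P a := by
  ext v
  constructor
  · rintro ⟨j, hj, hv⟩
    rw [h] at hv
    refine ⟨g⁻¹ • v, ⟨j, hj, ?_⟩, smul_inv_smul _ _⟩
    rw [← Option.smul_some, ← hv, inv_smul_smul]
  · rintro ⟨w, ⟨j, hj, hw⟩, rfl⟩
    exact ⟨j, hj, by rw [h, hw, Option.smul_some]⟩

theorem mem_fix_iff {P : ℤ → Option V} {a : ℤ} {c : Γ} :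
    c ∈ fixingSubgroup Γ (wset P a) ↔ ∀ j : ℤ, |j| ≤ a → c • P j = P j := by
  rw [mem_fixingSubgroup_iff]
  constructor
  · intro h j hj
    rcases hP : P j with _ | v
    · rw [Option.smul_none]
    · rw [Option.smul_some, h v ⟨j, hj, hP⟩]
  · rintro h v ⟨j, hj, hv⟩
    have := h j hj
    rw [hv, Option.smul_some] at this
    exact Option.some.inj this

/-- `γ` normalises `J`. -/
def Nrm (J : Subgroup Γ) (γ : Γ) : Prop := ∀ c ∈ J, γ * c * γ⁻¹ ∈ J ∧ γ⁻¹ * c * γ ∈ J

theorem Nrm.pow {J : Subgroup Γ} {γ : Γ} (h : Nrm J γ) (m : ℤ) : Nrm J (γ ^ m) := by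
  induction m using Int.induction_on with
  | zero =>
    intro c hc
    simpa using hc
  | succ m ih =>
    intro c hc
    constructor
    · have h1 := (ih _ (h c hc).1).1
      convert h1 using 1
      group
    · have h1 := (h _ (ih c hc).2).2
      convert h1 using 1
      group
  | pred m ih =>
    intro c hc
    constructor
    · have h1 := (ih _ (h c hc).2).1
      convert h1 using 1
      group
    · have h1 := (h _ (ih c hc).2).1
      convert h1 using 1
      group

theorem mul_zpow_nrm {J : Subgroup Γ} {γ c : Γ} (h : Nrm J γ) (hc : c ∈ J) (m : ℤ) :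
    ∃ c' ∈ J, (γ * c) ^ m = γ ^ m * c' := by
  induction m using Int.induction_on with
  | zero => exact ⟨1, J.one_mem, by simp⟩
  | succ m ih =>
    obtain ⟨c', hc', e⟩ := ih
    refine ⟨γ⁻¹ * c' * γ * c, J.mul_mem (h c' hc').2 hc, ?_⟩
    rw [zpow_add_one, e, zpow_add_one]
    group
  | pred m ih =>
    obtain ⟨c', hc', e⟩ := ih
    refine ⟨γ * (c' * c⁻¹) * γ⁻¹, (h _ (J.mul_mem hc' (J.inv_mem hc))).1, ?_⟩
    rw [zpow_sub_one, e, zpow_sub_one]
    group

theorem pow_ext {Q : ℤ → Option V} {γ : Γ} {k : ℤ} (h : ∀ j, γ • Q j = Q (j + k)) (m : ℤ) (j : ℤ) :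
    γ ^ m • Q j = Q (j + m * k) := by
  induction m using Int.induction_on with
  | zero => simp
  | succ m ih =>
    rw [add_comm (m : ℤ) 1, zpow_add, zpow_one, mul_smul, ih, h]
    congr 1
    ring
  | pred m ih =>
    rw [sub_eq_add_neg, add_comm (-(m : ℤ)) (-1), zpow_add, mul_smul, ih, zpow_neg_one,
      inv_smul_eq_iff, h]
    congr 1
    ring

/-- Powers on a window. -/
theorem pow_win {P : ℤ → Option V} {γ : Γ} {k ρ : ℤ} (h : ∀ j : ℤ, |j| ≤ ρ → γ • P j = P (j + k))
    (m : ℕ) (i : ℤ) (hi : |i| ≤ ρ) (hi' : |i + m * k| ≤ ρ) : γ ^ m • P i = P (i + m * k) := by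
  induction m with
  | zero => simp
  | succ m ih =>
    have h1 : |i + m * k| ≤ ρ := by
      have h2 := abs_le.1 hi
      have h3 := abs_le.1 hi'
      push_cast at h3
      rcases le_total 0 k with hk | hk
      · have : 0 ≤ (m : ℤ) * k := by positivity
        rw [abs_le]
        constructor <;> nlinarith
      · have : (m : ℤ) * k ≤ 0 := mul_nonpos_of_nonneg_of_nonpos (by positivity) hk
        rw [abs_le]
        constructor <;> nlinarith
    rw [pow_succ', mul_smul, ih h1, h _ h1]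
    congr 1
    push_cast
    ring

theorem emod_abs {j k : ℤ} (hk : 0 < |k|) : 0 ≤ j % k ∧ j % k < |k| :=
  ⟨Int.emod_nonneg _ (abs_pos.1 hk), Int.emod_lt_abs _ (abs_pos.1 hk)⟩

theorem exists_ext {P : ℤ → Option V} {γ : Γ} {k ρ : ℤ} (hk : 0 < |k|) (hkρ : |k| ≤ ρ)
    (h : ∀ j : ℤ, |j| ≤ ρ → γ • P j = P (j + k)) :
    ∃ Q : ℤ → Option V, (∀ j, γ • Q j = Q (j + k)) ∧ ∀ j : ℤ, |j| ≤ ρ → Q j = P j := by
  refine ⟨fun j => γ ^ (j / k) • P (j % k), fun j => ?_, fun j hj => ?_⟩
  · have hk0 : k ≠ 0 := abs_pos.1 hk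
    have e1 : (j + k) / k = 1 + j / k := by
      rw [Int.add_ediv_of_dvd_right (dvd_refl k), Int.ediv_self hk0, add_comm]
    have e2 : (j + k) % k = j % k := by simp
    show γ • γ ^ (j / k) • P (j % k) = γ ^ ((j + k) / k) • P ((j + k) % k)
    rw [e1, e2, zpow_add, zpow_one, mul_smul]
  · obtain ⟨h0, h1⟩ := emod_abs (j := j) hk
    have h2 : |j % k| ≤ ρ := by
      rw [abs_le]
      constructor <;> linarith
    have e : j % k + k * (j / k) = j := Int.emod_add_mul_ediv j k
    show γ ^ (j / k) • P (j % k) = P j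
    rcases le_total 0 (j / k) with hm | hm
    · obtain ⟨m, hm⟩ := Int.eq_ofNat_of_zero_le hm
      rw [hm] at e ⊢
      rw [zpow_natCast, pow_win h m _ h2 (by rwa [mul_comm, e]), mul_comm, e]
    · obtain ⟨m, hm⟩ := Int.eq_ofNat_of_zero_le (neg_nonneg.2 hm)
      have hm' : j / k = -(m : ℤ) := by linarith
      rw [hm'] at e ⊢
      have e' : j + (m : ℤ) * k = j % k := by linarith
      rw [zpow_neg, zpow_natCast, inv_smul_eq_iff, pow_win h m j hj (by rwa [e']), e']

theorem ext_unique {Q Q' : ℤ → Option V} {γ : Γ} {k : ℤ} (hk : 0 < |k|)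
    (h : ∀ j, γ • Q j = Q (j + k)) (h' : ∀ j, γ • Q' j = Q' (j + k))
    (e : ∀ j : ℤ, 0 ≤ j → j < |k| → Q j = Q' j) : Q = Q' := by
  funext j
  obtain ⟨h0, h1⟩ := emod_abs (j := j) hk
  have e1 : j % k + (j / k) * k = j := by
    rw [mul_comm]
    exact Int.emod_add_mul_ediv j k
  rw [← e1, ← pow_ext h, ← pow_ext h', e _ h0 h1]

/-- A shift of the window normalises the pointwise stabilizer. -/
theorem nrm_of_shift {P : ℤ → Option V} {γ : Γ} {k ρ a b : ℤ}
    (h : ∀ j : ℤ, |j| ≤ ρ → γ • P j = P (j + k)) (hb : a + |k| ≤ b) (hρ : a + |k| ≤ ρ)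
    (hJ : fixingSubgroup Γ (wset P a) = fixingSubgroup Γ (wset P b)) :
    Nrm (fixingSubgroup Γ (wset P a)) γ := by
  intro c hc
  have hc' := hc
  rw [hJ] at hc'
  rw [mem_fix_iff] at hc'
  constructor
  · rw [mem_fix_iff]
    intro j hj
    have h1 : |j - k| ≤ a + |k| := (abs_sub _ _).trans (by linarith)
    have e1 : P j = γ • P (j - k) := by
      rw [h _ (h1.trans hρ)]
      congr 1
      ring
    have e2 : γ⁻¹ • P j = P (j - k) := by rw [e1, inv_smul_smul]
    rw [mul_smul, mul_smul, e2, hc' _ (h1.trans hb), ← e1]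
  · rw [mem_fix_iff]
    intro j hj
    have h1 : |j + k| ≤ a + |k| := (abs_add_le _ _).trans (by linarith)
    have h2 : |j| ≤ ρ := hj.trans (by linarith [abs_nonneg k])
    rw [mul_smul, mul_smul, h _ h2, hc' _ (h1.trans hb), ← h _ h2, inv_smul_smul]

/-- The extension does not depend on the choices. -/
theorem ext_eq {P Q Q' : ℤ → Option V} {γ γ' : Γ} {k k' ρ a b R : ℤ} (hk : 0 < |k|)
    (hkR : |k| ≤ R) (hk' : 0 < |k'|) (hkR' : |k'| ≤ R) (ha : R ≤ a) (hb : a + R ≤ b)
    (hρ : a + 2 * R ≤ ρ) (hJ : fixingSubgroup Γ (wset P a) = fixingSubgroup Γ (wset P b))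
    (h : ∀ j, γ • Q j = Q (j + k)) (hQ : ∀ j : ℤ, |j| ≤ ρ → Q j = P j)
    (h' : ∀ j, γ' • Q' j = Q' (j + k')) (hQ' : ∀ j : ℤ, |j| ≤ ρ → Q' j = P j) : Q = Q' := by
  have hR : 0 < R := hk.trans_le hkR
  have hρ' : a + R ≤ ρ := by linarith
  -- the shifts on the window
  have hw : ∀ j : ℤ, |j| ≤ a + R → γ • P j = P (j + k) := by
    intro j hj
    have h1 : |j + k| ≤ ρ := (abs_add_le _ _).trans (by linarith)
    rw [← hQ j (hj.trans hρ'), h, hQ _ h1]
  have hw' : ∀ j : ℤ, |j| ≤ a + R → γ' • P j = P (j + k') := by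
    intro j hj
    have h1 : |j + k'| ≤ ρ := (abs_add_le _ _).trans (by linarith)
    rw [← hQ' j (hj.trans hρ'), h', hQ' _ h1]
  have hN : Nrm (fixingSubgroup Γ (wset P a)) γ :=
    nrm_of_shift hw (by linarith) (by linarith) hJ
  -- the conjugate
  obtain ⟨Q'', hQ''⟩ : ∃ Q'' : ℤ → Option V, ∀ j, Q'' j = γ' • Q (j - k') := ⟨_, fun _ => rfl⟩
  have hg : ∀ j, (γ' * γ * γ'⁻¹) • Q'' j = Q'' (j + k) := by
    intro j
    rw [hQ'', hQ'', ← mul_smul, inv_mul_cancel_right, mul_smul, h]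
    congr 2
    ring
  have hP'' : ∀ j : ℤ, |j| ≤ a → Q'' j = P j := by
    intro j hj
    have h1 : |j - k'| ≤ a + R := (abs_sub _ _).trans (by linarith)
    rw [hQ'', hQ _ (h1.trans hρ'), hw' _ h1, sub_add_cancel]
  have hP2 : ∀ j : ℤ, |j| ≤ a → Q'' (j + k) = P (j + k) := by
    intro j hj
    have h1 : |j + k - k'| ≤ a + 2 * R :=
      (abs_sub _ _).trans (by linarith [abs_add_le j k])
    have h1' : j + k - k' = j - k' + k := by ring
    have h2 : |j - k'| ≤ a + R := (abs_sub _ _).trans (by linarith)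
    rw [hQ'', h1', ← h, hQ _ (h2.trans hρ'), hw _ h2, ← h1', ← hQ _ (h1.trans hρ)]
    -- `γ' • P (j + k - k')` : use the second extension
    have h3 : Q (j + k - k') = Q' (j + k - k') := by
      rw [hQ _ (h1.trans hρ), hQ' _ (h1.trans hρ)]
    have h4 : |j + k| ≤ ρ := (abs_add_le _ _).trans (by linarith)
    rw [h3, h', sub_add_cancel, hQ' _ h4]
  have hc : γ⁻¹ * (γ' * γ * γ'⁻¹) ∈ fixingSubgroup Γ (wset P a) := by
    rw [mem_fix_iff]
    intro j hj
    have h1 : |j| ≤ a + R := hj.trans (by linarith)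
    rw [mul_smul, ← hP'' j hj, hg, hP2 j hj, hP'' j hj, ← hw j h1, inv_smul_smul]
  have hQQ : Q'' = Q := by
    funext j
    obtain ⟨h0, h1⟩ := emod_abs (j := j) hk
    have e1 : j % k + (j / k) * k = j := by
      rw [mul_comm]
      exact Int.emod_add_mul_ediv j k
    have h2 : |j % k| ≤ a := by
      rw [abs_le]
      constructor <;> linarith
    obtain ⟨c', hc', e2⟩ := mul_zpow_nrm hN hc (j / k)
    rw [mul_inv_cancel_left] at e2
    rw [← e1, ← pow_ext hg, ← pow_ext h, e2, hP'' _ h2, hQ _ (h2.trans (by linarith)), mul_smul]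
    rw [mem_fix_iff] at hc'
    rw [hc' _ h2]
  refine ext_unique hk' (fun j => ?_) h' (fun j h0 h1 => ?_)
  · have h1 := hQ'' (j + k')
    rw [add_sub_cancel_right] at h1
    rw [← h1, hQQ]
  · have h2 : |j| ≤ ρ := by
      rw [abs_le]
      constructor <;> linarith
    rw [hQ _ h2, hQ' _ h2]

/-- The stabilizer of an extension up to a shift. -/
theorem stab_ext {P Q : ℤ → Option V} {γ : Γ} {k ρ a b R : ℤ} (hk : 0 < |k|)
    (hkR : |k| ≤ R) (ha : R ≤ a) (hb : a + R ≤ b)
    (hρ : a + 2 * R ≤ ρ) (hJ : fixingSubgroup Γ (wset P a) = fixingSubgroup Γ (wset P b))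
    (h : ∀ j, γ • Q j = Q (j + k)) (hQ : ∀ j : ℤ, |j| ≤ ρ → Q j = P j) :
    ∃ t : Γ, Nrm (fixingSubgroup Γ (wset P a)) t ∧ ∀ n : Γ, (∃ s : ℤ, ∀ j, n • Q j = Q (j + s)) →
      n ∈ fixingSubgroup Γ (wset P a) ⊔ Subgroup.zpowers t := by
  have hR : 0 < R := hk.trans_le hkR
  have hw : ∀ j : ℤ, |j| ≤ a + R → γ • P j = P (j + k) := by
    intro j hj
    have h1 : |j + k| ≤ ρ := (abs_add_le _ _).trans (by linarith)
    rw [← hQ j (by linarith), h, hQ _ h1]
  have hN : Nrm (fixingSubgroup Γ (wset P a)) γ :=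
    nrm_of_shift hw (by linarith) (by linarith) hJ
  have hfix : ∀ c : Γ, c ∈ fixingSubgroup Γ (wset P a) ↔ ∀ j, c • Q j = Q j := by
    intro c
    constructor
    · intro hc j
      obtain ⟨h0, h1⟩ := emod_abs (j := j) hk
      have e1 : j % k + (j / k) * k = j := by
        rw [mul_comm]
        exact Int.emod_add_mul_ediv j k
      have h2 : |j % k| ≤ a := by
        rw [abs_le]
        constructor <;> linarith
      have h3 := ((hN.pow (j / k)) c hc).2
      rw [mem_fix_iff] at h3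
      have h4 := h3 _ h2
      rw [← e1, ← pow_ext h, hQ _ (h2.trans (by linarith)), ← mul_smul]
      rw [mul_smul, mul_smul, inv_smul_eq_iff] at h4
      rw [mul_smul, h4]
    · intro hc
      rw [mem_fix_iff]
      intro j hj
      rw [← hQ _ (hj.trans (by linarith)), hc]
  -- the shifts
  let S : AddSubgroup ℤ :=
    { carrier := {s | ∃ n : Γ, ∀ j, n • Q j = Q (j + s)}
      zero_mem' := ⟨1, fun j => by simp⟩
      add_mem' := by
        rintro s s' ⟨n, hn⟩ ⟨n', hn'⟩
        refine ⟨n' * n, fun j => ?_⟩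
        rw [mul_smul, hn, hn']
        congr 1
        ring
      neg_mem' := by
        rintro s ⟨n, hn⟩
        refine ⟨n⁻¹, fun j => ?_⟩
        rw [inv_smul_eq_iff, hn]
        congr 1
        ring }
  obtain ⟨s₀, hs₀⟩ := Int.subgroup_cyclic S
  have hmem : s₀ ∈ S := by
    rw [hs₀]
    exact AddSubgroup.subset_closure rfl
  obtain ⟨t, ht⟩ := hmem
  refine ⟨t, fun c hc => ?_, ?_⟩
  · rw [hfix] at hc
    have ht' : ∀ j, t⁻¹ • Q j = Q (j - s₀) := by
      intro j
      rw [inv_smul_eq_iff, ht]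
      congr 1
      ring
    constructor
    · rw [hfix]
      intro j
      rw [mul_smul, mul_smul, ht', hc, ht]
      congr 1
      ring
    · rw [hfix]
      intro j
      rw [mul_smul, mul_smul, ht, hc, ht']
      congr 1
      ring
  · rintro n ⟨s, hn⟩
    have hs : s ∈ S := ⟨n, hn⟩
    rw [hs₀, AddSubgroup.mem_closure_singleton] at hs
    obtain ⟨m, rfl⟩ := hs
    have h1 : t ^ (-m) * n ∈ fixingSubgroup Γ (wset P a) := by
      rw [hfix]
      intro j
      rw [mul_smul, hn, pow_ext ht]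
      congr 1
      simp
    have e : n = t ^ m * (t ^ (-m) * n) := by group
    rw [e]
    exact Subgroup.mul_mem _ (Subgroup.mem_sup_right (Subgroup.zpow_mem_zpowers t m))
      (Subgroup.mem_sup_left h1)

end

end Pool.Agent.CCM
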