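import Pool.Agent.Lib.MP_98022b_gln.SeqCols
import Pool.Agent.Lib.MP_98022b_cc.Mach1
import Pool.Agent.Lib.MP_98022b_cc.Mach2

/-!
# The colours: two-sided extensions and markers

The group `G` is a subgroup of `Γ`, which acts on the set `V` of states.
-/

set_option autoImplicit false

open Set
open scoped Pointwise

namespace Pool.Agent.CCM

open Pool.Agent.GLN

variable {Γ X V : Type} [Group Γ] [MulAction Γ V] {G : Subgroup Γ} {dV : V → V → ℕ} {B W q : ℕ}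

/-- The window of radius `ρ` is shifted by an element of `G`. -/
def Per (G : Subgroup Γ) (P : ℤ → Option V) (R ρ : ℤ) : Prop :=
  ∃ k : ℤ, 0 < |k| ∧ |k| ≤ R ∧ ∃ γ : G, ∀ j : ℤ, |j| ≤ ρ → γ • P j = P (j + k)

theorem Per.smul {P P' : ℤ → Option V} {R ρ : ℤ} (h : Per G P R ρ) (g : G)
    (hP : ∀ c, P' c = g • P c) : Per G P' R ρ := by
  obtain ⟨k, hk, hkR, γ, hγ⟩ := h
  refine ⟨k, hk, hkR, g * γ * g⁻¹, fun j hj => ?_⟩
  rw [hP, hP, ← hγ j hj, ← mul_smul, ← mul_smul, inv_mul_cancel_right]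

theorem Per.mono {P : ℤ → Option V} {R ρ ρ' : ℤ} (h : Per G P R ρ) (hρ : ρ' ≤ ρ) :
    Per G P R ρ' := by
  obtain ⟨k, hk, hkR, γ, hγ⟩ := h
  exact ⟨k, hk, hkR, γ, fun j hj => hγ j (hj.trans hρ)⟩

/-- The sequence `Q` up to shifts. -/
def cls (Q : ℤ → Option V) : Set (ℤ → Option V) := {Q' | ∃ s : ℤ, Q' = fun j => Q (j + s)}

theorem mem_cls (Q : ℤ → Option V) : Q ∈ cls Q := ⟨0, by simp⟩

theorem cls_shift (Q : ℤ → Option V) (σ : ℤ) : cls (fun j => Q (j + σ)) = cls Q := by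
  ext Q'
  constructor
  · rintro ⟨s, rfl⟩
    exact ⟨s + σ, by simp only [add_assoc]⟩
  · rintro ⟨s, rfl⟩
    exact ⟨s - σ, by
      funext j
      congr 1
      ring⟩

theorem smul_cls (g : G) (Q : ℤ → Option V) : g • cls Q = cls (fun j => g • Q j) := by
  ext Q'
  constructor
  · rintro ⟨_, ⟨s, rfl⟩, rfl⟩
    exact ⟨s, rfl⟩
  · rintro ⟨s, rfl⟩
    exact ⟨fun j => Q (j + s), ⟨s, rfl⟩, rfl⟩

/-- The colour by two-sided extensions. -/
def colP (D : SeqData G X V dV B W q) (R a b ρ : ℤ) (g : G) (x : X) (l : Set (ℤ → Option V)) :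
    Prop :=
  D.Dom g x ∧ fixingSubgroup Γ (wset (D.P g x) a) = fixingSubgroup Γ (wset (D.P g x) b) ∧
    ∃ (k : ℤ) (γ : G) (Q : ℤ → Option V), 0 < |k| ∧ |k| ≤ R ∧ (∀ j, γ • Q j = Q (j + k)) ∧
      (∀ j : ℤ, |j| ≤ ρ → Q j = D.P g x j) ∧ l = cls Q

/-- The marker colours: `F` is a rule, `C'` is the beginning of an interval of length `R'`. -/
def colK (D : SeqData G X V dV B W q) (R ρ : ℤ) {r : ℕ} (e : (Fin (2 * r + 1) → Option V) → ℕ)
    (F : (ℤ → ℕ) → ℤ → Prop) (C' : ℤ) (R' : ℕ) (g : G) (x : X) (l : V) : Prop :=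
  D.Dom g x ∧ ¬ Per G (D.P g x) R ρ ∧
    ∃ n : ℤ, (C' ≤ n ∧ n < C' + R') ∧ F (code G e (D.P g x)) n ∧ IsFirst (D.P g x) n l

/-- The labels of the colour `colP`. -/
def goodL (G : Subgroup Γ) (dV : V → V → ℕ) (k₀ : ℕ) (l : Set (ℤ → Option V)) : Prop :=
  ∃ T : Set V, T.Finite ∧ (∃ v ∈ T, ∃ w ∈ T, k₀ ≤ dV v w) ∧ ∃ t : Γ,
    Nrm (fixingSubgroup Γ T) t ∧
      ∀ n : G, n • l = l → (n : Γ) ∈ fixingSubgroup Γ T ⊔ Subgroup.zpowers t

theorem mem_fix_smul {P P' : ℤ → Option V} {h : Γ} (hP : ∀ c, P' c = h • P c) (a : ℤ) (c : Γ) :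
    c ∈ fixingSubgroup Γ (wset P' a) ↔ h⁻¹ * c * h ∈ fixingSubgroup Γ (wset P a) := by
  rw [mem_fix_iff, mem_fix_iff]
  refine forall_congr' fun j => forall_congr' fun _ => ?_
  rw [hP, mul_smul, mul_smul, inv_smul_eq_iff]

/-- The states in a window are far apart. -/
theorem far_wset (D : SeqData G X V dV B W q) {g : G} {x : X} (hx : D.Dom g x) {k₀ : ℕ} {a : ℤ}
    (ha : a ≤ W) (hak : k₀ + 2 * B ≤ 2 * a) :
    ∃ v ∈ wset (D.P g x) a, ∃ w ∈ wset (D.P g x) a, k₀ ≤ dV v w := by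
  obtain ⟨m, hm, v, hv⟩ := D.dense g x hx (-a) (by rw [abs_le]; constructor <;> omega)
    (by rw [abs_le]; constructor <;> omega)
  obtain ⟨m', hm', w, hw⟩ := D.dense g x hx (a - B) (by rw [abs_le]; constructor <;> omega)
    (by rw [abs_le]; constructor <;> omega)
  refine ⟨v, ⟨_, ?_, hv⟩, w, ⟨_, ?_, hw⟩, ?_⟩
  · rw [abs_le]
    constructor <;> omega
  · rw [abs_le]
    constructor <;> omega
  · have h1 := D.dist g x hx _ _ (by rw [abs_le]; constructor <;> omega)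
      (by rw [abs_le]; constructor <;> omega) v w hv hw
    have h2 : (k₀ : ℤ) ≤ |-a + (m : ℤ) - (a - B + m')| := by
      rw [abs_sub_comm]
      refine le_trans ?_ (le_abs_self _)
      omega
    rw [← h1] at h2
    exact_mod_cast h2

theorem isCol_colP (D : SeqData G X V dV B W q) {R a b ρ : ℤ} {k₀ : ℕ}
    (ha : R ≤ a) (hb : a + R ≤ b) (hρ : a + 2 * R ≤ ρ) (haW : a ≤ W) (hak : k₀ + 2 * B ≤ 2 * a) :
    IsCol (goodL G dV k₀) (colP D R a b ρ) := by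
  refine ⟨?_, ?_, ?_⟩
  · rintro g x l l' ⟨-, hJ, k, γ, Q, hk, hkR, hQ, hQP, rfl⟩
      ⟨-, -, k', γ', Q', hk', hkR', hQ', hQP', rfl⟩
    rw [ext_eq (γ := (γ : Γ)) (γ' := (γ' : Γ)) hk hkR hk' hkR' ha hb hρ hJ hQ hQP hQ' hQP']
  · rintro h g x l ⟨hx, hJ, k, γ, Q, hk, hkR, hQ, hQP, rfl⟩
    have hP : ∀ c, D.P (h * g) x c = (h : Γ) • D.P g x c := D.smul h g x
    refine ⟨D.dom_smul h g x hx, ?_, k, h * γ * h⁻¹, fun j => h • Q j, hk, hkR, fun j => ?_,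
      fun j hj => ?_, smul_cls h Q⟩
    · ext c
      rw [mem_fix_smul hP, mem_fix_smul hP, hJ]
    · show (h * γ * h⁻¹) • h • Q j = h • Q (j + k)
      rw [← hQ, ← mul_smul, ← mul_smul, inv_mul_cancel_right]
    · show h • Q j = D.P (h * g) x j
      rw [hQP j hj]
      exact (D.smul h g x j).symm
  · rintro g x l ⟨hx, hJ, k, γ, Q, hk, hkR, hQ, hQP, rfl⟩
    obtain ⟨t, ht, hn⟩ := stab_ext (γ := (γ : Γ)) hk hkR ha hb hρ hJ hQ hQP
    refine ⟨wset (D.P g x) a, wset_finite _ _, far_wset D hx haW hak, t, ht, fun n hnl => ?_⟩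
    refine hn n ?_
    have h1 : (fun j => n • Q j) ∈ n • cls Q := ⟨Q, mem_cls Q, rfl⟩
    rw [hnl] at h1
    obtain ⟨s, hs⟩ := h1
    exact ⟨s, fun j => congrFun hs j⟩

theorem isCol_colK (D : SeqData G X V dV B W q)
    {R ρ : ℤ} {R' Q Z r : ℕ} {e : (Fin (2 * r + 1) → Option V) → ℕ} {F : (ℤ → ℕ) → ℤ → Prop}
    {C' : ℤ} {A : Set (Option V)} (he : ∀ w, e w ≤ Q) (he1 : ∀ w, (∀ t, w t ∈ A) → e w < Q)
    (he2 : ∀ w w', e w < Q → e w = e w' → w = w')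
    (hA : ∀ g x, D.Dom g x → ∀ c : ℤ, |c| ≤ W → g⁻¹ • D.P g x c ∈ A)
    (_hrule : IsRule F Z)
    (hF : ∀ c, (∀ n, c n ≤ Q) → ∀ n n' : ℤ, |n' - n| < R' → F c n → F c n' → c n = c n')
    (hR : R' ≤ R) (hC' : 0 ≤ C') (hr : C' + R' + ρ ≤ r) (hW : r + Z + C' + R' + B ≤ W) :
    IsCol (fun _ => True) (colK D R ρ e F C' R') := by
  refine ⟨?_, ?_, fun _ _ _ _ => trivial⟩
  · rintro g x l l' ⟨hx, hnt, n, hn, hFn, hl⟩ ⟨-, -, n', hn', hFn', hl'⟩
    by_cases hnn : n = n'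
    · subst hnn
      exact hl.unique hl'
    · exfalso
      refine hnt ?_
      have hcode := hF (code G e (D.P g x)) (code_le he _) n n' (by
        rw [abs_lt]
        constructor <;> omega) hFn hFn'
      have hclose : ∀ j : ℤ, |j| ≤ (r : ℤ) → g⁻¹ • D.P g x (n + j) ∈ A := by
        intro j hj
        have h4 := abs_le.1 hj
        exact hA g x hx _ (by rw [abs_le]; constructor <;> omega)
      obtain ⟨γ, hγ⟩ := exists_of_code_eq he1 he2 hclose hcode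
      refine ⟨n' - n, ?_, ?_, γ, fun j hj => ?_⟩
      · rw [abs_pos]
        omega
      · refine le_trans ?_ hR
        rw [abs_le]
        constructor <;> omega
      · have h4 := abs_le.1 hj
        have h5 := hγ (j - n) (by rw [abs_le]; constructor <;> omega)
        rw [show n + (j - n) = j by ring, show n' + (j - n) = j + (n' - n) by ring] at h5
        exact h5
  · rintro h g x l ⟨hx, hnt, n, hn, hFn, hl⟩
    refine ⟨D.dom_smul h g x hx, fun hP => hnt ?_, n, hn, ?_, hl.smul h (D.smul h g x)⟩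
    · refine hP.smul h⁻¹ fun c => ?_
      rw [D.smul, inv_smul_smul]
    · rw [code_smul e h (D.smul h g x)]
      exact hFn

end Pool.Agent.CCM
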