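import Pool.Agent.Lib.MP_98022b_gln.SeqCover
import Pool.Agent.Lib.MP_98022b_cc.Mach3

/-!
# Transfer reducible groups from families of sequences, second form

The pointwise stabilizers of far apart sets of states satisfy a chain condition.
-/

set_option autoImplicit false

open Set
open scoped Pointwise

namespace Pool.Agent.CCM

open Pool.Agent.GLN Pool.Agent.FA

variable {Γ X V : Type} [Group Γ] [MulAction Γ V] {G : Subgroup Γ} {dV : V → V → ℕ} {B W q : ℕ}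

/-- The chain condition for the pointwise stabilizers of finite sets which contain two states of
distance at least `k₀`. -/
def ChainCond (Γ : Type) {V : Type} [Group Γ] [MulAction Γ V] (dV : V → V → ℕ) (k₀ l₀ : ℕ) : Prop :=
  ∀ T : ℕ → Set V, Monotone T → (∀ i, (T i).Finite) → (∃ v ∈ T 0, ∃ w ∈ T 0, k₀ ≤ dV v w) →
    ∃ i < l₀, fixingSubgroup Γ (T i) = fixingSubgroup Γ (T (i + 1))

theorem per_of_sees {P P' : ℤ → Option V} {η : ℕ} {σ R ρ ρ' : ℤ} (hσ : |σ| ≤ η)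
    (hs : ∀ c : ℤ, |c| ≤ W → P' (c + σ) = P c) (h : Per G P R ρ') (hρ : ρ + η ≤ ρ')
    (hW : ρ + η + R ≤ W) : Per G P' R ρ := by
  obtain ⟨k, hk, hkR, γ, hγ⟩ := h
  refine ⟨k, hk, hkR, γ, fun j hj => ?_⟩
  have h1 : |j - σ| ≤ ρ + η := (abs_sub _ _).trans (by linarith)
  have h2 : |j - σ + k| ≤ ρ + η + R := (abs_add_le _ _).trans (by linarith)
  have h3 := hs (j - σ) (h1.trans (by linarith [abs_nonneg k]))
  have h4 := hs (j - σ + k) (h2.trans hW)
  rw [sub_add_cancel] at h3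
  rw [show j - σ + k + σ = j + k by ring] at h4
  rw [h3, h4]
  exact hγ _ (h1.trans hρ)

theorem per_of_sees' {P P' : ℤ → Option V} {η : ℕ} {σ R ρ ρ' : ℤ} (hσ : |σ| ≤ η)
    (hs : ∀ c : ℤ, |c| ≤ W → P' (c + σ) = P c) (h : Per G P' R ρ') (hρ : ρ + η ≤ ρ')
    (hW : ρ + R ≤ W) : Per G P R ρ := by
  obtain ⟨k, hk, hkR, γ, hγ⟩ := h
  refine ⟨k, hk, hkR, γ, fun j hj => ?_⟩
  have h1 : |j + σ| ≤ ρ + η := (abs_add_le _ _).trans (by linarith)
  have h2 : |j + k| ≤ ρ + R := (abs_add_le _ _).trans (by linarith)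
  have h3 := hs j (hj.trans (by linarith [abs_nonneg k]))
  have h4 := hs (j + k) (h2.trans hW)
  rw [← h3, ← h4, hγ _ (h1.trans hρ)]
  congr 1
  ring

theorem common_colP (D : SeqData G X V dV B W q) {k₀ l₀ : ℕ} (hch : ChainCond Γ dV k₀ l₀)
    {η : ℕ} {R a₀ ρ : ℤ} (hR : 0 ≤ R) (ha₀ : k₀ + 2 * B ≤ 2 * a₀)
    (hρ : a₀ + (l₀ + 1) * (R + 2 * η) ≤ ρ) (hW : ρ + 2 * η + R ≤ W)
    {g : G} {x : X} (hx : D.Dom g x) (hP : Per G (D.P g x) R (ρ + η)) :
    ∃ (i : Fin l₀) (l : Set (ℤ → Option V)), ∀ h y, D.Sees η g x h y →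
      colP D R (a₀ + (i : ℕ) * (R + 2 * η) + η) (a₀ + (i : ℕ) * (R + 2 * η) + η + R) ρ h y l := by
  have hη : (0 : ℤ) ≤ η := Int.natCast_nonneg η
  have hl₀ : (0 : ℤ) ≤ l₀ := Int.natCast_nonneg l₀
  have ha0 : 0 ≤ a₀ := by
    have : (0 : ℤ) ≤ k₀ + 2 * B := by positivity
    linarith
  have haρ : a₀ + (R + 2 * η) ≤ ρ := by nlinarith
  obtain ⟨k, hk, hkR, γ, hγ⟩ := hP
  obtain ⟨Q, hQ, hQP⟩ := exists_ext hk (by linarith) hγ
  -- the levels
  obtain ⟨T, hT⟩ : ∃ T : ℕ → Set V, ∀ i, T i = wset (D.P g x) (a₀ + (i : ℕ) * (R + 2 * η)) :=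
    ⟨_, fun _ => rfl⟩
  have hmono : Monotone T := by
    refine monotone_nat_of_le_succ fun i => ?_
    rw [hT, hT]
    refine wset_mono _ ?_
    push_cast
    nlinarith
  obtain ⟨i, hi, hJ⟩ := hch T hmono (fun i => by rw [hT]; exact wset_finite _ _) (by
    rw [hT]
    refine far_wset D hx ?_ ?_ <;> push_cast <;> linarith)
  have hil : ((i : ℕ) : ℤ) + 1 ≤ l₀ := by exact_mod_cast hi
  have hlev : a₀ + ((i : ℕ) + 1) * (R + 2 * η) ≤ ρ := by
    have : ((i : ℕ) + 1) * (R + 2 * η) ≤ (l₀ + 1) * (R + 2 * (η : ℤ)) :=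
      mul_le_mul_of_nonneg_right (by linarith) (by linarith)
    linarith
  have hi0 : (0 : ℤ) ≤ (i : ℕ) * (R + 2 * η) := by positivity
  refine ⟨⟨i, hi⟩, cls Q, fun h y hs => ?_⟩
  obtain ⟨hy, σ, hσ, hs⟩ := hs
  refine ⟨hy, ?_, k, γ, fun j => Q (j - σ), hk, hkR, fun j => ?_, fun j hj => ?_, ?_⟩
  · -- the pointwise stabilizers
    obtain ⟨α, hα⟩ : ∃ α : ℤ, α = a₀ + (i : ℕ) * (R + 2 * η) := ⟨_, rfl⟩
    have hα1 : T i = wset (D.P g x) α := by rw [hT, hα]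
    have hα2 : T (i + 1) = wset (D.P g x) (α + R + 2 * η) := by
      rw [hT, hα]
      congr 1
      push_cast
      ring
    have hαρ : α + R + 2 * η ≤ ρ := by
      rw [hα]
      linarith [hlev]
    have hα0 : 0 ≤ α := by
      rw [hα]
      positivity
    show fixingSubgroup Γ (wset (D.P h y) (a₀ + (i : ℕ) * (R + 2 * η) + η)) =
      fixingSubgroup Γ (wset (D.P h y) (a₀ + (i : ℕ) * (R + 2 * η) + η + R))
    rw [← hα]
    have h1 : T i ⊆ wset (D.P h y) (α + η) := by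
      rw [hα1]
      rintro v ⟨j, hj, hv⟩
      refine ⟨j + σ, (abs_add_le _ _).trans (by linarith), ?_⟩
      rw [hs j (hj.trans (by linarith))]
      exact hv
    have h2 : wset (D.P h y) (α + η + R) ⊆ T (i + 1) := by
      rw [hα2]
      rintro v ⟨j, hj, hv⟩
      have h3 : |j - σ| ≤ α + R + 2 * η := (abs_sub _ _).trans (by linarith)
      refine ⟨j - σ, h3, ?_⟩
      rw [← hs _ (h3.trans (by linarith)), sub_add_cancel]
      exact hv
    have h3 : wset (D.P h y) (α + η) ⊆ wset (D.P h y) (α + η + R) := wset_mono _ (by linarith)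
    refine le_antisymm ?_ (fixingSubgroup_antitone Γ V h3)
    calc fixingSubgroup Γ (wset (D.P h y) (α + η)) ≤ fixingSubgroup Γ (T i) :=
          fixingSubgroup_antitone Γ V h1
      _ = fixingSubgroup Γ (T (i + 1)) := hJ
      _ ≤ fixingSubgroup Γ (wset (D.P h y) (α + η + R)) := fixingSubgroup_antitone Γ V h2
  · show γ • Q (j - σ) = Q (j + k - σ)
    rw [hQ]
    congr 1
    ring
  · show Q (j - σ) = D.P h y j
    have h3 : |j - σ| ≤ ρ + η := (abs_sub _ _).trans (by linarith)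
    rw [hQP _ h3, ← hs _ (h3.trans (by linarith)), sub_add_cancel]
  · have := cls_shift Q (-σ)
    rw [← this]
    rfl

theorem common_colK (D : SeqData G X V dV B W q)
    {η R' Q Z r : ℕ} {R ρ : ℤ} {e : (Fin (2 * r + 1) → Option V) → ℕ} {F : (ℤ → ℕ) → ℤ → Prop}
    (he : ∀ w, e w ≤ Q) (hrule : IsRule F Z)
    (hF : ∀ c, (∀ n, c n ≤ Q) → ∀ n : ℤ, ∃ n', |n' - n| < ((4 * η + 4 : ℕ) : ℤ) ∧ F c n')
    (hR' : R' = 4 * η + 4)
    (hW : ρ + 2 * η + R ≤ W) (hW' : r + Z + 10 * η + 10 + B ≤ W) {g : G} {x : X} (hx : D.Dom g x)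
    (hN : ¬ Per G (D.P g x) R (ρ + η)) :
    ∃ (κ : Fin 4) (l : V), ∀ h y, D.Sees η g x h y →
      colK D R (ρ + 2 * η) e F (((κ : ℕ) : ℤ) * (2 * η + 2)) R' h y l := by
  obtain ⟨n', hn', hFn'⟩ := hF (code G e (D.P g x)) (code_le he _) (5 * η + 4 : ℤ)
  rw [abs_lt] at hn'
  push_cast at hn'
  have hκ : ∃ κ : Fin 4, ((κ : ℕ) : ℤ) * (2 * η + 2) ≤ n' - η ∧
      n' - η < ((κ : ℕ) : ℤ) * (2 * η + 2) + (2 * η + 2) := by
    by_cases h1 : n' - η < 2 * η + 2
    · exact ⟨0, by simp; omega, by simp; omega⟩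
    by_cases h2 : n' - η < 2 * (2 * η + 2)
    · exact ⟨1, by simp; omega, by simp; omega⟩
    by_cases h3 : n' - η < 3 * (2 * η + 2)
    · exact ⟨2, by simp; omega, by simp; omega⟩
    · exact ⟨3, by simp; omega, by simp; omega⟩
  obtain ⟨κ, hκ1, hκ2⟩ := hκ
  obtain ⟨m, hm, l, hl, hl'⟩ := D.exists_first hx (c := n')
    (by rw [abs_le]; constructor <;> omega) (by rw [abs_le]; constructor <;> omega)
  refine ⟨κ, l, fun h y hs => ?_⟩
  obtain ⟨hy, σ, hσ, hs⟩ := hs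
  have hσ' := abs_le.1 hσ
  refine ⟨hy, fun hper => hN (per_of_sees' hσ hs hper (by linarith) (by linarith)), n' + σ,
    ⟨by omega, by subst hR'; push_cast; omega⟩, ?_, ?_⟩
  · have h5 : F (code G e (D.P h y)) (n' + σ) = F (code G e (D.P g x)) n' := by
      refine hrule _ _ _ _ fun δ hδ => ?_
      refine code_congr e fun j hj => ?_
      have h6 := abs_le.1 hj
      have h7 := abs_le.1 hδ
      have h8 := hs (n' + δ + j) (by rw [abs_le]; constructor <;> omega)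
      rw [← h8]
      congr 1
      ring
    rw [h5]
    exact hFn'
  · refine IsFirst.congr hl hl' fun k hk => ?_
    have h8 := hs (n' + k) (by rw [abs_le]; constructor <;> omega)
    rw [← h8]
    congr 1
    ring

/-- The colours of a family of sequences. -/
theorem exists_long_colours {k₀ l₀ : ℕ} (hch : ChainCond Γ dV k₀ l₀) (η B : ℕ) :
    ∃ a b : ℕ, ∀ (X : Type) (W q : ℕ) (D : SeqData G X V dV B W q),
      kap4 (4 * η + 4) ((q + 1) ^ a) + b ≤ W →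
      ∃ (cF : Fin l₀ → G → X → Set (ℤ → Option V) → Prop) (cK : Fin 4 → G → X → V → Prop),
        (∀ j, IsCol (goodL G dV k₀) (cF j)) ∧ (∀ κ, IsCol (fun _ => True) (cK κ)) ∧
        ∀ g x, D.Dom g x → (∃ j l, ∀ h y, D.Sees η g x h y → cF j h y l) ∨
          ∃ κ l, ∀ h y, D.Sees η g x h y → cK κ h y l := by
  classical
  obtain ⟨R, hR⟩ : ∃ R : ℕ, R = 4 * η + 4 := ⟨_, rfl⟩
  obtain ⟨a₀, ha₀⟩ : ∃ a₀ : ℕ, a₀ = R + k₀ + 2 * B := ⟨_, rfl⟩
  obtain ⟨ρ, hρ⟩ : ∃ ρ : ℕ, ρ = a₀ + (l₀ + 1) * (R + 2 * η) + 3 * R := ⟨_, rfl⟩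
  obtain ⟨r, hr⟩ : ∃ r, r = 6 * η + 6 + R + ρ + 2 * η := ⟨_, rfl⟩
  refine ⟨2 * r + 1, r + 10 * η + 10 + B + ρ + 2 * η + R, fun X W q D hW => ?_⟩
  obtain ⟨A₀, hA₀, hcard, hfin⟩ := D.fin
  obtain ⟨Q, hQ⟩ : ∃ Q, Q = (q + 1) ^ (2 * r + 1) := ⟨_, rfl⟩
  rw [← hQ, ← hR] at hW
  have hA1 : (insert none (some '' A₀) : Set (Option V)).Finite := (hA₀.image _).insert _
  have hA1c : (insert none (some '' A₀) : Set (Option V)).ncard ≤ q + 1 := by
    refine (Set.ncard_insert_le _ _).trans ?_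
    have := Set.ncard_image_le (f := some) hA₀
    omega
  have hmem : ∀ g x, D.Dom g x → ∀ c : ℤ, |c| ≤ W →
      g⁻¹ • D.P g x c ∈ (insert none (some '' A₀) : Set (Option V)) := by
    intro g x hx c hc
    rcases hP : D.P g x c with _ | v
    · rw [Option.smul_none]
      exact Set.mem_insert _ _
    · rw [Option.smul_some]
      exact Set.mem_insert_of_mem _ ⟨_, hfin g x hx c hc v hP, rfl⟩
  obtain ⟨e, he, he1, he2⟩ := exists_enc hA1 r Q (by
    rw [hQ]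
    exact Nat.pow_le_pow_left hA1c _)
  obtain ⟨F, hrule, hF⟩ := exists_marks4 R (by omega) Q
  refine ⟨fun i => colP D R (a₀ + ((i : ℕ) : ℤ) * (R + 2 * η) + η)
      (a₀ + ((i : ℕ) : ℤ) * (R + 2 * η) + η + R) ρ,
    fun κ => colK D R (ρ + 2 * η) e F (((κ : ℕ) : ℤ) * (2 * η + 2)) R, ?_, ?_, ?_⟩
  · intro i
    have h0 : (0 : ℤ) ≤ ((i : ℕ) : ℤ) * (R + 2 * η) := by positivity
    have h1 : ((i : ℕ) : ℤ) * (R + 2 * η) ≤ (l₀ + 1) * (R + 2 * η) := by
      refine mul_le_mul_of_nonneg_right ?_ (by positivity)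
      have := i.2
      have h2 : ((i : ℕ) : ℤ) ≤ l₀ := by exact_mod_cast this.le
      linarith
    have h3 : (ρ : ℤ) = a₀ + (l₀ + 1) * (R + 2 * η) + 3 * R := by exact_mod_cast hρ
    have h4 : (η : ℤ) ≤ R := by
      rw [hR]
      push_cast
      omega
    have h5 : (ρ : ℤ) ≤ W := by
      have : ρ ≤ W := by omega
      exact_mod_cast this
    have h6 : (a₀ : ℤ) = R + k₀ + 2 * B := by exact_mod_cast ha₀
    refine isCol_colP D ?_ le_rfl ?_ ?_ ?_
    · linarith [Int.natCast_nonneg k₀, Int.natCast_nonneg B, Int.natCast_nonneg η]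
    · linarith
    · linarith [Int.natCast_nonneg R]
    · linarith [Int.natCast_nonneg k₀, Int.natCast_nonneg B, Int.natCast_nonneg η,
        Int.natCast_nonneg R]
  · intro κ
    have hκ : ((κ : ℕ) : ℤ) * (2 * η + 2) ≤ 6 * η + 6 := by
      have h3 : ((κ : ℕ) : ℤ) ≤ 3 := by
        have := κ.2
        omega
      nlinarith
    have hκ0 : 0 ≤ ((κ : ℕ) : ℤ) * (2 * η + 2) := by positivity
    refine isCol_colK D (Z := kap4 R Q) he he1 he2 hmem hrule (fun c hc => (hF c hc).1) le_rfl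
      hκ0 ?_ ?_
    · rw [hr]
      push_cast
      omega
    · omega
  · intro g x hx
    by_cases hN : Per G (D.P g x) R (ρ + η)
    · left
      have h3 : (ρ : ℤ) = a₀ + (l₀ + 1) * (R + 2 * η) + 3 * R := by exact_mod_cast hρ
      have h6 : (a₀ : ℤ) = R + k₀ + 2 * B := by exact_mod_cast ha₀
      have h7 : (ρ : ℤ) + 2 * η + R ≤ W := by
        have : ρ + 2 * η + R ≤ W := by omega
        exact_mod_cast this
      obtain ⟨i, l, hl⟩ := common_colP D hch (R := R) (a₀ := a₀) (ρ := ρ) (by positivity)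
        (by linarith [Int.natCast_nonneg k₀, Int.natCast_nonneg B, Int.natCast_nonneg R])
        (by linarith [Int.natCast_nonneg R]) h7 hx hN
      exact ⟨i, l, hl⟩
    · right
      have h7 : (ρ : ℤ) + 2 * η + R ≤ W := by
        have : ρ + 2 * η + R ≤ W := by omega
        exact_mod_cast this
      obtain ⟨κ, l, hl⟩ := common_colK D (Z := kap4 R Q) (R' := R) he hrule
        (fun c hc => by rw [← hR]; exact (hF c hc).2) hR h7 (by omega) hx hN
      exact ⟨κ, l, hl⟩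

/-- The interface between the geometry and the coding. `N₀, n₁, n₂` do not depend on `S`, and
`η, B, A₀, H₀` do not depend on `H`. -/
theorem transferReducible_of_seqs (hfg : Group.FG G) {k₀ l₀ : ℕ} (hch : ChainCond Γ dV k₀ l₀)
    (𝓕 : Subgroup G → Prop)
    (hJ : ∀ T : Set V, T.Finite → (∃ v ∈ T, ∃ w ∈ T, k₀ ≤ dV v w) → ∀ t : Γ,
      Nrm (fixingSubgroup Γ T) t → ∀ H : Subgroup G,
      (∀ n ∈ H, (n : Γ) ∈ fixingSubgroup Γ T ⊔ Subgroup.zpowers t) → 𝓕 H)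
    (hV : ∀ v : V, ∀ H : Subgroup G, (∀ h ∈ H, h • v = v) → 𝓕 H) (N₀ n₁ n₂ : ℕ)
    (hgeo : ∀ S : Finset G, (1 : G) ∈ S → ∃ η B A₀ H₀ : ℕ, ∀ H ≥ H₀, ∃ q : ℕ,
      q ≤ 2 ^ 2 ^ 2 ^ (H ^ A₀) ∧ ∃ (X : Type) (_ : TopologicalSpace X), CompactSpace X ∧
      TopologicalSpace.MetrizableSpace X ∧ ContractibleSpace X ∧
      StronglyLocallyContractibleSpace X ∧ CovDimLE X N₀ ∧
      ∃ (θ : HomotopyAction G S X) (cS : Fin n₁ → G → X → V → Prop)
        (D : Fin n₂ → SeqData G X V dV B H q), (∀ j, IsCol (fun _ => True) (cS j)) ∧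
        ∀ g x, (∃ j l, ∀ q ∈ θ.nbhd S.card (g, x), ∀ᶠ y in nhds q.2, cS j q.1 y l) ∨
          ∃ j, (D j).Dom g x ∧
            ∀ q ∈ θ.nbhd S.card (g, x), ∀ᶠ y in nhds q.2, (D j).Sees η g x q.1 y) :
    TransferReducible G 𝓕 := by
  classical
  refine ⟨hfg, max N₀ (n₁ + n₂ * (l₀ + 4)), fun S hS => ?_⟩
  obtain ⟨η, B, A₀, H₀, hgeo⟩ := hgeo S hS
  obtain ⟨a, b, hcol⟩ := exists_long_colours (G := G) hch η B
  obtain ⟨H, hH, hparam⟩ := exists_param4 A₀ (4 * η + 4) a H₀ b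
  obtain ⟨q, hq, X, _, h1, h2, h3, h4, h5, θ, cS, D, hcS, hwide⟩ := hgeo H hH
  have hkap : kap4 (4 * η + 4) ((q + 1) ^ a) + b ≤ H := by
    refine le_trans ?_ hparam
    have hm : (q + 1) ^ a ≤ (2 ^ 2 ^ 2 ^ (H ^ A₀) + 1) ^ a := Nat.pow_le_pow_left (by omega) _
    have := kap4_mono (R := 4 * η + 4) hm
    omega
  choose cF cK hcF hcK hlong using fun j => hcol X H q (D j) hkap
  refine ⟨X, inferInstance, h1, h2, h3, h4, ?_, θ, ?_⟩
  · -- the dimension bound is monotone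
    intro ι O hO hcov
    obtain ⟨κ, W, hW1, hW2, hW3, hW4⟩ := h5 ι O hO hcov
    refine ⟨κ, W, hW1, hW2, hW3, fun x => (hW4 x).trans ?_⟩
    gcongr
    exact le_max_left _ _
  · -- the colours
    let I := Fin n₁ ⊕ (Fin n₂ × (Fin l₀ ⊕ Fin 4))
    let L : I → Type := fun i => match i with
      | Sum.inl _ => V
      | Sum.inr (_, Sum.inl _) => Set (ℤ → Option V)
      | Sum.inr (_, Sum.inr _) => V
    let mL : ∀ i, MulAction G (L i) := fun i => match i with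
      | Sum.inl _ => inferInstanceAs (MulAction G V)
      | Sum.inr (_, Sum.inl _) => inferInstanceAs (MulAction G (Set (ℤ → Option V)))
      | Sum.inr (_, Sum.inr _) => inferInstanceAs (MulAction G V)
    let good : ∀ i, L i → Prop := fun i => match i with
      | Sum.inl _ => fun _ => True
      | Sum.inr (_, Sum.inl _) => goodL G dV k₀
      | Sum.inr (_, Sum.inr _) => fun _ => True
    let c : ∀ i, G → X → L i → Prop := fun i => match i with
      | Sum.inl j => cS j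
      | Sum.inr (j, Sum.inl k) => cF j k
      | Sum.inr (j, Sum.inr k) => cK j k
    refine ⟨_, isLongCover_of_cols θ (ι := I) L good c ?_ (N := max N₀ (n₁ + n₂ * (l₀ + 4))) ?_
      (𝓕 := 𝓕) ?_ (fun p => ⟨p, mem_nbhd θ hS _ p⟩) ?_⟩
    · rintro (j | ⟨j, k | k⟩)
      · exact hcS j
      · exact hcF j k
      · exact hcK j k
    · have : Nat.card I = n₁ + n₂ * (l₀ + 4) := by
        simp [I]
      rw [this]
      have := le_max_right N₀ (n₁ + n₂ * (l₀ + 4))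
      omega
    · rintro (j | ⟨j, k | k⟩) l hl H hH
      · exact hV l H hH
      · obtain ⟨T, hT, hfar, t, ht, hn⟩ : goodL G dV k₀ l := hl
        exact hJ T hT hfar t ht H fun n hnH => hn n (hH n hnH)
      · exact hV l H hH
    · intro g x
      rcases hwide g x with ⟨j, l, h⟩ | ⟨j, hx, h⟩
      · exact ⟨Sum.inl j, l, h⟩
      · rcases hlong j g x hx with ⟨k, l, h'⟩ | ⟨k, l, h'⟩
        · exact ⟨Sum.inr (j, Sum.inl k), l, fun q hq => (h q hq).mono fun y hy => h' _ _ hy⟩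
        · exact ⟨Sum.inr (j, Sum.inr k), l, fun q hq => (h q hq).mono fun y hy => h' _ _ hy⟩

end Pool.Agent.CCM
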