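import Mathlib

/-!
# Median graphs: the halfspaces
-/

set_option autoImplicit false

namespace Pool.Agent.CCC

/-- `X` is a median graph: it is connected, and all vertices `x`, `y`, `z` have a unique median,
that is, a vertex which lies on geodesics between each two of `x`, `y` and `z`. -/
structure IsMedianGraph {V : Type} (X : SimpleGraph V) : Prop where
  conn : X.Connected
  median : ∀ x y z : V, ∃! m : V, X.dist x m + X.dist m y = X.dist x y ∧
    X.dist y m + X.dist m z = X.dist y z ∧ X.dist x m + X.dist m z = X.dist x z

variable {V : Type} {X : SimpleGraph V}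

namespace IsMedianGraph

/-- A first step of a geodesic. -/
theorem exists_step (hc : X.Connected) {x y : V} (h : x ≠ y) :
    ∃ x', X.Adj x x' ∧ X.dist x' y + 1 = X.dist x y := by
  obtain ⟨p, hp⟩ := hc.exists_walk_length_eq_dist x y
  cases p with
  | nil => exact absurd rfl h
  | @cons _ x' _ hadj q =>
    refine ⟨x', hadj, le_antisymm ?_ ?_⟩
    · rw [← hp, SimpleGraph.Walk.length_cons]
      exact Nat.succ_le_succ (SimpleGraph.dist_le q)
    · have h1 := hc.dist_triangle (u := x) (v := x') (w := y)
      rw [SimpleGraph.dist_eq_one_iff_adj.2 hadj] at h1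
      omega

theorem dist_step (hc : X.Connected) {x x' : V} (h : X.Adj x x') (y : V) :
    X.dist x y ≤ X.dist x' y + 1 := by
  have h1 := hc.dist_triangle (u := x) (v := x') (w := y)
  rw [SimpleGraph.dist_eq_one_iff_adj.2 h] at h1
  omega

variable (hX : IsMedianGraph X)
include hX

/-- Median graphs are bipartite. -/
theorem adj_cases {x y : V} (h : X.Adj x y) (z : V) :
    X.dist z y = X.dist z x + 1 ∨ X.dist z x = X.dist z y + 1 := by
  obtain ⟨m, ⟨h1, h2, h3⟩, -⟩ := hX.median x y z
  have hxy := SimpleGraph.dist_eq_one_iff_adj.2 h
  rw [hxy] at h1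
  have e1 := SimpleGraph.dist_comm (G := X) (u := z) (v := y)
  have e2 := SimpleGraph.dist_comm (G := X) (u := z) (v := x)
  have e3 := SimpleGraph.dist_comm (G := X) (u := y) (v := x)
  have e4 := SimpleGraph.dist_comm (G := X) (u := y) (v := m)
  rcases Nat.eq_zero_or_pos (X.dist x m) with h0 | h0
  · have h4 : x = m := hX.conn.dist_eq_zero_iff.1 h0
    subst h4
    left
    omega
  · have h0' : X.dist m y = 0 := by omega
    have h4 : m = y := hX.conn.dist_eq_zero_iff.1 h0'
    subst h4
    right
    omega

/-- The halfspace `{z | z is nearer to x than to y}` of an edge is convex. -/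
theorem convex_aux {x y : V} (h : X.Adj x y) :
    ∀ (n : ℕ) (u v m : V), X.dist u v ≤ n → X.dist u x < X.dist u y → X.dist v x < X.dist v y →
      X.dist u m + X.dist m v = X.dist u v → X.dist m x < X.dist m y := by
  have hxy := SimpleGraph.dist_eq_one_iff_adj.2 h
  have hc := hX.conn
  have comm : ∀ a b : V, X.dist a b = X.dist b a := fun a b => SimpleGraph.dist_comm
  have tri : ∀ a b c : V, X.dist a c ≤ X.dist a b + X.dist b c := fun a b c => hc.dist_triangle
  -- the two cases for the edge
  have cs : ∀ z, X.dist z y = X.dist z x + 1 ∨ X.dist z x = X.dist z y + 1 := hX.adj_cases h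
  intro n
  induction n with
  | zero =>
    intro u v m huv hu hv hm
    have h1 : u = m := hc.dist_eq_zero_iff.1 (by omega)
    rwa [← h1]
  | succ n ih =>
    intro u v m huv hu hv hm
    by_contra hmW
    -- points of the halfspace on a geodesic from `u` to `m`
    have hA : ∀ p, X.dist u p + X.dist p m = X.dist u m → X.dist p x < X.dist p y → p = u := by
      intro p hp hpW
      by_contra hne
      have h1 : 0 < X.dist u p := hc.pos_dist_of_ne fun h => hne h.symm
      have h2 := tri u p v
      have h3 := tri p m v
      have h4 := tri p v m
      exact hmW (ih p v m (by omega) hpW hv (by omega))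
    have hB : ∀ p, X.dist m p + X.dist p v = X.dist m v → X.dist p x < X.dist p y → p = v := by
      intro p hp hpW
      by_contra hne
      have h1 : 0 < X.dist p v := hc.pos_dist_of_ne hne
      have h2 := tri u p v
      have h3 := tri u m p
      exact hmW (ih u p m (by omega) hu hpW (by omega))
    have hmu : u ≠ m := fun h => hmW (h ▸ hu)
    have hmv : v ≠ m := fun h => hmW (h ▸ hv)
    obtain ⟨m1, hm1, hd1⟩ := exists_step hc hmu
    obtain ⟨m2, hm2, hd2⟩ := exists_step hc hmv
    have a1 := SimpleGraph.dist_eq_one_iff_adj.2 hm1
    have a2 := SimpleGraph.dist_eq_one_iff_adj.2 hm2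
    have hm1W : ¬ X.dist m1 x < X.dist m1 y := by
      intro h1
      have h2 := hA m1 (by omega) h1
      rw [h2] at a1
      rw [SimpleGraph.dist_self] at a1
      omega
    have hm2W : ¬ X.dist m2 x < X.dist m2 y := by
      intro h1
      have h2 := hB m2 (by rw [comm m m2, comm m v, comm m2 v]; omega) h1
      rw [h2] at a2
      rw [SimpleGraph.dist_self] at a2
      omega
    -- distances to the edge
    have hm1x : X.dist m1 y = X.dist u x := by
      have h1 := cs m1
      have h2 := cs u
      have h3 := tri m1 u x
      have h4 := tri u m1 y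
      rw [comm m1 u] at h3
      omega
    have hm2x : X.dist m2 y = X.dist v x := by
      have h1 := cs m2
      have h2 := cs v
      have h3 := tri m2 v x
      have h4 := tri v m2 y
      rw [comm m2 v] at h3
      omega
    -- the median of `u`, `v` and `x`
    obtain ⟨p, ⟨p1, p2, p3⟩, -⟩ := hX.median u v x
    have hux : X.dist u y = X.dist u x + 1 := by
      have := cs u
      omega
    have hvx : X.dist v y = X.dist v x + 1 := by
      have := cs v
      omega
    have hpW : X.dist p y = X.dist p x + 1 := by
      have h1 := cs p
      have h2 := tri u p y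
      omega
    -- distances from `m1` and `m2`
    have hm12 : X.dist m1 m + X.dist m m2 + 2 = X.dist u v := by
      rw [comm m m2]
      have := comm m v
      omega
    have hm12' := tri m1 m m2
    have hpu : p ≠ u := by
      intro h1
      rw [h1] at p2
      have h2 := tri m2 m1 y
      rw [comm m2 m1] at h2
      rw [comm v u] at p2
      omega
    have hpv : p ≠ v := by
      intro h1
      rw [h1] at p3
      have h2 := tri m1 m2 y
      omega
    -- the unique median of `u`, `v` and `y`
    obtain ⟨q, -, hq⟩ := hX.median u v y
    have hp : p = q := hq p ⟨p1, by omega, by omega⟩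
    have hpu' : 0 < X.dist u p := hc.pos_dist_of_ne hpu.symm
    have hpv' : 0 < X.dist p v := hc.pos_dist_of_ne hpv
    rcases Nat.lt_or_ge 0 (X.dist m1 m2) with hk | hk
    · -- the points `m1` and `m2` are different
      have d1 : X.dist m1 v + 1 = X.dist u v := by
        have h1 := tri m1 m v
        have h2 := tri u m1 v
        omega
      have d2 : X.dist u m2 + 1 = X.dist u v := by
        have h1 := tri u m m2
        have h2 := tri u m2 v
        rw [comm m2 v] at h2
        rw [comm m m2] at h1
        have h3 := comm m v
        omega
      have e1 : X.dist m1 p = X.dist m1 v + X.dist v p := by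
        obtain ⟨r, ⟨r1, r2, r3⟩, -⟩ := hX.median m1 p v
        have hrW : X.dist r x < X.dist r y := by
          refine ih p v r (by omega) (by omega) hv ?_
          exact r2
        by_cases hrv : r = v
        · rw [hrv] at r1
          exact r1.symm
        · exfalso
          have h1 : 0 < X.dist r v := hc.pos_dist_of_ne hrv
          have h2 := tri u r v
          have h3 := tri u m1 r
          exact hm1W (ih u r m1 (by omega) hu hrW (by omega))
      have e2 : X.dist m2 p = X.dist m2 u + X.dist u p := by
        obtain ⟨r, ⟨r1, r2, r3⟩, -⟩ := hX.median m2 p u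
        have hrW : X.dist r x < X.dist r y := by
          refine ih p u r ?_ (by omega) hu r2
          rw [comm p u]
          omega
        by_cases hru : r = u
        · rw [hru] at r1
          exact r1.symm
        · exfalso
          have h1 : 0 < X.dist r u := hc.pos_dist_of_ne hru
          have h2 := tri v r u
          have h3 := tri v m2 r
          rw [comm v u] at h2
          rw [comm m2 u] at r3
          exact hm2W (ih v r m2 (by omega) hv hrW (by omega))
      have f1 := tri m1 u p
      have f2 := tri m2 v p
      rw [comm m1 u] at f1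
      rw [comm m2 v] at f2
      rw [comm v p] at e1 f2
      rw [comm m2 u] at e2
      omega
    · have h1 : m1 = m2 := hc.dist_eq_zero_iff.1 (by omega)
      rw [← h1] at hm2x hm12' hm12 a2 hd2
      have h2 : m1 = q := by
        refine hq m1 ⟨?_, ?_, ?_⟩
        · rw [comm m1 v]
          have h3 := comm m m1
          have h4 := comm m v
          have h5 := tri u m1 v
          rw [comm m1 v] at h5
          omega
        · omega
        · omega
      rw [h2, ← hp] at hm1W
      omega

/-- The halfspace of an edge is convex. -/
theorem convex_edge {x y : V} (h : X.Adj x y) {u v m : V} (hu : X.dist u x < X.dist u y)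
    (hv : X.dist v x < X.dist v y) (hm : X.dist u m + X.dist m v = X.dist u v) :
    X.dist m x < X.dist m y := hX.convex_aux h _ u v m le_rfl hu hv hm

end IsMedianGraph

/-- A halfspace: a convex set, not empty, with a complement which is convex and not empty. -/
structure IsHalf (X : SimpleGraph V) (a : Set V) : Prop where
  nonempty : ∃ x, x ∈ a
  cononempty : ∃ x, x ∉ a
  convex : ∀ u v m, u ∈ a → v ∈ a → X.dist u m + X.dist m v = X.dist u v → m ∈ a
  coconvex : ∀ u v m, u ∉ a → v ∉ a → X.dist u m + X.dist m v = X.dist u v → m ∉ a

theorem IsHalf.compl {a : Set V} (h : IsHalf X a) : IsHalf X aᶜ where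
  nonempty := h.cononempty
  cononempty := by
    obtain ⟨x, hx⟩ := h.nonempty
    exact ⟨x, fun h => h hx⟩
  convex u v m hu hv := h.coconvex u v m hu hv
  coconvex u v m hu hv hm hma := by
    rw [Set.mem_compl_iff, not_not] at hu hv
    exact hma (h.convex u v m hu hv hm)

/-- The halfspace of an edge. -/
def edgeHalf (X : SimpleGraph V) (x y : V) : Set V := {z | X.dist z x < X.dist z y}

theorem IsMedianGraph.isHalf_edge (hX : IsMedianGraph X) {x y : V} (h : X.Adj x y) :
    IsHalf X (edgeHalf X x y) where
  nonempty := by
    refine ⟨x, ?_⟩
    show X.dist x x < X.dist x y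
    rw [SimpleGraph.dist_self, SimpleGraph.dist_eq_one_iff_adj.2 h]
    norm_num
  cononempty := by
    refine ⟨y, ?_⟩
    show ¬ X.dist y x < X.dist y y
    rw [SimpleGraph.dist_self]
    omega
  convex u v m hu hv hm := hX.convex_edge h hu hv hm
  coconvex u v m hu hv hm := by
    have h1 : X.dist m y < X.dist m x := by
      refine hX.convex_edge h.symm (u := u) (v := v) ?_ ?_ hm
      · have h1 : ¬ X.dist u x < X.dist u y := hu
        have := hX.adj_cases h u
        omega
      · have h1 : ¬ X.dist v x < X.dist v y := hv
        have := hX.adj_cases h v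
        omega
    show ¬ X.dist m x < X.dist m y
    omega

/-- A halfspace which separates the ends of an edge is the halfspace of this edge. -/
theorem IsMedianGraph.eq_edgeHalf (hX : IsMedianGraph X) {x y : V} (h : X.Adj x y) {a : Set V}
    (ha : IsHalf X a) (hx : x ∈ a) (hy : y ∉ a) : a = edgeHalf X x y := by
  have hxy := SimpleGraph.dist_eq_one_iff_adj.2 h
  have hyx := SimpleGraph.dist_eq_one_iff_adj.2 h.symm
  ext z
  show z ∈ a ↔ X.dist z x < X.dist z y
  have h1 := hX.adj_cases h z
  constructor
  · intro hz
    by_contra h2
    exact hy (ha.convex z x y hz hx (by omega))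
  · intro hz
    by_contra h2
    exact ha.coconvex z y x h2 hy (by omega) hx

end Pool.Agent.CCC
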