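import Pool.Agent.Lib.MP_98022b_cc.MedPoc

/-!
# Median graphs: the cubes
-/

set_option autoImplicit false

open Set

namespace Pool.Agent.CCC

open Pocset

section pocset

variable {H : Type} [Pocset H]

/-- The halfspaces which cut the cube `U`. -/
def Fr (U : Set H) : Set H := {a | a ∈ U ∧ op a ∈ U}

theorem op_mem_Fr {U : Set H} {a : H} (h : a ∈ Fr U) : op a ∈ Fr U :=
  ⟨h.2, by rw [op_op]; exact h.1⟩

/-- The vertices of a cube. -/
theorem isVertex_choice {U : Set H} (hU : IsCube U) {S : Set H} (hS : S ⊆ Fr U)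
    (hS' : ∀ a ∈ Fr U, (a ∈ S ↔ op a ∉ S)) : IsVertex (U \ Fr U ∪ S) where
  iff_op a := by
    by_cases ha : a ∈ Fr U
    · have h1 : op a ∈ Fr U := op_mem_Fr ha
      constructor
      · rintro (h2 | h2) (h3 | h3)
        · exact h2.2 ha
        · exact h2.2 ha
        · exact h3.2 h1
        · exact (hS' a ha).1 h2 h3
      · intro h2
        right
        by_contra h3
        exact h2 (Or.inr (by
          by_contra h4
          exact h3 ((hS' a ha).2 h4)))
    · have h1 : op a ∉ Fr U := fun h => ha (by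
        have := op_mem_Fr h
        rwa [op_op] at this)
      constructor
      · rintro (h2 | h2)
        · rintro (h3 | h3)
          · exact ha ⟨h2.1, h3.1⟩
          · exact h1 (hS h3)
        · exact absurd (hS h2) ha
      · intro h2
        left
        refine ⟨?_, ha⟩
        rcases hU.or_op a with h3 | h3
        · exact h3
        · exact absurd (Or.inl ⟨h3, h1⟩) h2
  up a b hab ha := by
    rcases eq_or_lt_of_le hab with rfl | hlt
    · exact ha
    · have haU : a ∈ U := by
        rcases ha with h | h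
        · exact h.1
        · exact (hS h).1
      have h1 := hU.nested a b hlt haU
      left
      refine ⟨?_, fun h => h1 h.2⟩
      rcases hU.or_op b with h2 | h2
      · exact h2
      · exact absurd h2 h1

/-- The halfspaces which cut a cube are finitely many. -/
theorem finite_Fr {o : Set H} (ho : IsVertex o) {U : Set H} (hU : (symmDiff U o).Finite) :
    (Fr U).Finite := by
  refine (hU.union (hU.preimage (f := op) (fun a _ b _ h => op_inj h))).subset fun a ha => ?_
  by_cases h : a ∈ o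
  · right
    show op a ∈ symmDiff U o
    exact Or.inl ⟨ha.2, (ho.iff_op a).1 h⟩
  · exact Or.inl (Or.inl ⟨ha.1, h⟩)

end pocset

variable {V : Type} {X : SimpleGraph V}

/-- `e` is an isometric cube of dimension `n`. -/
def IsomCube (X : SimpleGraph V) (n : ℕ) (e : (Fin n → Bool) → V) : Prop :=
  ∀ s t, X.dist (e s) (e t) = hammingDist s t

/-- `C` is the set of the vertices of a cube. -/
def IsCubeSet (X : SimpleGraph V) (C : Set V) : Prop :=
  ∃ (n : ℕ) (e : (Fin n → Bool) → V), IsomCube X n e ∧ Set.range e = C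

/-- The vertices of a cube. -/
def vset {x₀ : V} (U : Cube (sig X x₀)) : Set V := {z | sig X z ⊆ U.1}

/-- The parametrization of a cube. -/
theorem IsMedianGraph.exists_param (hX : IsMedianGraph X) {x₀ : V} (U : Cube (sig X x₀)) :
    ∃ e : (Fin (Fr U.1 \ sig X x₀).ncard → Bool) → V, IsomCube X _ e ∧ Set.range e = vset U ∧
      ∀ a ∈ U.1, ∃ z ∈ vset U, a ∈ sig X z := by
  classical
  obtain ⟨U, hU, hUf⟩ := U
  have ho := isVertex_sig (X := X) x₀
  have hfin : (Fr U \ sig X x₀).Finite := (finite_Fr ho hUf).subset fun a ha => ha.1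
  have : Finite (Fr U \ sig X x₀ : Set (HS X)) := hfin
  obtain ⟨a, ha⟩ : ∃ a : Fin (Fr U \ sig X x₀).ncard → HS X, Function.Injective a ∧
      Set.range a = Fr U \ sig X x₀ := by
    have e1 := (Finite.equivFin (Fr U \ sig X x₀ : Set (HS X))).symm
    rw [Nat.card_coe_set_eq] at e1
    refine ⟨fun i => (e1 i : HS X), fun i j h => e1.injective (Subtype.ext h), ?_⟩
    ext b
    constructor
    · rintro ⟨i, rfl⟩
      exact (e1 i).2
    · intro hb
      exact ⟨e1.symm ⟨b, hb⟩, by simp⟩
  obtain ⟨hinj, hran⟩ := ha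
  have hai : ∀ i, a i ∈ Fr U ∧ a i ∉ sig X x₀ := by
    intro i
    have h1 : a i ∈ Fr U \ sig X x₀ := by
      rw [← hran]
      exact ⟨i, rfl⟩
    exact h1
  have hcase : ∀ b ∈ Fr U, (∃ i, b = a i) ∨ (∃ i, b = op (a i)) := by
    intro b hb
    by_cases h1 : b ∈ sig X x₀
    · right
      have h2 : op b ∈ Fr U \ sig X x₀ := ⟨op_mem_Fr hb, (ho.iff_op b).1 h1⟩
      rw [← hran] at h2
      obtain ⟨i, hi⟩ := h2
      exact ⟨i, by rw [hi, op_op]⟩
    · left
      have h2 : b ∈ Fr U \ sig X x₀ := ⟨hb, h1⟩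
      rw [← hran] at h2
      obtain ⟨i, hi⟩ := h2
      exact ⟨i, hi.symm⟩
  have hne : ∀ i j, a i ≠ op (a j) := by
    intro i j h
    have h1 := (ho.iff_op (a i)).not.1 (hai i).2
    rw [not_not, h, op_op] at h1
    exact (hai j).2 h1
  -- the choices
  let S : (Fin (Fr U \ sig X x₀).ncard → Bool) → Set (HS X) := fun s =>
    {b | ∃ i, (s i = true ∧ b = a i) ∨ (s i = false ∧ b = op (a i))}
  have hS1 : ∀ s i, a i ∈ S s ↔ s i = true := by
    intro s i
    constructor
    · rintro ⟨j, ⟨h1, h2⟩ | ⟨h1, h2⟩⟩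
      · rw [hinj h2]
        exact h1
      · exact absurd h2 (hne i j)
    · intro h
      exact ⟨i, Or.inl ⟨h, rfl⟩⟩
  have hS2 : ∀ s i, op (a i) ∈ S s ↔ s i = false := by
    intro s i
    constructor
    · rintro ⟨j, ⟨h1, h2⟩ | ⟨h1, h2⟩⟩
      · exact absurd h2.symm (hne j i)
      · rw [hinj (op_inj h2)]
        exact h1
    · intro h
      exact ⟨i, Or.inr ⟨h, rfl⟩⟩
  have hSsub : ∀ s, S s ⊆ Fr U := by
    rintro s b ⟨i, ⟨-, rfl⟩ | ⟨-, rfl⟩⟩
    · exact (hai i).1
    · exact op_mem_Fr (hai i).1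
  have hv : ∀ s, IsVertex (U \ Fr U ∪ S s) := by
    intro s
    refine isVertex_choice hU (hSsub s) fun b hb => ?_
    rcases hcase b hb with ⟨i, rfl⟩ | ⟨i, rfl⟩
    · rw [hS1, hS2]
      simp
    · rw [op_op, hS1, hS2]
      simp
  have hsub : ∀ s, U \ Fr U ∪ S s ⊆ U := by
    rintro s b (hb | hb)
    · exact hb.1
    · exact (hSsub s hb).1
  have hf : ∀ s, (symmDiff (U \ Fr U ∪ S s) (sig X x₀)).Finite := by
    intro s
    refine (hUf.union (finite_Fr ho hUf)).subset ?_
    rintro b (⟨h1, h2⟩ | ⟨h1, h2⟩)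
    · exact Or.inl (Or.inl ⟨hsub s h1, h2⟩)
    · by_cases h3 : b ∈ Fr U
      · exact Or.inr h3
      · exact Or.inl (Or.inr ⟨h1, fun h4 => h2 (Or.inl ⟨h4, h3⟩)⟩)
  choose e he using fun s => hX.exists_sig_eq (hv s) x₀ (hf s)
  have hemem : ∀ s, e s ∈ vset (⟨U, hU, hUf⟩ : Cube (sig X x₀)) := by
    intro s
    show sig X (e s) ⊆ U
    rw [← he s]
    exact hsub s
  refine ⟨e, ?_, ?_, ?_⟩
  · intro s t
    rw [← hX.ncard_sep, ← he s, ← he t]
    have h1 : ((U \ Fr U ∪ S s) \ (U \ Fr U ∪ S t) : Set (HS X)) =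
        (fun i => if s i = true then a i else op (a i)) '' {i | s i ≠ t i} := by
      ext b
      constructor
      · rintro ⟨h2 | h2, h3⟩
        · exact absurd (Or.inl h2) h3
        · obtain ⟨i, ⟨h4, rfl⟩ | ⟨h4, rfl⟩⟩ := h2
          · refine ⟨i, fun h5 => h3 (Or.inr ((hS1 t i).2 (by rw [← h5, h4]))), ?_⟩
            simp [h4]
          · refine ⟨i, fun h5 => h3 (Or.inr ((hS2 t i).2 (by rw [← h5, h4]))), ?_⟩
            simp [h4]
      · rintro ⟨i, hi, rfl⟩
        have hi' : s i ≠ t i := hi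
        by_cases h4 : s i = true
        · simp only [h4, if_true]
          refine ⟨Or.inr ((hS1 s i).2 h4), ?_⟩
          rintro (h5 | h5)
          · exact h5.2 (hai i).1
          · have := (hS1 t i).1 h5
            rw [h4, this] at hi'
            exact hi' rfl
        · have h4' : s i = false := by simpa using h4
          simp only [h4', Bool.false_eq_true, if_false]
          refine ⟨Or.inr ((hS2 s i).2 h4'), ?_⟩
          rintro (h5 | h5)
          · exact h5.2 (op_mem_Fr (hai i).1)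
          · have := (hS2 t i).1 h5
            rw [h4', this] at hi'
            exact hi' rfl
    have h2 : Function.Injective (fun i => if s i = true then a i else op (a i)) := by
      intro i j hij
      simp only at hij
      by_cases h3 : s i = true
      · by_cases h4 : s j = true
        · rw [if_pos h3, if_pos h4] at hij
          exact hinj hij
        · rw [if_pos h3, if_neg h4] at hij
          exact absurd hij (hne i j)
      · by_cases h4 : s j = true
        · rw [if_neg h3, if_pos h4] at hij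
          exact absurd hij.symm (hne j i)
        · rw [if_neg h3, if_neg h4] at hij
          exact hinj (op_inj hij)
    rw [h1, Set.ncard_image_of_injective _ h2]
    unfold hammingDist
    rw [← Set.ncard_coe_finset]
    congr 1
    ext i
    simp
  · apply Set.Subset.antisymm
    · rintro _ ⟨s, rfl⟩
      exact hemem s
    · intro z hz
      have hz' : sig X z ⊆ U := hz
      have hvz := isVertex_sig (X := X) z
      refine ⟨fun i => decide (a i ∈ sig X z), ?_⟩
      apply hX.sig_injective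
      rw [← he]
      apply Set.Subset.antisymm
      · rintro b (h1 | ⟨i, ⟨h1, rfl⟩ | ⟨h1, rfl⟩⟩)
        · by_contra h2
          have h3 : op b ∈ sig X z := by
            by_contra h4
            exact h2 ((hvz.iff_op b).2 h4)
          exact h1.2 ⟨h1.1, hz' h3⟩
        · exact of_decide_eq_true h1
        · have h2 : a i ∉ sig X z := of_decide_eq_false h1
          by_contra h4
          exact h2 ((hvz.iff_op (a i)).2 h4)
      · intro b hb
        by_cases h1 : b ∈ Fr U
        · right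
          rcases hcase b h1 with ⟨i, rfl⟩ | ⟨i, rfl⟩
          · exact ⟨i, Or.inl ⟨decide_eq_true hb, rfl⟩⟩
          · refine ⟨i, Or.inr ⟨decide_eq_false fun h2 => ?_, rfl⟩⟩
            exact (hvz.iff_op (a i)).1 h2 hb
        · exact Or.inl ⟨hz' hb, h1⟩
  · intro b hb
    have hb' : b ∈ U := hb
    by_cases h1 : b ∈ Fr U
    · rcases hcase b h1 with ⟨i, rfl⟩ | ⟨i, rfl⟩
      · refine ⟨e fun _ => true, hemem _, ?_⟩
        rw [← he]
        exact Or.inr ((hS1 _ i).2 rfl)
      · refine ⟨e fun _ => false, hemem _, ?_⟩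
        rw [← he]
        exact Or.inr ((hS2 _ i).2 rfl)
    · refine ⟨e fun _ => true, hemem _, ?_⟩
      rw [← he]
      exact Or.inl ⟨hb', h1⟩

namespace IsMedianGraph

variable (hX : IsMedianGraph X)
include hX

theorem isCubeSet_vset {x₀ : V} (U : Cube (sig X x₀)) : IsCubeSet X (vset U) := by
  obtain ⟨e, h1, h2, -⟩ := hX.exists_param U
  exact ⟨_, e, h1, h2⟩

theorem mem_iff_vset {x₀ : V} (U : Cube (sig X x₀)) (a : HS X) :
    a ∈ U.1 ↔ ∃ z ∈ vset U, a ∈ sig X z := by
  constructor
  · intro ha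
    obtain ⟨e, -, -, h⟩ := hX.exists_param U
    exact h a ha
  · rintro ⟨z, hz, ha⟩
    exact hz ha

theorem vset_injective {x₀ : V} : Function.Injective (vset (X := X) (x₀ := x₀)) := by
  intro U U' h
  apply Subtype.ext
  ext a
  rw [hX.mem_iff_vset, hX.mem_iff_vset, h]

theorem vset_nonempty {x₀ : V} (U : Cube (sig X x₀)) : (vset U).Nonempty := by
  obtain ⟨e, -, h, -⟩ := hX.exists_param U
  exact ⟨e fun _ => true, by rw [← h]; exact ⟨_, rfl⟩⟩

/-- The dimension of a cube. -/
theorem ncard_Fr_le {d : ℕ} (hd : ∀ n (e : (Fin n → Bool) → V), IsomCube X n e → n ≤ d) {x₀ : V}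
    (U : Cube (sig X x₀)) : (Fr U.1 \ sig X x₀).ncard ≤ d := by
  obtain ⟨e, h1, -, -⟩ := hX.exists_param U
  exact hd _ e h1

/-- The distance of a vertex of a cube. -/
theorem ncard_vset_le {d : ℕ} (hd : ∀ n (e : (Fin n → Bool) → V), IsomCube X n e → n ≤ d) {x₀ : V}
    (U : Cube (sig X x₀)) {z : V} (hz : z ∈ vset U) :
    (U.1 \ sig X z).Finite ∧ (U.1 \ sig X z).ncard ≤ d := by
  -- the same cube with the base vertex `z`
  have hz' : sig X z ⊆ U.1 := hz
  have hf : (symmDiff U.1 (sig X z)).Finite := by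
    refine (U.2.2.union (hX.finite_symmDiff x₀ z)).subset ?_
    exact symmDiff_triangle U.1 (sig X x₀) (sig X z)
  have h1 : U.1 \ sig X z ⊆ Fr U.1 \ sig X z := by
    rintro a ⟨ha, ha'⟩
    refine ⟨⟨ha, hz' ?_⟩, ha'⟩
    by_contra h2
    exact ha' (((isVertex_sig z).iff_op a).2 h2)
  have h2 : (Fr U.1 \ sig X z).Finite := (finite_Fr (isVertex_sig z) hf).subset fun a ha => ha.1
  refine ⟨h2.subset h1, (Set.ncard_le_ncard h1 h2).trans ?_⟩
  exact hX.ncard_Fr_le hd (x₀ := z) ⟨U.1, U.2.1, hf⟩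

/-- The distances of two cubes. -/
theorem dC_le {d : ℕ} (hd : ∀ n (e : (Fin n → Bool) → V), IsomCube X n e → n ≤ d) {x₀ : V}
    (U U' : Cube (sig X x₀)) {z z' : V} (hz : z ∈ vset U) (hz' : z' ∈ vset U') :
    dC U U' ≤ 2 * X.dist z z' + 2 * d := by
  obtain ⟨f1, h1⟩ := hX.ncard_vset_le hd U hz
  obtain ⟨f2, h2⟩ := hX.ncard_vset_le hd U' hz'
  have h3 : symmDiff U.1 U'.1 ⊆
      (U.1 \ sig X z) ∪ symmDiff (sig X z) (sig X z') ∪ (U'.1 \ sig X z') := by
    rintro a (⟨ha, ha'⟩ | ⟨ha, ha'⟩)
    · by_cases h4 : a ∈ sig X z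
      · left
        right
        exact Or.inl ⟨h4, fun h5 => ha' (hz' h5)⟩
      · exact Or.inl (Or.inl ⟨ha, h4⟩)
    · by_cases h4 : a ∈ sig X z'
      · left
        right
        exact Or.inr ⟨h4, fun h5 => ha' (hz h5)⟩
      · exact Or.inr ⟨ha, h4⟩
  have f3 := hX.finite_symmDiff z z'
  have h4 := Set.ncard_le_ncard h3 ((f1.union f3).union f2)
  have h5 := Set.ncard_union_le ((U.1 \ sig X z) ∪ symmDiff (sig X z) (sig X z')) (U'.1 \ sig X z')
  have h6 := Set.ncard_union_le (U.1 \ sig X z) (symmDiff (sig X z) (sig X z'))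
  rw [hX.ncard_symmDiff] at h6
  unfold dC
  omega

end IsMedianGraph

end Pool.Agent.CCC
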