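import Pool.Agent.Lib.MP_98022b_cc.MedBasic
import Pool.Agent.Lib.MP_98022b_cc.States

/-!
# Median graphs: the set of the halfspaces, the vertices
-/

set_option autoImplicit false

open Set

namespace Pool.Agent.CCC

open Pocset

variable {V : Type} {X : SimpleGraph V}

/-- The halfspaces of the graph `X`. -/
def HS (X : SimpleGraph V) : Type := {a : Set V // IsHalf X a}

instance : Pocset (HS X) where
  le a b := a.1 ⊆ b.1
  le_refl _ := Set.Subset.rfl
  le_trans _ _ _ h h' := Set.Subset.trans h h'
  le_antisymm _ _ h h' := Subtype.ext (Set.Subset.antisymm h h')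
  op a := ⟨a.1ᶜ, a.2.compl⟩
  op_op a := Subtype.ext (compl_compl a.1)
  op_le_op _ _ h := Set.compl_subset_compl.2 h
  not_le_op a h := by
    obtain ⟨x, hx⟩ := a.2.nonempty
    exact h hx hx

theorem HS.le_iff {a b : HS X} : a ≤ b ↔ ∀ x ∈ a.1, x ∈ b.1 := Iff.rfl

theorem HS.mem_op {a : HS X} {x : V} : x ∈ (op a).1 ↔ x ∉ a.1 := Iff.rfl

/-- The set of the halfspaces which contain `x`. -/
def sig (X : SimpleGraph V) (x : V) : Set (HS X) := {a | x ∈ a.1}

theorem mem_sig {x : V} {a : HS X} : a ∈ sig X x ↔ x ∈ a.1 := Iff.rfl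

theorem isVertex_sig (x : V) : IsVertex (sig X x) where
  iff_op a := by
    rw [mem_sig, mem_sig, HS.mem_op, not_not]
  up _ _ hab ha := hab ha

namespace IsMedianGraph

variable (hX : IsMedianGraph X)
include hX

/-- The halfspace of an edge. -/
def eh {x y : V} (h : X.Adj x y) : HS X := ⟨edgeHalf X x y, hX.isHalf_edge h⟩

/-- There are exactly `dist x y` halfspaces which contain `x` and do not contain `y`. -/
theorem sep_aux : ∀ (n : ℕ) (x y : V), X.dist x y = n →
    (sig X x \ sig X y).Finite ∧ (sig X x \ sig X y).ncard = n := by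
  intro n
  induction n with
  | zero =>
    intro x y h
    have h1 : x = y := hX.conn.dist_eq_zero_iff.1 h
    rw [h1, sdiff_self]
    exact ⟨Set.finite_empty, Set.ncard_empty _⟩
  | succ n ih =>
    intro x y h
    have hne : x ≠ y := by
      rintro rfl
      rw [SimpleGraph.dist_self] at h
      omega
    obtain ⟨x', hx', hd⟩ := exists_step hX.conn hne
    obtain ⟨h1, h2⟩ := ih x' y (by omega)
    have hxx := SimpleGraph.dist_eq_one_iff_adj.2 hx'
    have hxx' := SimpleGraph.dist_eq_one_iff_adj.2 hx'.symm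
    have he : hX.eh hx' ∉ sig X x' \ sig X y := by
      rintro ⟨h3, -⟩
      have h4 : X.dist x' x < X.dist x' x' := h3
      rw [SimpleGraph.dist_self] at h4
      omega
    have heq : sig X x \ sig X y = insert (hX.eh hx') (sig X x' \ sig X y) := by
      ext a
      constructor
      · rintro ⟨h3, h4⟩
        by_cases h5 : a ∈ sig X x'
        · exact Or.inr ⟨h5, h4⟩
        · left
          exact Subtype.ext (hX.eq_edgeHalf hx' a.2 h3 h5)
      · rintro (rfl | ⟨h3, h4⟩)
        · refine ⟨?_, ?_⟩
          · show X.dist x x < X.dist x x'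
            rw [SimpleGraph.dist_self]
            omega
          · show ¬ X.dist y x < X.dist y x'
            rw [SimpleGraph.dist_comm (u := y) (v := x), SimpleGraph.dist_comm (u := y) (v := x')]
            omega
        · refine ⟨?_, h4⟩
          by_contra h5
          exact a.2.coconvex x y x' h5 h4 (by omega) h3
    rw [heq]
    refine ⟨h1.insert _, ?_⟩
    rw [Set.ncard_insert_of_notMem he h1, h2]

theorem finite_sep (x y : V) : (sig X x \ sig X y).Finite := (hX.sep_aux _ x y rfl).1

theorem ncard_sep (x y : V) : (sig X x \ sig X y).ncard = X.dist x y := (hX.sep_aux _ x y rfl).2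

theorem finite_symmDiff (x y : V) : (symmDiff (sig X x) (sig X y)).Finite :=
  (hX.finite_sep x y).union (hX.finite_sep y x)

theorem ncard_symmDiff (x y : V) : (symmDiff (sig X x) (sig X y)).ncard = 2 * X.dist x y := by
  rw [Set.symmDiff_def, Set.ncard_union_eq ?_ (hX.finite_sep x y) (hX.finite_sep y x),
    hX.ncard_sep, hX.ncard_sep, SimpleGraph.dist_comm (u := y) (v := x)]
  · ring
  · rw [Set.disjoint_left]
    rintro a ⟨h1, -⟩ ⟨-, h2⟩
    exact h2 h1

theorem sig_injective : Function.Injective (sig X) := by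
  intro x y h
  have h1 := hX.ncard_sep x y
  rw [h, sdiff_self, Set.ncard_empty] at h1
  exact hX.conn.dist_eq_zero_iff.1 h1.symm

/-- The gate of `x` in a halfspace. -/
theorem exists_gate (a : HS X) (x : V) :
    ∃ z ∈ a.1, ∀ w ∈ a.1, X.dist x z + X.dist z w = X.dist x w := by
  classical
  have hex : ∃ n, ∃ z ∈ a.1, X.dist x z = n := by
    obtain ⟨z, hz⟩ := a.2.nonempty
    exact ⟨_, z, hz, rfl⟩
  obtain ⟨z, hz, hzn⟩ := Nat.find_spec hex
  refine ⟨z, hz, fun w hw => ?_⟩
  obtain ⟨m, ⟨m1, m2, m3⟩, -⟩ := hX.median x z w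
  have hm : m ∈ a.1 := a.2.convex z w m hz hw m2
  have h1 : Nat.find hex ≤ X.dist x m := Nat.find_min' hex ⟨m, hm, rfl⟩
  have h2 : X.dist m z = 0 := by omega
  have h3 : m = z := hX.conn.dist_eq_zero_iff.1 h2
  rw [h3] at m3
  exact m3

/-- The vertices of the cube complex are the ones of the graph. -/
theorem exists_sig_eq {v : Set (HS X)} (hv : IsVertex v) (x₀ : V)
    (hfin : (symmDiff v (sig X x₀)).Finite) : ∃ z, v = sig X z := by
  have key : ∀ (n : ℕ) (x : V), (v \ sig X x).Finite → (v \ sig X x).ncard = n →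
      ∃ z, v = sig X z := by
    intro n
    induction n using Nat.strong_induction_on with
    | _ n ih =>
      intro x hf hn
      by_cases hsub : v ⊆ sig X x
      · refine ⟨x, Set.Subset.antisymm hsub fun a ha => ?_⟩
        by_contra h1
        have h2 : op a ∈ v := by
          by_contra h3
          exact h1 ((hv.iff_op a).2 h3)
        exact hsub h2 ha
      · obtain ⟨a, hav, hax⟩ := Set.not_subset.1 hsub
        obtain ⟨z, hz, hgate⟩ := hX.exists_gate a x
        have hne : x ≠ z := by
          rintro rfl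
          exact hax hz
        obtain ⟨x', hx', hd⟩ := exists_step hX.conn hne
        have hxx := SimpleGraph.dist_eq_one_iff_adj.2 hx'
        have hxx' := SimpleGraph.dist_eq_one_iff_adj.2 hx'.symm
        obtain ⟨b, hb⟩ : ∃ b, b = hX.eh hx'.symm := ⟨_, rfl⟩
        have hab : a ≤ b := by
          rw [HS.le_iff, hb]
          intro w hw
          show X.dist w x' < X.dist w x
          have h1 := hgate w hw
          have h2 := hX.conn.dist_triangle (u := x') (v := z) (w := w)
          have h3 := hX.conn.dist_triangle (u := x) (v := x') (w := w)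
          rw [SimpleGraph.dist_comm (u := w) (v := x'), SimpleGraph.dist_comm (u := w) (v := x)]
          omega
        have hbv : b ∈ v := hv.up a b hab hav
        have hbx : b ∉ sig X x := by
          rw [hb]
          show ¬ X.dist x x' < X.dist x x
          rw [SimpleGraph.dist_self]
          omega
        have hbx' : b ∈ sig X x' := by
          rw [hb]
          show X.dist x' x' < X.dist x' x
          rw [SimpleGraph.dist_self]
          omega
        have hss : v \ sig X x' ⊂ v \ sig X x := by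
          refine (Set.ssubset_iff_of_subset ?_).2 ⟨b, ⟨hbv, hbx⟩, fun h => h.2 hbx'⟩
          rintro e ⟨he, he'⟩
          refine ⟨he, fun hex => he' ?_⟩
          by_contra h1
          have h2 : e.1 = edgeHalf X x x' := hX.eq_edgeHalf hx' e.2 hex h1
          have h3 : op e = b := by
            apply Subtype.ext
            rw [hb]
            refine hX.eq_edgeHalf hx'.symm (op e).2 ?_ ?_
            · exact h1
            · exact fun h => h hex
          have h4 := (hv.iff_op e).1 he
          rw [h3] at h4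
          exact h4 hbv
        refine ih _ ?_ x' (hf.subset hss.subset) rfl
        rw [← hn]
        exact Set.ncard_lt_ncard hss hf
  exact key _ x₀ (hfin.subset fun a ha => Or.inl ha) rfl

end IsMedianGraph

section action

variable {G : Type} [Group G] [MulAction G V]

theorem dist_smul_le (hact : ∀ (g : G) x y, X.Adj (g • x) (g • y) ↔ X.Adj x y)
    (hc : X.Connected) (g : G) (x y : V) : X.dist (g • x) (g • y) ≤ X.dist x y := by
  obtain ⟨p, hp⟩ := hc.exists_walk_length_eq_dist x y
  have h := SimpleGraph.dist_le (p.map ⟨fun z => g • z, fun {_ _} h => (hact g _ _).2 h⟩)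
  rw [SimpleGraph.Walk.length_map, hp] at h
  exact h

theorem dist_smul_eq (hact : ∀ (g : G) x y, X.Adj (g • x) (g • y) ↔ X.Adj x y)
    (hc : X.Connected) (g : G) (x y : V) : X.dist (g • x) (g • y) = X.dist x y := by
  refine le_antisymm (dist_smul_le hact hc g x y) ?_
  have h := dist_smul_le hact hc g⁻¹ (g • x) (g • y)
  rwa [inv_smul_smul, inv_smul_smul] at h

theorem isHalf_smul (hact : ∀ (g : G) x y, X.Adj (g • x) (g • y) ↔ X.Adj x y)
    (hc : X.Connected) (g : G) {a : Set V} (ha : IsHalf X a) : IsHalf X {z | g⁻¹ • z ∈ a} where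
  nonempty := by
    obtain ⟨x, hx⟩ := ha.nonempty
    exact ⟨g • x, by show g⁻¹ • g • x ∈ a; rwa [inv_smul_smul]⟩
  cononempty := by
    obtain ⟨x, hx⟩ := ha.cononempty
    exact ⟨g • x, by show g⁻¹ • g • x ∉ a; rwa [inv_smul_smul]⟩
  convex u v m hu hv hm := ha.convex (g⁻¹ • u) (g⁻¹ • v) (g⁻¹ • m) hu hv
    (by rw [dist_smul_eq hact hc, dist_smul_eq hact hc, dist_smul_eq hact hc, hm])
  coconvex u v m hu hv hm := ha.coconvex (g⁻¹ • u) (g⁻¹ • v) (g⁻¹ • m) hu hv
    (by rw [dist_smul_eq hact hc, dist_smul_eq hact hc, dist_smul_eq hact hc, hm])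

/-- The action on the halfspaces. -/
@[reducible] def hsAct (hact : ∀ (g : G) x y, X.Adj (g • x) (g • y) ↔ X.Adj x y)
    (hc : X.Connected) : PocAct G (HS X) where
  smul g a := ⟨{z | g⁻¹ • z ∈ a.1}, isHalf_smul hact hc g a.2⟩
  one_smul a := by
    apply Subtype.ext
    ext z
    show (1 : G)⁻¹ • z ∈ a.1 ↔ z ∈ a.1
    rw [inv_one, one_smul]
  mul_smul g h a := by
    apply Subtype.ext
    ext z
    show (g * h)⁻¹ • z ∈ a.1 ↔ h⁻¹ • g⁻¹ • z ∈ a.1
    rw [mul_inv_rev, mul_smul]
  smul_le g a b hab := fun z hz => hab hz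
  smul_op g a := rfl

theorem hsBased (hX : IsMedianGraph X)
    (hact : ∀ (g : G) x y, X.Adj (g • x) (g • y) ↔ X.Adj x y) (x : V) :
    @Based G (HS X) _ _ (hsAct hact hX.conn) (sig X x) := by
  refine @Based.mk G (HS X) _ _ (hsAct hact hX.conn) (sig X x) (isVertex_sig x) fun g => ?_
  refine (hX.finite_symmDiff x (g • x)).subset ?_
  intro a ha
  by_contra h1
  refine ha ?_
  have h2 : ∀ b : HS X, b ∈ sig X x ↔ x ∈ b.1 := fun b => Iff.rfl
  have h3 : x ∈ ({z | (g⁻¹)⁻¹ • z ∈ a.1} : Set V) ↔ a ∈ sig X (g • x) := by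
    show (g⁻¹)⁻¹ • x ∈ a.1 ↔ g • x ∈ a.1
    rw [inv_inv]
  rw [Set.mem_symmDiff] at h1
  push Not at h1
  have h4 : (x ∈ ({z | (g⁻¹)⁻¹ • z ∈ a.1} : Set V)) ↔ x ∈ a.1 :=
    ⟨fun h => h1.2 (h3.1 h), fun h => h3.2 (h1.1 h)⟩
  unfold ind
  by_cases h5 : x ∈ a.1
  · rw [if_pos (show a ∈ sig X x from h5)]
    exact if_pos (h4.2 h5)
  · rw [if_neg (show a ∉ sig X x from h5)]
    exact if_neg fun h => h5 (h4.1 h)

end action

end Pool.Agent.CCC
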