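import Pool.Agent.Lib.MP_98022b_cc.MedMain
import Pool.Agent.Lib.MP_98022b_cc.FinalV

/-!
# Groups acting on median graphs of finite dimension, relative to a homomorphism
-/

set_option autoImplicit false

open Set
open scoped Pointwise

namespace Pool.Agent.CCC

open Pocset Pool.Agent.FJ

variable {P : ∀ (G : Type) [Group G], Prop}

section transfer

variable {Γ : Type} [Group Γ] {K F : Subgroup Γ} {FK : Subgroup K}

theorem normal_iff_of_sub (hF : F ≤ K) (h : ∀ k : K, k ∈ FK ↔ (k : Γ) ∈ F) {t : K}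
    (ht : ∀ j, j ∈ FK ↔ t * j * t⁻¹ ∈ FK) (j : Γ) : j ∈ F ↔ (t : Γ) * j * (t : Γ)⁻¹ ∈ F := by
  constructor
  · intro hj
    have h1 := (ht ⟨j, hF hj⟩).1 ((h _).2 hj)
    exact (h _).1 h1
  · intro hj
    have h1 : j ∈ K := by
      have h2 := K.mul_mem (K.mul_mem (K.inv_mem t.2) (hF hj)) t.2
      have h3 : (t : Γ)⁻¹ * ((t : Γ) * j * (t : Γ)⁻¹) * (t : Γ) = j := by group
      rwa [h3] at h2
    exact (h ⟨j, h1⟩).1 ((ht ⟨j, h1⟩).2 ((h _).2 hj))

theorem mem_sup_of_sub (hP : IsFJClass P) (h : ∀ k : K, k ∈ FK ↔ (k : Γ) ∈ F) (t : K)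
    (hF : P (F ⊔ Subgroup.zpowers (t : Γ) : Subgroup Γ)) :
    P (FK ⊔ Subgroup.zpowers t : Subgroup K) := by
  refine hP.of_injective ((K.subtype.comp (FK ⊔ Subgroup.zpowers t).subtype).codRestrict
    (F ⊔ Subgroup.zpowers (t : Γ)) fun k => ?_) ?_ hF
  · have h1 : FK ⊔ Subgroup.zpowers t ≤ (F ⊔ Subgroup.zpowers (t : Γ)).comap K.subtype := by
      refine sup_le (fun k hk => Subgroup.mem_sup_left ((h k).1 hk)) ?_
      rw [Subgroup.zpowers_le]
      exact Subgroup.mem_sup_right (Subgroup.mem_zpowers _)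
    exact h1 k.2
  · intro a b hab
    have h1 := congrArg (fun x : (F ⊔ Subgroup.zpowers (t : Γ) : Subgroup Γ) => (x : Γ)) hab
    exact Subtype.ext (Subtype.ext h1)

end transfer

variable {V : Type} {X : SimpleGraph V} {Γ : Type} [Group Γ] [MulAction Γ V]

/-- THE RELATIVE THEOREM. Let `Γ` act by automorphisms on a median graph `X` without isometric cubes
of dimension larger than `d`, and let `f : Γ → Q` be a homomorphism to a group in the class. Let `N`
be the kernel of `f`. Suppose that the intersections of the stabilizers of the vertices with the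
preimages of the cyclic subgroups of `Q` are in the class, that the chains of the intersections of
`N` with the pointwise stabilizers of finite sets of cubes which contain two far cubes have bounded
length, and that for each such intersection `F` and each element `t` of `Γ` which normalizes `F` the
group generated by `F` and `t` is in the class. Then `Γ` is in the class. -/
theorem mem_of_median_rel (hP : IsFJClassT P) (hX : IsMedianGraph X)
    (hact : ∀ (g : Γ) x y, X.Adj (g • x) (g • y) ↔ X.Adj x y) {d : ℕ}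
    (hd : ∀ n (e : (Fin n → Bool) → V), IsomCube X n e → n ≤ d) {Q : Type} [Group Q] (f : Γ →* Q)
    (hQ : P Q) (k l : ℕ)
    (hv : ∀ (x : V) (q : Q),
      P (MulAction.stabilizer Γ x ⊓ (Subgroup.zpowers q).comap f : Subgroup Γ))
    (hchain : ∀ T : ℕ → Set (Set V), (∀ i, (T i).Finite) → (∀ i, ∀ C ∈ T i, IsCubeSet X C) →
      (∀ i, T i ⊆ T (i + 1)) → (∃ C ∈ T 0, ∃ C' ∈ T 0, ∀ x ∈ C, ∀ y ∈ C', k ≤ X.dist x y) →
      ∃ i < l, fixingSubgroup Γ (T i) ⊓ f.ker = fixingSubgroup Γ (T (i + 1)) ⊓ f.ker)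
    (hcyc : ∀ T : Set (Set V), T.Finite → (∀ C ∈ T, IsCubeSet X C) →
      (∃ C ∈ T, ∃ C' ∈ T, ∀ x ∈ C, ∀ y ∈ C', k ≤ X.dist x y) → ∀ t : Γ,
      (∀ j, j ∈ fixingSubgroup Γ T ⊓ f.ker ↔ t * j * t⁻¹ ∈ fixingSubgroup Γ T ⊓ f.ker) →
      P ((fixingSubgroup Γ T ⊓ f.ker) ⊔ Subgroup.zpowers t : Subgroup Γ)) : P Γ := by
  have hP' := hP.toIsFJClass
  -- the stabilizers in a subgroup
  have hstab : ∀ (K : Subgroup Γ) (q : Q), K ≤ (Subgroup.zpowers q).comap f → ∀ x : V,
      P (MulAction.stabilizer K x) := by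
    intro K q hK x
    refine hP.of_injective ((K.subtype.comp (MulAction.stabilizer K x).subtype).codRestrict
      (MulAction.stabilizer Γ x ⊓ (Subgroup.zpowers q).comap f) fun g => ?_) ?_ (hv x q)
    · exact ⟨g.2, hK g.1.2⟩
    · intro a b hab
      have h1 := congrArg (fun y : (MulAction.stabilizer Γ x ⊓
        (Subgroup.zpowers q).comap f : Subgroup Γ) => (y : Γ)) hab
      exact Subtype.ext (Subtype.ext h1)
  have hfixK : ∀ (K : Subgroup Γ) (T : Set (Set V)) (g : K),
      g ∈ fixingSubgroup K T ↔ (g : Γ) ∈ fixingSubgroup Γ T := by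
    intro K T g
    rw [mem_fixingSubgroup_iff, mem_fixingSubgroup_iff]
    exact Iff.rfl
  -- the kernel
  have hN : P f.ker := by
    have hFN : ∀ (T : Set (Set V)) (g : f.ker),
        g ∈ fixingSubgroup f.ker T ↔ (g : Γ) ∈ fixingSubgroup Γ T ⊓ f.ker := by
      intro T g
      rw [hfixK, Subgroup.mem_inf]
      exact ⟨fun h => ⟨h, g.2⟩, fun h => h.1⟩
    refine mem_of_median hP hX (fun g x y => hact (g : Γ) x y) hd k l
      (hstab f.ker 1 fun g hg => ?_) (fun T hfin hT hmono hfar => ?_)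
      (fun T hfin hT hfar t ht => ?_)
    · rw [Subgroup.mem_comap, MonoidHom.mem_ker.1 hg]
      exact one_mem _
    · obtain ⟨i, hi, h⟩ := hchain T hfin hT hmono hfar
      refine ⟨i, hi, ?_⟩
      ext g
      rw [hFN, hFN, h]
    · exact mem_sup_of_sub hP' (hFN T) t (hcyc T hfin hT hfar t
        (normal_iff_of_sub inf_le_right (hFN T) ht))
  refine hP.extension f hQ fun q => ?_
  obtain ⟨K, hK⟩ : ∃ K : Subgroup Γ, K = (Subgroup.zpowers q).comap f := ⟨_, rfl⟩
  rw [← hK]
  have hKm : ∀ g : K, ∃ n : ℤ, q ^ n = f (g : Γ) := by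
    intro g
    have h1 : (g : Γ) ∈ (Subgroup.zpowers q).comap f := hK ▸ g.2
    exact Subgroup.mem_zpowers_iff.1 (Subgroup.mem_comap.1 h1)
  have hker : f.ker ≤ K := by
    intro g hg
    rw [hK, Subgroup.mem_comap, MonoidHom.mem_ker.1 hg]
    exact one_mem _
  by_cases hq : IsOfFinOrder q
  · -- elements of finite order
    have : Finite (Subgroup.zpowers q) := hq.finite_zpowers
    obtain ⟨F, hF⟩ : ∃ F : K →* Subgroup.zpowers q, ∀ g : K, ((F g : Subgroup.zpowers q) : Q) = f g :=
      ⟨(f.comp K.subtype).codRestrict (Subgroup.zpowers q) fun g => by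
        obtain ⟨n, hn⟩ := hKm g
        exact Subgroup.mem_zpowers_iff.2 ⟨n, hn⟩, fun g => rfl⟩
    refine hP'.of_finite_range F ?_
    refine hP.of_injective ((K.subtype.comp F.ker.subtype).codRestrict f.ker fun g => ?_) ?_ hN
    · have h2 : F g = 1 := g.2
      have h3 := hF (g : K)
      rw [h2] at h3
      exact h3.symm
    · intro a b hab
      have h1 := congrArg (fun x : f.ker => (x : Γ)) hab
      exact Subtype.ext (Subtype.ext h1)
  · -- elements of infinite order: product with the line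
    obtain ⟨ψ, hψ⟩ : ∃ ψ : Multiplicative ℤ →* Q, ∀ n, ψ n = q ^ n.toAdd :=
      ⟨zpowersHom Q q, fun n => rfl⟩
    have hinj : Function.Injective ψ := by
      rw [injective_iff_map_eq_one]
      intro n hn
      rw [hψ] at hn
      have h1 : n.toAdd = 0 := by
        by_contra h2
        exact hq (isOfFinOrder_iff_zpow_eq_one.2 ⟨n.toAdd, h2, hn⟩)
      exact Multiplicative.toAdd.injective h1
    obtain ⟨χ, hχ⟩ : ∃ χ : K →* Multiplicative ℤ, ∀ g : K, f (g : Γ) = ψ (χ g) := by
      let e : Multiplicative ℤ ≃* ψ.range := MonoidHom.ofInjective hinj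
      let φ : K →* ψ.range := (f.comp K.subtype).codRestrict ψ.range fun g => by
        obtain ⟨n, hn⟩ := hKm g
        exact ⟨Multiplicative.ofAdd n, by rw [hψ]; exact hn⟩
      refine ⟨e.symm.toMonoidHom.comp φ, fun g => ?_⟩
      have h1 : e (e.symm (φ g)) = φ g := e.apply_symm_apply _
      have h2 : ((e (e.symm (φ g)) : ψ.range) : Q) = f (g : Γ) := by
        rw [h1]
        rfl
      rw [← h2]
      rfl
    obtain ⟨x₀⟩ := hX.conn.nonempty
    have hactK : ∀ (g : K) x y, X.Adj (g • x) (g • y) ↔ X.Adj x y := fun g x y => hact (g : Γ) x y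
    letI := hsAct hactK hX.conn
    haveI := hsBased hX hactK x₀
    have hfar : ∀ T : Set (Cube (sig X x₀)), (∃ v ∈ T, ∃ w ∈ T, 2 * k + 2 * d ≤ dC v w) →
        ∃ C ∈ vset '' T, ∃ C' ∈ vset '' T, ∀ x ∈ C, ∀ y ∈ C', k ≤ X.dist x y := by
      rintro T ⟨v, hvT, w, hwT, h⟩
      refine ⟨_, ⟨v, hvT, rfl⟩, _, ⟨w, hwT, rfl⟩, fun x hx y hy => ?_⟩
      have := hX.dC_le hd v w hx hy
      omega
    have hcube : ∀ T : Set (Cube (sig X x₀)), ∀ C ∈ vset '' T, IsCubeSet X C := by
      rintro T _ ⟨U, -, rfl⟩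
      exact hX.isCubeSet_vset U
    have hFK : ∀ (T : Set (Cube (sig X x₀))) (g : K), g ∈ fixingSubgroup K T ⊓ χ.ker ↔
        (g : Γ) ∈ fixingSubgroup Γ (vset '' T) ⊓ f.ker := by
      intro T g
      rw [Subgroup.mem_inf, Subgroup.mem_inf, MonoidHom.mem_ker, MonoidHom.mem_ker, hχ,
        fixing_eq hX hactK x₀ T]
      refine and_congr (hfixK K _ g) ?_
      constructor
      · intro h
        rw [h, map_one]
      · intro h
        exact hinj (by rw [h, map_one])
    refine mem_of_line hP (isVertex_sig x₀) (hX.width_HS x₀ hd) χ (2 * k + 2 * d) l (fun v => ?_)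
      (fun T hfin hmono h => ?_) (fun T hfin h t ht => ?_)
    · have h1 : MulAction.stabilizer K v = MulAction.stabilizer K (vset v) := by
        ext g
        rw [MulAction.mem_stabilizer_iff, MulAction.mem_stabilizer_iff]
        exact smul_eq_iff hX hactK x₀ g v
      rw [h1]
      exact stab_cubeSet hP' (hstab K q hK.le) (hX.isCubeSet_vset v)
    · obtain ⟨i, hi, h1⟩ := hchain (fun i => vset '' T i) (fun i => (hfin i).image _)
        (fun i => hcube (T i)) (fun i => Set.image_mono (hmono i)) (hfar _ h)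
      refine ⟨i, hi, ?_⟩
      ext g
      rw [hFK, hFK, h1]
    · exact mem_sup_of_sub hP' (hFK T) t (hcyc _ (hfin.image _) (hcube T) (hfar T h) t
        (normal_iff_of_sub (inf_le_right.trans hker) (hFK T) ht))

end Pool.Agent.CCC
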