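import Pool.Agent.Lib.MP_98022b_cc.MedCube

/-!
# Median graphs: the dimension
-/

set_option autoImplicit false

open Set

namespace Pool.Agent.CCC

open Pocset

/-- The cube cut by given pairwise transverse halfspaces. -/
theorem isCube_carrier {H : Type} [Pocset H] {o : Set H} (ho : IsVertex o) (s : Set H)
    (hs : ∀ a ∈ s, ∀ b ∈ s, a ≠ b → Transverse a b) :
    IsCube {b : H | (∃ a ∈ s, a ≤ b ∨ op a ≤ b) ∨
      (b ∈ o ∧ ∀ a ∈ s, ¬ a ≤ op b ∧ ¬ op a ≤ op b)} where
  or_op b := by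
    by_cases h1 : ∃ a ∈ s, a ≤ b ∨ op a ≤ b
    · exact Or.inl (Or.inl h1)
    by_cases h2 : ∃ a ∈ s, a ≤ op b ∨ op a ≤ op b
    · exact Or.inr (Or.inl h2)
    by_cases h3 : b ∈ o
    · left
      right
      refine ⟨h3, fun a ha => ⟨fun h => h2 ⟨a, ha, Or.inl h⟩, fun h => h2 ⟨a, ha, Or.inr h⟩⟩⟩
    · right
      right
      have h4 : op b ∈ o := by
        by_contra h4
        exact h3 ((ho.iff_op b).2 h4)
      refine ⟨h4, fun a ha => ?_⟩
      rw [op_op]
      exact ⟨fun h => h1 ⟨a, ha, Or.inl h⟩, fun h => h1 ⟨a, ha, Or.inr h⟩⟩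
  nested b c hbc hb hc := by
    -- no inclusions between the given halfspaces and their complements
    have key : ∀ a ∈ s, ∀ a' ∈ s, ∀ x y : H, (x = a ∨ x = op a) → (y = a' ∨ y = op a') →
        ¬ x < op y := by
      rintro a ha a' ha' x y hx hy hlt
      by_cases haa : a = a'
      · subst haa
        rcases hx with rfl | rfl <;> rcases hy with rfl | rfl
        · exact not_le_op _ hlt.le
        · rw [op_op] at hlt
          exact lt_irrefl _ hlt
        · exact lt_irrefl _ hlt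
        · exact not_le_op _ hlt.le
      · obtain ⟨t1, t2, t3, t4⟩ := hs a ha a' ha' haa
        rcases hx with rfl | rfl <;> rcases hy with rfl | rfl
        · exact t3 hlt.le
        · rw [op_op] at hlt
          exact t1 hlt.le
        · have h := op_le_op _ _ hlt.le
          rw [op_op, op_op] at h
          exact t2 h
        · rw [op_op] at hlt
          exact t4 hlt.le
    rcases hb with ⟨a, ha, hb⟩ | ⟨hb1, hb2⟩
    · obtain ⟨x, hx, hxb⟩ : ∃ x, (x = a ∨ x = op a) ∧ x ≤ b := by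
        rcases hb with h | h
        · exact ⟨a, Or.inl rfl, h⟩
        · exact ⟨op a, Or.inr rfl, h⟩
      rcases hc with ⟨a', ha', hc⟩ | ⟨hc1, hc2⟩
      · obtain ⟨y, hy, hyc⟩ : ∃ y, (y = a' ∨ y = op a') ∧ y ≤ op c := by
          rcases hc with h | h
          · exact ⟨a', Or.inl rfl, h⟩
          · exact ⟨op a', Or.inr rfl, h⟩
        refine key a ha a' ha' x y hx hy ?_
        have h1 := op_le_op _ _ hyc
        rw [op_op] at h1
        exact (hxb.trans_lt hbc).trans_le h1
      · rw [op_op] at hc2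
        rcases hx with rfl | rfl
        · exact (hc2 _ ha).1 (hxb.trans hbc.le)
        · exact (hc2 _ ha).2 (hxb.trans hbc.le)
    · rcases hc with ⟨a', ha', hc⟩ | ⟨hc1, hc2⟩
      · have h1 : op c ≤ op b := op_le_op _ _ hbc.le
        rcases hc with h | h
        · exact (hb2 _ ha').1 (h.trans h1)
        · exact (hb2 _ ha').2 (h.trans h1)
      · exact (ho.iff_op c).1 (ho.up _ _ hbc.le hb1) hc1

variable {V : Type} {X : SimpleGraph V}

namespace IsMedianGraph

variable (hX : IsMedianGraph X)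
include hX

/-- The halfspaces which contain `a` and do not contain `x` are finitely many. -/
theorem finite_above (a : HS X) (x : V) : {b : HS X | a ≤ b ∧ b ∉ sig X x}.Finite := by
  obtain ⟨w, hw⟩ := a.2.nonempty
  refine (hX.finite_sep w x).subset ?_
  rintro b ⟨h1, h2⟩
  exact ⟨h1 hw, h2⟩

/-- There are at most `d` pairwise transverse halfspaces if there is no isometric cube of dimension
larger than `d`. -/
theorem width_HS (x₀ : V) {d : ℕ}
    (hd : ∀ n (e : (Fin n → Bool) → V), IsomCube X n e → n ≤ d) : Width (HS X) d := by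
  classical
  intro s hs
  have ho := isVertex_sig (X := X) x₀
  obtain ⟨U, hU⟩ : ∃ U : Set (HS X), U = {b : HS X | (∃ a ∈ (s : Set (HS X)), a ≤ b ∨ op a ≤ b) ∨
      (b ∈ sig X x₀ ∧ ∀ a ∈ (s : Set (HS X)), ¬ a ≤ op b ∧ ¬ op a ≤ op b)} := ⟨_, rfl⟩
  have hcube : IsCube U := by
    rw [hU]
    exact isCube_carrier ho _ fun a ha b hb hab => hs a (by simpa using ha) b (by simpa using hb) hab
  -- the halfspaces above the given ones
  have hfin1 : {b : HS X | ∃ a ∈ (s : Set (HS X)), (a ≤ b ∨ op a ≤ b) ∧ b ∉ sig X x₀}.Finite := by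
    have h1 : {b : HS X | ∃ a ∈ (s : Set (HS X)), (a ≤ b ∨ op a ≤ b) ∧ b ∉ sig X x₀} =
        ⋃ a ∈ (s : Set (HS X)), ({b : HS X | a ≤ b ∧ b ∉ sig X x₀} ∪
          {b : HS X | op a ≤ b ∧ b ∉ sig X x₀}) := by
      ext b
      simp only [Set.mem_setOf_eq, Set.mem_iUnion, Set.mem_union, exists_prop]
      constructor
      · rintro ⟨a, ha, h2 | h2, h3⟩
        · exact ⟨a, ha, Or.inl ⟨h2, h3⟩⟩
        · exact ⟨a, ha, Or.inr ⟨h2, h3⟩⟩
      · rintro ⟨a, ha, ⟨h2, h3⟩ | ⟨h2, h3⟩⟩
        · exact ⟨a, ha, Or.inl h2, h3⟩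
        · exact ⟨a, ha, Or.inr h2, h3⟩
    rw [h1]
    exact s.finite_toSet.biUnion fun a _ => (hX.finite_above a x₀).union (hX.finite_above (op a) x₀)
  have hfin : (symmDiff U (sig X x₀)).Finite := by
    refine (hfin1.union (hfin1.preimage (f := op) (fun a _ b _ h => op_inj h))).subset ?_
    rintro b (⟨h1, h2⟩ | ⟨h1, h2⟩)
    · left
      rw [hU] at h1
      rcases h1 with ⟨a, ha, h3⟩ | ⟨h3, -⟩
      · exact ⟨a, ha, h3, h2⟩
      · exact absurd h3 h2
    · right
      show ∃ a ∈ (s : Set (HS X)), (a ≤ op b ∨ op a ≤ op b) ∧ op b ∉ sig X x₀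
      by_contra h3
      push Not at h3
      refine h2 ?_
      rw [hU]
      right
      have h4 : op b ∉ sig X x₀ := (ho.iff_op b).1 h1
      exact ⟨h1, fun a ha => ⟨fun h5 => h4 (h3 a ha (Or.inl h5)), fun h5 => h4 (h3 a ha (Or.inr h5))⟩⟩
  have hle := hX.ncard_Fr_le hd (x₀ := x₀) ⟨U, hcube, hfin⟩
  refine le_trans ?_ hle
  -- the given halfspaces cut the cube
  have hmem : ∀ a ∈ s, a ∈ Fr U := by
    intro a ha
    rw [hU]
    exact ⟨Or.inl ⟨a, by simpa using ha, Or.inl le_rfl⟩, Or.inl ⟨a, by simpa using ha, Or.inr le_rfl⟩⟩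
  rw [← Set.ncard_coe_finset s]
  refine Set.ncard_le_ncard_of_injOn (fun a => if a ∈ sig X x₀ then op a else a) ?_ ?_
    ((finite_Fr ho hfin).subset fun a ha => ha.1)
  · intro a ha
    have ha' : a ∈ s := by simpa using ha
    simp only
    split_ifs with h1
    · exact ⟨op_mem_Fr (hmem a ha'), (ho.iff_op a).1 h1⟩
    · exact ⟨hmem a ha', h1⟩
  · intro a ha b hb hab
    have ha' : a ∈ s := by simpa using ha
    have hb' : b ∈ s := by simpa using hb
    by_contra hne
    obtain ⟨t1, t2, t3, t4⟩ := hs a ha' b hb' hne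
    simp only at hab
    split_ifs at hab with h1 h2 h2
    · exact hne (op_inj hab)
    · exact t4 hab.le
    · exact t3 hab.le
    · exact hne hab

end IsMedianGraph

end Pool.Agent.CCC
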