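import Pool.Agent.Lib.MP_98022b_cc.Basic

/-!
# Row CB: the metric

All sums over chains are bounded by the sum of `|y a - x a|` over the finite set `x ≠ y`. The
triangle inequality is `∑ (z - x) = ∑ (y - x) + ∑ (z - y)`; symmetry: replace `c` by its image under
`op`; `c = {a}` shows `y a - x a ≤ dist x y`. `exists_chain`: only finitely many sums come from
chains inside the finite set `{x < y}`, and the other chains have smaller sums (remove the elements
with `y a ≤ x a`).
-/

set_option autoImplicit false

open Set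

namespace Pool.Agent.CCC

open Pocset

variable {H : Type} [Pocset H] {o : Set H}

private theorem exists_max (x y : Pt o) :
    ∃ c : Finset H, Ch c ∧ (∀ a ∈ c, x a < y a) ∧
      ∀ c' : Finset H, Ch c' → ∑ a ∈ c', (y a - x a) ≤ ∑ a ∈ c, (y a - x a) := by
  classical
  have hfin : {a | x a < y a}.Finite :=
    (Pt.finite_ne x y).subset fun a (ha : x a < y a) => ne_of_lt ha
  let P : Finset H := hfin.toFinset
  let T : Finset (Finset H) := P.powerset.filter fun c => Ch c
  have hT : T.Nonempty := by
    refine ⟨∅, ?_⟩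
    simp only [T, Finset.mem_filter, Finset.mem_powerset, Finset.empty_subset, true_and]
    unfold Ch
    simp
  obtain ⟨c, hc, hmax⟩ := Finset.exists_max_image T (fun c => ∑ a ∈ c, (y a - x a)) hT
  simp only [T, Finset.mem_filter, Finset.mem_powerset] at hc
  refine ⟨c, hc.2, ?_, ?_⟩
  · intro a ha
    have h1 := hc.1 ha
    simpa [P] using h1
  · intro c' hc'
    have h1 : c'.filter (fun a => x a < y a) ∈ T := by
      simp only [T, Finset.mem_filter, Finset.mem_powerset]
      refine ⟨?_, ?_⟩
      · intro a ha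
        simp only [Finset.mem_filter] at ha
        simpa [P] using ha.2
      · exact IsChain.mono (fun a ha => by
          simp only [Finset.coe_filter, Set.mem_ofPred_eq] at ha
          exact ha.1) hc'
    have h2 := hmax _ h1
    refine le_trans ?_ h2
    rw [← Finset.sum_filter_add_sum_filter_not c' (fun a => x a < y a)]
    have h3 : ∑ a ∈ c' with ¬ x a < y a, (y a - x a) ≤ 0 := by
      apply Finset.sum_nonpos
      intro a ha
      simp only [Finset.mem_filter, not_lt] at ha
      linarith [ha.2]
    linarith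

private theorem dP_eq_of_max (x y : Pt o) {c : Finset H} (hc : Ch c)
    (hmax : ∀ c' : Finset H, Ch c' → ∑ a ∈ c', (y a - x a) ≤ ∑ a ∈ c, (y a - x a)) :
    ∑ a ∈ c, (y a - x a) = dP x y := by
  have h : IsGreatest (sums x y) (∑ a ∈ c, (y a - x a)) := by
    refine ⟨⟨c, hc, rfl⟩, ?_⟩
    rintro r ⟨c', hc', rfl⟩
    exact hmax c' hc'
  exact h.csSup_eq.symm

theorem exists_chain_dP (x y : Pt o) :
    ∃ c : Finset H, Ch c ∧ (∀ a ∈ c, x a < y a) ∧ ∑ a ∈ c, (y a - x a) = dP x y := by
  obtain ⟨c, hc, hpos, hmax⟩ := exists_max x y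
  exact ⟨c, hc, hpos, dP_eq_of_max x y hc hmax⟩

theorem sum_le_dP (x y : Pt o) {c : Finset H} (hc : Ch c) : ∑ a ∈ c, (y a - x a) ≤ dP x y := by
  obtain ⟨c', hc', _, hmax⟩ := exists_max x y
  rw [← dP_eq_of_max x y hc' hmax]
  exact hmax c hc

theorem dP_self (x : Pt o) : dP x x = 0 := by
  obtain ⟨c, _, _, h⟩ := exists_chain_dP x x
  rw [← h]
  simp

private theorem dP_le_symm (x y : Pt o) : dP x y ≤ dP y x := by
  classical
  obtain ⟨c, hc, _, h⟩ := exists_chain_dP x y
  rw [← h]
  have h1 : Ch (c.image op) := by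
    intro a ha b hb _
    simp only [Finset.coe_image, Set.mem_image, Finset.mem_coe] at ha hb
    obtain ⟨a', ha', rfl⟩ := ha
    obtain ⟨b', hb', rfl⟩ := hb
    by_cases hab : a' = b'
    · left
      rw [hab]
    · rcases hc ha' hb' hab with h2 | h2
      · right
        exact op_le_op _ _ h2
      · left
        exact op_le_op _ _ h2
  refine le_trans (le_of_eq ?_) (sum_le_dP y x h1)
  rw [Finset.sum_image]
  · refine Finset.sum_congr rfl fun a _ => ?_
    rw [x.op_val, y.op_val]
    ring
  · intro a _ b _ hab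
    exact op_inj hab

theorem dP_comm (x y : Pt o) : dP x y = dP y x :=
  le_antisymm (dP_le_symm x y) (dP_le_symm y x)

theorem dP_triangle (x y z : Pt o) : dP x z ≤ dP x y + dP y z := by
  obtain ⟨c, hc, _, h⟩ := exists_chain_dP x z
  rw [← h]
  have h1 := sum_le_dP x y hc
  have h2 := sum_le_dP y z hc
  have h3 : ∑ a ∈ c, (z a - x a) = ∑ a ∈ c, (y a - x a) + ∑ a ∈ c, (z a - y a) := by
    rw [← Finset.sum_add_distrib]
    refine Finset.sum_congr rfl fun a _ => ?_
    ring
  linarith

private theorem sub_le_dP (x y : Pt o) (a : H) : y a - x a ≤ dP x y := by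
  have h : Ch ({a} : Finset H) := by
    unfold Ch
    simp
  have h1 := sum_le_dP x y h
  simpa using h1

theorem eq_of_dP (x y : Pt o) (h : dP x y = 0) : x = y := by
  ext a
  have h1 := sub_le_dP x y a
  have h2 := sub_le_dP y x a
  rw [← dP_comm, h] at h2
  rw [h] at h1
  linarith

noncomputable instance : MetricSpace (Pt o) where
  dist := dP
  dist_self := dP_self
  dist_comm := dP_comm
  dist_triangle := dP_triangle
  eq_of_dist_eq_zero := fun {x y} h => eq_of_dP x y h

theorem exists_chain (x y : Pt o) :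
    ∃ c : Finset H, Ch c ∧ (∀ a ∈ c, x a < y a) ∧ ∑ a ∈ c, (y a - x a) = dist x y :=
  exists_chain_dP x y

theorem sum_le_dist (x y : Pt o) {c : Finset H} (hc : Ch c) :
    ∑ a ∈ c, (y a - x a) ≤ dist x y := sum_le_dP x y hc

end Pool.Agent.CCC
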