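import Pool.Agent.Lib.MP_98022b_cc.Metric

/-!
# Row CC: the metric, counting and the action

`ncard_lt_le`: the elements of the finite set `P = {x < y}`, ordered by inclusion, have a height
(length of the longest chain in `P` below); elements of the same height form an antichain, at most
`d` of them (`Pt.card_antichain`), and a chain with `n` elements has weight at least `n - 2`
(`Pt.nested2`: all elements except the two extreme ones have weight one).
`dist_le_of_sup`: if all differences are at most `u < 1` then a chain in `{x < y}` has at most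
two elements.
-/

set_option autoImplicit false

open Set

namespace Pool.Agent.CCC

open Pocset

variable {H : Type} [Pocset H] {o : Set H}

theorem abs_sub_le_dist (x y : Pt o) (a : H) : |x a - y a| ≤ dist x y := by
  have hc : Ch ({a} : Finset H) := by
    unfold Ch
    rw [Finset.coe_singleton]
    exact IsChain.singleton
  have h1 := sum_le_dist x y hc
  have h2 := sum_le_dist y x hc
  rw [Finset.sum_singleton] at h1 h2
  rw [dist_comm] at h2
  rw [abs_le]
  constructor <;> linarith

namespace RowCC

/-- in a chain inside `{x < y}` all elements except the extreme ones have weight one -/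
private theorem interior (x y : Pt o) {c : Finset H} (h : ∀ a ∈ c, x a < y a) {a : H} (ha : a ∈ c)
    (h1 : ∃ b ∈ c, b < a) (h2 : ∃ b ∈ c, a < b) : y a - x a = 1 := by
  obtain ⟨b, hb, hba⟩ := h1
  obtain ⟨e, he, hae⟩ := h2
  have h3 := (Pt.nested2 x y (h a ha) (h b hb) hba).1
  have h4 := (Pt.nested2 x y (h e he) (h a ha) hae).2
  rw [h3, h4, sub_zero]

open Classical in
private theorem card_le (c : Finset H) (hc : Ch c) :
    c.card ≤ (c.filter fun a => (∃ b ∈ c, b < a) ∧ ∃ b ∈ c, a < b).card + 2 := by
  have hA : (c.filter fun a => ¬ ∃ b ∈ c, b < a).card ≤ 1 := by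
    rw [Finset.card_le_one]
    intro a ha b hb
    rw [Finset.mem_filter] at ha hb
    by_contra hab
    rcases hc ha.1 hb.1 hab with h | h
    · exact hb.2 ⟨a, ha.1, lt_of_le_of_ne h hab⟩
    · exact ha.2 ⟨b, hb.1, lt_of_le_of_ne h (Ne.symm hab)⟩
  have hB : (c.filter fun a => ¬ ∃ b ∈ c, a < b).card ≤ 1 := by
    rw [Finset.card_le_one]
    intro a ha b hb
    rw [Finset.mem_filter] at ha hb
    by_contra hab
    rcases hc ha.1 hb.1 hab with h | h
    · exact ha.2 ⟨b, hb.1, lt_of_le_of_ne h hab⟩
    · exact hb.2 ⟨a, ha.1, lt_of_le_of_ne h (Ne.symm hab)⟩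
  have hsub : c ⊆ (c.filter fun a => (∃ b ∈ c, b < a) ∧ ∃ b ∈ c, a < b) ∪
      ((c.filter fun a => ¬ ∃ b ∈ c, b < a) ∪ (c.filter fun a => ¬ ∃ b ∈ c, a < b)) := by
    intro a ha
    rw [Finset.mem_union, Finset.mem_union, Finset.mem_filter, Finset.mem_filter,
      Finset.mem_filter]
    by_cases h1 : ∃ b ∈ c, b < a
    · by_cases h2 : ∃ b ∈ c, a < b
      · exact Or.inl ⟨ha, h1, h2⟩
      · exact Or.inr (Or.inr ⟨ha, h2⟩)
    · exact Or.inr (Or.inl ⟨ha, h1⟩)
  have h1 := Finset.card_le_card hsub
  have h2 := Finset.card_union_le (c.filter fun a => (∃ b ∈ c, b < a) ∧ ∃ b ∈ c, a < b)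
    ((c.filter fun a => ¬ ∃ b ∈ c, b < a) ∪ (c.filter fun a => ¬ ∃ b ∈ c, a < b))
  have h3 := Finset.card_union_le (c.filter fun a => ¬ ∃ b ∈ c, b < a)
    (c.filter fun a => ¬ ∃ b ∈ c, a < b)
  omega

open Classical in
private theorem mirsky {d : ℕ} : ∀ (n : ℕ) (s : Finset H),
    (∀ t : Finset H, t ⊆ s → (∀ a ∈ t, ∀ b ∈ t, a ≠ b → ¬ a ≤ b) → t.card ≤ d) →
    (∀ c : Finset H, c ⊆ s → Ch c → c.card ≤ n) → s.card ≤ d * n := by
  intro n
  induction n with
  | zero =>
    intro s _ h2
    have : s = ∅ := by
      rw [Finset.eq_empty_iff_forall_notMem]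
      intro a ha
      have h3 := h2 {a} (by simpa using ha) (by
        unfold Ch
        rw [Finset.coe_singleton]
        exact IsChain.singleton)
      simp at h3
    simp [this]
  | succ n ih =>
    intro s h1 h2
    set m : Finset H := s.filter (fun a => ¬ ∃ b ∈ s, b < a) with hm
    set s' : Finset H := s.filter (fun a => ∃ b ∈ s, b < a) with hs'
    have hcard : s.card = s'.card + m.card := by
      rw [hs', hm]
      exact (Finset.card_filter_add_card_filter_not (fun a => ∃ b ∈ s, b < a)).symm
    have hmd : m.card ≤ d := by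
      apply h1 m (Finset.filter_subset _ _)
      intro a ha b hb hab hle
      rw [hm, Finset.mem_filter] at ha hb
      exact hb.2 ⟨a, ha.1, lt_of_le_of_ne hle hab⟩
    have hs'n : s'.card ≤ d * n := by
      apply ih s' (fun t ht => h1 t (ht.trans (Finset.filter_subset _ _)))
      intro c hcs hc
      rcases c.eq_empty_or_nonempty with rfl | hne
      · simp
      · obtain ⟨a, ha⟩ := c.exists_minimal hne
        have hmin : ∀ e ∈ c, a ≤ e := by
          intro e he
          by_cases hae : a = e
          · rw [hae]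
          · rcases hc ha.prop he hae with h | h
            · exact h
            · exact ha.le_of_le he h
        have ha' := hcs ha.prop
        rw [hs', Finset.mem_filter] at ha'
        obtain ⟨-, b, hb, hba⟩ := ha'
        have hbc : b ∉ c := fun hbc => absurd (hmin b hbc) (not_le_of_gt hba)
        have h3 := h2 (insert b c) (by
          intro e he
          rcases Finset.mem_insert.1 he with rfl | he
          · exact hb
          · exact Finset.filter_subset _ _ (hcs he)) (by
          unfold Ch
          rw [Finset.coe_insert]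
          apply IsChain.insert hc
          intro e he _
          left
          exact hba.le.trans (hmin e he))
        rw [Finset.card_insert_of_notMem hbc] at h3
        omega
    rw [hcard, Nat.mul_succ]
    omega

end RowCC

/-- a chain with `n` elements has weight at least `n - 2` -/
theorem card_chain_le (x y : Pt o) {c : Finset H} (hc : Ch c) (h : ∀ a ∈ c, x a < y a) :
    (c.card : ℝ) ≤ dist x y + 2 := by
  classical
  have h1 := RowCC.card_le c hc
  set c' : Finset H := c.filter fun a => (∃ b ∈ c, b < a) ∧ ∃ b ∈ c, a < b with hc'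
  have h2 : ∑ a ∈ c', (y a - x a) = c'.card := by
    rw [Finset.sum_congr rfl (g := fun _ => (1 : ℝ)), Finset.sum_const, nsmul_eq_mul, mul_one]
    intro a ha
    rw [hc', Finset.mem_filter] at ha
    exact RowCC.interior x y h ha.1 ha.2.1 ha.2.2
  have h3 : ∑ a ∈ c', (y a - x a) ≤ dist x y := by
    apply sum_le_dist
    intro a ha b hb hab
    exact hc (Finset.filter_subset _ _ ha) (Finset.filter_subset _ _ hb) hab
  have h4 : (c.card : ℝ) ≤ c'.card + 2 := by exact_mod_cast h1
  linarith

theorem ncard_lt_le {d : ℕ} (hw : Width H d) (x y : Pt o) :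
    (({a | x a < y a} : Set H).ncard : ℝ) ≤ d * (dist x y + 2) := by
  classical
  have hfin : ({a | x a < y a} : Set H).Finite :=
    (Pt.finite_ne x y).subset (fun a ha => ne_of_lt ha)
  rw [Set.ncard_eq_toFinset_card _ hfin]
  have hmem : ∀ a, a ∈ hfin.toFinset ↔ x a < y a := by
    intro a
    rw [Set.Finite.mem_toFinset]
    rfl
  have hd0 : 0 ≤ dist x y := dist_nonneg
  have h1 : hfin.toFinset.card ≤ d * ⌊dist x y + 2⌋₊ := by
    apply RowCC.mirsky
    · intro t ht hanti
      exact Pt.card_antichain x y hw t (fun a ha => (hmem a).1 (ht ha)) hanti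
    · intro c hcs hc
      rw [Nat.le_floor_iff (by linarith)]
      exact card_chain_le x y hc (fun a ha => (hmem a).1 (hcs ha))
  calc ((hfin.toFinset.card : ℕ) : ℝ) ≤ ((d * ⌊dist x y + 2⌋₊ : ℕ) : ℝ) := by exact_mod_cast h1
    _ = d * (⌊dist x y + 2⌋₊ : ℝ) := by push_cast; ring
    _ ≤ d * (dist x y + 2) := by
        apply mul_le_mul_of_nonneg_left (Nat.floor_le (by linarith)) (Nat.cast_nonneg d)

theorem dist_le_of_sup (x y : Pt o) {u : ℝ} (hu0 : 0 ≤ u) (hu : u < 1)
    (h : ∀ a, |x a - y a| ≤ u) : dist x y ≤ 2 * u := by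
  classical
  obtain ⟨c, hc, hpos, hsum⟩ := exists_chain x y
  have h1 := RowCC.card_le c hc
  have h2 : (c.filter fun a => (∃ b ∈ c, b < a) ∧ ∃ b ∈ c, a < b) = ∅ := by
    rw [Finset.eq_empty_iff_forall_notMem]
    intro a ha
    rw [Finset.mem_filter] at ha
    have h3 := RowCC.interior x y hpos ha.1 ha.2.1 ha.2.2
    have h4 := h a
    rw [abs_le] at h4
    linarith [h4.1]
  rw [h2, Finset.card_empty, zero_add] at h1
  rw [← hsum]
  calc ∑ a ∈ c, (y a - x a) ≤ ∑ _a ∈ c, u := by
        apply Finset.sum_le_sum
        intro a _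
        have h4 := h a
        rw [abs_le] at h4
        linarith [h4.1]
    _ = c.card * u := by rw [Finset.sum_const, nsmul_eq_mul]
    _ ≤ 2 * u := by
        apply mul_le_mul_of_nonneg_right _ hu0
        exact_mod_cast h1

section action

variable {G : Type} [Group G] [PocAct G H] [Based G o]

noncomputable instance : MulAction G (Pt o) where
  smul g x :=
    { val := fun a => x (g⁻¹ • a)
      nonneg := fun a => x.nonneg _
      op_val := fun a => by
        rw [PocAct.smul_op, x.op_val]
      nested := fun a b hab => by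
        refine x.nested _ _ (lt_of_le_of_ne (PocAct.smul_le _ _ _ hab.le) fun h => ?_)
        exact hab.ne (MulAction.injective g⁻¹ h)
      fin := by
        have h1 : {a | x (g⁻¹ • a) ≠ ind o a} ⊆
            ((fun a => g⁻¹ • a) ⁻¹' {a | x a ≠ ind o a}) ∪ {a | ind o (g⁻¹ • a) ≠ ind o a} := by
          intro a ha
          by_cases h : x (g⁻¹ • a) = ind o (g⁻¹ • a)
          · right
            show ind o (g⁻¹ • a) ≠ ind o a
            rw [← h]
            exact ha
          · left
            exact h
        refine Finite.subset (Finite.union ?_ (Based.fin g)) h1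
        exact x.fin.preimage (MulAction.injective g⁻¹).injOn }
  one_smul x := by
    ext a
    show x ((1 : G)⁻¹ • a) = x a
    rw [inv_one, one_smul]
  mul_smul g h x := by
    ext a
    show x ((g * h)⁻¹ • a) = x (h⁻¹ • g⁻¹ • a)
    rw [mul_inv_rev, mul_smul]

theorem smul_val (g : G) (x : Pt o) (a : H) : (g • x) a = x (g⁻¹ • a) := rfl

theorem dist_smul' (g : G) (x y : Pt o) : dist (g • x) (g • y) = dist x y := by
  classical
  have key : ∀ (g : G) (x y : Pt o), dist (g • x) (g • y) ≤ dist x y := by
    intro g x y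
    obtain ⟨c, hc, -, hsum⟩ := exists_chain (g • x) (g • y)
    rw [← hsum]
    have h1 : ∑ a ∈ c, ((g • y) a - (g • x) a) =
        ∑ b ∈ c.image (fun a => g⁻¹ • a), (y b - x b) := by
      rw [Finset.sum_image]
      · rfl
      · intro a _ b _ hab
        exact MulAction.injective g⁻¹ hab
    rw [h1]
    apply sum_le_dist
    intro a ha b hb hab
    rw [Finset.mem_coe, Finset.mem_image] at ha hb
    obtain ⟨a', ha', rfl⟩ := ha
    obtain ⟨b', hb', rfl⟩ := hb
    have hab' : a' ≠ b' := fun h => hab (by rw [h])
    rcases hc ha' hb' hab' with h | h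
    · exact Or.inl (PocAct.smul_le _ _ _ h)
    · exact Or.inr (PocAct.smul_le _ _ _ h)
  apply le_antisymm (key g x y)
  have h2 := key g⁻¹ (g • x) (g • y)
  rwa [inv_smul_smul, inv_smul_smul] at h2

end action

end Pool.Agent.CCC
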