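import Pool.Agent.Lib.MP_98022b_cc.Defs

/-!
# The product of a cube complex with the line

`LH H` is the set of the halfspaces of the product. For a homomorphism `χ : G → ℤ` the group `G` acts
on the product, on the line by translations.
-/

set_option autoImplicit false

open Set

namespace Pool.Agent.CCC

open Pocset

/-- The halfspaces of the product with the line: the ones of `H`, the rays `(-∞, n]` (`lo n`) and
their complements (`hi n`). -/
inductive LH (H : Type) where
  /-- halfspaces of the factor -/
  | fac (a : H)
  /-- `(-∞, n]` -/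
  | lo (n : ℤ)
  /-- `(n, ∞)` -/
  | hi (n : ℤ)

namespace LH

variable {H : Type}

/-- Inclusion of halfspaces. -/
def le [LE H] : LH H → LH H → Prop
  | fac a, fac b => a ≤ b
  | lo m, lo n => m ≤ n
  | hi m, hi n => n ≤ m
  | _, _ => False

/-- The complement. -/
def opp (f : H → H) : LH H → LH H
  | fac a => fac (f a)
  | lo n => hi n
  | hi n => lo n

/-- The action: `n` is the translation of the line. -/
def act (f : H → H) (n : ℤ) : LH H → LH H
  | fac a => fac (f a)
  | lo m => lo (m + n)
  | hi m => hi (m + n)

instance [Pocset H] : Pocset (LH H) where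
  le := le
  le_refl a := by cases a <;> simp [le]
  le_trans a b c hab hbc := by
    cases a <;> cases b <;> cases c <;> simp_all [le] <;> first
      | exact le_trans hab hbc
      | exact le_trans hbc hab
  le_antisymm a b hab hba := by
    cases a <;> cases b <;> simp_all [le] <;> first
      | exact le_antisymm hab hba
      | exact le_antisymm hba hab
  op := opp op
  op_op a := by cases a <;> simp [opp, op_op]
  op_le_op a b h := by
    cases a <;> cases b <;> first
      | exact op_le_op _ _ h
      | exact h
  not_le_op a h := by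
    cases a with
    | fac a => exact not_le_op a h
    | lo n => exact h
    | hi n => exact h

variable [Pocset H]

theorem fac_le {a b : H} : (fac a ≤ fac b) ↔ a ≤ b := Iff.rfl
theorem lo_le {m n : ℤ} : (lo m ≤ (lo n : LH H)) ↔ m ≤ n := Iff.rfl
theorem hi_le {m n : ℤ} : (hi m ≤ (hi n : LH H)) ↔ n ≤ m := Iff.rfl
theorem op_fac (a : H) : op (fac a) = fac (op a) := rfl
theorem op_lo (n : ℤ) : op (lo n : LH H) = hi n := rfl
theorem op_hi (n : ℤ) : op (hi n : LH H) = lo n := rfl

theorem fac_lt {a b : H} : (fac a < fac b) ↔ a < b := by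
  rw [lt_iff_le_not_ge, lt_iff_le_not_ge, fac_le, fac_le]

/-- The dimension of the product. -/
theorem width {d : ℕ} (hw : Width H d) : Width (LH H) (d + 1) := by
  classical
  intro s hs
  -- the halfspaces of the line
  have hline : ∀ a ∈ s, ∀ b ∈ s, (∀ c, a ≠ fac c) → (∀ c, b ≠ fac c) → a = b := by
    intro a ha b hb h1 h2
    by_contra hne
    obtain ⟨t1, t2, t3, t4⟩ := hs a ha b hb hne
    cases a with
    | fac c => exact h1 c rfl
    | lo m =>
      cases b with
      | fac c => exact h2 c rfl
      | lo n =>
        rcases le_total m n with h | h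
        · exact t1 h
        · exact t2 h
      | hi n =>
        rcases le_total m n with h | h
        · exact t3 h
        · exact t4 h
    | hi m =>
      cases b with
      | fac c => exact h2 c rfl
      | lo n =>
        rcases le_total m n with h | h
        · exact t4 h
        · exact t3 h
      | hi n =>
        rcases le_total m n with h | h
        · exact t2 h
        · exact t1 h
  have h1 : (s.filter fun a => ∀ c, a ≠ fac c).card ≤ 1 := by
    rw [Finset.card_le_one]
    intro a ha b hb
    rw [Finset.mem_filter] at ha hb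
    exact hline a ha.1 b hb.1 ha.2 hb.2
  have h2 : (s.filter fun a => ¬ ∀ c, a ≠ fac c).card ≤ d := by
    obtain ⟨s', hs'⟩ : ∃ s' : Finset H, s' = s.preimage fac (fun x _ y _ h => by
        simpa using h) := ⟨_, rfl⟩
    have h3 : (s.filter fun a => ¬ ∀ c, a ≠ fac c) ⊆ s'.image fac := by
      intro a ha
      rw [Finset.mem_filter] at ha
      obtain ⟨ha, hc⟩ := ha
      push Not at hc
      obtain ⟨c, rfl⟩ := hc
      refine Finset.mem_image.2 ⟨c, ?_, rfl⟩
      rw [hs', Finset.mem_preimage]
      exact ha
    refine (Finset.card_le_card h3).trans (Finset.card_image_le.trans ?_)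
    refine hw s' fun a ha b hb hab => ?_
    rw [hs', Finset.mem_preimage] at ha hb
    exact hs _ ha _ hb (by simpa using hab)
  have h3 := Finset.card_filter_add_card_filter_not (s := s) (fun a => ∀ c, a ≠ fac c)
  omega

/-- The vertex `(o, 0)`. -/
def base (o : Set H) : Set (LH H)
  | fac a => a ∈ o
  | lo n => 0 ≤ n
  | hi n => n < 0

theorem fac_mem {o : Set H} {a : H} : fac a ∈ base o ↔ a ∈ o := Iff.rfl
theorem lo_mem {o : Set H} {n : ℤ} : (lo n : LH H) ∈ base o ↔ 0 ≤ n := Iff.rfl
theorem hi_mem {o : Set H} {n : ℤ} : (hi n : LH H) ∈ base o ↔ n < 0 := Iff.rfl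

theorem isVertex {o : Set H} (ho : IsVertex o) : IsVertex (base o) where
  iff_op a := by
    cases a with
    | fac a => exact ho.iff_op a
    | lo n => rw [op_lo, lo_mem, hi_mem, not_lt]
    | hi n => rw [op_hi, lo_mem, hi_mem, not_le]
  up a b hab ha := by
    cases a with
    | fac a =>
      cases b with
      | fac b => exact ho.up a b hab ha
      | lo n => exact hab.elim
      | hi n => exact hab.elim
    | lo m =>
      cases b with
      | fac b => exact hab.elim
      | lo n => exact le_trans (lo_mem.1 ha) (lo_le.1 hab)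
      | hi n => exact hab.elim
    | hi m =>
      cases b with
      | fac b => exact hab.elim
      | lo n => exact hab.elim
      | hi n => exact lt_of_le_of_lt (hi_le.1 hab) (hi_mem.1 ha)

/-- The action on the product by a homomorphism to `ℤ`. -/
@[reducible] def pocAct {G : Type} [Group G] [PocAct G H] (χ : G →* Multiplicative ℤ) :
    PocAct G (LH H) where
  smul g a := act (fun a => g • a) (χ g).toAdd a
  one_smul a := by
    show act (fun a => (1 : G) • a) (χ 1).toAdd a = a
    cases a <;> simp [act]
  mul_smul g h a := by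
    show act (fun a => (g * h) • a) (χ (g * h)).toAdd a =
      act (fun a => g • a) (χ g).toAdd (act (fun a => h • a) (χ h).toAdd a)
    cases a with
    | fac a => simp [act, mul_smul]
    | lo n =>
      simp only [act, map_mul, toAdd_mul]
      congr 1
      ring
    | hi n =>
      simp only [act, map_mul, toAdd_mul]
      congr 1
      ring
  smul_le g a b hab := by
    show act (fun a => g • a) (χ g).toAdd a ≤ act (fun a => g • a) (χ g).toAdd b
    cases a with
    | fac a =>
      cases b with
      | fac b => exact PocAct.smul_le g a b hab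
      | lo n => exact hab.elim
      | hi n => exact hab.elim
    | lo m =>
      cases b with
      | fac b => exact hab.elim
      | lo n => exact add_le_add_left (lo_le.1 hab) _
      | hi n => exact hab.elim
    | hi m =>
      cases b with
      | fac b => exact hab.elim
      | lo n => exact hab.elim
      | hi n => exact add_le_add_left (hi_le.1 hab) _
  smul_op g a := by
    show act (fun a => g • a) (χ g).toAdd (op a) = op (act (fun a => g • a) (χ g).toAdd a)
    cases a with
    | fac a =>
      show fac (g • op a) = fac (op (g • a))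
      rw [PocAct.smul_op]
    | lo n => rfl
    | hi n => rfl

theorem ind_eq {o : Set H} {a : LH H} {b : LH H} (h : a ∈ base o ↔ b ∈ base o) :
    ind (base o) a = ind (base o) b := by
  unfold ind
  by_cases h1 : a ∈ base o
  · rw [if_pos h1, if_pos (h.1 h1)]
  · rw [if_neg h1, if_neg fun h2 => h1 (h.2 h2)]

/-- The product has a base vertex. -/
theorem based {G : Type} [Group G] [PocAct G H] {o : Set H} [hB : Based G o]
    (χ : G →* Multiplicative ℤ) : @Based G (LH H) _ _ (pocAct χ) (base o) := by
  refine @Based.mk G (LH H) _ _ (pocAct χ) (base o) (isVertex hB.vertex) fun g => ?_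
  have h1 : (fac '' {a : H | ind o (g⁻¹ • a) ≠ ind o a}).Finite := (hB.fin g).image _
  obtain ⟨n, hn⟩ : ∃ n : ℤ, n = (χ g⁻¹).toAdd := ⟨_, rfl⟩
  have h2 : (lo '' (Set.Icc (-|n|) |n|) : Set (LH H)).Finite := (Set.finite_Icc _ _).image _
  have h3 : (hi '' (Set.Icc (-|n|) |n|) : Set (LH H)).Finite := (Set.finite_Icc _ _).image _
  refine ((h1.union h2).union h3).subset ?_
  intro a ha
  cases a with
  | fac a =>
    left
    left
    refine ⟨a, fun h => ha ?_, rfl⟩
    refine ind_eq ?_
    show g⁻¹ • a ∈ o ↔ a ∈ o
    unfold ind at h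
    by_cases h4 : g⁻¹ • a ∈ o
    · by_cases h5 : a ∈ o
      · simp [h4, h5]
      · rw [if_pos h4, if_neg h5] at h
        norm_num at h
    · by_cases h5 : a ∈ o
      · rw [if_neg h4, if_pos h5] at h
        norm_num at h
      · simp [h4, h5]
  | lo m =>
    left
    right
    refine ⟨m, ?_, rfl⟩
    by_contra h
    refine ha (ind_eq ?_)
    show 0 ≤ m + (χ g⁻¹).toAdd ↔ 0 ≤ m
    rw [← hn]
    rw [Set.mem_Icc, not_and_or, not_le, not_le] at h
    have h4 := neg_abs_le n
    have h5 := le_abs_self n
    rcases h with h | h
    · constructor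
      · intro h6
        linarith
      · intro h6
        linarith [abs_nonneg n]
    · constructor
      · intro h6
        linarith [abs_nonneg n]
      · intro h6
        linarith
  | hi m =>
    right
    refine ⟨m, ?_, rfl⟩
    by_contra h
    refine ha (ind_eq ?_)
    show m + (χ g⁻¹).toAdd < 0 ↔ m < 0
    rw [← hn]
    rw [Set.mem_Icc, not_and_or, not_le, not_le] at h
    have h4 := neg_abs_le n
    have h5 := le_abs_self n
    rcases h with h | h
    · constructor
      · intro h6
        linarith [abs_nonneg n]
      · intro h6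
        linarith
    · constructor
      · intro h6
        linarith
      · intro h6
        linarith [abs_nonneg n]

/-- The projection of a cube. -/
theorem isCube_fac {U : Set (LH H)} (hU : IsCube U) : IsCube {a : H | fac a ∈ U} where
  or_op a := hU.or_op (fac a)
  nested a b hab ha := hU.nested (fac a) (fac b) (fac_lt.2 hab) ha

theorem finite_fac {o : Set H} {U : Set (LH H)} (hU : (symmDiff U (base o)).Finite) :
    (symmDiff {a : H | fac a ∈ U} o).Finite := by
  refine (hU.preimage (f := fac) (fun x _ y _ h => by simpa using h)).subset ?_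
  intro a ha
  rw [Set.mem_symmDiff] at ha
  show fac a ∈ symmDiff U (base o)
  rw [Set.mem_symmDiff]
  exact ha

/-- A translation which fixes a cube is trivial. -/
theorem trans_eq_zero {o : Set H} {U : Set (LH H)} (hU : (symmDiff U (base o)).Finite) {n : ℤ}
    (h : ∀ m : ℤ, (lo m : LH H) ∈ U ↔ lo (m + n) ∈ U) : n = 0 := by
  by_contra hn
  -- infinitely many rays
  have hkey : ∀ (m : ℤ) (k : ℤ), (lo m : LH H) ∈ U ↔ lo (m + k * n) ∈ U := by
    intro m k
    induction k using Int.induction_on with
    | zero => simp
    | succ k ih =>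
      rw [ih, h]
      rw [show m + ((k : ℤ) + 1) * n = m + k * n + n by ring]
    | pred k ih =>
      rw [ih, h (m + (-(k : ℤ) - 1) * n)]
      rw [show m + (-(k : ℤ) - 1) * n + n = m + -(k : ℤ) * n by ring]
  -- the finite set of the rays whose membership differs
  have hfin : {m : ℤ | ¬ ((lo m : LH H) ∈ U ↔ 0 ≤ m)}.Finite := by
    refine (hU.preimage (f := lo) (fun x _ y _ h => by simpa using h)).subset ?_
    intro m hm
    show lo m ∈ symmDiff U (base o)
    rw [Set.mem_symmDiff]
    by_cases h1 : (lo m : LH H) ∈ U
    · left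
      refine ⟨h1, fun h2 => hm ?_⟩
      simp only [h1, true_iff]
      exact h2
    · right
      refine ⟨?_, h1⟩
      by_contra h2
      refine hm ?_
      simp only [h1, false_iff]
      exact h2
  -- large positive and negative rays
  obtain ⟨M, hM⟩ : ∃ M : ℤ, ∀ m ∈ {m : ℤ | ¬ ((lo m : LH H) ∈ U ↔ 0 ≤ m)}, |m| ≤ M := by
    obtain ⟨M, hM⟩ := (hfin.image (fun m => |m|)).bddAbove
    exact ⟨M, fun m hm => hM ⟨m, hm, rfl⟩⟩
  have hout : ∀ m : ℤ, M < |m| → ((lo m : LH H) ∈ U ↔ 0 ≤ m) := by
    intro m hm
    by_contra h1
    exact absurd (hM m h1) (not_le.2 hm)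
  have hn1 : 1 ≤ |n| := Int.one_le_abs hn
  obtain ⟨K, hK⟩ : ∃ K : ℤ, K = |M| + 1 := ⟨_, rfl⟩
  have hK0 : 0 < K := by
    rw [hK]
    positivity
  have h1 : M < |K * n| := by
    rw [abs_mul, abs_of_pos hK0]
    nlinarith [le_abs_self M]
  have h2 : M < |(-K) * n| := by
    rw [abs_mul, abs_neg, abs_of_pos hK0]
    nlinarith [le_abs_self M]
  have e1 := hkey 0 K
  have e2 := hkey 0 (-K)
  rw [zero_add] at e1 e2
  rw [e1, hout _ h1, hout _ h2] at e2
  rcases lt_or_gt_of_ne hn with h | h
  · have := e2.2 (by nlinarith)
    nlinarith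
  · have := e2.1 (by positivity)
    nlinarith

end LH

end Pool.Agent.CCC
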