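import Pool.Agent.Lib.MP_98022b_cc.ProdLine
import Pool.Agent.Lib.MP_98022b_gln.HullT

/-!
# Groups with a homomorphism which is injective on the stabilizers of the cubes
-/

set_option autoImplicit false

open Set

namespace Pool.Agent.CCC

open Pocset Pool.Agent.FJ

/-- The theorem for free actions. -/
def FreeThm (S : ∀ (G : Type) [Group G], Prop) : Prop :=
  ∀ (G H : Type) [Group G] [Pocset H] [PocAct G H] (o : Set H) [Based G o] (d : ℕ), Width H d →
    (∀ g : G, ∀ U : Set H, IsCube U → (symmDiff U o).Finite → {a | g⁻¹ • a ∈ U} = U → g = 1) →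
    FJHullT S G

section sub

variable {G H : Type} [Group G] [Pocset H] [PocAct G H]

/-- The action of a subgroup. -/
@[reducible] def pocSub (K : Subgroup G) : PocAct K H where
  smul g a := (g : G) • a
  one_smul a := one_smul G a
  mul_smul g h a := mul_smul (g : G) (h : G) a
  smul_le g a b hab := PocAct.smul_le (g : G) a b hab
  smul_op g a := PocAct.smul_op (g : G) a

theorem basedSub (K : Subgroup G) (o : Set H) [hB : Based G o] :
    @Based K H _ _ (pocSub K) o :=
  @Based.mk K H _ _ (pocSub K) o hB.vertex fun g => hB.fin (g : G)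

end sub

/-- Let `f : G → Q` be a homomorphism to a group in the class which is injective on the stabilizers
of the cubes. Then `G` is in the class. -/
theorem mem_of_injOn_stab {S : ∀ (G : Type) [Group G], Prop} (hfree : FreeThm S)
    {G H Q : Type} [Group G] [Group Q] [Pocset H] [PocAct G H] (o : Set H) [hB : Based G o] {d : ℕ}
    (hw : Width H d) (f : G →* Q) (hQ : FJHullT S Q)
    (hf : ∀ g : G, ∀ U : Set H, IsCube U → (symmDiff U o).Finite → {a | g⁻¹ • a ∈ U} = U →
      f g = 1 → g = 1) : FJHullT S G := by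
  refine FJHullT.extension f hQ fun q => ?_
  obtain ⟨K, hK⟩ : ∃ K : Subgroup G, K = (Subgroup.zpowers q).comap f := ⟨_, rfl⟩
  rw [← hK]
  have hKm : ∀ g : K, ∃ n : ℤ, q ^ n = f (g : G) := by
    intro g
    have h1 : (g : G) ∈ (Subgroup.zpowers q).comap f := hK ▸ g.2
    exact Subgroup.mem_zpowers_iff.1 (Subgroup.mem_comap.1 h1)
  by_cases hq : IsOfFinOrder q
  · -- elements of finite order
    have : Finite (Subgroup.zpowers q) := hq.finite_zpowers
    have hfin : Finite (f.comp K.subtype).range := by
      refine Finite.of_injective (β := Subgroup.zpowers q) (fun x => ⟨x.1, ?_⟩) ?_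
      · obtain ⟨y, hy⟩ := x.2
        obtain ⟨n, hn⟩ := hKm y
        rw [← hy]
        exact Subgroup.mem_zpowers_iff.2 ⟨n, hn⟩
      · intro x y hxy
        simp only [Subtype.mk.injEq] at hxy
        exact Subtype.ext hxy
    refine FJHullT.finiteIndex (f.comp K.subtype).ker inferInstance ?_
    letI := pocSub (H := H) K
    haveI := basedSub K o
    letI := pocSub (H := H) (f.comp K.subtype).ker
    haveI := basedSub (f.comp K.subtype).ker o
    refine hfree (f.comp K.subtype).ker H o d hw fun g U hU hUo hgU => ?_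
    have h1 : ((g : K) : G) = 1 := by
      refine hf _ U hU hUo hgU ?_
      exact g.2
    exact Subtype.ext (Subtype.ext h1)
  · -- elements of infinite order: product with the line
    obtain ⟨ψ, hψ⟩ : ∃ ψ : Multiplicative ℤ →* Q, ∀ n, ψ n = q ^ n.toAdd :=
      ⟨zpowersHom Q q, fun n => rfl⟩
    have hinj : Function.Injective ψ := by
      rw [injective_iff_map_eq_one]
      intro n hn
      rw [hψ] at hn
      have h1 : n.toAdd = 0 := by
        by_contra h2
        exact hq (isOfFinOrder_iff_zpow_eq_one.2 ⟨n.toAdd, h2, hn⟩)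
      exact Multiplicative.toAdd.injective h1
    obtain ⟨χ, hχ⟩ : ∃ χ : K →* Multiplicative ℤ, ∀ g : K, f (g : G) = q ^ (χ g).toAdd := by
      let e : Multiplicative ℤ ≃* ψ.range := MonoidHom.ofInjective hinj
      let φ : K →* ψ.range := (f.comp K.subtype).codRestrict ψ.range fun g => by
        obtain ⟨n, hn⟩ := hKm g
        exact ⟨Multiplicative.ofAdd n, by rw [hψ]; exact hn⟩
      refine ⟨e.symm.toMonoidHom.comp φ, fun g => ?_⟩
      have h1 : e (e.symm (φ g)) = φ g := e.apply_symm_apply _
      have h2 : ((e (e.symm (φ g)) : ψ.range) : Q) = f (g : G) := by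
        rw [h1]
        rfl
      rw [← h2, ← hψ]
      rfl
    letI := pocSub (H := H) K
    haveI := basedSub K o
    letI i1 : PocAct K (LH H) := LH.pocAct χ
    haveI : Based K (LH.base o) := LH.based χ
    refine hfree K (LH H) (LH.base o) (d + 1) (LH.width hw) fun g U hU hUo hgU => ?_
    -- the translation is trivial
    have h1 : (χ g⁻¹).toAdd = 0 := by
      refine LH.trans_eq_zero hUo fun m => ?_
      have h2 : (LH.lo m : LH H) ∈ U ↔ (LH.lo m : LH H) ∈ {a | g⁻¹ • a ∈ U} := by rw [hgU]
      exact h2
    have h2 : f g = 1 := by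
      rw [hχ]
      rw [map_inv, toAdd_inv, neg_eq_zero] at h1
      rw [h1, zpow_zero]
    have h3 : ((g : K) : G) = 1 := by
      refine hf _ _ (LH.isCube_fac hU) (LH.finite_fac hUo) ?_ h2
      ext a
      have h4 : (LH.fac a : LH H) ∈ {a | g⁻¹ • a ∈ U} ↔ (LH.fac a : LH H) ∈ U := by rw [hgU]
      exact h4
    exact Subtype.ext h3

end Pool.Agent.CCC
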