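import Pool.Agent.Lib.MP_98022b_cc.Iface
import Pool.Agent.Lib.MP_98022b_cc.Mach4

/-!
# Row DK: the machine with an ambient group

Proof: `Pool.Agent.CCM.transferReducible_of_seqs`.
-/

set_option autoImplicit false

open Set Filter Topology

namespace Pool.Agent.CCC

open Pool.Agent.GLN Pool.Agent.FA

theorem transferReducible_of_seqs {Γ V : Type} [Group Γ] [MulAction Γ V] (G : Subgroup Γ)
    (hfg : Group.FG G) {dV : V → V → ℕ} (_hd : IsDist Γ dV) (𝓕 : Subgroup G → Prop)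
    (k₀ l₀ : ℕ) (hst : StabCond Γ V dV G 𝓕 k₀ l₀) (N₀ n₁ n₂ : ℕ)
    (hgeo : ∀ S : Finset G, (1 : G) ∈ S → ∃ η B A₀ H₀ : ℕ, ∀ H ≥ H₀, ∃ q : ℕ,
      q ≤ 2 ^ 2 ^ (H ^ A₀) ∧ ∃ (X : Type) (_ : TopologicalSpace X), CompactSpace X ∧
      TopologicalSpace.MetrizableSpace X ∧ ContractibleSpace X ∧
      StronglyLocallyContractibleSpace X ∧ CovDimLE X N₀ ∧
      ∃ (θ : HomotopyAction G S X) (cS : Fin n₁ → G → X → V → Prop)
        (D : Fin n₂ → SeqData G X V dV B H q), (∀ j, IsCol (fun _ => True) (cS j)) ∧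
        ∀ g x, (∃ j l, ∀ q ∈ θ.nbhd S.card (g, x), ∀ᶠ y in 𝓝 q.2, cS j q.1 y l) ∨
          ∃ j, (D j).Dom g x ∧
            ∀ q ∈ θ.nbhd S.card (g, x), ∀ᶠ y in 𝓝 q.2, (D j).Sees η g x q.1 y) :
    TransferReducible G 𝓕 := by
  refine CCM.transferReducible_of_seqs (dV := dV) hfg (k₀ := k₀) (l₀ := l₀) ?_ 𝓕 ?_ hst.vx N₀ n₁ n₂ ?_
  · intro T hmono hfin hfar
    exact hst.chain T hfin (fun i => hmono (Nat.le_succ i)) hfar
  · intro T hT hfar t ht K hK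
    refine hst.cyc T hT hfar t (fun j => ⟨fun hj => (ht j hj).1, fun hj => ?_⟩) K hK
    have h1 := (ht _ hj).2
    convert h1 using 1
    group
  · intro S hS
    obtain ⟨η, B, A₀, H₀, h⟩ := hgeo S hS
    refine ⟨η, B, A₀, H₀, fun H hH => ?_⟩
    obtain ⟨q, hq, rest⟩ := h H hH
    refine ⟨q, hq.trans ?_, rest⟩
    exact Nat.pow_le_pow_right (by norm_num) (Nat.pow_le_pow_right (by norm_num)
      Nat.lt_two_pow_self.le)

end Pool.Agent.CCC
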