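import Pool.Agent.Lib.MP_98022b_cc.States
import Pool.Agent.Lib.MP_98022b_cc.Geo
import Pool.Agent.Lib.MP_98022b_gln.GeoIface
import Pool.Agent.Lib.MP_98022b_gln.Track

/-!
# Row CT: the states along a geodesic form a track
-/

set_option autoImplicit false

open Set

namespace Pool.Agent.CCC

open Pocset
open Pool.Agent.GLN (endPt)

variable {H : Type} [Pocset H] {o : Set H}

private theorem t_mem {T s : ℝ} (hs : 0 ≤ s) (hT : s ≤ T) : 0 ≤ 1 - s / T ∧ 1 - s / T ≤ 1 := by
  have h1 : s / T ≤ 1 := div_le_one_of_le₀ hT (hs.trans hT)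
  have h2 : 0 ≤ s / T := div_nonneg hs (hs.trans hT)
  exact ⟨by linarith, by linarith⟩

/-- The values along a geodesic are monotone or antitone. -/
theorem endPt_mono (x y : Pt o) (a : H) :
    (∀ s t, 0 ≤ s → s ≤ t → t ≤ dist x y → endPt geo x y s a ≤ endPt geo x y t a) ∨
    (∀ s t, 0 ≤ s → s ≤ t → t ≤ dist x y → endPt geo x y t a ≤ endPt geo x y s a) := by
  obtain ⟨S, E, h⟩ := exists_bal_geo x y
  have key : ∀ s t, 0 ≤ s → s ≤ t → t ≤ dist x y → 1 - t / dist x y ≤ 1 - s / dist x y := by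
    intro s t _ hst _
    have := div_le_div_of_nonneg_right hst (dist_nonneg (x := x) (y := y))
    linarith
  rcases le_total (geo x y 0 a) (geo x y 1 a) with h1 | h1
  · right
    intro s t hs hst ht
    exact h.mono h1 (t_mem (hs.trans hst) ht).1 (key s t hs hst ht) (t_mem hs (hst.trans ht)).2
  · left
    intro s t hs hst ht
    have h2 : geo x y 0 (op a) ≤ geo x y 1 (op a) := by
      rw [Pt.op_val, Pt.op_val]
      linarith
    have h3 := h.mono h2 (t_mem (hs.trans hst) ht).1 (key s t hs hst ht)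
      (t_mem hs (hst.trans ht)).2
    rw [Pt.op_val, Pt.op_val] at h3
    unfold endPt
    linarith

theorem dist_endPt (x y : Pt o) {s t : ℝ} (hs : 0 ≤ s) (hst : s ≤ t) (ht : t ≤ dist x y) :
    dist (endPt geo x y s) (endPt geo x y t) = t - s := by
  obtain ⟨S, E, h⟩ := exists_bal_geo x y
  unfold endPt
  rw [dist_comm, h.dist_eq (t_mem (hs.trans hst) ht).1 (by
    have := div_le_div_of_nonneg_right hst (dist_nonneg (x := x) (y := y))
    linarith) (t_mem hs (hst.trans ht)).2, geo_zero, geo_one]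
  rcases (dist_nonneg (x := x) (y := y)).eq_or_lt with h0 | h0
  · rw [← h0] at ht ⊢
    rw [mul_zero]
    linarith
  · field_simp
    ring

/-! ### The distance of two states -/

section

variable {x y z : Pt o} {r : ℝ}

private theorem fin_sd (U U' : Cube o) : (symmDiff U.1 U'.1).Finite := by
  have h1 := U.2.2
  have h2 := U'.2.2
  refine (h1.union h2).subset fun a ha => ?_
  rw [mem_symmDiff] at ha
  by_cases h3 : a ∈ o
  · rcases ha with ⟨h4, h5⟩ | ⟨h4, h5⟩
    · exact Or.inr (mem_symmDiff.2 (Or.inr ⟨h3, h5⟩))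
    · exact Or.inl (mem_symmDiff.2 (Or.inr ⟨h3, h5⟩))
  · rcases ha with ⟨h4, h5⟩ | ⟨h4, h5⟩
    · exact Or.inl (mem_symmDiff.2 (Or.inl ⟨h4, h3⟩))
    · exact Or.inr (mem_symmDiff.2 (Or.inl ⟨h4, h3⟩))

/-- If each value changes monotonically then the distances of the states add up. -/
private theorem dC_add (h : ∀ a, (x a ≤ y a ∧ y a ≤ z a) ∨ (z a ≤ y a ∧ y a ≤ x a)) :
    dC (st r x) (st r z) = dC (st r x) (st r y) + dC (st r y) (st r z) := by
  unfold dC
  rw [← Set.ncard_union_eq ?_ (fin_sd _ _) (fin_sd _ _)]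
  · congr 1
    ext a
    rw [mem_union, mem_symmDiff, mem_symmDiff, mem_symmDiff]
    change (thr r < x a ∧ ¬ thr r < z a ∨ thr r < z a ∧ ¬ thr r < x a) ↔
      (thr r < x a ∧ ¬ thr r < y a ∨ thr r < y a ∧ ¬ thr r < x a) ∨
      (thr r < y a ∧ ¬ thr r < z a ∨ thr r < z a ∧ ¬ thr r < y a)
    simp only [not_lt]
    rcases h a with ⟨h1, h2⟩ | ⟨h1, h2⟩
    · constructor
      · rintro (⟨h3, h4⟩ | ⟨h3, h4⟩)
        · linarith
        · rcases lt_or_ge (thr r) (y a) with h5 | h5
          · exact Or.inl (Or.inr ⟨h5, h4⟩)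
          · exact Or.inr (Or.inr ⟨h3, h5⟩)
      · rintro ((⟨h3, h4⟩ | ⟨h3, h4⟩) | (⟨h3, h4⟩ | ⟨h3, h4⟩))
        · linarith
        · exact Or.inr ⟨by linarith, h4⟩
        · linarith
        · exact Or.inr ⟨h3, by linarith⟩
    · constructor
      · rintro (⟨h3, h4⟩ | ⟨h3, h4⟩)
        · rcases lt_or_ge (thr r) (y a) with h5 | h5
          · exact Or.inr (Or.inl ⟨h5, h4⟩)
          · exact Or.inl (Or.inl ⟨h3, h5⟩)
        · linarith
      · rintro ((⟨h3, h4⟩ | ⟨h3, h4⟩) | (⟨h3, h4⟩ | ⟨h3, h4⟩))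
        · exact Or.inl ⟨h3, by linarith⟩
        · linarith
        · exact Or.inl ⟨by linarith, h4⟩
        · linarith
  · rw [Set.disjoint_left]
    intro a ha ha'
    rw [mem_symmDiff] at ha ha'
    change thr r < x a ∧ ¬ thr r < y a ∨ thr r < y a ∧ ¬ thr r < x a at ha
    change thr r < y a ∧ ¬ thr r < z a ∨ thr r < z a ∧ ¬ thr r < y a at ha'
    simp only [not_lt] at ha ha'
    rcases h a with ⟨h1, h2⟩ | ⟨h1, h2⟩
    · rcases ha with ⟨h3, h4⟩ | ⟨h3, h4⟩ <;> rcases ha' with ⟨h5, h6⟩ | ⟨h5, h6⟩ <;> linarith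
    · rcases ha with ⟨h3, h4⟩ | ⟨h3, h4⟩ <;> rcases ha' with ⟨h5, h6⟩ | ⟨h5, h6⟩ <;> linarith

private theorem dC_upper {d : ℕ} (hw : Width H d) (x y : Pt o) :
    (dC (st r x) (st r y) : ℝ) ≤ 2 * (d * (dist x y + 2)) := by
  have h1 : dC (st r x) (st r y) ≤ ({a | x a < y a} : Set H).ncard + ({a | y a < x a} : Set H).ncard
      := by
    unfold dC
    have hf1 : ({a | x a < y a} : Set H).Finite :=
      (Pt.finite_ne x y).subset fun a (h : x a < y a) => ne_of_lt h
    have hf2 : ({a | y a < x a} : Set H).Finite :=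
      (Pt.finite_ne x y).subset fun a (h : y a < x a) => ne_of_gt h
    refine le_trans (Set.ncard_le_ncard ?_ (hf1.union hf2)) (Set.ncard_union_le _ _)
    intro a ha
    rw [mem_symmDiff] at ha
    change thr r < x a ∧ ¬ thr r < y a ∨ thr r < y a ∧ ¬ thr r < x a at ha
    simp only [not_lt] at ha
    rcases ha with ⟨h3, h4⟩ | ⟨h3, h4⟩
    · exact Or.inr (lt_of_le_of_lt h4 h3)
    · exact Or.inl (lt_of_le_of_lt h4 h3)
  have h2 := ncard_lt_le hw x y
  have h3 := ncard_lt_le hw y x
  rw [dist_comm y x] at h3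
  have h4 : (dC (st r x) (st r y) : ℝ) ≤ (({a | x a < y a} : Set H).ncard : ℝ) +
      (({a | y a < x a} : Set H).ncard : ℝ) := by exact_mod_cast h1
  linarith

/-- The number of the thresholds which a value crosses. -/
private noncomputable def nC (r u v : ℝ) : ℕ :=
  (if u ≤ thr r ∧ thr r < v then 1 else 0) + (if u < 1 - thr r ∧ 1 - thr r ≤ v then 1 else 0)

private theorem sum_nC_le (x y : Pt o) {c : Finset H} (hc : Ch c) :
    ∑ a ∈ c, nC r (x a) (y a) ≤ dC (st r x) (st r y) := by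
  classical
  unfold nC
  rw [Finset.sum_add_distrib, ← Finset.card_filter, ← Finset.card_filter]
  have hinj : Function.Injective (op : H → H) := fun a b h => by
    rw [← op_op a, h, op_op]
  rw [← Finset.card_image_of_injective (c.filter fun a => x a < 1 - thr r ∧ 1 - thr r ≤ y a) hinj]
  rw [← Finset.card_union_of_disjoint]
  · unfold dC
    rw [← Set.ncard_coe_finset]
    refine Set.ncard_le_ncard ?_ (fin_sd _ _)
    intro a ha
    rw [Finset.mem_coe, Finset.mem_union, Finset.mem_filter, Finset.mem_image] at ha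
    rw [mem_symmDiff]
    change thr r < x a ∧ ¬ thr r < y a ∨ thr r < y a ∧ ¬ thr r < x a
    simp only [not_lt]
    rcases ha with ⟨_, h1, h2⟩ | ⟨b, hb, rfl⟩
    · exact Or.inr ⟨h2, h1⟩
    · rw [Finset.mem_filter] at hb
      obtain ⟨_, h1, h2⟩ := hb
      rw [Pt.op_val, Pt.op_val]
      exact Or.inl ⟨by linarith, by linarith⟩
  · rw [Finset.disjoint_left]
    intro a ha hb
    rw [Finset.mem_image] at hb
    obtain ⟨b, hb, rfl⟩ := hb
    have h1 : op b ∈ (c : Set H) := Finset.mem_coe.2 (Finset.mem_filter.1 ha).1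
    have h2 : b ∈ (c : Set H) := Finset.mem_coe.2 (Finset.mem_filter.1 hb).1
    rcases hc.total h1 h2 with h3 | h3
    · have h4 := not_le_op (op b)
      rw [op_op] at h4
      exact h4 h3
    · exact not_le_op b h3

private theorem lower_one (ρ u v : ℝ) (hρ : 0 < ρ ∧ ρ < 1 / 2) (hu : 0 ≤ u) (huv : u < v)
    (hv : v ≤ 1) (h : u = 0 ∨ v = 1) :
    v - u ≤ (((if u ≤ ρ ∧ ρ < v then 1 else 0) + (if u < 1 - ρ ∧ 1 - ρ ≤ v then 1 else 0) : ℕ) : ℝ)
      + ρ * ((if v ≠ 1 then 1 else 0) + (if u ≠ 0 then 1 else 0)) := by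
  obtain ⟨h1, h2⟩ := hρ
  rcases h with h | h
  · subst h
    by_cases h3 : v = 1
    · subst h3
      rw [if_pos ⟨by linarith, by linarith⟩, if_pos ⟨by linarith, by linarith⟩]
      simp
    · rw [if_pos h3, if_neg (show ¬ ((0 : ℝ) ≠ 0) by simp)]
      rcases le_or_gt v ρ with h4 | h4
      · rw [if_neg (show ¬ ((0 : ℝ) ≤ ρ ∧ ρ < v) from fun h => by linarith [h.2]),
          if_neg (show ¬ ((0 : ℝ) < 1 - ρ ∧ 1 - ρ ≤ v) from fun h => by linarith [h.2])]
        push_cast
        linarith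
      · rw [if_pos (show ((0 : ℝ) ≤ ρ ∧ ρ < v) from ⟨h1.le, h4⟩)]
        rcases lt_or_ge v (1 - ρ) with h5 | h5
        · rw [if_neg (show ¬ ((0 : ℝ) < 1 - ρ ∧ 1 - ρ ≤ v) from fun h => by linarith [h.2])]
          push_cast
          linarith
        · rw [if_pos (show ((0 : ℝ) < 1 - ρ ∧ 1 - ρ ≤ v) from ⟨by linarith, h5⟩)]
          push_cast
          linarith
  · subst h
    by_cases h3 : u = 0
    · subst h3
      rw [if_pos ⟨by linarith, by linarith⟩, if_pos ⟨by linarith, by linarith⟩]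
      simp
    · rw [if_neg (show ¬ ((1 : ℝ) ≠ 1) by simp), if_pos h3]
      rcases lt_or_ge u (1 - ρ) with h4 | h4
      · rw [if_pos (show (u < 1 - ρ ∧ 1 - ρ ≤ 1) from ⟨h4, by linarith⟩)]
        rcases le_or_gt u ρ with h5 | h5
        · rw [if_pos (show (u ≤ ρ ∧ ρ < 1) from ⟨h5, by linarith⟩)]
          push_cast
          linarith
        · rw [if_neg (show ¬ (u ≤ ρ ∧ ρ < 1) from fun h => by linarith [h.1])]
          push_cast
          linarith
      · rw [if_neg (show ¬ (u < 1 - ρ ∧ 1 - ρ ≤ 1) from fun h => by linarith [h.1]),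
          if_neg (show ¬ (u ≤ ρ ∧ ρ < 1) from fun h => by linarith [h.1])]
        push_cast
        linarith

private theorem dC_lower (x y : Pt o) : dist x y - 1 ≤ dC (st r x) (st r y) := by
  classical
  obtain ⟨c, hc, hlt, hsum⟩ := exists_chain x y
  have key : ∀ a ∈ c, ∀ b ∈ c, a < b → x a = 0 ∧ y b = 1 := by
    intro a ha b hb hab
    constructor
    · rcases x.nested a b hab with h | h
      · exact h
      · have h1 := hlt b hb
        have h2 := y.le_one b
        change y b ≤ 1 at h2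
        change x b = 1 at h
        linarith
    · rcases y.nested a b hab with h | h
      · have h1 := hlt a ha
        have h2 := x.nonneg a
        change 0 ≤ x a at h2
        change y a = 0 at h
        linarith
      · exact h
  by_cases h1 : c.card ≤ 1
  · have h2 : dist x y ≤ 1 := by
      rw [← hsum]
      calc ∑ a ∈ c, (y a - x a) ≤ ∑ a ∈ c, (1 : ℝ) := by
            refine Finset.sum_le_sum fun a _ => ?_
            have h2 := y.le_one a
            have h3 := x.nonneg a
            change y a ≤ 1 at h2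
            change 0 ≤ x a at h3
            linarith
        _ = (c.card : ℝ) := by simp
        _ ≤ 1 := by exact_mod_cast h1
    have h3 : (0 : ℝ) ≤ dC (st r x) (st r y) := Nat.cast_nonneg _
    linarith
  · have h2 : ∀ a ∈ c, x a = 0 ∨ y a = 1 := by
      intro a ha
      obtain ⟨b, hb, hab⟩ := Finset.exists_mem_ne (by omega : 1 < c.card) a
      rcases hc.total (Finset.mem_coe.2 ha) (Finset.mem_coe.2 hb) with h3 | h3
      · exact Or.inl (key a ha b hb (lt_of_le_of_ne h3 (Ne.symm hab))).1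
      · exact Or.inr (key b hb a ha (lt_of_le_of_ne h3 hab)).2
    have h3 : ∑ a ∈ c, (if y a ≠ 1 then (1 : ℝ) else 0) ≤ 1 := by
      rw [← Finset.sum_filter, Finset.sum_const, nsmul_eq_mul, mul_one]
      have : (c.filter fun a => y a ≠ 1).card ≤ 1 := by
        rw [Finset.card_le_one]
        intro a ha b hb
        rw [Finset.mem_filter] at ha hb
        rcases hc.total (Finset.mem_coe.2 ha.1) (Finset.mem_coe.2 hb.1) with h3 | h3
        · rcases h3.eq_or_lt with h3 | h3
          · exact h3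
          · exact absurd (key a ha.1 b hb.1 h3).2 hb.2
        · rcases h3.eq_or_lt with h3 | h3
          · exact h3.symm
          · exact absurd (key b hb.1 a ha.1 h3).2 ha.2
      exact_mod_cast this
    have h4 : ∑ a ∈ c, (if x a ≠ 0 then (1 : ℝ) else 0) ≤ 1 := by
      rw [← Finset.sum_filter, Finset.sum_const, nsmul_eq_mul, mul_one]
      have : (c.filter fun a => x a ≠ 0).card ≤ 1 := by
        rw [Finset.card_le_one]
        intro a ha b hb
        rw [Finset.mem_filter] at ha hb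
        rcases hc.total (Finset.mem_coe.2 ha.1) (Finset.mem_coe.2 hb.1) with h3 | h3
        · rcases h3.eq_or_lt with h3 | h3
          · exact h3
          · exact absurd (key a ha.1 b hb.1 h3).1 ha.2
        · rcases h3.eq_or_lt with h3 | h3
          · exact h3.symm
          · exact absurd (key b hb.1 a ha.1 h3).1 hb.2
      exact_mod_cast this
    have h5 : ∑ a ∈ c, (y a - x a) ≤ ∑ a ∈ c, ((nC r (x a) (y a) : ℝ) +
        thr r * ((if y a ≠ 1 then (1 : ℝ) else 0) + (if x a ≠ 0 then (1 : ℝ) else 0))) := by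
      refine Finset.sum_le_sum fun a ha => ?_
      have := lower_one (thr r) (x a) (y a) (thr_pos r) (x.nonneg a) (hlt a ha) (y.le_one a)
        (h2 a ha)
      unfold nC
      exact this
    rw [hsum, Finset.sum_add_distrib, ← Finset.mul_sum, Finset.sum_add_distrib] at h5
    have h6 : ∑ a ∈ c, (nC r (x a) (y a) : ℝ) ≤ dC (st r x) (st r y) := by
      have := sum_nC_le (r := r) x y hc
      exact_mod_cast this
    obtain ⟨h7, h8⟩ := thr_pos r
    nlinarith

end

private theorem add_endPt (x y : Pt o) (r : ℝ) {s t u : ℝ} (hs : 0 ≤ s) (hst : s ≤ t)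
    (htu : t ≤ u) (hu : u ≤ dist x y) :
    dC (st r (endPt geo x y s)) (st r (endPt geo x y u)) =
      dC (st r (endPt geo x y s)) (st r (endPt geo x y t)) +
      dC (st r (endPt geo x y t)) (st r (endPt geo x y u)) := by
  apply dC_add
  intro a
  rcases endPt_mono x y a with h | h
  · exact Or.inl ⟨h s t hs hst (htu.trans hu), h t u (hs.trans hst) htu hu⟩
  · exact Or.inr ⟨h t u (hs.trans hst) htu hu, h s t hs hst (htu.trans hu)⟩

theorem exists_isTrack {d : ℕ} (hw : Width H d) (r : ℝ) (x y : Pt o) (T : ℝ)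
    (hT : T ≤ dist x y) : ∃ κ : ℝ → ℤ,
    Pool.Agent.TR.IsTrack (fun p q => (dC p q : ℤ)) (6 * d) T (fun s => st r (endPt geo x y s)) κ := by
  set u : ℝ → Cube o := fun s => st r (endPt geo x y s) with hu
  have hself : ∀ U : Cube o, dC U U = 0 := fun U => by
    unfold dC
    rw [symmDiff_self]
    exact Set.ncard_empty _
  have hcomm : ∀ U U' : Cube o, dC U U' = dC U' U := fun U U' => by
    unfold dC
    rw [symmDiff_comm]
  have hκ : ∀ s t, 0 ≤ s → s ≤ t → t ≤ T →
      ((dC (u 0) (u t) : ℕ) : ℤ) - ((dC (u 0) (u s) : ℕ) : ℤ) = (dC (u s) (u t) : ℤ) := by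
    intro s t hs hst ht
    have h := add_endPt x y r le_rfl hs hst (ht.trans hT)
    change dC (u 0) (u t) = dC (u 0) (u s) + dC (u s) (u t) at h
    rw [h]
    push_cast
    ring
  refine ⟨fun s => (dC (u 0) (u s) : ℤ), ?_, ?_, ?_, ?_, ?_⟩
  · intro s hs t ht hst
    have h := hκ s t hs.1 hst ht.2
    have h2 : (0 : ℤ) ≤ (dC (u s) (u t) : ℤ) := Int.natCast_nonneg _
    show (dC (u 0) (u s) : ℤ) ≤ (dC (u 0) (u t) : ℤ)
    linarith
  · intro s hs t ht
    show (dC (u s) (u t) : ℤ) = |(dC (u 0) (u s) : ℤ) - (dC (u 0) (u t) : ℤ)|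
    rcases le_total s t with hst | hst
    · rw [abs_sub_comm, hκ s t hs.1 hst ht.2, abs_of_nonneg (Int.natCast_nonneg _)]
    · rw [hκ t s ht.1 hst hs.2, abs_of_nonneg (Int.natCast_nonneg _), hcomm]
  · intro s hs t ht h
    change (dC (u 0) (u s) : ℤ) = (dC (u 0) (u t) : ℤ) at h
    have h2 : dC (u s) (u t) = 0 := by
      rcases le_total s t with hst | hst
      · have := hκ s t hs.1 hst ht.2
        rw [h, sub_self] at this
        exact_mod_cast this.symm
      · have := hκ t s ht.1 hst hs.2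
        rw [h, sub_self] at this
        rw [hcomm]
        exact_mod_cast this.symm
    unfold dC at h2
    rw [Set.ncard_eq_zero (fin_sd _ _)] at h2
    exact Subtype.ext (symmDiff_eq_bot.1 h2)
  · intro s hs t ht hst
    have h := hκ s t hs.1 hst ht.2
    have h2 := dC_lower (r := r) (endPt geo x y s) (endPt geo x y t)
    rw [dist_endPt x y hs.1 hst (ht.2.trans hT)] at h2
    have h3 : (((dC (u 0) (u t) : ℕ) : ℤ) : ℝ) - (((dC (u 0) (u s) : ℕ) : ℤ) : ℝ) =
        ((dC (u s) (u t) : ℤ) : ℝ) := by exact_mod_cast h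
    rw [h3]
    exact_mod_cast h2
  · intro s hs t ht hst
    have h := hκ s t hs.1 hst ht.2
    show (dC (u 0) (u t) : ℤ) - (dC (u 0) (u s) : ℤ) ≤ ((6 * d : ℕ) : ℤ) * ⌈t - s⌉
    rw [h]
    rcases hst.eq_or_lt with rfl | hlt
    · rw [hself]
      simp
    · have h2 := dC_upper (r := r) hw (endPt geo x y s) (endPt geo x y t)
      rw [dist_endPt x y hs.1 hst (ht.2.trans hT)] at h2
      have h3 : (1 : ℤ) ≤ ⌈t - s⌉ := by
        rw [Int.one_le_ceil_iff]
        linarith
      have h4 : t - s ≤ ⌈t - s⌉ := Int.le_ceil _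
      have h5 : (1 : ℝ) ≤ (⌈t - s⌉ : ℝ) := by exact_mod_cast h3
      have h6 : (0 : ℝ) ≤ (d : ℝ) := Nat.cast_nonneg _
      have h7 : ((dC (u s) (u t) : ℕ) : ℝ) ≤ ((6 * d : ℕ) : ℝ) * (⌈t - s⌉ : ℝ) := by
        refine h2.trans ?_
        push_cast
        nlinarith
      exact_mod_cast h7

end Pool.Agent.CCC
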